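import Pool.Agent.Lib.IT.Blue

/-! Block CFG: the configuration group is closed and shift invariant. -/

namespace Pool.Agent.Lib.IT

theorem stCFG : St_CFG := by
  classical
  intro C W _ _ D Γ _ gen I
  refine ⟨fun ω hω => hω.1, fun ω hω γ => ⟨fun g c w => ?_, fun n ι hι => ?_⟩,
    fun ω hω => ⟨fun g c w => ?_, fun n ι hι => ?_⟩⟩
  · have := hω.1 (γ * g) c w
    simpa only [mul_assoc] using this
  · exact hω.2 n (fun a => γ * ι a) fun a c => by
      simp only [hι a c, mul_assoc]
  · obtain ⟨ω', h', hs⟩ := hω {g, g * gen (c, w)}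
    rw [← hs g (by simp), ← hs (g * gen (c, w)) (by simp)]
    exact h'.1 g c w
  · obtain ⟨ω', h', hs⟩ := hω (Finset.univ.image ι)
    have e : (fun e : Fin (D.N n) × C => ω (ι e.1) (e.2, true)) =
        fun e : Fin (D.N n) × C => ω' (ι e.1) (e.2, true) := by
      funext e
      rw [hs (ι e.1) (Finset.mem_image_of_mem _ (Finset.mem_univ _))]
    rw [e]
    exact h'.2 n ι hι

end Pool.Agent.Lib.IT
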