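import Pool.Agent.Lib.IT.Blue

/-! LIM: the limit of the powers is a projection of the reduced algebra. -/

namespace Pool.Agent.Lib.IT

open Finset Filter Topology

namespace LIM

variable {G : Type} [Group G]

theorem two_pos' : 0 < (2 : ENNReal).toReal := by norm_num

theorem hasSum_sq (ξ : L2 G) : HasSum (fun x => ξ x ^ 2) (‖ξ‖ ^ 2) := by
  have h := lp.hasSum_norm two_pos' ξ
  simpa [Real.rpow_two, sq_abs] using h

theorem mem_shift (g : G) (ξ : L2 G) : Memℓp (fun x => ξ (g⁻¹ * x)) 2 := by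
  refine memℓp_gen ?_
  have h := (lp.hasSum_norm two_pos' ξ).summable
  exact (Equiv.mulLeft g⁻¹).summable_iff.mpr h

/-- left translation as a linear map -/
def lamL (g : G) : L2 G →ₗ[ℝ] L2 G where
  toFun ξ := ⟨fun x => ξ (g⁻¹ * x), mem_shift g ξ⟩
  map_add' _ _ := rfl
  map_smul' _ _ := rfl

theorem norm_lamL (g : G) (ξ : L2 G) : ‖lamL g ξ‖ = ‖ξ‖ := by
  have h1 := hasSum_sq (lamL g ξ)
  have h2 : HasSum (fun x => ξ (g⁻¹ * x) ^ 2) (‖ξ‖ ^ 2) :=
    (Equiv.mulLeft g⁻¹).hasSum_iff.mpr (hasSum_sq ξ)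
  exact (pow_left_inj₀ (norm_nonneg _) (norm_nonneg _) two_ne_zero).mp (h1.unique h2)

/-- left translation -/
noncomputable def lam (g : G) : L2 G →L[ℝ] L2 G :=
  (lamL g).mkContinuous 1 fun ξ => by rw [norm_lamL, one_mul]

theorem lam_apply (g : G) (ξ : L2 G) (x : G) : lam g ξ x = ξ (g⁻¹ * x) := rfl

/-- the left regular representation -/
noncomputable def lamHom : G →* (L2 G →L[ℝ] L2 G) where
  toFun := lam
  map_one' := by
    ext ξ x
    simp [lam_apply]
  map_mul' g h := by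
    ext ξ x
    simp [lam_apply, mul_assoc]

theorem star_lam (g : G) : star (lam g) = lam g⁻¹ := by
  symm
  rw [ContinuousLinearMap.star_eq_adjoint, ContinuousLinearMap.eq_adjoint_iff]
  intro ξ η
  rw [lp.inner_eq_tsum, lp.inner_eq_tsum, ← (Equiv.mulLeft g⁻¹).tsum_eq]
  refine tsum_congr fun x => ?_
  simp [lam_apply]

/-- the left regular representation of the group algebra -/
noncomputable def Lam : MonoidAlgebra ℝ G →ₐ[ℝ] (L2 G →L[ℝ] L2 G) :=
  MonoidAlgebra.lift ℝ _ G lamHom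

theorem Lam_single (g : G) (r : ℝ) : Lam (MonoidAlgebra.single g r) = r • lam g :=
  MonoidAlgebra.lift_single _ _ _

theorem Lam_eq (a : MonoidAlgebra ℝ G) : Lam a = ∑ g ∈ a.coeff.support, a.coeff g • lam g :=
  MonoidAlgebra.lift_apply _ _

theorem Lam_mem (a : MonoidAlgebra ℝ G) : Lam a ∈ Submodule.span ℝ
    {T : L2 G →L[ℝ] L2 G | ∃ g : G, ∀ (ξ : L2 G) (x : G), T ξ x = ξ (g⁻¹ * x)} := by
  rw [Lam_eq]
  exact Submodule.sum_mem _ fun g _ => Submodule.smul_mem _ _
    (Submodule.subset_span ⟨g, lam_apply g⟩)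

theorem Lam_sa (a : MonoidAlgebra ℝ G) (h : ∀ x, a.coeff x⁻¹ = a.coeff x) :
    IsSelfAdjoint (Lam a) := by
  rw [IsSelfAdjoint, Lam_eq, star_sum]
  refine Finset.sum_bij' (fun g _ => g⁻¹) (fun g _ => g⁻¹) ?_ ?_ ?_ ?_ ?_
  · intro g hg
    simpa [h] using hg
  · intro g hg
    simpa [h] using hg
  · simp
  · simp
  · intro g _
    rw [star_smul, star_lam, h, star_trivial]

/-- finitely supported vectors -/
noncomputable def emb (ξ : MonoidAlgebra ℝ G) : L2 G :=
  ⟨fun x => ξ.coeff x, (memℓp_zero (ξ.coeff.hasFiniteSupport)).of_exponent_ge (by norm_num)⟩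

theorem emb_apply (ξ : MonoidAlgebra ℝ G) (x : G) : emb ξ x = ξ.coeff x := rfl

theorem norm_emb (ξ : MonoidAlgebra ℝ G) : ‖emb ξ‖ ^ 2 = ξ.coeff.sum fun _ r => r ^ 2 := by
  refine (hasSum_sq (emb ξ)).unique ?_
  refine hasSum_sum_of_ne_finset_zero fun x hx => ?_
  rw [emb_apply, Finsupp.notMem_support_iff.mp hx]
  norm_num

theorem Lam_emb (a ξ : MonoidAlgebra ℝ G) : Lam a (emb ξ) = emb (a * ξ) := by
  induction a using MonoidAlgebra.induction_linear with
  | zero => ext x; simp [emb_apply]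
  | add a b ha hb =>
    ext x
    rw [map_add, ContinuousLinearMap.add_apply, ha, hb, add_mul]
    rfl
  | single g r =>
    ext x
    rw [Lam_single, emb_apply, MonoidAlgebra.coeff_single_mul_apply]
    rfl

open scoped Classical in
theorem emb_single (g : G) (r : ℝ) : emb (MonoidAlgebra.single g r) = lp.single 2 g r := by
  ext x
  rw [emb_apply, lp.single_apply, MonoidAlgebra.coeff_single, Finsupp.single_eq_pi_single]

theorem emb_sum (s : Finset G) (f : G → MonoidAlgebra ℝ G) :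
    emb (∑ g ∈ s, f g) = ∑ g ∈ s, emb (f g) := by
  ext x
  rw [emb_apply, MonoidAlgebra.coeff_sum, Finsupp.finset_sum_apply, lp.coeFn_sum,
    Finset.sum_apply]
  rfl

theorem dense_emb : DenseRange (emb (G := G)) := by
  classical
  intro ξ
  refine mem_closure_of_tendsto (lp.hasSum_single (by norm_num) ξ) (Eventually.of_forall fun s => ?_)
  exact ⟨∑ g ∈ s, MonoidAlgebra.single g (ξ g), by simp only [emb_sum, emb_single]⟩

theorem norm_Lam_le (b : MonoidAlgebra ℝ G) (c : ℝ) (hc : 0 ≤ c)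
    (h : ∀ ξ : MonoidAlgebra ℝ G,
      ((b * ξ).coeff.sum fun _ r => r ^ 2) ≤ c ^ 2 * ξ.coeff.sum fun _ r => r ^ 2) :
    ‖Lam b‖ ≤ c := by
  refine ContinuousLinearMap.opNorm_le_bound _ hc fun ξ => ?_
  refine dense_emb.induction_on (p := fun ξ => ‖Lam b ξ‖ ≤ c * ‖ξ‖) ξ
    (isClosed_le (by fun_prop) (by fun_prop)) fun η => ?_
  have h1 := h η
  rw [← norm_emb, ← norm_emb, ← mul_pow] at h1
  rw [Lam_emb]
  exact (pow_le_pow_iff_left₀ (norm_nonneg _) (by positivity) two_ne_zero).mp h1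

theorem tr_Lam (b : MonoidAlgebra ℝ G) : tr (Lam b) = b.coeff 1 := by
  rw [tr, ← emb_single, Lam_emb, emb_apply, ← MonoidAlgebra.one_def, mul_one]

theorem continuous_tr : Continuous (tr (G := G)) := by
  unfold tr
  exact (lp.lipschitzWith_one_eval 2 (1 : G)).continuous.comp (by fun_prop)

end LIM

open LIM in
theorem stLIM : St_LIM := by
  intro G _ a ρ h0 h1 hs hb
  have hr : Tendsto (fun m : ℕ => 2 * √ρ ^ m) atTop (𝓝 0) := by
    have := (tendsto_pow_atTop_nhds_zero_of_lt_one (Real.sqrt_nonneg ρ)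
      ((Real.sqrt_lt' one_pos).mpr (by simpa using h1))).const_mul 2
    simpa using this
  have hc : CauchySeq fun m : ℕ => Lam (a ^ m) := by
    refine cauchySeq_of_le_tendsto_0' _ (fun m m' hm => ?_) hr
    rw [dist_eq_norm, ← map_sub]
    refine norm_Lam_le _ _ (by positivity) fun ξ => ?_
    rw [sub_mul, mul_pow, ← pow_mul, mul_comm m 2, pow_mul, Real.sq_sqrt h0]
    convert hb ξ m m' hm using 2
    norm_num
  obtain ⟨p, hp⟩ := cauchySeq_tendsto_of_complete hc
  refine ⟨p, mem_closure_of_tendsto hp (Eventually.of_forall fun m => Lam_mem _), ?_, ?_, ?_⟩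
  · have h2 : Tendsto (fun m : ℕ => Lam (a ^ (m + m))) atTop (𝓝 p) :=
      hp.comp (tendsto_atTop_mono (fun m => Nat.le_add_right m m) tendsto_id)
    refine tendsto_nhds_unique (hp.mul hp) ?_
    simpa only [pow_add, map_mul] using h2
  · have h2 : Tendsto (fun m : ℕ => star (Lam (a ^ m))) atTop (𝓝 (star p)) := hp.star
    refine tendsto_nhds_unique h2 ?_
    have h3 : ∀ m : ℕ, star (Lam (a ^ m)) = Lam (a ^ m) := fun m => by
      rw [map_pow]
      exact ((Lam_sa a hs).pow m).star_eq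
    simpa only [h3] using hp
  · have h2 := (continuous_tr.tendsto p).comp hp
    simpa only [Function.comp_def, tr_Lam] using h2

end Pool.Agent.Lib.IT
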