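import Pool.Agent.Lib.IT.Blue

/-! Block PRO: the projection and its trace. -/

namespace Pool.Agent.Lib.IT

open Finset MeasureTheory Filter

/-- the two analytic inputs for the limit of the powers of `aX h` -/
theorem pro_core (hALG : St_ALG) (hPAR : St_PAR) (C W : Type) [Fintype C] [Fintype W]
    [AddCommGroup W] (Γ : Type) [Group Γ]
    (gen : C × W → Γ) (X : AddSubgroup (Γ → C × Bool → W)) (h : Cfg gen X)
    (m : MeasurableSpace X) (μ : Measure X) (ρ : ℝ) (h2 : ∀ w : W, w + w = 0) (hμ : Haar X m μ)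
    (h0 : 0 ≤ ρ) (h1 : ρ < 1) (hc : ∀ ω, Converges (sig h ω) ρ)
    (hint : Integrable (fun ω => 1 / ((orb (sig h ω) 1).ncard : ℝ)) μ) :
    (∀ x, (aX h).coeff x⁻¹ = (aX h).coeff x) ∧
    (∀ (ξ : MonoidAlgebra ℝ (Gg h)) (k k' : ℕ), k ≤ k' →
      ((aX h ^ k * ξ - aX h ^ k' * ξ).coeff.sum fun _ r => r ^ 2) ≤
        4 * ρ ^ k * ξ.coeff.sum fun _ r => r ^ 2) ∧
    Tendsto (fun k : ℕ => (aX h ^ k).coeff 1) atTop
      (nhds (∫ ω, 1 / ((orb (sig h ω) 1).ncard : ℝ) ∂μ)) := by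
  classical
  obtain ⟨-, hsym, hsub, hmul, hone⟩ := hALG C W Γ gen X h h2
  have hP := hPAR C W Γ gen X h m μ hμ
  have := hμ.prob
  have hpow : ∀ (k : ℕ) (ξ : MonoidAlgebra ℝ (Gg h)) (ω : X),
      hat h (aX h ^ k * ξ) ω = (lazy (sig h ω))^[k] (hat h ξ ω) := by
    intro k ξ ω
    induction k with
    | zero => simp
    | succ k ih => rw [pow_succ', mul_assoc, hmul, ih, Function.iterate_succ_apply']
  refine ⟨hsym, fun ξ k k' hk => ?_, ?_⟩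
  · obtain ⟨-, -, s, hs, hs'⟩ := hP ξ
    obtain ⟨-, -, t, -, ht'⟩ := hP (aX h ^ k * ξ - aX h ^ k' * ξ)
    obtain ⟨i1, e1⟩ := hs' s subset_rfl
    obtain ⟨i2, e2⟩ := ht' t subset_rfl
    rw [← e1, ← e2, ← integral_const_mul]
    refine integral_mono i2 (i1.const_mul _) fun ω => ?_
    have := (hc ω).1 (hat h ξ ω) s t k k' (hs ω) hk
    simpa only [hsub, hpow] using this
  · have hb : ∀ k : ℕ, ‖(aX h ^ k).coeff 1 - ∫ ω, 1 / ((orb (sig h ω) 1).ncard : ℝ) ∂μ‖ ≤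
        Real.sqrt ρ ^ k := by
      intro k
      obtain ⟨i1, e1, -⟩ := hP (aX h ^ k)
      rw [← e1, ← integral_sub i1 hint]
      have hb := norm_integral_le_of_norm_le_const (μ := μ)
        (f := fun ω => hat h (aX h ^ k) ω 1 - 1 / ((orb (sig h ω) 1).ncard : ℝ))
        (C := Real.sqrt ρ ^ k) (Eventually.of_forall fun ω => ?_)
      · simpa using hb
      · have e : hat h (aX h ^ k) ω = (lazy (sig h ω))^[k] (fun g => if g = 1 then 1 else 0) := by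
          rw [← hone ω, ← hpow, mul_one]
        have := (hc ω).2 1 k
        rw [Real.norm_eq_abs, e]
        refine abs_le_of_sq_le_sq' ?_ (by positivity) |> abs_le.2
        rw [← pow_mul, mul_comm k 2, pow_mul, Real.sq_sqrt h0]
        convert this
    rw [tendsto_iff_norm_sub_tendsto_zero]
    refine squeeze_zero (fun _ => norm_nonneg _) hb ?_
    refine tendsto_pow_atTop_nhds_zero_of_lt_one (Real.sqrt_nonneg _) ?_
    rw [Real.sqrt_lt' one_pos]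
    simpa using h1

theorem stPRO (hALG : St_ALG) (hPAR : St_PAR) (hLIM : St_LIM) : St_PRO := by
  intro C W _ _ _ Γ _ gen X h m μ ρ h2 hμ h0 h1 hc hint
  obtain ⟨a1, a2, a3⟩ := pro_core hALG hPAR C W Γ gen X h m μ ρ h2 hμ h0 h1 hc hint
  obtain ⟨p, hp, hpp, hsa, ht⟩ := hLIM (Gg h) (aX h) ρ h0 h1 a1 a2
  exact ⟨p, hp, hpp, hsa, tendsto_nhds_unique ht a3⟩

/-- the same with the operator norm limit exported -/
theorem stPRO2 (hALG : St_ALG) (hPAR : St_PAR)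
    (hLIM : ∀ (G : Type) [Group G] (a : MonoidAlgebra ℝ G) (ρ : ℝ), 0 ≤ ρ → ρ < 1 →
      (∀ x, a.coeff x⁻¹ = a.coeff x) →
      (∀ (ξ : MonoidAlgebra ℝ G) (m m' : ℕ), m ≤ m' →
        ((a ^ m * ξ - a ^ m' * ξ).coeff.sum fun _ r => r ^ 2) ≤
          4 * ρ ^ m * ξ.coeff.sum fun _ r => r ^ 2) →
      ∃ p ∈ redAlg G, p * p = p ∧ IsSelfAdjoint p ∧
        Tendsto (fun m : ℕ => (a ^ m).coeff 1) atTop (nhds (tr p)) ∧
        ∀ T : MonoidAlgebra ℝ G →ₐ[ℝ] (L2 G →L[ℝ] L2 G),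
          (∀ g ξ x, T (MonoidAlgebra.single g 1) ξ x = ξ (g⁻¹ * x)) →
          Tendsto (fun m : ℕ => T (a ^ m)) atTop (nhds p)) :
    ∀ (C W : Type) [Fintype C] [Fintype W] [AddCommGroup W] (Γ : Type) [Group Γ]
    (gen : C × W → Γ) (X : AddSubgroup (Γ → C × Bool → W)) (h : Cfg gen X)
    (m : MeasurableSpace X) (μ : Measure X) (ρ : ℝ), (∀ w : W, w + w = 0) → Haar X m μ → 0 ≤ ρ →
    ρ < 1 → (∀ ω, Converges (sig h ω) ρ) →
    Integrable (fun ω => 1 / ((orb (sig h ω) 1).ncard : ℝ)) μ →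
    ∃ p ∈ redAlg (Gg h), p * p = p ∧ IsSelfAdjoint p ∧
      tr p = ∫ ω, 1 / ((orb (sig h ω) 1).ncard : ℝ) ∂μ ∧
      ∀ T : MonoidAlgebra ℝ (Gg h) →ₐ[ℝ] (L2 (Gg h) →L[ℝ] L2 (Gg h)),
        (∀ g ξ x, T (MonoidAlgebra.single g 1) ξ x = ξ (g⁻¹ * x)) →
        Tendsto (fun m : ℕ => T (aX h ^ m)) atTop (nhds p) := by
  intro C W _ _ _ Γ _ gen X h m μ ρ h2 hμ h0 h1 hc hint
  obtain ⟨a1, a2, a3⟩ := pro_core hALG hPAR C W Γ gen X h m μ ρ h2 hμ h0 h1 hc hint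
  obtain ⟨p, hp, hpp, hsa, ht, hT⟩ := hLIM (Gg h) (aX h) ρ h0 h1 a1 a2
  exact ⟨p, hp, hpp, hsa, tendsto_nhds_unique ht a3, hT⟩

end Pool.Agent.Lib.IT
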