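import Pool.Agent.Lib.IT.Blue

/-! Block ALG: algebra of the Fourier transform along the dual group. -/

namespace Pool.Agent.Lib.IT

open Finset

namespace Alg

set_option linter.unusedSectionVars false

theorem sgn_zero : sgn 0 = 1 := by simp [sgn]

theorem sgn_add (a b : ZMod 2) : sgn (a + b) = sgn a * sgn b := by
  have key : ∀ a b : ZMod 2, (a + b = 0 ↔ (a = 0 ↔ b = 0)) := by decide
  unfold sgn
  by_cases ha : a = 0 <;> by_cases hb : b = 0 <;> simp [ha, hb, key]

theorem sgn_of_ne {a : ZMod 2} (ha : a ≠ 0) : sgn a = -1 := by simp [sgn, ha]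

section Dual
variable {W : Type} [AddCommGroup W]

theorem finite_dual [Fintype W] : Finite (W →+ ZMod 2) :=
  Finite.of_injective (fun φ : W →+ ZMod 2 => (φ : W → ZMod 2)) DFunLike.coe_injective

theorem card_dual [Fintype W] (h2 : ∀ w : W, w + w = 0) :
    Nat.card (W →+ ZMod 2) = Fintype.card W := by
  let : Module (ZMod 2) W := AddCommGroup.zmodModule (n := 2) fun x => by
    rw [two_nsmul]; exact h2 x
  have : Fact (Nat.Prime 2) := ⟨Nat.prime_two⟩
  have := finite_dual (W := W)
  have e := (AddMonoidHom.toZModLinearMapEquiv 2 (M := W) (M₁ := ZMod 2)).toEquiv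
  have : Finite (Module.Dual (ZMod 2) W) := Finite.of_equiv _ e
  let : Fintype (Module.Dual (ZMod 2) W) := Fintype.ofFinite _
  rw [Nat.card_congr e, Nat.card_eq_fintype_card,
    Module.card_eq_pow_finrank (K := ZMod 2) (V := Module.Dual (ZMod 2) W),
    Module.card_eq_pow_finrank (K := ZMod 2) (V := W), Subspace.dual_finrank_eq]

theorem exists_dual_ne (h2 : ∀ w : W, w + w = 0) {u : W} (hu : u ≠ 0) :
    ∃ φ : W →+ ZMod 2, φ u ≠ 0 := by
  let : Module (ZMod 2) W := AddCommGroup.zmodModule (n := 2) fun x => by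
    rw [two_nsmul]; exact h2 x
  have : Fact (Nat.Prime 2) := ⟨Nat.prime_two⟩
  by_contra hn
  push Not at hn
  exact hu ((Module.forall_dual_apply_eq_zero_iff (ZMod 2) u).1 fun φ => hn φ.toAddMonoidHom)

open scoped Classical in
theorem sum_sgn [Fintype W] [Fintype (W →+ ZMod 2)] (h2 : ∀ w : W, w + w = 0) (u : W) :
    ∑ φ : W →+ ZMod 2, sgn (φ u) = if u = 0 then (Fintype.card W : ℝ) else 0 := by
  split_ifs with hu
  · subst hu
    simp only [map_zero, sgn_zero, sum_const, card_univ, nsmul_eq_mul, mul_one]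
    rw [← card_dual h2, Nat.card_eq_fintype_card]
  · obtain ⟨ψ, hψ⟩ := exists_dual_ne h2 hu
    have h1 : ∑ φ : W →+ ZMod 2, sgn (φ u) = ∑ φ : W →+ ZMod 2, sgn ((φ + ψ) u) :=
      (Equiv.sum_comp (Equiv.addRight ψ) (fun φ : W →+ ZMod 2 => sgn (φ u))).symm
    simp only [AddMonoidHom.add_apply, sgn_add, sgn_of_ne hψ, ← Finset.sum_mul] at h1
    linarith

end Dual

section Hat
variable {C W : Type} [Fintype C] [AddCommGroup W] {Γ : Type} [Group Γ]
  {gen : C × W → Γ} {X : AddSubgroup (Γ → C × Bool → W)}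

open scoped Classical in
/-- the kernel of the Fourier transform -/
noncomputable def ker (h : Cfg gen X) (ω : X) (g : Γ) (x : Gg h) : ℝ :=
  if x.right = g⁻¹ then sgn ((actV h g (Multiplicative.toAdd x.left)).1 ω) else 0

theorem hat_eq (h : Cfg gen X) (ξ : MonoidAlgebra ℝ (Gg h)) (ω : X) (g : Γ) :
    hat h ξ ω g = Finsupp.linearCombination ℝ (ker h ω g) ξ.coeff := by
  classical
  unfold hat ker
  rw [Finsupp.linearCombination_apply]
  refine Finsupp.sum_congr fun x _ => ?_
  split_ifs <;> simp [mul_comm]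

theorem hat_single (h : Cfg gen X) (x : Gg h) (r : ℝ) (ω : X) (g : Γ) :
    hat h (MonoidAlgebra.single x r) ω g = r * ker h ω g x := by
  rw [hat_eq, MonoidAlgebra.coeff_single, Finsupp.linearCombination_single, smul_eq_mul]

theorem hat_zero (h : Cfg gen X) (ω : X) (g : Γ) : hat h 0 ω g = 0 := by
  rw [hat_eq, MonoidAlgebra.coeff_zero, map_zero]

theorem hat_add (h : Cfg gen X) (ξ ξ' : MonoidAlgebra ℝ (Gg h)) (ω : X) (g : Γ) :
    hat h (ξ + ξ') ω g = hat h ξ ω g + hat h ξ' ω g := by
  rw [hat_eq, hat_eq, hat_eq, MonoidAlgebra.coeff_add, map_add]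

theorem hat_smul (h : Cfg gen X) (c : ℝ) (ξ : MonoidAlgebra ℝ (Gg h)) (ω : X) (g : Γ) :
    hat h (c • ξ) ω g = c * hat h ξ ω g := by
  rw [hat_eq, hat_eq, MonoidAlgebra.coeff_smul, map_smul, smul_eq_mul]

theorem hat_sub (h : Cfg gen X) (ξ ξ' : MonoidAlgebra ℝ (Gg h)) (ω : X) (g : Γ) :
    hat h (ξ - ξ') ω g = hat h ξ ω g - hat h ξ' ω g := by
  rw [eq_sub_iff_add_eq, ← hat_add, sub_add_cancel]

theorem hat_sum {ι : Type} (h : Cfg gen X) (s : Finset ι) (f : ι → MonoidAlgebra ℝ (Gg h))
    (ω : X) (g : Γ) : hat h (∑ i ∈ s, f i) ω g = ∑ i ∈ s, hat h (f i) ω g := by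
  classical
  induction s using Finset.induction_on with
  | empty => simp [hat_zero]
  | insert a s ha ih => rw [sum_insert ha, sum_insert ha, hat_add, ih]

theorem actV_mul (h : Cfg gen X) (γ γ' : Γ) (v : Vg X) :
    actV h (γ * γ') v = actV h γ (actV h γ' v) := by
  have := congrArg (fun e : MulAut (Multiplicative (Vg X)) => e (Multiplicative.ofAdd v))
    ((act h).map_mul γ γ')
  exact this

theorem ker_inr (h : Cfg gen X) (ω : X) (g g' : Γ) (x : Gg h) :
    ker h ω g (SemidirectProduct.inr g' * x) = ker h ω (g * g') x := by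
  classical
  unfold ker
  have e1 : (SemidirectProduct.inr g' * x : Gg h).right = g⁻¹ ↔ x.right = (g * g')⁻¹ := by
    rw [SemidirectProduct.mul_right, SemidirectProduct.right_inr, mul_inv_rev,
      eq_inv_mul_iff_mul_eq]
  have e2 : Multiplicative.toAdd (SemidirectProduct.inr g' * x : Gg h).left =
      actV h g' (Multiplicative.toAdd x.left) := by
    rw [SemidirectProduct.mul_left, SemidirectProduct.left_inr, SemidirectProduct.right_inr,
      one_mul]
    rfl
  rw [e2, ← actV_mul]
  simp only [e1]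

theorem ker_inl (h : Cfg gen X) (ω : X) (g : Γ) (v : Vg X) (x : Gg h) :
    ker h ω g (SemidirectProduct.inl (Multiplicative.ofAdd v) * x) =
      sgn ((actV h g v).1 ω) * ker h ω g x := by
  classical
  unfold ker
  have e1 : (SemidirectProduct.inl (Multiplicative.ofAdd v) * x : Gg h).right = x.right := by
    rw [SemidirectProduct.mul_right, SemidirectProduct.right_inl, one_mul]
  have e2 : Multiplicative.toAdd (SemidirectProduct.inl (Multiplicative.ofAdd v) * x : Gg h).left =
      v + Multiplicative.toAdd x.left := by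
    rw [SemidirectProduct.mul_left, SemidirectProduct.left_inl, SemidirectProduct.right_inl,
      map_one]
    rfl
  rw [e1, e2, map_add]
  split_ifs
  · rw [← sgn_add]; rfl
  · simp

theorem hat_inr (h : Cfg gen X) (g' : Γ) (ξ : MonoidAlgebra ℝ (Gg h)) (ω : X) (g : Γ) :
    hat h (MonoidAlgebra.single (SemidirectProduct.inr g') 1 * ξ) ω g = hat h ξ ω (g * g') := by
  induction ξ using MonoidAlgebra.induction_linear with
  | zero => simp [hat_zero]
  | add x y hx hy => rw [mul_add, hat_add, hat_add, hx, hy]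
  | single x r => rw [MonoidAlgebra.single_mul_single, hat_single, hat_single, ker_inr, one_mul]

theorem hat_inl (h : Cfg gen X) (v : Vg X) (c : ℝ) (ξ : MonoidAlgebra ℝ (Gg h)) (ω : X) (g : Γ) :
    hat h (MonoidAlgebra.single (SemidirectProduct.inl (Multiplicative.ofAdd v)) c * ξ) ω g =
      c * sgn ((actV h g v).1 ω) * hat h ξ ω g := by
  induction ξ using MonoidAlgebra.induction_linear with
  | zero => simp [hat_zero]
  | add x y hx hy => rw [mul_add, hat_add, hat_add, hx, hy, mul_add]
  | single x r =>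
    rw [MonoidAlgebra.single_mul_single, hat_single, hat_single, ker_inl]; ring

theorem actV_co (h : Cfg gen X) (γ g : Γ) (p : C × Bool) (φ : W →+ ZMod 2) :
    actV h γ (co X g p φ) = co X (γ * g) p φ := rfl

theorem idem_eq [Fintype W] [Fintype (W →+ ZMod 2)] (h : Cfg gen X) (p : C × Bool) (w : W) :
    idem h p w = ∑ φ : W →+ ZMod 2, MonoidAlgebra.single
      (SemidirectProduct.inl (Multiplicative.ofAdd (co X 1 p φ))) (sgn (φ w) / Fintype.card W) :=
  finsum_eq_sum_of_fintype _

open scoped Classical in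
theorem hat_idem [Fintype W] (h : Cfg gen X) (h2 : ∀ w : W, w + w = 0) (p : C × Bool) (w : W)
    (ξ : MonoidAlgebra ℝ (Gg h)) (ω : X) (g : Γ) :
    hat h (idem h p w * ξ) ω g = if ω.1 g p = w then hat h ξ ω g else 0 := by
  have := finite_dual (W := W)
  let : Fintype (W →+ ZMod 2) := Fintype.ofFinite _
  rw [idem_eq, Finset.sum_mul, hat_sum]
  have e : ∀ φ : W →+ ZMod 2, hat h (MonoidAlgebra.single
      (SemidirectProduct.inl (Multiplicative.ofAdd (co X 1 p φ))) (sgn (φ w) / Fintype.card W) * ξ)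
      ω g = sgn (φ (w + ω.1 g p)) * (hat h ξ ω g / Fintype.card W) := by
    intro φ
    rw [hat_inl, actV_co, mul_one, map_add, sgn_add]
    have : (co X g p φ).1 ω = φ (ω.1 g p) := rfl
    rw [this]; ring
  simp only [e, ← Finset.sum_mul, sum_sgn h2]
  have hc : (Fintype.card W : ℝ) ≠ 0 := Nat.cast_ne_zero.2 Fintype.card_ne_zero
  have hi : w + ω.1 g p = 0 ↔ ω.1 g p = w := by
    constructor
    · intro hh
      have := h2 w
      rw [← hh] at this
      exact (add_left_cancel this).symm
    · rintro hh; rw [hh, h2]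
  simp only [hi]
  split_ifs
  · field_simp
  · simp

theorem hat_aX [Fintype W] (h : Cfg gen X) (h2 : ∀ w : W, w + w = 0)
    (ξ : MonoidAlgebra ℝ (Gg h)) (ω : X) :
    hat h (aX h * ξ) ω = lazy (sig h ω) (hat h ξ ω) := by
  classical
  funext g
  unfold aX lazy
  rw [add_mul, hat_add, smul_mul_assoc, hat_smul, Finset.sum_mul, hat_sum]
  have e0 : hat h (MonoidAlgebra.single 1 (1 / 2 : ℝ) * ξ) ω g = hat h ξ ω g / 2 := by
    have : (MonoidAlgebra.single (1 : Gg h) (1 / 2 : ℝ)) = (1 / 2 : ℝ) • 1 := by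
      rw [MonoidAlgebra.one_def, MonoidAlgebra.smul_single, smul_eq_mul, mul_one]
    rw [this, smul_mul_assoc, one_mul, hat_smul]; ring
  have e1 : ∀ p : C × Bool, hat h ((∑ w : W, idem h p w * MonoidAlgebra.single
      (SemidirectProduct.inr (if p.2 then gen (p.1, w) else (gen (p.1, w))⁻¹)) 1) * ξ) ω g =
      hat h ξ ω (step (sig h ω) g p) := by
    intro p
    rw [Finset.sum_mul, hat_sum]
    simp only [mul_assoc, hat_idem h h2, hat_inr, Finset.sum_ite_eq, mem_univ, if_true]
    obtain ⟨c, b⟩ := p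
    cases b <;> rfl
  rw [e0]
  simp only [e1]
  ring

open scoped Classical in
theorem hat_one (h : Cfg gen X) (ω : X) : hat h 1 ω = fun g => if g = 1 then 1 else 0 := by
  funext g
  rw [MonoidAlgebra.one_def, hat_single, one_mul]
  unfold ker
  have e1 : (1 : Gg h).right = g⁻¹ ↔ g = 1 := by
    rw [SemidirectProduct.one_right, eq_comm, inv_eq_one]
  have e2 : Multiplicative.toAdd (1 : Gg h).left = 0 := rfl
  rw [e2, map_zero]
  simp only [e1]
  split_ifs
  · exact sgn_zero
  · rfl

/-- the group elements in the support of the walk -/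
def tm (h : Cfg gen X) (p : C × Bool) (w : W) (φ : W →+ ZMod 2) : Gg h :=
  SemidirectProduct.inl (Multiplicative.ofAdd (co X 1 p φ)) *
    SemidirectProduct.inr (if p.2 then gen (p.1, w) else (gen (p.1, w))⁻¹)

theorem neg_V (v : Vg X) : -v = v := by
  ext ω
  exact CharTwo.neg_eq _

theorem tm_inv (h : Cfg gen X) (p : C × Bool) (w : W) (φ : W →+ ZMod 2) :
    (tm h p w φ)⁻¹ = tm h (p.1, !p.2) w φ := by
  have key : ∀ (γ : Γ) (v v' : Vg X), actV h γ⁻¹ v = v' →
      ((SemidirectProduct.inl (Multiplicative.ofAdd v) * SemidirectProduct.inr γ : Gg h))⁻¹ =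
        SemidirectProduct.inl (Multiplicative.ofAdd v') * SemidirectProduct.inr γ⁻¹ := by
    intro γ v v' hv
    rw [← SemidirectProduct.mk_eq_inl_mul_inr, ← SemidirectProduct.mk_eq_inl_mul_inr]
    refine SemidirectProduct.ext ?_ rfl
    rw [SemidirectProduct.inv_left]
    show Multiplicative.ofAdd (actV h γ⁻¹ (-v)) = Multiplicative.ofAdd v'
    rw [neg_V, hv]
  obtain ⟨c, b⟩ := p
  cases b
  · have := key (gen (c, w))⁻¹ (co X 1 (c, false) φ) (co X 1 (c, true) φ) (by
      rw [actV_co, inv_inv, mul_one]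
      ext ω
      have := h.mat ω.1 ω.2 1 c w
      rw [one_mul] at this
      show φ (ω.1 _ _) = φ (ω.1 _ _)
      rw [this])
    rw [inv_inv] at this
    exact this
  · exact key (gen (c, w)) (co X 1 (c, true) φ) (co X 1 (c, false) φ) (by
      rw [actV_co, mul_one]
      ext ω
      have := h.mat ω.1 ω.2 (gen (c, w))⁻¹ c w
      rw [inv_mul_cancel] at this
      show φ (ω.1 _ _) = φ (ω.1 _ _)
      rw [this])

theorem aX_eq [Fintype W] [Fintype (W →+ ZMod 2)] (h : Cfg gen X) :
    aX h = MonoidAlgebra.single 1 (1 / 2) + (1 / (4 * Fintype.card C) : ℝ) •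
      ∑ p : C × Bool, ∑ w : W, ∑ φ : W →+ ZMod 2,
        MonoidAlgebra.single (tm h p w φ) (sgn (φ w) / Fintype.card W) := by
  unfold aX
  simp only [idem_eq, Finset.sum_mul, MonoidAlgebra.single_mul_single, mul_one, tm]

/-- flipping the direction of a port -/
def flip (C : Type) : C × Bool ≃ C × Bool where
  toFun p := (p.1, !p.2)
  invFun p := (p.1, !p.2)
  left_inv p := by simp
  right_inv p := by simp

theorem aX_symm [Fintype W] (h : Cfg gen X) (x : Gg h) : (aX h).coeff x⁻¹ = (aX h).coeff x := by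
  classical
  have := finite_dual (W := W)
  let : Fintype (W →+ ZMod 2) := Fintype.ofFinite _
  rw [aX_eq]
  simp only [MonoidAlgebra.coeff_add, MonoidAlgebra.coeff_smul, MonoidAlgebra.coeff_sum,
    Finsupp.add_apply, Finsupp.smul_apply, Finsupp.finsetSum_apply,
    MonoidAlgebra.coeff_single, Finsupp.single_apply]
  congr 1
  · simp only [eq_comm (a := (1 : Gg h)), inv_eq_one]
  · congr 1
    rw [← Equiv.sum_comp (flip C)]
    refine sum_congr rfl fun p _ => sum_congr rfl fun w _ => sum_congr rfl fun φ _ => ?_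
    have : tm h (flip C p) w φ = (tm h p w φ)⁻¹ := (tm_inv h p w φ).symm
    simp only [this, inv_inj]

theorem fg [Fintype W] (h : Cfg gen X) (hg : Subgroup.closure (Set.range gen) = ⊤) :
    Group.FG (Gg h) := by
  have := finite_dual (W := W)
  let S : Set (Gg h) := Set.range (fun s => SemidirectProduct.inr (gen s)) ∪
    Set.range (fun q : (C × Bool) × (W →+ ZMod 2) =>
      SemidirectProduct.inl (Multiplicative.ofAdd (co X 1 q.1 q.2)))
  have hr : ∀ γ : Γ, (SemidirectProduct.inr γ : Gg h) ∈ Subgroup.closure S := by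
    intro γ
    have hγ : γ ∈ Subgroup.closure (Set.range gen) := hg ▸ Subgroup.mem_top γ
    induction hγ using Subgroup.closure_induction with
    | mem x hx =>
      obtain ⟨s, rfl⟩ := hx
      exact Subgroup.subset_closure (Or.inl ⟨s, rfl⟩)
    | one => rw [map_one]; exact Subgroup.one_mem _
    | mul x y _ _ hx hy => rw [map_mul]; exact Subgroup.mul_mem _ hx hy
    | inv x _ hx => rw [map_inv]; exact Subgroup.inv_mem _ hx
  have hl : ∀ (v : X →+ ZMod 2) (hv : v ∈ Vg X),
      (SemidirectProduct.inl (Multiplicative.ofAdd (⟨v, hv⟩ : Vg X)) : Gg h) ∈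
        Subgroup.closure S := by
    intro v hv
    induction hv using AddSubgroup.closure_induction with
    | mem v hv =>
      obtain ⟨g, p, φ, rfl⟩ := hv
      have e := SemidirectProduct.inl_aut (φ := act h) g (Multiplicative.ofAdd (co X 1 p φ))
      have e' : act h g (Multiplicative.ofAdd (co X 1 p φ)) = Multiplicative.ofAdd (co X g p φ) := by
        show Multiplicative.ofAdd (actV h g (co X 1 p φ)) = _
        rw [actV_co, mul_one]
      rw [e'] at e
      show SemidirectProduct.inl (Multiplicative.ofAdd (co X g p φ)) ∈ _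
      rw [e]
      exact Subgroup.mul_mem _ (Subgroup.mul_mem _ (hr _)
        (Subgroup.subset_closure (Or.inr ⟨(p, φ), rfl⟩))) (hr _)
    | zero =>
      show SemidirectProduct.inl (1 : Multiplicative (Vg X)) ∈ _
      rw [map_one]; exact Subgroup.one_mem _
    | add u v hu hv ihu ihv =>
      show SemidirectProduct.inl (Multiplicative.ofAdd (⟨u, hu⟩ : Vg X) *
        Multiplicative.ofAdd (⟨v, hv⟩ : Vg X)) ∈ _
      rw [map_mul]; exact Subgroup.mul_mem _ ihu ihv
    | neg u hu ihu =>
      show SemidirectProduct.inl (Multiplicative.ofAdd (⟨u, hu⟩ : Vg X))⁻¹ ∈ _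
      rw [map_inv]; exact Subgroup.inv_mem _ ihu
  refine (Group.fg_iff).2 ⟨S, ?_, (Set.finite_range _).union (Set.finite_range _)⟩
  refine top_unique fun x _ => ?_
  rw [← SemidirectProduct.inl_left_mul_inr_right x]
  exact Subgroup.mul_mem _ (hl (Multiplicative.toAdd x.left).1 (Multiplicative.toAdd x.left).2) (hr _)

end Hat

end Alg

theorem stALG : St_ALG := fun _ _ _ _ _ _ _ _ _ h h2 =>
  ⟨Alg.fg h, Alg.aX_symm h, Alg.hat_sub h, Alg.hat_aX h h2, Alg.hat_one h⟩

end Pool.Agent.Lib.IT
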