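import Pool.Agent.Lib.IT.Blue

/-! Block BIR: the monster group and its birth order. -/

namespace Pool.Agent.Lib.IT.BIR

open Finset

section Gen
variable {S Ω : Type} {nxt : Ω → S × Bool → Option Ω}

theorem rd_cons {x z : Ω} {l : S × Bool} {w : List (S × Bool)} :
    rd nxt x (l :: w) = some z ↔ ∃ y, nxt x l = some y ∧ rd nxt y w = some z := by
  simp [rd, Option.bind_eq_some_iff]

theorem rd_append {x y z : Ω} {w w' : List (S × Bool)} (h : rd nxt x w = some y)
    (h' : rd nxt y w' = some z) : rd nxt x (w ++ w') = some z := by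
  induction w generalizing x with
  | nil => obtain rfl : x = y := by simpa [rd] using h
           exact h'
  | cons l w ih =>
    obtain ⟨u, h1, h2⟩ := rd_cons.1 h
    exact rd_cons.2 ⟨u, h1, ih h2⟩

theorem rd_rev (hs : ∀ x y s b, nxt x (s, b) = some y → nxt y (s, !b) = some x) {x y : Ω}
    {w : List (S × Bool)} (h : rd nxt x w = some y) :
    rd nxt y (FreeGroup.invRev w) = some x := by
  induction w generalizing x with
  | nil => obtain rfl : x = y := by simpa [rd] using h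
           rfl
  | cons l w ih =>
    obtain ⟨u, h1, h2⟩ := rd_cons.1 h
    have e : FreeGroup.invRev (l :: w) = FreeGroup.invRev w ++ [(l.1, !l.2)] := by
      simp [FreeGroup.invRev]
    rw [e]
    exact rd_append (ih h2) (rd_cons.2 ⟨x, hs _ _ _ _ h1, rfl⟩)

theorem val_nil : val nxt [] = 1 := map_one _

theorem val_append (w w' : List (S × Bool)) : val nxt (w ++ w') = val nxt w * val nxt w' := by
  rw [val, val, val, ← map_mul, FreeGroup.mul_mk]

theorem val_cons (l : S × Bool) (w : List (S × Bool)) :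
    val nxt (l :: w) = val nxt [l] * val nxt w := val_append [l] w

theorem val_inv (w : List (S × Bool)) : val nxt (FreeGroup.invRev w) = (val nxt w)⁻¹ := by
  rw [val, val, ← map_inv, FreeGroup.inv_mk]

theorem val_true (s : S) : val nxt [(s, true)] = PresentedGroup.of s := rfl

theorem val_false (s : S) : val nxt [(s, false)] = (PresentedGroup.of s)⁻¹ := by
  rw [← val_true, ← val_inv]; rfl

theorem val_eq (hs : ∀ x y s b, nxt x (s, b) = some y → nxt y (s, !b) = some x) {x y : Ω}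
    {w w' : List (S × Bool)} (h : rd nxt x w = some y) (h' : rd nxt x w' = some y) :
    val nxt w = val nxt w' := by
  have h1 : val nxt (w ++ FreeGroup.invRev w') = 1 :=
    PresentedGroup.one_of_mem ⟨x, _, rd_append h (rd_rev hs h'), rfl⟩
  rwa [val_append, val_inv, mul_inv_eq_one] at h1

theorem conn_step {x y : Ω} {l : S × Bool} (h : nxt x l = some y) (g : Gam nxt) :
    Conn nxt (x, g) (y, g * val nxt [l]) := ⟨[l], rd_cons.2 ⟨y, h, rfl⟩, rfl⟩

end Gen

section Walk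
variable {C A W : Type} (π : C → Equiv.Perm A)

theorem walk_cons (a : A) (l : C × Bool) (w : List (C × Bool)) :
    walk π a (l :: w) = walk π (step π a l) w := rfl

theorem step_back (a : A) (c : C) (b : Bool) : step π (step π a (c, b)) (c, !b) = a := by
  cases b <;> simp [step]

theorem edge_back (a : A) (c : C) (b : Bool) :
    edge π (step π a (c, b)) (c, !b) = edge π a (c, b) := by
  cases b <;> simp [step, edge]

theorem ball_card [Fintype C] [DecidableEq A] (L : ℕ) : ∀ a : A, ∃ s : Finset A,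
    s.card ≤ (2 * Fintype.card C + 1) ^ L ∧ ∀ w, w.length ≤ L → walk π a w ∈ s := by
  induction L with
  | zero =>
    intro a
    refine ⟨{a}, by simp, fun w hw => ?_⟩
    obtain rfl : w = [] := List.length_eq_zero_iff.1 (by omega)
    simp [walk]
  | succ L ih =>
    intro a
    choose s hs hw using ih
    refine ⟨insert a (univ.biUnion fun p : C × Bool => s (step π a p)), ?_, fun w h => ?_⟩
    · refine (card_insert_le _ _).trans ?_
      have h1 := card_biUnion_le_card_mul univ (fun p : C × Bool => s (step π a p)) _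
        (fun p _ => hs (step π a p))
      have h2 : 1 ≤ (2 * Fintype.card C + 1) ^ L := Nat.one_le_pow _ _ (by omega)
      simp only [card_univ, Fintype.card_prod, Fintype.card_bool] at h1
      rw [pow_succ]
      nlinarith
    · rcases w with _ | ⟨l, w⟩
      · simp [walk]
      · refine mem_insert_of_mem (mem_biUnion.2 ⟨l, mem_univ _, ?_⟩)
        exact hw _ w (by simpa using h)

end Walk

variable {C W : Type} [Fintype C] [AddCommGroup W] (D : Data C W)

/-- vertices: the graphs of the data and a one edge graph for each letter -/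
abbrev Om := (Σ n, Fin (D.N n)) ⊕ ((C × W) × Bool)

open scoped Classical in
/-- the labelled graph -/
noncomputable def nx : Om D → (C × W) × Bool → Option (Om D)
  | .inl x, l => if D.y x.1 (edge (D.π x.1) x.2 (l.1.1, l.2)) = l.1.2 then
      some (.inl ⟨x.1, step (D.π x.1) x.2 (l.1.1, l.2)⟩) else none
  | .inr x, l => if x = (l.1, !l.2) then some (.inr l) else none

/-- length scale -/
def el : Om D → ℕ
  | .inl x => D.ℓ x.1
  | .inr _ => 1

/-- colours of a word -/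
def col (w : List ((C × W) × Bool)) : List (C × Bool) := w.map fun l => (l.1.1, l.2)

variable {D}

theorem nx_inl {n : ℕ} {a : Fin (D.N n)} {l : (C × W) × Bool} {y : Om D} :
    nx D (.inl ⟨n, a⟩) l = some y ↔ D.y n (edge (D.π n) a (l.1.1, l.2)) = l.1.2 ∧
      y = .inl ⟨n, step (D.π n) a (l.1.1, l.2)⟩ := by
  simp only [nx]
  split_ifs with h
  · simp [h, eq_comm]
  · simp [h]

theorem nx_inr {x l : (C × W) × Bool} {y : Om D} :
    nx D (.inr x) l = some y ↔ x = (l.1, !l.2) ∧ y = .inr l := by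
  simp only [nx]
  split_ifs with h
  · simp [h, eq_comm]
  · simp [h]

theorem nx_symm (x y : Om D) (s : C × W) (b : Bool) (h : nx D x (s, b) = some y) :
    nx D y (s, !b) = some x := by
  rcases x with ⟨n, a⟩ | x
  · obtain ⟨h1, rfl⟩ := nx_inl.1 h
    refine nx_inl.2 ⟨?_, ?_⟩
    · simp only at h1 ⊢
      rw [edge_back, h1]
    · simp only
      rw [step_back]
  · obtain ⟨rfl, rfl⟩ := nx_inr.1 h
    exact nx_inr.2 ⟨by simp, rfl⟩

theorem rd_inl {n : ℕ} {w : List ((C × W) × Bool)} : ∀ {a : Fin (D.N n)} {y : Om D},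
    rd (nx D) (.inl ⟨n, a⟩) w = some y → y = .inl ⟨n, walk (D.π n) a (col w)⟩ ∧
      lab (D.π n) (D.y n) a (col w) = w.map (fun l => l.1.2) ∧
      (FreeGroup.IsReduced w → FreeGroup.IsReduced (col w)) := by
  induction w with
  | nil =>
    intro a y h
    exact ⟨(Option.some.inj h).symm, rfl, fun _ => FreeGroup.IsReduced.nil⟩
  | cons l w ih =>
    intro a y h
    obtain ⟨u, h1, h2⟩ := rd_cons.1 h
    obtain ⟨e, rfl⟩ := nx_inl.1 h1
    obtain ⟨i1, i2, i3⟩ := ih h2
    refine ⟨i1, ?_, fun hr => ?_⟩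
    · simp only [col, List.map_cons, lab] at i2 ⊢
      rw [e, i2]
    · rcases w with _ | ⟨l', w⟩
      · exact FreeGroup.IsReduced.singleton
      · obtain ⟨r1, r2⟩ := FreeGroup.isReduced_cons_cons.1 hr
        refine FreeGroup.isReduced_cons_cons.2 ⟨fun hc => ?_, i3 r2⟩
        obtain ⟨u', h3, -⟩ := rd_cons.1 h2
        obtain ⟨e', -⟩ := nx_inl.1 h3
        by_contra hb
        obtain ⟨⟨c, v⟩, b⟩ := l
        obtain ⟨⟨c', v'⟩, b'⟩ := l'
        simp only at hc hb e e' r1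
        subst hc
        obtain rfl : b' = !b := by cases b <;> cases b' <;> simp_all
        rw [edge_back, e] at e'
        exact hb (r1 (by rw [e']))

theorem rd_inr {w : List ((C × W) × Bool)} : ∀ {x : (C × W) × Bool} {y : Om D},
    rd (nx D) (.inr x) w = some y → ∃ b, y = .inr (x.1, b) := by
  induction w with
  | nil =>
    intro x y h
    exact ⟨x.2, by simpa [rd, eq_comm] using h⟩
  | cons l w ih =>
    intro x y h
    obtain ⟨u, h1, h2⟩ := rd_cons.1 h
    obtain ⟨rfl, rfl⟩ := nx_inr.1 h1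
    exact ih (x := l) h2

theorem len_inr {w : List ((C × W) × Bool)} {x : (C × W) × Bool} {y : Om D}
    (hr : FreeGroup.IsReduced w) (h : rd (nx D) (.inr x) w = some y) : w.length ≤ 1 := by
  rcases w with _ | ⟨l, _ | ⟨l', w⟩⟩
  · simp
  · simp
  · exfalso
    obtain ⟨u, h1, h2⟩ := rd_cons.1 h
    obtain ⟨-, rfl⟩ := nx_inr.1 h1
    obtain ⟨u, h3, -⟩ := rd_cons.1 h2
    obtain ⟨rfl, -⟩ := nx_inr.1 h3
    simpa using (FreeGroup.isReduced_cons_cons.1 hr).1 rfl

theorem el_pos (x : Om D) : 1 ≤ el D x := by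
  rcases x with x | x
  · exact D.one_le _
  · exact le_rfl

theorem small : Small (nx D) (el D) where
  symm := nx_symm
  lconst x y l h := by
    rcases x with ⟨n, a⟩ | x
    · obtain ⟨-, rfl⟩ := nx_inl.1 h
      rfl
    · obtain ⟨-, rfl⟩ := nx_inr.1 h
      rfl
  one_le := el_pos
  girth x w hr hw h := by
    rcases x with ⟨n, a⟩ | x
    · obtain ⟨i1, -, i3⟩ := rd_inl h
      have e : walk (D.π n) a (col w) = a := by simpa [eq_comm] using i1
      simpa [col, el] using D.girth n a (col w) (i3 hr) (by simpa [col] using hw) e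
    · exfalso
      have := len_inr hr h
      rcases w with _ | ⟨l, _ | ⟨l', w⟩⟩
      · exact hw rfl
      · obtain ⟨u, h1, h2⟩ := rd_cons.1 h
        obtain ⟨rfl, rfl⟩ := nx_inr.1 h1
        obtain ⟨s, b⟩ := l
        simp [rd] at h2
      · simp at this
  piece x y w hne hr hx hy := by
    obtain ⟨x', hx⟩ := Option.isSome_iff_exists.1 hx
    obtain ⟨y', hy⟩ := Option.isSome_iff_exists.1 hy
    rcases x with ⟨n, a⟩ | x
    · rcases y with ⟨m, a'⟩ | y
      · obtain ⟨-, i2, i3⟩ := rd_inl hx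
        obtain ⟨-, j2, -⟩ := rd_inl hy
        simpa [col, el] using D.piece n m a a' (col w) (i3 hr) (i2.trans j2.symm)
          (fun e => hne (by rw [e]))
      · exact (len_inr hr hy).trans (el_pos _)
    · exact len_inr hr hx
  occ l := ⟨.inr (l.1, !l.2), by rw [nx_inr.2 ⟨rfl, rfl⟩]; rfl⟩

/-- the generators -/
noncomputable abbrev gn (D : Data C W) : C × W → Gam (nx D) := PresentedGroup.of

theorem copy_step {n : ℕ} {ι : Fin (D.N n) → Gam (nx D)} (h : IsCopy D (gn D) n ι)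
    (a : Fin (D.N n)) (p : C × Bool) :
    ι (step (D.π n) a p) = ι a * val (nx D) [((p.1, D.y n (edge (D.π n) a p)), p.2)] := by
  obtain ⟨c, b⟩ := p
  cases b
  · have := h ((D.π n c).symm a) c
    rw [Equiv.apply_symm_apply] at this
    rw [val_false, this]
    simp [step, edge]
  · rw [val_true]
    exact h a c

theorem copy_rd {n : ℕ} {ι : Fin (D.N n) → Gam (nx D)} (h : IsCopy D (gn D) n ι)
    {w : List ((C × W) × Bool)} : ∀ {a : Fin (D.N n)} {y : Om D},
    rd (nx D) (.inl ⟨n, a⟩) w = some y → ∃ a', y = .inl ⟨n, a'⟩ ∧ ι a' = ι a * val (nx D) w := by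
  induction w with
  | nil =>
    intro a y h
    exact ⟨a, by simpa [rd, eq_comm] using h, by rw [val_nil, mul_one]⟩
  | cons l w ih =>
    intro a y h0
    obtain ⟨u, h1, h2⟩ := rd_cons.1 h0
    obtain ⟨e, rfl⟩ := nx_inl.1 h1
    obtain ⟨a', i1, i2⟩ := ih h2
    refine ⟨a', i1, ?_⟩
    rw [i2, copy_step h, e, val_cons l w, mul_assoc]

theorem copy_conn {n : ℕ} {ι : Fin (D.N n) → Gam (nx D)} (h : IsCopy D (gn D) n ι)
    {a : Fin (D.N n)} {y : Om D} {g : Gam (nx D)} (hc : Conn (nx D) (.inl ⟨n, a⟩, ι a) (y, g)) :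
    ∃ a', y = .inl ⟨n, a'⟩ ∧ ι a' = g := by
  obtain ⟨w, h1, h2⟩ := hc
  obtain ⟨a', i1, i2⟩ := copy_rd h h1
  exact ⟨a', i1, i2.trans h2.symm⟩

theorem nx_port {n : ℕ} (a : Fin (D.N n)) (p : C × Bool) :
    nx D (.inl ⟨n, a⟩) ((p.1, D.y n (edge (D.π n) a p)), p.2) =
      some (.inl ⟨n, step (D.π n) a p⟩) := nx_inl.2 ⟨rfl, rfl⟩

theorem lift_walk {n : ℕ} (v : List (C × Bool)) : ∀ a : Fin (D.N n),
    ∃ w, rd (nx D) (.inl ⟨n, a⟩) w = some (.inl ⟨n, walk (D.π n) a v⟩) := by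
  induction v with
  | nil => exact fun a => ⟨[], rfl⟩
  | cons p v ih =>
    intro a
    obtain ⟨w, hw⟩ := ih (step (D.π n) a p)
    exact ⟨_ :: w, rd_cons.2 ⟨_, nx_port a p, hw⟩⟩

section Con
variable (hc : ∀ n a, orb (D.π n) a = Set.univ)
include hc

theorem reach {n : ℕ} (a a' : Fin (D.N n)) :
    ∃ w, rd (nx D) (.inl ⟨n, a⟩) w = some (.inl ⟨n, a'⟩) := by
  obtain ⟨v, rfl⟩ : a' ∈ orb (D.π n) a := by rw [hc]; trivial
  exact lift_walk v a

theorem conn_copy {n : ℕ} {ι : Fin (D.N n) → Gam (nx D)} (h : IsCopy D (gn D) n ι)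
    (a a' : Fin (D.N n)) : Conn (nx D) (.inl ⟨n, a⟩, ι a) (.inl ⟨n, a'⟩, ι a') := by
  obtain ⟨w, hw⟩ := reach hc a a'
  obtain ⟨a'', i1, i2⟩ := copy_rd h hw
  obtain rfl : a' = a'' := by simpa using i1
  exact ⟨w, hw, i2⟩

theorem exists_copy {n : ℕ} (a : Fin (D.N n)) (g : Gam (nx D)) :
    ∃ ι, IsCopy D (gn D) n ι ∧ ι a = g := by
  choose w hw using reach hc a
  refine ⟨fun b => g * val (nx D) (w b), fun b c => ?_, ?_⟩
  · have h1 := rd_append (hw b) (rd_cons.2 ⟨_, nx_port b (c, true), (rfl : rd _ _ [] = _)⟩)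
    have h2 := val_eq nx_symm (hw (D.π n c b)) h1
    simp only
    rw [h2, val_append, val_true, mul_assoc]
    rfl
  · simp only
    rw [val_eq nx_symm (hw a) (rfl : rd _ _ [] = _), val_nil, mul_one]

end Con

section Ord
variable (τ : Om D × Gam (nx D) → ℕ ×ₗ ℕ)

instance : Nonempty (Om D) := ⟨.inl ⟨0, ⟨0, D.pos 0⟩⟩⟩

/-- birth time -/
noncomputable def bt (g : Gam (nx D)) : ℕ ×ₗ ℕ :=
  τ (Function.argmin (fun x => τ (x, g)), g)

theorem bt_le (x : Om D) (g : Gam (nx D)) : bt τ g ≤ τ (x, g) :=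
  Function.argmin_le (fun x => τ (x, g)) x

theorem bt_lt {x : Om D} {g : Gam (nx D)} : bt τ g < τ (x, g) ↔ Gate τ (x, g) :=
  ⟨fun h => ⟨_, h⟩, fun ⟨y, h⟩ => (bt_le τ y g).trans_lt h⟩

open scoped Classical in
/-- the copy born at a given time -/
noncomputable def bg (t : ℕ ×ₗ ℕ) : Option (Σ n, Fin (D.N n) → Gam (nx D)) :=
  if h : ∃ x : Σ n, Fin (D.N n) → Gam (nx D), IsCopy D (gn D) x.1 x.2 ∧
    ∀ a, τ (.inl ⟨x.1, a⟩, x.2 a) = t then some h.choose else none

variable {τ} {x0 : Om D} (O : Order (nx D) (el D) x0 τ)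

theorem bg_spec {t : ℕ ×ₗ ℕ} {n : ℕ} {ι : Fin (D.N n) → Gam (nx D)} (h : bg τ t = some ⟨n, ι⟩) :
    IsCopy D (gn D) n ι ∧ ∀ a, τ (.inl ⟨n, a⟩, ι a) = t := by
  unfold bg at h
  split_ifs at h with h1
  have h2 := h1.choose_spec
  rw [Option.some.inj h] at h2
  exact h2

include O

theorem bg_of {t : ℕ ×ₗ ℕ} {n : ℕ} {ι : Fin (D.N n) → Gam (nx D)} (h : IsCopy D (gn D) n ι)
    (ht : ∀ a, τ (.inl ⟨n, a⟩, ι a) = t) : bg τ t = some ⟨n, ι⟩ := by
  have h1 : ∃ x : Σ n, Fin (D.N n) → Gam (nx D), IsCopy D (gn D) x.1 x.2 ∧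
    ∀ a, τ (.inl ⟨x.1, a⟩, x.2 a) = t := ⟨⟨n, ι⟩, h, ht⟩
  have h2 := h1.choose_spec
  rw [bg, dif_pos h1]
  generalize h1.choose = x at h2
  obtain ⟨m, κ⟩ := x
  have key : ∀ b, ∃ a', (Sum.inl ⟨m, b⟩ : Om D) = .inl ⟨n, a'⟩ ∧ ι a' = κ b := fun b =>
    copy_conn h ((O.eq_iff _ _).1 ((ht ⟨0, D.pos n⟩).trans (h2.2 b).symm))
  obtain ⟨a', e, -⟩ := key ⟨0, D.pos m⟩
  obtain rfl : m = n := congrArg Sigma.fst (Sum.inl.inj e)
  obtain rfl : κ = ι := by
    funext b
    obtain ⟨a', e, e'⟩ := key b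
    obtain rfl : b = a' := by simpa using e
    exact e'.symm
  rfl

theorem edge_time (g : Gam (nx D)) (s : C × W) : ∃ z z', nx D z (s, true) = some z' ∧
    τ (z, g) = max (bt τ g) (bt τ (g * gn D s)) := by
  obtain ⟨z, ⟨z', hz⟩, hm⟩ := (wellFounded_lt.onFun (f := fun z => τ (z, g))).has_min
    {z | ∃ z', nx D z (s, true) = some z'} ⟨.inr (s, false), _, nx_inr.2 ⟨rfl, rfl⟩⟩
  refine ⟨z, z', hz, ?_⟩
  have e : τ (z, g) = τ (z', g * gn D s) := (O.eq_iff _ _).2 (conn_step hz g)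
  refine le_antisymm ?_ (max_le (bt_le τ z g) (e ▸ bt_le τ z' _))
  by_contra hlt
  rw [not_le, max_lt_iff] at hlt
  obtain ⟨u, hu, hu'⟩ := O.old z z' g _ hz ((bt_lt τ).1 hlt.1) ((bt_lt τ).1 (e ▸ hlt.2))
  exact hm u (Option.isSome_iff_exists.1 hu) hu'

theorem small_time (hc : ∀ n a, orb (D.π n) a = Set.univ) {g : Gam (nx D)} {s : C × W}
    (h : bg τ (max (bt τ g) (bt τ (g * gn D s))) = none) :
    τ (.inr (s, false), g) = max (bt τ g) (bt τ (g * gn D s)) := by
  obtain ⟨z, z', hz, e⟩ := edge_time O g s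
  rcases z with ⟨n, a⟩ | z
  · obtain ⟨ι, h1, rfl⟩ := exists_copy hc a g
    rw [← e, bg_of O h1 fun b => (O.eq_iff _ _).2 (conn_copy hc h1 b a)] at h
    cases h
  · obtain ⟨rfl, -⟩ := nx_inr.1 hz
    exact e

end Ord

/-- the birth structure -/
noncomputable def birth (hc : ∀ n a, orb (D.π n) a = Set.univ) {n0 : ℕ}
    {τ : Om D × Gam (nx D) → ℕ ×ₗ ℕ} (O : Order (nx D) (el D) (.inl ⟨n0, ⟨0, D.pos n0⟩⟩) τ) :
    Birth D (gn D) n0 where
  β := bt τ
  big := bg τ
  inj t n ι h a a' e := by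
    have := conn_copy hc (bg_spec h).1 a a'
    rw [← e] at this
    simpa using O.inj _ _ _ this
  hom t n ι h := (bg_spec h).1
  all n ι h := ⟨_, bg_of O h fun b => (O.eq_iff _ _).2 (conn_copy hc h b ⟨0, D.pos n⟩)⟩
  le t n ι h a := (bg_spec h).2 a ▸ bt_le τ _ _
  born t n ι h g e := by
    obtain ⟨a, -, ha⟩ := copy_conn (bg_spec h).1
      ((O.eq_iff _ _).1 (((bg_spec h).2 ⟨0, D.pos n⟩).trans e.symm))
    exact ⟨a, ha⟩
  gate_card t n ι h := by
    obtain ⟨h1, h2⟩ := bg_spec h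
    rcases (univ.filter fun a => bt τ (ι a) < t).eq_empty_or_nonempty with e | ⟨a0, h0⟩
    · rw [e]; exact Nat.zero_le _
    obtain ⟨s, hs, hw⟩ := ball_card (D.π n) (5 * D.ℓ n) a0
    refine (card_le_card fun a ha => ?_).trans hs
    obtain ⟨w, w1, w2⟩ := O.diam _ _ (conn_copy hc h1 a0 a)
      ((bt_lt τ).1 (h2 a0 ▸ (mem_filter.1 h0).2)) ((bt_lt τ).1 (h2 a ▸ (mem_filter.1 ha).2))
    obtain rfl : a = walk (D.π n) a0 (col w) := by simpa using (rd_inl w2).1
    exact hw _ (by simpa [col, el] using w1)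
  gate_one t n ι h a e p p' h1 h2 := by
    obtain ⟨i1, i2⟩ := bg_spec h
    have g0 : ¬ Gate τ (.inl ⟨n, a⟩, ι a) := fun hg => by
      have := (bt_lt τ).2 hg
      rw [e, i2] at this
      exact lt_irrefl _ this
    have g1 := (bt_lt τ).1 (i2 (step (D.π n) a p) ▸ h1)
    have g2 := (bt_lt τ).1 (i2 (step (D.π n) a p') ▸ h2)
    rw [copy_step i1] at g1 g2
    have := O.one _ _ _ _ _ _ g0 (nx_port a p) (nx_port a p') g1 g2
    simp only [Prod.mk.injEq] at this
    exact Prod.ext this.1.1 this.2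
  edge_big g s n ι h := by
    obtain ⟨i1, i2⟩ := bg_spec h
    obtain ⟨z, z', hz, e⟩ := edge_time O g s
    obtain ⟨a, rfl, ha⟩ := copy_conn i1 ((O.eq_iff _ _).1 ((i2 ⟨0, D.pos n⟩).trans e.symm))
    exact ⟨a, ha, (nx_inl.1 hz).1⟩
  edge_small g s h := by
    refine ⟨fun e => ?_, fun g' s' e => ?_⟩
    · have := conn_step (nxt := nx D) (x := .inr (s, false)) (l := (s, true))
        (nx_inr.2 ⟨rfl, rfl⟩) g
      rw [val_true, e] at this
      simpa using O.inj _ _ _ this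
    · have e1 := small_time O hc h
      have e2 := small_time O hc (e ▸ h)
      obtain ⟨w, w1, w2⟩ := (O.eq_iff _ _).1 (e1.trans (e.symm.trans e2.symm))
      obtain ⟨b, hb⟩ := rd_inr w1
      obtain rfl : s' = s := congrArg Prod.fst (Sum.inr.inj hb)
      refine ⟨?_, rfl⟩
      rw [val_eq nx_symm w1 (rfl : rd _ _ [] = _), val_nil, mul_one] at w2
      exact w2
  first := by
    obtain ⟨ι, h1, h2⟩ := exists_copy hc (⟨0, D.pos n0⟩ : Fin (D.N n0)) 1
    have h3 : ∀ b, τ (.inl ⟨n0, b⟩, ι b) = τ (.inl ⟨n0, ⟨0, D.pos n0⟩⟩, 1) := fun b =>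
      h2 ▸ (O.eq_iff _ _).2 (conn_copy hc h1 b _)
    exact ⟨_, ι, bg_of O h1 h3, fun a => le_antisymm (h3 a ▸ bt_le τ _ _) (O.first _),
      fun g => O.first _, _, h2⟩

end Pool.Agent.Lib.IT.BIR

namespace Pool.Agent.Lib.IT

theorem stBIR (hG : St_GEO) (hC : St_CON) : St_BIR := by
  intro C W _ _ _ _ D h3
  have hc : ∀ n a, orb (D.π n) a = Set.univ := fun n => hC C _ _ h3 (D.dens n)
  refine ⟨Gam (BIR.nx D), inferInstance, BIR.gn D, PresentedGroup.closure_range_of _, fun n0 => ?_⟩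
  obtain ⟨τ, O⟩ := hG _ _ _ _ (BIR.small (D := D)) (.inl ⟨n0, ⟨0, D.pos n0⟩⟩)
  exact ⟨BIR.birth hc O⟩

end Pool.Agent.Lib.IT
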