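import Pool.Agent.Lib.IT.Blue

/-! Block CHE: geometric convergence of the lazy walk from the Poincare inequality. -/

namespace Pool.Agent.Lib.IT

open Finset

namespace CHE

variable {C A : Type}

/-- a step as a permutation -/
def stepE (π : C → Equiv.Perm A) (p : C × Bool) : Equiv.Perm A :=
  if p.2 then π p.1 else (π p.1).symm

theorem step_eq (π : C → Equiv.Perm A) (a : A) (p : C × Bool) : step π a p = stepE π p a := by
  obtain ⟨c, b⟩ := p
  cases b <;> simp [step, stepE]

theorem step_step (π : C → Equiv.Perm A) (a : A) (p : C × Bool) :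
    step π (step π a p) (p.1, !p.2) = a := by
  obtain ⟨c, b⟩ := p
  cases b <;> simp [step]

theorem walk_append (π : C → Equiv.Perm A) (a : A) (w w' : List (C × Bool)) :
    walk π a (w ++ w') = walk π (walk π a w) w' := by
  simp [walk, List.foldl_append]

theorem self_mem_orb (π : C → Equiv.Perm A) (a : A) : a ∈ orb π a := ⟨[], rfl⟩

theorem orb_trans {π : C → Equiv.Perm A} {a b c : A} (h : b ∈ orb π a) (h' : c ∈ orb π b) :
    c ∈ orb π a := by
  obtain ⟨w, rfl⟩ := h
  obtain ⟨w', rfl⟩ := h'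
  exact ⟨w ++ w', walk_append π a w w'⟩

theorem step_mem_orb {π : C → Equiv.Perm A} {a b : A} (p : C × Bool) :
    step π b p ∈ orb π a ↔ b ∈ orb π a := by
  refine ⟨fun h => ?_, fun h => orb_trans h ⟨[p], rfl⟩⟩
  have : b ∈ orb π (step π b p) := ⟨[(p.1, !p.2)], step_step π b p⟩
  exact orb_trans h this

theorem orb_symm {π : C → Equiv.Perm A} {a b : A} (h : b ∈ orb π a) : a ∈ orb π b := by
  obtain ⟨w, rfl⟩ := h
  induction w generalizing a with
  | nil => exact self_mem_orb π a
  | cons p w ih => exact (step_mem_orb p).1 (ih (a := step π a p))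

theorem orb_eq {π : C → Equiv.Perm A} {a b : A} (h : b ∈ orb π a) : orb π b = orb π a :=
  Set.Subset.antisymm (fun _ hc => orb_trans h hc) fun _ hc => orb_trans (orb_symm h) hc

theorem fs {t : Finset A} (F : A → ℝ) (h : ∀ a ∉ t, F a = 0) : ∑ᶠ a, F a = ∑ a ∈ t, F a :=
  finsum_eq_sum_of_support_subset F fun a ha => by
    by_contra h'
    exact ha (h a h')

/-- finitely supported -/
def Fs (η : A → ℝ) : Prop := ∃ s : Finset A, ∀ a ∉ s, η a = 0

/-- squared norm -/
noncomputable def Nq (η : A → ℝ) : ℝ := ∑ᶠ a, η a ^ 2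

/-- zero sum on the finite orbits -/
def Zs (π : C → Equiv.Perm A) (η : A → ℝ) : Prop :=
  ∀ a, (orb π a).Finite → ∑ᶠ b ∈ orb π a, η b = 0

theorem Nq_eq {η : A → ℝ} {s : Finset A} (h : ∀ a ∉ s, η a = 0) : Nq η = ∑ a ∈ s, η a ^ 2 :=
  fs _ fun a ha => by simp [h a ha]

theorem Nq_nonneg (η : A → ℝ) : 0 ≤ Nq η := finsum_nonneg fun _ => sq_nonneg _

theorem sum_le_Nq {η : A → ℝ} (h : Fs η) (s' : Finset A) : ∑ a ∈ s', η a ^ 2 ≤ Nq η := by
  classical
  obtain ⟨s, hs⟩ := h
  rw [Nq_eq (s := s ∪ s') fun a ha => hs a fun h => ha (mem_union_left _ h)]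
  exact sum_le_sum_of_subset_of_nonneg subset_union_right fun _ _ _ => sq_nonneg _

theorem Fs.sub {η ξ : A → ℝ} (h : Fs η) (h' : Fs ξ) : Fs fun a => η a - ξ a := by
  classical
  obtain ⟨s, hs⟩ := h
  obtain ⟨s', hs'⟩ := h'
  refine ⟨s ∪ s', fun a ha => ?_⟩
  rw [mem_union, not_or] at ha
  simp [hs a ha.1, hs' a ha.2]

theorem Nq_sub {η ξ : A → ℝ} (h : Fs η) (h' : Fs ξ) :
    Nq (fun a => η a - ξ a) ≤ 2 * Nq η + 2 * Nq ξ := by
  classical
  obtain ⟨s, hs⟩ := h
  obtain ⟨s', hs'⟩ := h'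
  have e1 : ∀ a ∉ s ∪ s', η a = 0 := fun a ha => hs a fun h => ha (mem_union_left _ h)
  have e2 : ∀ a ∉ s ∪ s', ξ a = 0 := fun a ha => hs' a fun h => ha (mem_union_right _ h)
  rw [Nq_eq e1, Nq_eq e2, Nq_eq (s := s ∪ s') fun a ha => by simp [e1 a ha, e2 a ha],
    mul_sum, mul_sum, ← sum_add_distrib]
  exact sum_le_sum fun a _ => by nlinarith [sq_nonneg (η a + ξ a)]

variable [Fintype C]

theorem exists_big (π : C → Equiv.Perm A) {η : A → ℝ} (h : Fs η) :
    ∃ t : Finset A, ∀ a ∉ t, η a = 0 ∧ ∀ p, η (step π a p) = 0 := by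
  classical
  obtain ⟨s, hs⟩ := h
  refine ⟨s ∪ univ.biUnion fun p : C × Bool => s.image (stepE π p).symm, fun a ha => ?_⟩
  rw [mem_union, not_or] at ha
  refine ⟨hs a ha.1, fun p => hs _ fun h => ha.2 ?_⟩
  refine mem_biUnion.2 ⟨p, mem_univ _, mem_image.2 ⟨_, h, ?_⟩⟩
  rw [step_eq, Equiv.symm_apply_apply]

theorem Fs.lazy (π : C → Equiv.Perm A) {η : A → ℝ} (h : Fs η) : Fs (lazy π η) := by
  obtain ⟨t, ht⟩ := exists_big π h
  exact ⟨t, fun a ha => by simp [IT.lazy, (ht a ha).1, (ht a ha).2]⟩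

theorem Fs.iter (π : C → Equiv.Perm A) {η : A → ℝ} (h : Fs η) (m : ℕ) :
    Fs ((IT.lazy π)^[m] η) := by
  induction m with
  | zero => exact h
  | succ m ih => rw [Function.iterate_succ_apply']; exact ih.lazy π

theorem lazy_sub (π : C → Equiv.Perm A) (η ξ : A → ℝ) :
    lazy π (fun a => η a - ξ a) = fun a => lazy π η a - lazy π ξ a := by
  funext a
  simp only [lazy, sum_sub_distrib]
  ring

theorem iter_sub (π : C → Equiv.Perm A) (η ξ : A → ℝ) (m : ℕ) :
    (lazy π)^[m] (fun a => η a - ξ a) = fun a => (lazy π)^[m] η a - (lazy π)^[m] ξ a := by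
  induction m with
  | zero => rfl
  | succ m ih => simp only [Function.iterate_succ_apply', ih, lazy_sub]

theorem half (hC : 1 ≤ Fintype.card C) (x : ℝ) :
    x / 2 + (∑ _p : C × Bool, x) / (4 * Fintype.card C) = x := by
  have : (Fintype.card C : ℝ) ≠ 0 := by positivity
  simp only [sum_const, card_univ, Fintype.card_prod, Fintype.card_bool, nsmul_eq_mul]
  push_cast
  field_simp
  ring

/-- the lazy walk keeps the sums over finite orbits -/
theorem sum_orb (hC : 1 ≤ Fintype.card C) (π : C → Equiv.Perm A) (η : A → ℝ) (a : A)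
    (h : (orb π a).Finite) : ∑ᶠ b ∈ orb π a, lazy π η b = ∑ᶠ b ∈ orb π a, η b := by
  rw [finsum_mem_eq_finite_toFinset_sum _ h, finsum_mem_eq_finite_toFinset_sum _ h]
  have e : ∀ p, ∑ b ∈ h.toFinset, η (step π b p) = ∑ b ∈ h.toFinset, η b := fun p =>
    sum_equiv (stepE π p) (fun b => by
      rw [Set.Finite.mem_toFinset, Set.Finite.mem_toFinset, ← step_eq, step_mem_orb])
      fun b _ => by rw [step_eq]
  simp only [lazy, sum_add_distrib, ← sum_div]
  rw [sum_comm]
  simp only [e]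
  exact half hC _

theorem sum_orb_iter (hC : 1 ≤ Fintype.card C) (π : C → Equiv.Perm A) (η : A → ℝ) (a : A)
    (h : (orb π a).Finite) (m : ℕ) :
    ∑ᶠ b ∈ orb π a, (lazy π)^[m] η b = ∑ᶠ b ∈ orb π a, η b := by
  induction m with
  | zero => rfl
  | succ m ih => rw [Function.iterate_succ_apply', sum_orb hC π _ a h, ih]

omit [Fintype C] in
theorem sum_orb_sub (π : C → Equiv.Perm A) (η ξ : A → ℝ) (a : A) (h : (orb π a).Finite) :
    ∑ᶠ b ∈ orb π a, (η b - ξ b) = ∑ᶠ b ∈ orb π a, η b - ∑ᶠ b ∈ orb π a, ξ b := by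
  simp only [finsum_mem_eq_finite_toFinset_sum _ h, sum_sub_distrib]

/-- pointwise convexity -/
theorem lazy_sq (hC : 1 ≤ Fintype.card C) (π : C → Equiv.Perm A) (η : A → ℝ) (a : A) :
    8 * Fintype.card C * lazy π η a ^ 2 + ∑ p : C × Bool, (η (step π a p) - η a) ^ 2 ≤
      ∑ p : C × Bool, (2 * η a ^ 2 + 2 * η (step π a p) ^ 2) := by
  have hK : (0 : ℝ) < Fintype.card C := by positivity
  have e1 : 4 * Fintype.card C * lazy π η a = ∑ p : C × Bool, (η a + η (step π a p)) := by
    simp only [lazy, sum_add_distrib, sum_const, card_univ, Fintype.card_prod, Fintype.card_bool,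
      nsmul_eq_mul]
    push_cast
    field_simp
    ring
  have e2 := sq_sum_le_card_mul_sum_sq (s := (univ : Finset (C × Bool)))
    (f := fun p => η a + η (step π a p))
  rw [← e1, card_univ, Fintype.card_prod, Fintype.card_bool] at e2
  push_cast at e2
  have e3 : 8 * Fintype.card C * lazy π η a ^ 2 ≤ ∑ p : C × Bool, (η a + η (step π a p)) ^ 2 := by
    refine le_of_mul_le_mul_left ?_ (by positivity : (0 : ℝ) < Fintype.card C * 2)
    nlinarith
  refine le_trans (add_le_add e3 le_rfl) (le_of_eq ?_)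
  rw [← sum_add_distrib]
  exact sum_congr rfl fun p _ => by ring

theorem Nq_lazy (hC : 1 ≤ Fintype.card C) (π : C → Equiv.Perm A) {η : A → ℝ} (h : Fs η) :
    8 * Fintype.card C * Nq (lazy π η) + ∑ c : C, ∑ᶠ a, (η (π c a) - η a) ^ 2 ≤
      8 * Fintype.card C * Nq η := by
  obtain ⟨t, ht⟩ := exists_big π h
  have e1 : Nq (lazy π η) = ∑ a ∈ t, lazy π η a ^ 2 :=
    Nq_eq fun a ha => by simp [lazy, (ht a ha).1, (ht a ha).2]
  have e2 : Nq η = ∑ a ∈ t, η a ^ 2 := Nq_eq fun a ha => (ht a ha).1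
  have e3 : ∀ p, ∑ a ∈ t, η (step π a p) ^ 2 = Nq η := fun p => by
    rw [← fs (fun a => η (step π a p) ^ 2) fun a ha => by simp [(ht a ha).2 p]]
    simp only [step_eq]
    exact finsum_comp_equiv (stepE π p) (f := fun a => η a ^ 2)
  have e4 : ∀ c, ∑ᶠ a, (η (π c a) - η a) ^ 2 = ∑ a ∈ t, (η (step π a (c, true)) - η a) ^ 2 :=
    fun c => fs _ fun a ha => by
      have := (ht a ha).2 (c, true)
      simp only [step, if_true] at this
      simp [this, (ht a ha).1]
  have e5 : ∑ c : C, ∑ᶠ a, (η (π c a) - η a) ^ 2 ≤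
      ∑ a ∈ t, ∑ p : C × Bool, (η (step π a p) - η a) ^ 2 := by
    simp only [e4]
    rw [sum_comm]
    refine sum_le_sum fun a _ => ?_
    rw [Fintype.sum_prod_type]
    refine sum_le_sum fun c _ => ?_
    rw [Fintype.sum_bool]
    exact le_add_of_nonneg_right (sq_nonneg _)
  have e6 := sum_le_sum fun a (_ : a ∈ t) => lazy_sq hC π η a
  rw [sum_add_distrib, ← mul_sum, ← e1, sum_comm (s := t) (t := univ)
    (f := fun a p => 2 * η a ^ 2 + 2 * η (step π a p) ^ 2)] at e6
  simp only [sum_add_distrib, ← mul_sum, e3, ← e2, sum_const, card_univ, Fintype.card_prod,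
    Fintype.card_bool, nsmul_eq_mul] at e6
  push_cast at e6
  linarith

theorem Nq_lazy_le (hC : 1 ≤ Fintype.card C) (π : C → Equiv.Perm A) {η : A → ℝ} (h : Fs η) :
    Nq (lazy π η) ≤ Nq η := by
  have h1 := Nq_lazy hC π h
  have h2 : 0 ≤ ∑ c : C, ∑ᶠ a, (η (π c a) - η a) ^ 2 :=
    sum_nonneg fun c _ => finsum_nonneg fun _ => sq_nonneg _
  refine le_of_mul_le_mul_left ?_ (by positivity : (0 : ℝ) < 8 * Fintype.card C)
  linarith

theorem Nq_iter_le (hC : 1 ≤ Fintype.card C) (π : C → Equiv.Perm A) {η : A → ℝ} (h : Fs η)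
    (m : ℕ) : Nq ((lazy π)^[m] η) ≤ Nq η := by
  induction m with
  | zero => exact le_rfl
  | succ m ih =>
    rw [Function.iterate_succ_apply']
    exact (Nq_lazy_le hC π (h.iter π m)).trans ih

theorem Nq_iter (hC : 1 ≤ Fintype.card C) (π : C → Equiv.Perm A) {ρ : ℝ} (h0 : 0 ≤ ρ)
    (hρ : ∀ η, Fs η → Zs π η → Nq (lazy π η) ≤ ρ * Nq η) {η : A → ℝ} (h : Fs η) (hz : Zs π η)
    (m : ℕ) : Nq ((lazy π)^[m] η) ≤ ρ ^ m * Nq η := by
  induction m with
  | zero => simp
  | succ m ih =>
    rw [Function.iterate_succ_apply', pow_succ', mul_assoc]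
    refine (hρ _ (h.iter π m) fun a ha => ?_).trans (mul_le_mul_of_nonneg_left ih h0)
    rw [sum_orb_iter hC π η a ha, hz a ha]

theorem converges (hC : 1 ≤ Fintype.card C) (π : C → Equiv.Perm A) {ρ : ℝ} (h0 : 0 ≤ ρ)
    (hρ : ∀ η, Fs η → Zs π η → Nq (lazy π η) ≤ ρ * Nq η) : Converges π ρ := by
  classical
  refine ⟨fun η s s' m m' hs hm => ?_, fun a m => ?_⟩
  · obtain ⟨k, rfl⟩ := Nat.exists_eq_add_of_le hm
    have hη : Fs η := ⟨s, hs⟩
    have hk := hη.iter π k
    have h1 := Nq_iter hC π h0 hρ (hη.sub hk) (fun a ha => by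
      rw [sum_orb_sub π _ _ a ha, sum_orb_iter hC π η a ha, sub_self]) m
    have h2 := sum_le_Nq ((hη.sub hk).iter π m) s'
    have h3 := Nq_sub hη hk
    have h4 := Nq_iter_le hC π hη k
    have h5 := mul_le_mul_of_nonneg_left (h3.trans (by linarith : _ ≤ 4 * Nq η)) (pow_nonneg h0 m)
    rw [iter_sub] at h2 h1
    rw [Function.iterate_add_apply, ← Nq_eq hs]
    linarith
  · set δ : A → ℝ := fun b => if b = a then 1 else 0 with hδ
    have hs : ∀ b ∉ ({a} : Finset A), δ b = 0 := fun b hb => by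
      rw [mem_singleton] at hb
      simp [hδ, hb]
    have key : ∀ η, Fs η → Zs π η → Nq η ≤ 1 → (lazy π)^[m] η a ^ 2 ≤ ρ ^ m := by
      intro η h hz h1
      have h2 := sum_le_Nq (h.iter π m) {a}
      rw [sum_singleton] at h2
      have h3 := mul_le_mul_of_nonneg_left h1 (pow_nonneg h0 m)
      linarith [Nq_iter hC π h0 hρ h hz m]
    by_cases hf : (orb π a).Finite
    · set n : ℝ := ((orb π a).ncard : ℝ) with hn
      have hn' : n = hf.toFinset.card := by rw [hn, Set.ncard_eq_toFinset_card _ hf]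
      have ha : a ∈ hf.toFinset := hf.mem_toFinset.2 (self_mem_orb π a)
      have hn1 : 1 ≤ n := by
        rw [hn']
        exact_mod_cast card_pos.2 ⟨a, ha⟩
      set u : A → ℝ := fun b => if b ∈ orb π a then 1 / n else 0 with hu
      have lu : lazy π u = u := by
        funext b
        simp only [lazy, hu, step_mem_orb]
        exact half hC _
      have lum : (lazy π)^[m] u = u := Function.iterate_fixed lu m
      have hz : ∀ b ∉ hf.toFinset, δ b - u b = 0 := fun b hb => by
        have h1 : b ∉ orb π a := fun h => hb (hf.mem_toFinset.2 h)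
        have h2 : b ≠ a := fun h => hb (h ▸ ha)
        simp [hδ, hu, h1, h2]
      have su : ∀ b ∈ hf.toFinset, u b = 1 / n := fun b hb => by
        simp [hu, hf.mem_toFinset.1 hb]
      have := key (fun b => δ b - u b) ⟨_, hz⟩ (fun b hb => ?_) ?_
      · rw [iter_sub, lum] at this
        simpa only [su a ha] using this
      · by_cases hab : b ∈ orb π a
        · rw [orb_eq hab, finsum_mem_eq_finite_toFinset_sum _ hf, sum_sub_distrib,
            sum_congr rfl su]
          simp only [hδ, sum_ite_eq', ha, if_true, sum_const, nsmul_eq_mul, ← hn']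
          field_simp
          ring
        · refine finsum_mem_eq_zero_of_forall_eq_zero fun c hc => hz c fun h => hab ?_
          exact orb_trans (hf.mem_toFinset.1 h) (orb_symm hc)
      · rw [Nq_eq hz]
        have e : ∀ b ∈ hf.toFinset, (δ b - u b) ^ 2 =
            (if b = a then 1 - 2 / n else 0) + 1 / n ^ 2 := fun b hb => by
          rw [su b hb]
          simp only [hδ]
          split_ifs <;> ring
        rw [sum_congr rfl e, sum_add_distrib]
        simp only [sum_ite_eq', ha, if_true, sum_const, nsmul_eq_mul, ← hn']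
        have : 1 - 2 / n + n * (1 / n ^ 2) = 1 - 1 / n := by
          field_simp
          ring
        rw [this]
        have : 0 ≤ 1 / n := by positivity
        linarith
    · rw [Set.Infinite.ncard hf]
      simp only [Nat.cast_zero, div_zero, sub_zero]
      refine key δ ⟨_, hs⟩ (fun b hb => ?_) ?_
      · refine finsum_mem_eq_zero_of_forall_eq_zero fun c hc => hs c fun h => hf ?_
        rw [mem_singleton] at h
        rw [← h, orb_eq hc]
        exact hb
      · rw [Nq_eq hs]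
        simp [hδ]

end CHE

open CHE in
theorem stCHE (hPOI : St_POI) : St_CHE := by
  intro C _ hC
  obtain ⟨κ, hκ, hP⟩ := hPOI C hC
  have hK : (0 : ℝ) < 8 * Fintype.card C := by positivity
  have h1 : 0 < κ / (8 * Fintype.card C) := by positivity
  refine ⟨max 0 (1 - κ / (8 * Fintype.card C)), le_max_left _ _,
    max_lt one_pos (by linarith), fun A π hE => converges hC π (le_max_left _ _) ?_⟩
  intro η h hz
  obtain ⟨s, hs⟩ := h
  have hfin : (Function.support η).Finite := s.finite_toSet.subset fun a ha => by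
    by_contra h'
    exact ha (hs a h')
  have h2 := hP A π hE (Finsupp.ofSupportFinite η hfin) hz
  simp only [Finsupp.ofSupportFinite_coe] at h2
  have h3 := Nq_lazy hC π ⟨s, hs⟩
  refine le_trans ?_ (mul_le_mul_of_nonneg_right (le_max_right _ _) (Nq_nonneg η))
  refine le_of_mul_le_mul_left ?_ hK
  have e : 8 * (Fintype.card C : ℝ) * ((1 - κ / (8 * Fintype.card C)) * Nq η) =
      8 * Fintype.card C * Nq η - κ * Nq η := by
    field_simp
  rw [e]
  unfold Nq at *
  linarith

end Pool.Agent.Lib.IT
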