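import Pool.Agent.Lib.IT.Blue

/-! Block CON: dense graphs are connected. -/

namespace Pool.Agent.Lib.IT

open Finset

namespace CON

variable {C A : Type}

theorem self_mem (π : C → Equiv.Perm A) (a : A) : a ∈ orb π a := ⟨[], rfl⟩

theorem step_mem (π : C → Equiv.Perm A) {a b : A} (hb : b ∈ orb π a) (l : C × Bool) :
    step π b l ∈ orb π a := by
  obtain ⟨w, rfl⟩ := hb
  exact ⟨w ++ [l], by simp [walk, List.foldl_append]⟩

theorem fwd_mem (π : C → Equiv.Perm A) {a b : A} (hb : b ∈ orb π a) (c : C) :
    π c b ∈ orb π a := by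
  simpa [step] using step_mem π hb (c, true)

theorem bwd_mem (π : C → Equiv.Perm A) {a b : A} (c : C) (hb : π c b ∈ orb π a) :
    b ∈ orb π a := by
  simpa [step] using step_mem π hb (c, false)

theorem inE_closed [Fintype C] [DecidableEq A] (π : C → Equiv.Perm A) (U : Finset A)
    (hU : ∀ b ∈ U, ∀ c, π c b ∈ U) : inE π U = Fintype.card C * U.card := by
  unfold inE
  rw [Finset.filter_true_of_mem, Finset.card_product, Finset.card_univ, mul_comm]
  intro e he
  exact hU e.1 (Finset.mem_product.1 he).1 e.2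

theorem large [Fintype C] {n : ℕ} (π : C → Equiv.Perm (Fin n)) (h3 : 3 ≤ Fintype.card C)
    (hD : Dens π) (U : Finset (Fin n)) (hne : U.Nonempty) (hU : ∀ b ∈ U, ∀ c, π c b ∈ U) :
    7 * n < 8 * U.card := by
  by_contra hlt
  have h1 := hD U (not_lt.1 hlt)
  rw [inE_closed π U hU] at h1
  have h2 : 0 < U.card := hne.card_pos
  have h4 := Nat.le_of_mul_le_mul_right h1 h2
  omega

end CON

theorem stCON : St_CON := by
  classical
  intro C _ n π h3 hD a
  by_contra hne
  obtain ⟨b, hb⟩ := (Set.ne_univ_iff_exists_notMem _).1 hne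
  have h1 := CON.large π h3 hD (univ.filter fun x => x ∈ orb π a)
    ⟨a, by simpa using CON.self_mem π a⟩
    (fun x hx c => by
      simp only [Finset.mem_filter, Finset.mem_univ, true_and] at hx ⊢
      exact CON.fwd_mem π hx c)
  have h2 := CON.large π h3 hD (univ.filter fun x => ¬ x ∈ orb π a)
    ⟨b, by simpa using hb⟩
    (fun x hx c => by
      simp only [Finset.mem_filter, Finset.mem_univ, true_and] at hx ⊢
      exact fun h => hx (CON.bwd_mem π c h))
  have h4 := Finset.card_filter_add_card_filter_not (s := (univ : Finset (Fin n)))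
    (fun x => x ∈ orb π a)
  rw [Finset.card_univ, Fintype.card_fin] at h4
  omega

end Pool.Agent.Lib.IT
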