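import Pool.Agent.Lib.IT.Blue

namespace Pool.Agent.Lib.IT

open Finset

set_option linter.unusedSectionVars false
set_option linter.unusedVariables false

namespace EXP

section orb
variable {C A A' : Type} (π : C → Equiv.Perm A)

theorem walk_cons (a : A) (l : C × Bool) (w : List (C × Bool)) :
    walk π a (l :: w) = walk π (step π a l) w := rfl

theorem step_step (a : A) (l : C × Bool) : step π (step π a l) (l.1, !l.2) = a := by
  obtain ⟨c, b⟩ := l
  cases b <;> simp [step]

theorem orb_trans {a b c : A} (h : b ∈ orb π a) (h' : c ∈ orb π b) : c ∈ orb π a := by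
  obtain ⟨w, rfl⟩ := h
  obtain ⟨w', rfl⟩ := h'
  exact ⟨w ++ w', by simp [walk, List.foldl_append]⟩

theorem orb_symm {a b : A} (h : b ∈ orb π a) : a ∈ orb π b := by
  obtain ⟨w, rfl⟩ := h
  induction w generalizing a with
  | nil => exact ⟨[], rfl⟩
  | cons l w ih => exact orb_trans π (ih (a := step π a l)) ⟨[(l.1, !l.2)], step_step π a l⟩

theorem orb_eq {a b : A} (h : b ∈ orb π a) : orb π b = orb π a :=
  Set.Subset.antisymm (fun _ => orb_trans π h) fun _ => orb_trans π (orb_symm π h)

theorem orb_map (σ : C → Equiv.Perm A') (ι : A → A') (hι : ∀ c a, σ c (ι a) = ι (π c a)) (a : A) :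
    orb σ (ι a) = ι '' orb π a := by
  have h1 : ∀ a l, step σ (ι a) l = ι (step π a l) := by
    rintro a ⟨c, b⟩
    cases b
    · simp only [step, Bool.false_eq_true, if_false]
      rw [Equiv.symm_apply_eq, hι, Equiv.apply_symm_apply]
    · simp only [step, if_true, hι]
  have h2 : ∀ w a, walk σ (ι a) w = ι (walk π a w) := by
    intro w
    induction w with
    | nil => exact fun _ => rfl
    | cons l w ih => intro a; rw [walk_cons, walk_cons, h1, ih]
  ext b
  constructor
  · rintro ⟨w, rfl⟩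
    exact ⟨_, ⟨w, rfl⟩, (h2 w a).symm⟩
  · rintro ⟨_, ⟨w, rfl⟩, rfl⟩
    exact ⟨w, h2 w a⟩

end orb

variable {C W : Type} [Fintype C] [DecidableEq C] [Fintype W] [AddCommGroup W]
  {D : Data C W} {Γ : Type} [Group Γ] {gen : C × W → Γ} {I : Set ℕ}

/-- an admissible word close to the pattern is the pattern -/
theorem eq_of_close (h2 : ∀ w : W, w + w = 0) {n : ℕ} {u : Fin (D.N n) × C → W}
    (hu : u ∈ adm D I n) (hw : 4 * wt (u - D.y n) < Fintype.card (Fin (D.N n) × C)) :
    n ∈ I ∧ u = D.y n := by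
  obtain ⟨k, hk, z, hz, rfl⟩ := AddSubgroup.mem_sup.1 hu
  have h0 : z ≠ 0 := by
    rintro rfl
    have := (D.good n).far k hk
    rw [add_zero] at hw
    omega
  by_cases hn : n ∈ I
  · rw [if_pos hn] at hz
    obtain ⟨m, rfl⟩ := AddSubgroup.mem_zmultiples_iff.1 hz
    have hy : D.y n + D.y n = 0 := funext fun e => h2 _
    have he : ∀ j : ℤ, (j + j) • D.y n = 0 := fun j => by rw [add_smul, ← smul_add, hy, smul_zero]
    obtain ⟨j, rfl | rfl⟩ := Int.even_or_odd' m
    · exact absurd (by rw [two_mul, he]) h0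
    · rw [add_smul, two_mul, he, zero_add, one_smul] at hw ⊢
      rw [add_sub_cancel_right] at hw
      have hk0 : k = 0 := by
        by_contra hc
        have := (D.good n).dist k hk hc
        omega
      exact ⟨hn, by rw [hk0, zero_add]⟩
  · rw [if_neg hn] at hz
    exact absurd (AddSubgroup.mem_bot.1 hz) h0

open scoped Classical in
/-- a set with a small boundary contains most of a full copy -/
theorem key (h : Cfg gen (Xg D gen I)) {n0 : ℕ} (b : Birth D gen n0) (hC : Fintype.card C = 200)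
    (h2 : ∀ w : W, w + w = 0) (ω : Xg D gen I) (B : Finset Γ)
    (hB : {e : Γ × C | e.1 ∈ B ∧ sig h ω e.2 e.1 ∉ B}.ncard < B.card) :
    ∃ n ∈ I, ∃ ι : Fin (D.N n) → Γ, Function.Injective ι ∧
      (∀ c a, sig h ω c (ι a) = ι (D.π n c a)) ∧
      7 * D.N n < 8 * (univ.filter fun a => ι a ∈ B).card := by
  have hσ : ∀ c g, sig h ω c g = g * gen (c, ω.1 g (c, true)) := fun _ _ => rfl
  set E := (B ×ˢ (univ : Finset C)).filter fun e => sig h ω e.2 e.1 ∈ B with hE
  have hE1 : 199 * B.card < E.card := by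
    have h3 := card_filter_add_card_filter_not (s := B ×ˢ (univ : Finset C))
      (fun e => sig h ω e.2 e.1 ∈ B)
    have h4 : {e : Γ × C | e.1 ∈ B ∧ sig h ω e.2 e.1 ∉ B} =
        ↑((B ×ˢ (univ : Finset C)).filter fun e => ¬ sig h ω e.2 e.1 ∈ B) := by
      ext e; simp
    rw [h4, Set.ncard_coe_finset] at hB
    rw [card_product, card_univ, hC, ← hE] at h3
    omega
  let T : Γ × C → ℕ ×ₗ ℕ := fun e => max (b.β e.1) (b.β (sig h ω e.2 e.1))
  have hT : ∀ e ∈ E, ∃ g ∈ B, b.β g = T e := by
    intro e he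
    rw [hE, mem_filter, mem_product] at he
    rcases max_choice (b.β e.1) (b.β (sig h ω e.2 e.1)) with h3 | h3
    · exact ⟨_, he.1.1, h3.symm⟩
    · exact ⟨_, he.2, h3.symm⟩
  obtain ⟨t, ht⟩ : ∃ t, 199 * (B.filter fun g => b.β g = t).card <
      (E.filter fun e => T e = t).card := by
    by_contra hc
    push Not at hc
    rw [card_eq_sum_card_fiberwise (s := E) (t := B.image b.β) (f := T)
      (fun e he => by simpa using hT e he), card_eq_sum_card_fiberwise (s := B) (t := B.image b.β)
      (f := b.β) (fun g hg => mem_image_of_mem _ hg), mul_sum] at hE1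
    exact absurd (sum_le_sum fun t _ => hc t) (not_le.2 hE1)
  cases hb : b.big t with
  | none =>
    exfalso
    obtain ⟨e, he⟩ := card_pos.1 (lt_of_le_of_lt (Nat.zero_le _) ht)
    rw [mem_filter] at he
    obtain ⟨g, hg, hg'⟩ := hT e he.1
    have h3 : 0 < (B.filter fun g => b.β g = t).card :=
      card_pos.2 ⟨g, mem_filter.2 ⟨hg, hg'.trans he.2⟩⟩
    have h4 : (E.filter fun e => T e = t).card ≤ 1 := by
      refine card_le_one.2 fun e1 h5 e2 h6 => ?_
      rw [mem_filter] at h5 h6
      have h7 := (b.edge_small e2.1 (e2.2, ω.1 e2.1 (e2.2, true))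
        (by rw [← hb]; exact congrArg b.big h6.2)).2 e1.1 (e1.2, ω.1 e1.1 (e1.2, true))
        (h5.2.trans h6.2.symm)
      exact Prod.ext h7.1 (congrArg Prod.fst h7.2)
    omega
  | some x =>
    obtain ⟨n, ι⟩ := x
    have hinj := b.inj t n ι hb
    have hcopy := b.hom t n ι hb
    have hle := b.le t n ι hb
    set U := univ.filter fun a => ι a ∈ B ∧ b.β (ι a) = t with hU
    have hU1 : U.card ≤ (B.filter fun g => b.β g = t).card :=
      card_le_card_of_injOn ι (fun a ha => by simpa [hU] using ha) hinj.injOn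
    let u : Fin (D.N n) × C → W := fun e => ω.1 (ι e.1) (e.2, true)
    set F1 := ((U ×ˢ (univ : Finset C)).filter fun e => D.π n e.2 e.1 ∈ U).filter
      fun e => u e = D.y n e with hF1
    let P : Fin (D.N n) → Fin (D.N n) × C := fun a =>
      if hp : ∃ p, b.β (ι (step (D.π n) a p)) < t then edge (D.π n) a hp.choose
      else (a, Classical.choice (Fintype.card_pos_iff.1 (by omega)))
    have hP : ∀ a ∈ U, ∀ p, b.β (ι (step (D.π n) a p)) < t → P a = edge (D.π n) a p := by
      intro a ha p hp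
      have hp' : ∃ p, b.β (ι (step (D.π n) a p)) < t := ⟨p, hp⟩
      simp only [P, dif_pos hp']
      rw [b.gate_one t n ι hb a (mem_filter.1 ha).2.2 _ _ hp'.choose_spec hp]
    have hsub : (E.filter fun e => T e = t) ⊆
        (F1 ∪ U.image P).image fun e => (ι e.1, e.2) := by
      rintro ⟨g, c⟩ he
      rw [mem_filter, hE, mem_filter, mem_product] at he
      obtain ⟨⟨⟨hg, -⟩, hg'⟩, het⟩ := he
      obtain ⟨a, rfl, ha⟩ := b.edge_big g (c, ω.1 g (c, true)) n ι
        (by rw [← hb]; exact congrArg b.big het)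
      have h3 : sig h ω c (ι a) = ι (D.π n c a) := by rw [hσ, hcopy a c]; exact congrArg _ (by rw [ha])
      refine mem_image.2 ⟨(a, c), ?_, rfl⟩
      simp only [T] at het
      simp only at hg hg'
      rw [h3] at het hg'
      by_cases h4 : b.β (ι a) = t
      · have haU : a ∈ U := mem_filter.2 ⟨mem_univ _, hg, h4⟩
        by_cases h5 : b.β (ι (D.π n c a)) = t
        · refine mem_union_left _ (mem_filter.2 ⟨mem_filter.2 ⟨mem_product.2 ⟨haU, mem_univ _⟩,
            mem_filter.2 ⟨mem_univ _, hg', h5⟩⟩, ha.symm⟩)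
        · exact mem_union_right _ (mem_image.2 ⟨a, haU,
            hP a haU (c, true) (lt_of_le_of_ne (hle _) h5)⟩)
      · have h5 : b.β (ι (D.π n c a)) = t := by
          rcases max_choice (b.β (ι a)) (b.β (ι (D.π n c a))) with h6 | h6
          · exact absurd (h6.symm.trans het) h4
          · exact h6.symm.trans het
        have haU : D.π n c a ∈ U := mem_filter.2 ⟨mem_univ _, hg', h5⟩
        refine mem_union_right _ (mem_image.2 ⟨_, haU, ?_⟩)
        rw [hP _ haU (c, false) (by simpa [step] using lt_of_le_of_ne (hle a) h4)]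
        simp [edge]
    have h3 : 198 * U.card < F1.card := by
      have h4 := (card_le_card hsub).trans (card_image_le.trans (card_union_le _ _))
      have h5 : (U.image P).card ≤ U.card := card_image_le
      omega
    have h4 : 7 * D.N n < 8 * U.card := by
      by_contra hc
      have h5 := D.dens n U (not_lt.1 hc)
      have h6 : F1.card ≤ inE (D.π n) U := card_filter_le _ _
      rw [hC] at h5
      omega
    have h5 : wt (u - D.y n) + F1.card ≤ Fintype.card (Fin (D.N n) × C) := by
      have h6 : {e | (u - D.y n) e ≠ 0} = ↑(univ.filter fun e => ¬ u e = D.y n e) := by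
        ext e; simp [sub_eq_zero]
      rw [wt, h6, Set.ncard_coe_finset, ← card_univ,
        ← card_filter_add_card_filter_not (s := univ) (fun e => u e = D.y n e), add_comm]
      exact Nat.add_le_add_right (card_le_card fun e he =>
        mem_filter.2 ⟨mem_univ _, (mem_filter.1 he).2⟩) _
    obtain ⟨hn, hu⟩ := eq_of_close h2 (ω.2.2 n ι hcopy) (u := u) (by
      rw [Fintype.card_prod, Fintype.card_fin, hC] at h5 ⊢
      omega)
    refine ⟨n, hn, ι, hinj, fun c a => ?_, h4.trans_le (Nat.mul_le_mul_left _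
      (card_le_card fun a ha => mem_filter.2 ⟨mem_univ _, (mem_filter.1 ha).2.1⟩))⟩
    rw [hσ, hcopy a c, ← hu]

end EXP

theorem stEXP (hCON : St_CON) : St_EXP := by
  classical
  intro C W _ _ _ _ D Γ _ gen I h n0 b hC h2 ω
  have horb : ∀ n (ι : Fin (D.N n) → Γ), (∀ c a, sig h ω c (ι a) = ι (D.π n c a)) → ∀ a,
      orb (sig h ω) (ι a) = ι '' Set.univ := fun n ι hι a => by
    rw [EXP.orb_map (D.π n) _ ι hι, hCON C _ _ (by omega) (D.dens n)]
  refine ⟨fun B hB => ?_, fun g hg => ?_⟩
  · by_contra hc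
    obtain ⟨n, -, ι, hinj, hι, hcard⟩ := EXP.key h b hC h2 ω B (not_le.1 hc)
    have h3 := hB (ι ⟨0, D.pos n⟩)
    rw [horb n ι hι] at h3
    have h4 := h3 (Set.finite_univ.image _)
    have h5 : ι '' Set.univ ∩ ↑B = ι '' ↑(univ.filter fun a => ι a ∈ B) := by
      ext x
      simp only [Set.image_univ, Set.mem_inter_iff, Set.mem_range, mem_coe, coe_filter, mem_univ,
        true_and, Set.mem_image, Set.mem_ofPred_eq]
      exact ⟨fun ⟨⟨a, ha⟩, hx⟩ => ⟨a, ha ▸ hx, ha⟩, fun ⟨a, hx, ha⟩ => ⟨⟨a, ha⟩, ha ▸ hx⟩⟩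
    rw [h5, Set.ncard_image_of_injective _ hinj, Set.ncard_image_of_injective _ hinj,
      Set.ncard_coe_finset, Set.ncard_univ, Nat.card_fin] at h4
    omega
  · have h3 : {e : Γ × C | e.1 ∈ hg.toFinset ∧ sig h ω e.2 e.1 ∉ hg.toFinset} = ∅ := by
      ext e
      simp only [Set.Finite.mem_toFinset, Set.mem_ofPred_eq, Set.mem_empty_iff_false, iff_false,
        not_and, not_not]
      exact fun he => EXP.orb_trans _ he ⟨[(e.2, true)], rfl⟩
    obtain ⟨n, hn, ι, hinj, hι, hcard⟩ := EXP.key h b hC h2 ω hg.toFinset (by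
      rw [h3, Set.ncard_empty]
      exact card_pos.2 ⟨g, hg.mem_toFinset.2 ⟨[], rfl⟩⟩)
    obtain ⟨a, ha⟩ := card_pos.1 (show 0 < (univ.filter fun a => ι a ∈ hg.toFinset).card by omega)
    refine ⟨n, hn, ?_⟩
    rw [← EXP.orb_eq _ (hg.mem_toFinset.1 (mem_filter.1 ha).2), horb n ι hι,
      Set.ncard_image_of_injective _ hinj, Set.ncard_univ, Nat.card_fin]

end Pool.Agent.Lib.IT
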