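import Pool.Agent.Lib.IT.Geo0

/-! GEO3: transfer of the abstract model to the group. -/

namespace Pool.Agent.Lib.IT.Geo

open Pool.Agent.Lib.MP_f40e16_al (Wk Fold iv Rd wk_cons iv_iv mk_append mk_nil wk_single)
open FreeGroup

namespace G3

theorem exists_rho {Z S : Type} {D : Z → S × Bool → Z → Prop} (hD : Fold D)
    (tot : ∀ a l, ∃ b, D a l b) :
    ∃ P : S → Equiv.Perm Z, ∀ a w b, Wk D a w b ↔ FreeGroup.lift P (mk w) b = a := by
  choose nx hnx using tot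
  have inv : ∀ a l, nx (nx a l) (iv l) = a := fun a l => hD.func (hnx _ _) (hD.symm (hnx a l))
  let P : S → Equiv.Perm Z := fun s =>
    ⟨fun b => nx b (s, false), fun a => nx a (s, true), fun b => inv b (s, false),
      fun a => inv a (s, true)⟩
  have one : ∀ l b, FreeGroup.lift P (mk [l]) b = nx b (iv l) := by
    rintro ⟨s, c⟩ b
    cases c
    · simp [FreeGroup.lift_mk, P, iv, Equiv.Perm.inv_def]
    · simp [FreeGroup.lift_mk, P, iv]
  refine ⟨P, fun a w b => ?_⟩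
  induction w generalizing a with
  | nil => simp [mk_nil, eq_comm]
  | cons l w ih =>
    rw [wk_cons, show mk (l :: w) = mk [l] * mk w from mk_append [l] w, _root_.map_mul,
      Equiv.Perm.mul_apply, one]
    constructor
    · rintro ⟨c, h1, h2⟩
      rw [(ih c).1 h2]
      exact hD.func (hnx _ _) (hD.symm h1)
    · intro h
      refine ⟨_, ?_, (ih _).2 rfl⟩
      have := hD.symm (hnx (FreeGroup.lift P (mk w) b) (iv l))
      rwa [h, iv_iv] at this

variable {S Ω : Type} {nxt : Ω → S × Bool → Option Ω} {ℓ : Ω → ℕ} {x0 : Ω}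

theorem fold_XD (hs : Small nxt ℓ) : Fold (XD nxt) where
  symm := fun {a b l} h => hs.symm a b l.1 l.2 h
  func := fun h h' => Option.some.inj (h.symm.trans h')

/-- darts of the model -/
def MD (M : Model nxt ℓ x0) (a : M.Z) (l : S × Bool) (b : M.Z) : Prop :=
  ∃ s y z, Cp nxt (M.bx s) y ∧ XD nxt y l z ∧ M.ι s y = a ∧ M.ι s z = b

theorem cp_walk {x y z : Ω} {w : List (S × Bool)} (h : Cp nxt x y) (h' : Wk (XD nxt) y w z) :
    Cp nxt x z := ⟨_, h.choose_spec.append h'⟩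

theorem img (M : Model nxt ℓ x0) {s : M.T} {y z : Ω} {w : List (S × Bool)}
    (h : Cp nxt (M.bx s) y) (h' : Wk (XD nxt) y w z) : Wk (MD M) (M.ι s y) w (M.ι s z) := by
  induction h' with
  | nil => exact Wk.nil _
  | cons h1 _ ih => exact Wk.cons ⟨s, _, _, h, h1, rfl, rfl⟩ (ih (cp_walk h (wk_single.2 h1)))

theorem fold_MD (hs : Small nxt ℓ) (M : Model nxt ℓ x0) : Fold (MD M) where
  symm := by
    rintro a b l ⟨s, y, z, h1, h2, rfl, rfl⟩
    exact ⟨s, z, y, cp_walk h1 (wk_single.2 h2), (fold_XD hs).symm h2, rfl, rfl⟩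
  func := by
    rintro a b c l ⟨s, y, z, h1, h2, rfl, rfl⟩ ⟨s', y', z', h3, h4, h5, rfl⟩
    exact M.fold s s' y y' l z z' h1 h3 h5.symm h2 h4

theorem psi_walk (M : Model nxt ℓ x0) {a b : M.Z} {w : List (S × Bool)} (h : Wk (MD M) a w b) :
    M.ψ b = M.ψ a * val nxt w := by
  induction h with
  | nil => simp [val, mk_nil]
  | @cons a b c l w h1 _ ih =>
    obtain ⟨s, y, z, h2, h3, rfl, rfl⟩ := h1
    rw [ih, M.psi_step s y l z h2 h3, mul_assoc]
    simp only [val]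
    rw [← _root_.map_mul, ← mk_append]
    rfl

theorem exists_theta (hs : Small nxt ℓ) (M : Model nxt ℓ x0) : ∃ θ : Gam nxt → M.Z,
    Function.Injective θ ∧ θ 1 = M.o ∧ ∀ g w, Wk (MD M) (θ g) w (θ (g * val nxt w)) := by
  obtain ⟨P, hP⟩ := exists_rho (fold_MD hs M) fun a l => by
    obtain ⟨x, hx⟩ := hs.occ l
    obtain ⟨y, hy⟩ := Option.isSome_iff_exists.1 hx
    obtain ⟨s, h1, h2⟩ := M.compl a x
    exact ⟨_, s, x, y, h1, hy, h2, rfl⟩
  have h1 : ∀ r ∈ rels nxt, FreeGroup.lift P r = 1 := by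
    rintro _ ⟨x, w, hw, rfl⟩
    ext b
    obtain ⟨s, h1, rfl⟩ := M.compl b x
    exact (hP _ _ _).1 (img M h1 ((wk_iff_rd nxt w x x).2 hw))
  let ρ : Gam nxt →* Equiv.Perm M.Z := PresentedGroup.toGroup h1
  have h2 : ∀ w, ρ (val nxt w) = FreeGroup.lift P (mk w) := fun w => rfl
  have h3 : ∀ g w, Wk (MD M) (ρ g⁻¹ M.o) w (ρ (g * val nxt w)⁻¹ M.o) := fun g w => by
    rw [hP, ← h2, ← Equiv.Perm.mul_apply, ← _root_.map_mul, mul_inv_rev, mul_inv_cancel_left]
  refine ⟨fun g => ρ g⁻¹ M.o, Function.LeftInverse.injective (g := M.ψ) fun g => ?_, by simp, h3⟩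
  obtain ⟨x, rfl⟩ := PresentedGroup.mk_surjective _ g
  obtain ⟨w, rfl⟩ := Quot.exists_rep x
  have := psi_walk M (h3 1 w)
  simpa [M.psi_o, val] using this

end G3

open G3 in
theorem stG3 : St_G3 := by
  intro S Ω nxt ℓ x0 hs M
  obtain ⟨θ, hθ, h1, hw⟩ := exists_theta hs M
  choose c hc hc' using fun p : Ω × Gam nxt => M.compl (θ p.2) p.1
  have ceq : ∀ {s x g}, Cp nxt (M.bx s) x → M.ι s x = θ g → c (x, g) = s := fun {s x g} h h' =>
    M.uniq _ _ x (hc (x, g)) h ((hc' (x, g)).trans h'.symm)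
  have mv : ∀ {x y g w}, Wk (XD nxt) x w y → M.ι (c (x, g)) y = θ (g * val nxt w) :=
    fun {x y g w} h => (hc' (x, g) ▸ img M (hc (x, g)) h).func (fold_MD hs M) (hw g w)
  have mv' : ∀ {x y g w}, Wk (XD nxt) x w y → c (y, g * val nxt w) = c (x, g) :=
    fun {x y g w} h => ceq (cp_walk (hc (x, g)) h) (mv h)
  have conn : ∀ p q, c p = c q ↔ Conn nxt p q := by
    rintro ⟨x, g⟩ ⟨y, g'⟩
    constructor
    · intro h
      obtain ⟨w, h2⟩ := hc (x, g)
      obtain ⟨w', h3⟩ := hc (y, g')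
      rw [← h] at h3
      have h4 := (h2.rev (fold_XD hs)).append h3
      exact ⟨_, (wk_iff_rd _ _ _ _).1 h4, hθ ((hc' (y, g')).symm.trans (h ▸ mv h4))⟩
    · rintro ⟨w, h2, h3⟩
      obtain rfl : g' = g * val nxt w := h3
      exact (mv' ((wk_iff_rd _ _ _ _).2 h2)).symm
  have gate : ∀ p, Gate (fun p => M.tm (c p)) p ↔ M.Gt (c p) p.1 := fun p => by
    rw [M.gt_iff _ _ (hc p)]
    constructor
    · rintro ⟨x, hx⟩
      exact ⟨_, x, hx, hc (x, p.2), (hc' (x, p.2)).trans (hc' p).symm⟩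
    · rintro ⟨s, y, h2, h3, h4⟩
      exact ⟨y, by simpa only [ceq h3 (h4.trans (hc' p))] using h2⟩
  refine ⟨fun p => M.tm (c p), fun p q => M.tm_inj.eq_iff.trans (conn p q), fun x y g h => ?_,
    fun p => ?_, fun x y g l h h2 h3 => ?_, fun x g l l' y y' h2 h h' h3 h4 => ?_,
    fun p q h h2 h3 => ?_⟩
  · have h2 := (conn _ _).2 h
    exact M.inj _ x y (hc (x, g)) (h2 ▸ hc (y, g)) ((hc' (x, g)).trans (h2 ▸ (hc' (y, g)).symm))
  · simpa only [ceq M.root.1 (M.root.2.trans h1.symm)] using M.first (c p)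
  · rw [gate] at h2 h3
    rw [mv' (wk_single.2 h)] at h3
    obtain ⟨s, y', z', h4, h5, h6, h7⟩ := M.old _ x l y (hc (x, g)) h h2 h3
    exact ⟨y', Option.isSome_iff_exists.2 ⟨_, h6⟩,
      by simpa only [ceq h5 (h7.trans (hc' (x, g)))] using h4⟩
  · rw [gate] at h2 h3 h4
    rw [mv' (wk_single.2 h)] at h3
    rw [mv' (wk_single.2 h')] at h4
    exact M.one _ x l l' y y' (hc (x, g)) h2 h h' h3 h4
  · rw [gate] at h2 h3
    have h4 := (conn _ _).2 h
    obtain ⟨w, h5, h6⟩ := M.diam _ p.1 q.1 (hc p) (h4 ▸ hc q) h2 (h4 ▸ h3)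
    exact ⟨w, h5, (wk_iff_rd _ _ _ _).1 h6⟩

end Pool.Agent.Lib.IT.Geo
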