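import Pool.Agent.Lib.IT.GEO91c
import Pool.Agent.Lib.IT.G3

/-! The model and the birth order. -/

namespace Pool.Agent.Lib.IT.G91

open FreeGroup (IsReduced invRev)
open Pool.Agent.Lib.MP_f40e16_al (Wk)
open Geo (XD Cp Model wk_iff_rd)

variable {S Ω : Type} {nxt : Ω → S × Bool → Option Ω} {e : Ad Ω × Ω → ℕ} {ℓ : Ω → ℕ}
  {z z' a b v : Ad Ω} {w w' : List (S × Bool)} {l : S × Bool} {s t : Tm} {x y y' u : Ω}

theorem wk_iff : Wk (XD nxt) x w y ↔ Pth (EO nxt) x w y := (wk_iff_rd nxt w x y).trans rd_iff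

theorem val_append (w w' : List (S × Bool)) : val nxt (w ++ w') = val nxt w * val nxt w' := by
  rw [val, ← FreeGroup.mul_mk, map_mul]
  rfl

theorem val_eq (hS : Small nxt ℓ) (h : Pth (EO nxt) x w y) (h' : Pth (EO nxt) x w' y) :
    val nxt w = val nxt w' := by
  have := PresentedGroup.one_of_mem (rels := rels nxt)
    ⟨x, _, rd_iff.2 (h.append ((foldO hS).inv h')), rfl⟩
  rwa [← FreeGroup.mul_mk, ← FreeGroup.inv_mk, map_mul, map_inv, mul_inv_eq_one] at this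

open Classical in
/-- the group element of an address -/
noncomputable def psi (nxt : Ω → S × Bool → Option Ω) : Ad Ω → Gam nxt
  | [] => 1
  | p :: v => psi nxt v * if h : ∃ w, Pth (EO nxt) p.1 w p.2 then val nxt h.choose else 1

theorem t0_le {x0 : Ω} (h0 : e ([], x0) = 0) : tm e [] x0 ≤ tm e v x := by
  refine Prod.Lex.toLex_le_toLex.2 ?_
  cases v <;> simp [h0]

section
variable (hS : Small nxt ℓ) (he : Function.Injective e)
include hS he

theorem psi_in (h : In nxt e s y z) (h1 : nxt y l = some y') (h' : In nxt e s y' z') :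
    psi nxt z' = psi nxt z * val nxt [l] := by
  induction s using WellFoundedLT.induction generalizing y y' z z' l with
  | ind s ih =>
    obtain ⟨v, x, rfl⟩ := in_tm h
    have H := fun s (_ : s < tm e v x) => inv_all (ℓ := ℓ) hS he s
    have k1 : ∀ {a w b}, Pth (E nxt e (tm e v x)) a w b → psi nxt b = psi nxt a * val nxt w := by
      intro a w b g
      induction g with
      | nil => exact (mul_one _).symm
      | @cons a b c l w g _ ih' =>
        obtain ⟨r, y, y', g1, ⟨g2, g3⟩, -, g4⟩ := g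
        rw [ih', ih r g2 g3 g1 g4, mul_assoc, ← val_append]
        rfl
    have k2 : ∀ {y z w}, In nxt e (tm e v x) y z → Pth (EO nxt) x w y →
        psi nxt z = psi nxt v * val nxt w := by
      intro y z w g g'
      obtain ⟨-, g0, ⟨w', g1⟩ | ⟨-, rfl⟩⟩ := (in_iff H he).1 g
      · rw [val_eq hS g' (pth_snd g1)]
        exact k1 (pth_fst g1)
      · rw [psi, dif_pos g0, val_eq hS g' g0.choose_spec]
    obtain ⟨-, w, g⟩ := (inv_all hS he _).base rfl h
    rw [k2 h g, k2 h' (g.append (.one h1)), val_append, mul_assoc]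

theorem in_uniq (h : In nxt e s y z) (h' : In nxt e t y z) : s = t := by
  have key : ∀ {s t}, In nxt e s y z → In nxt e t y z → ¬s < t := fun h h' hs =>
    have := ((inv_all hS he _).le h).trans_lt hs
    ((inv_all hS he _).gate h' h' this this).1.2.2 _ hs h
  exact (not_lt.1 (key h' h)).antisymm (not_lt.1 (key h h'))

theorem in_cp (h : In nxt e (tm e v x) x v) (h' : Cp nxt x y) : ∃ z, In nxt e (tm e v x) y z :=
  let ⟨_, h'⟩ := h'
  (wk_iff.1 h').keep (P := fun y => ∃ z, In nxt e (tm e v x) y z)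
    (fun _ _ _ g ⟨_, g'⟩ => (inv_all hS he _).dom g' g) ⟨v, h⟩

/-- executed tasks -/
def Tk (nxt : Ω → S × Bool → Option Ω) (e : Ad Ω × Ω → ℕ) :=
  {t : Ad Ω × Ω // In nxt e (tm e t.1 t.2) t.2 t.1}

open Classical in
/-- the embedding of a copy -/
noncomputable def io (t : Tk nxt e) (y : Ω) : {z // Al nxt e z} :=
  if h : ∃ z, In nxt e (tm e t.1.1 t.1.2) y z then ⟨h.choose, (inv_all hS he _).al h.choose_spec⟩
  else ⟨[], .inl rfl⟩

theorem io_in {t : Tk nxt e} (h : Cp nxt t.1.2 y) :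
    In nxt e (tm e t.1.1 t.1.2) y (io hS he t y).1 := by
  have := in_cp hS he t.2 h
  rw [io, dif_pos this]
  exact this.choose_spec

theorem to_tk (h : In nxt e s y z) :
    ∃ t : Tk nxt e, tm e t.1.1 t.1.2 = s ∧ Cp nxt t.1.2 y ∧ (io hS he t y).1 = z := by
  obtain ⟨v, x, rfl⟩ := in_tm h
  obtain ⟨h1, w, h2⟩ := (inv_all hS he _).base rfl h
  exact ⟨⟨(v, x), h1⟩, rfl, ⟨w, wk_iff.2 h2⟩,
    (inv_all hS he _).fn (io_in hS he (t := ⟨(v, x), h1⟩) ⟨w, wk_iff.2 h2⟩) h⟩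

omit hS he in
theorem cp_step (h : Cp nxt x y) (h' : XD nxt y l y') : Cp nxt x y' :=
  let ⟨_, h⟩ := h; ⟨_, h.snoc h'⟩

theorem gt_lt {t : Tk nxt e} (h : ∃ (s' : Tk nxt e) (y' : Ω), tm e s'.1.1 s'.1.2 < tm e t.1.1 t.1.2 ∧
    Cp nxt s'.1.2 y' ∧ io hS he s' y' = io hS he t y) :
    bt e (io hS he t y).1 < tm e t.1.1 t.1.2 :=
  let ⟨_, _, h1, h2, h3⟩ := h
  h3 ▸ ((inv_all hS he _).le (io_in hS he h2)).trans_lt h1

theorem walk_in (t : Tk nxt e) (h : Cp nxt t.1.2 y) (h' : Pth (EO nxt) y w y') :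
    Wk (fun a l b => ∃ (s : Tk nxt e) (y z : Ω), Cp nxt s.1.2 y ∧ XD nxt y l z ∧ io hS he s y = a ∧
      io hS he s z = b) (io hS he t y) w (io hS he t y') := by
  induction h' with
  | nil => exact .nil _
  | cons g _ ih => exact .cons ⟨t, _, _, h, g, rfl, rfl⟩ (ih (cp_step h g))

theorem conn (z : Ad Ω) (h : Al nxt e z) : ∃ w,
    Wk (fun a l b => ∃ (s : Tk nxt e) (y z : Ω), Cp nxt s.1.2 y ∧ XD nxt y l z ∧ io hS he s y = a ∧
      io hS he s z = b) ⟨[], .inl rfl⟩ w ⟨z, h⟩ := by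
  induction z with
  | nil => exact ⟨[], .nil _⟩
  | cons p v ih =>
    obtain ⟨u, hu⟩ := h.resolve_left (List.cons_ne_nil _ _)
    have I := inv_all (ℓ := ℓ) hS he (tm e v p.1)
    obtain ⟨h1, w, h2⟩ := I.base rfl hu
    obtain ⟨w', h3⟩ := ih (I.al h1)
    have h4 := walk_in hS he ⟨(v, p.1), h1⟩ ⟨[], .nil _⟩ h2
    have e1 : io hS he ⟨(v, p.1), h1⟩ p.1 = ⟨v, I.al h1⟩ :=
      Subtype.ext (I.fn (io_in hS he (t := ⟨(v, p.1), h1⟩) ⟨[], .nil _⟩) h1)
    have e2 : io hS he ⟨(v, p.1), h1⟩ u = ⟨p :: v, h⟩ :=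
      Subtype.ext (I.fn (io_in hS he (t := ⟨(v, p.1), h1⟩) ⟨w, wk_iff.2 h2⟩) hu)
    rw [e1, e2] at h4
    exact ⟨_, MP_f40e16_al.wk_append.2 ⟨_, h3, h4⟩⟩

theorem in_t0 {x0 : Ω} (h0 : e ([], x0) = 0) : In nxt e (tm e [] x0) x0 [] :=
  exec (.inl rfl) fun _ hs h => let ⟨_, _, g⟩ := in_tm h; (g ▸ hs).not_ge (t0_le h0)

/-- the model -/
noncomputable def model {x0 : Ω} (h0 : e ([], x0) = 0) : Model nxt ℓ x0 where
  Z := {z // Al nxt e z}
  o := ⟨[], .inl rfl⟩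
  T := Tk nxt e
  tm t := tm e t.1.1 t.1.2
  bx t := t.1.2
  ι := io hS he
  ψ z := psi nxt z.1
  t0 := ⟨([], x0), in_t0 hS he h0⟩
  tm_inj _ _ h := Subtype.ext (Prod.ext (tm_inj he h).1 (tm_inj he h).2)
  inj _ _ _ h h' g := (inv_all hS he _).inj (io_in hS he h) (g ▸ io_in hS he h')
  fold s s' y y' l z z' h h' g h1 h2 := by
    obtain ⟨σ, hσ⟩ := exists_gt (max (tm e s.1.1 s.1.2) (tm e s'.1.1 s'.1.2))
    obtain ⟨k1, k2⟩ := max_lt_iff.1 hσ
    exact Subtype.ext ((foldE hS fun s (_ : s < σ) => inv_all hS he s).det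
      ⟨_, y, z, h1, ⟨k1, io_in hS he h⟩, k1, io_in hS he (cp_step h h1)⟩
      ⟨_, y', z', h2, ⟨k2, g ▸ io_in hS he h'⟩, k2, io_in hS he (cp_step h' h2)⟩)
  uniq _ _ _ h h' g :=
    have := tm_inj he (in_uniq hS he (io_in hS he h) (g ▸ io_in hS he h'))
    Subtype.ext (Prod.ext this.1 this.2)
  compl u x := by
    have : ∃ s, In nxt e s x u.1 := by
      by_contra h
      exact h ⟨_, exec u.2 fun s _ g => h ⟨s, g⟩⟩
    obtain ⟨s, h⟩ := this
    obtain ⟨t, -, h1, h2⟩ := to_tk hS he h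
    exact ⟨t, h1, Subtype.ext h2⟩
  first _ := t0_le h0
  root := ⟨⟨[], .nil _⟩, Subtype.ext ((inv_all hS he _).fn
    (io_in hS he (t := ⟨([], x0), in_t0 hS he h0⟩) ⟨[], .nil _⟩) (in_t0 hS he h0))⟩
  psi_o := rfl
  psi_step _ _ _ _ h g := psi_in hS he (io_in hS he h) g (io_in hS he (cp_step h g))
  conn u := conn hS he u.1 u.2
  Gt t y := ∃ (s' : Tk nxt e) (y' : Ω), tm e s'.1.1 s'.1.2 < tm e t.1.1 t.1.2 ∧
    Cp nxt s'.1.2 y' ∧ io hS he s' y' = io hS he t y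
  gt_iff _ _ _ := Iff.rfl
  old s y l z h g h1 h2 := by
    obtain ⟨σ, hσ⟩ := exists_gt (tm e s.1.1 s.1.2)
    obtain ⟨r, a, b, k1, ⟨k2, k3⟩, -⟩ := old_edge hS (fun s (_ : s < σ) => inv_all hS he s) hσ
      (io_in hS he h) g (io_in hS he (cp_step h g)) (gt_lt hS he h1) (gt_lt hS he h2)
    obtain ⟨t, rfl, k4, k5⟩ := to_tk hS he k3
    exact ⟨t, a, b, k2, k4, k1, Subtype.ext k5⟩
  one s y l l' z z' h hn g g' h1 h2 := by
    have I := inv_all (ℓ := ℓ) hS he (tm e s.1.1 s.1.2)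
    have k0 : ¬bt e (io hS he s y).1 < tm e s.1.1 s.1.2 := fun k => hn (by
      rcases (io hS he s y).2 with k1 | ⟨u, k1⟩
      · obtain ⟨t, -, k2, -⟩ := h1
        obtain ⟨r, k3, k4, k5⟩ := to_tk hS he (in_t0 hS he h0)
        exact ⟨r, x0, k3 ▸ (t0_le h0).trans_lt k2, k4, Subtype.ext (k5.trans k1.symm)⟩
      · obtain ⟨r, k3, k4, k5⟩ := to_tk hS he k1
        exact ⟨r, u, k3 ▸ k, k4, Subtype.ext k5⟩)
    obtain ⟨-, w, k1, k2, k3⟩ := I.gate (io_in hS he (cp_step h g)) (io_in hS he (cp_step h g'))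
      (gt_lt hS he h1) (gt_lt hS he h2)
    have := word_uniq hS (.cons g (pth_snd k3)) (.one g') (red_cons.2 ⟨k1, by
      rintro w' rfl
      cases pth_fst k3 with
      | cons k4 _ =>
        obtain rfl := I.det (io_in hS he (cp_step h g)) ((foldO hS).symm g) (io_in hS he h) k4
        exact k0 (E_end (fun s _ => inv_all hS he s) k4).1⟩) FreeGroup.IsReduced.singleton (by
      have := hS.one_le y
      rw [hS.lconst _ _ _ g] at k2
      simp only [List.length_cons, List.length_nil]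
      omega)
    exact (List.cons.inj this).1
  diam s y z h h' h1 h2 := by
    obtain ⟨-, w, -, k2, k3⟩ := (inv_all hS he _).gate (io_in hS he h) (io_in hS he h')
      (gt_lt hS he h1) (gt_lt hS he h2)
    exact ⟨w, k2, wk_iff.2 (pth_snd k3)⟩

end

theorem stGEO : St_GEO := by
  classical
  intro S Ω _ nxt ℓ hS x0
  obtain ⟨f, hf⟩ := exists_injective_nat (Ad Ω × Ω)
  refine Geo.stG3 S Ω nxt ℓ x0 hS (model (e := fun p => if p = ([], x0) then 0 else f p + 1) hS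
    (fun p q h => ?_) (if_pos rfl))
  by_cases h1 : p = ([], x0) <;> by_cases h2 : q = ([], x0) <;> simp only [h1, h2, if_true,
    if_false] at h ⊢
  · omega
  · omega
  · exact hf (by omega)

end Pool.Agent.Lib.IT.G91
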