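import Pool.Agent.Lib.IT.Blue

namespace Pool.Agent.Lib.IT

open Finset

theorem GR_num (ℓ x : ℕ) (h1 : 7 * ℓ + 4 ≤ x) (h2 : 4001 ≤ x) :
    2 * (7 * ℓ) ≤ x ^ 30 ∧ 4 * (x ^ 7 * 800) * (7 * ℓ + 4) + x ^ 7 * 800 < x ^ 30 := by
  have h3 : x ^ 9 ≤ x ^ 30 := Nat.pow_le_pow_right (by omega) (by norm_num)
  have h4 : 1 ≤ x ^ 7 := Nat.one_le_pow _ _ (by omega)
  have h5 : x ^ 9 = x ^ 7 * (x * x) := by ring
  generalize x ^ 30 = a at *
  generalize x ^ 9 = b at *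
  generalize x ^ 7 = y at *
  have h6 : 4001 * x ≤ x * x := Nat.mul_le_mul_right x h2
  have h7 : y * (4001 * x) ≤ b := h5 ▸ Nat.mul_le_mul_left y h6
  have h8 : y * (7 * ℓ + 4) ≤ y * x := Nat.mul_le_mul_left y h1
  have h9 : y * 4001 ≤ y * x := Nat.mul_le_mul_left y h2
  have h10 : x ≤ y * x := Nat.le_mul_of_pos_left x h4
  constructor <;> nlinarith

theorem stGR (h1 : St_RG1) (h2 : St_RG2) (h3 : St_SW) : St_GR := by
  classical
  intro C _ _ ℓ hC hℓ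
  have hx : 7 * ℓ + 4 ≤ 800 ^ ℓ ∧ 4001 ≤ 800 ^ ℓ := by
    induction ℓ, hℓ using Nat.le_induction with
    | base => norm_num
    | succ k hk ih => rw [pow_succ]; omega
  obtain ⟨e1, e2⟩ := GR_num ℓ _ hx.1 hx.2
  have e3 : (800 ^ ℓ) ^ 30 = 800 ^ (30 * ℓ) := by rw [← pow_mul, mul_comm]
  have e4 : (800 ^ ℓ) ^ 7 * 800 = 800 ^ (7 * ℓ + 1) := by rw [← pow_mul, mul_comm ℓ, pow_succ]
  have e5 : (2 * Fintype.card C + 1) ^ (7 * ℓ + 1) ≤ 800 ^ (7 * ℓ + 1) :=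
    Nat.pow_le_pow_left (by omega) _
  rw [e3] at e1
  rw [e3, e4] at e2
  generalize 800 ^ (30 * ℓ) = n at *
  have a1 := h1 C n (7 * ℓ) e1 (by omega)
  have a2 := h2 C n hC
  rw [show 4 * Fintype.card C = 800 by omega] at a1
  have a3 : 0 < Fintype.card (C → Equiv.Perm (Fin n)) := Fintype.card_pos
  obtain ⟨π, b1, b2⟩ : ∃ π : C → Equiv.Perm (Fin n), (SC π (7 * ℓ)).ncard ≤ 4 * 800 ^ (7 * ℓ + 1) ∧
      ∀ U : Finset (Fin n), 8 * U.card ≤ 7 * n → inE π U ≤ 197 * U.card := by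
    by_contra! hh
    have a4 : (univ : Finset (C → Equiv.Perm (Fin n))) ⊆
        (univ.filter fun π => 4 * 800 ^ (7 * ℓ + 1) < (SC π (7 * ℓ)).ncard) ∪
          univ.filter fun π => ∃ U : Finset (Fin n), 8 * U.card ≤ 7 * n ∧ 197 * U.card < inE π U :=
      fun π _ => by
        simp only [mem_union, mem_filter, mem_univ, true_and]
        exact (lt_or_ge _ _).imp_right (hh π)
    have a5 := (card_le_card a4).trans (card_union_le _ _)
    rw [card_univ] at a5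
    omega
  obtain ⟨π', c1, c2⟩ := h3 C n (7 * ℓ) _ π b1 (by omega)
  refine ⟨π', c1, fun U hU => ?_⟩
  have := b2 U hU
  have := c2 U
  rw [hC]
  omega

end Pool.Agent.Lib.IT
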