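import Pool.Agent.Lib.IT.Blue

namespace Pool.Agent.Lib.IT

open MeasureTheory

theorem stHAAR2 : St_HAAR := by
  intro C W _ _ _ Γ _ gen X h
  let _ : TopologicalSpace W := ⊥
  have : DiscreteTopology W := ⟨rfl⟩
  have hcl : IsClosed (X : Set (Γ → C × Bool → W)) := by
    rw [← closure_subset_iff_isClosed]
    intro ω hω
    refine h.closed ω fun s => ?_
    have ho : IsOpen {ω' : Γ → C × Bool → W | ∀ g ∈ s, ω' g = ω g} := by
      have : {ω' : Γ → C × Bool → W | ∀ g ∈ s, ω' g = ω g} =
          ⋂ g ∈ s, (fun ω' : Γ → C × Bool → W => ω' g) ⁻¹' {ω g} := by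
        ext; simp
      rw [this]
      exact isOpen_biInter_finset fun g _ => (isOpen_discrete _).preimage (continuous_apply g)
    obtain ⟨ω', h1, h2⟩ := mem_closure_iff.1 hω _ ho (fun _ _ => rfl)
    exact ⟨ω', h2, h1⟩
  have : CompactSpace X := isCompact_iff_compactSpace.1 hcl.isCompact
  let _ : MeasurableSpace X := borel X
  have : BorelSpace X := ⟨rfl⟩
  refine ⟨borel X, Measure.addHaarMeasure ⊤, ⟨⟨?_⟩, fun ω0 => measurePreserving_add_left _ ω0, ?_⟩⟩
  · have := Measure.addHaarMeasure_self (K₀ := (⊤ : TopologicalSpace.PositiveCompacts X))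
    simpa using this
  · intro g p w
    have hc : Continuous fun ω : X => ω.1 g p :=
      (continuous_apply p).comp ((continuous_apply g).comp continuous_subtype_val)
    have : IsOpen {ω : X | ω.1 g p = w} := (isOpen_discrete ({w} : Set W)).preimage hc
    exact this.measurableSet

end Pool.Agent.Lib.IT
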