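import Pool.Agent.Lib.IT.Blue

/-! Block LAB: a labelling with short pieces, from the Rosenfeld counting lemma. -/

namespace Pool.Agent.Lib.IT

open Finset

namespace LabAux

section Basic
variable {C A : Type}

theorem walk_append (π : C → Equiv.Perm A) (a : A) (u v : List (C × Bool)) :
    walk π a (u ++ v) = walk π (walk π a u) v := by
  simp [walk, List.foldl_append]

theorem step_inj (π : C → Equiv.Perm A) (l : C × Bool) {a b : A}
    (h : step π a l = step π b l) : a = b := by
  unfold step at h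
  split_ifs at h
  · exact (π l.1).injective h
  · exact (π l.1).symm.injective h

theorem walk_inj (π : C → Equiv.Perm A) (w : List (C × Bool)) :
    ∀ {a b : A}, walk π a w = walk π b w → a = b := by
  induction w with
  | nil => intro a b h; exact h
  | cons l w ih =>
    intro a b h
    exact step_inj π l (ih h)

theorem edge_inj (π : C → Equiv.Perm A) (l : C × Bool) {a b : A}
    (h : edge π a l = edge π b l) : a = b := by
  unfold edge at h
  split_ifs at h
  · exact (Prod.ext_iff.1 h).1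
  · exact (π l.1).symm.injective (Prod.ext_iff.1 h).1

theorem walk_ne {π : C → Equiv.Perm A} {g : ℕ} (hg : Girth π g) {w : List (C × Bool)}
    (hw : FreeGroup.IsReduced w) (hl : w.length ≤ g) (a : A) {i k : ℕ} (hik : i < k)
    (hk : k ≤ w.length) : walk π a (w.take i) ≠ walk π a (w.take k) := by
  intro h
  have h1 : w.take k = w.take i ++ (w.take k).drop i := by
    conv_lhs => rw [← List.take_append_drop i (w.take k)]
    rw [List.take_take, min_eq_left hik.le]
  have hlen : ((w.take k).drop i).length = k - i := by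
    rw [List.length_drop, List.length_take, min_eq_left hk]
  have hred : FreeGroup.IsReduced ((w.take k).drop i) :=
    List.IsChain.drop (List.IsChain.take hw k) i
  have hne : (w.take k).drop i ≠ [] := by
    intro h0
    rw [h0] at hlen
    simp at hlen
    omega
  rw [h1, walk_append] at h
  have := hg _ _ hred hne h.symm
  omega

/-- the `i`-th edge of a walk -/
def ed (π : C → Equiv.Perm A) (a : A) {L : ℕ} (w : List.Vector (C × Bool) L) (i : Fin L) :
    A × C :=
  edge π (walk π a (w.1.take i)) (w.1[i.1]'(by rw [w.2]; exact i.2))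

theorem ed_inj_left (π : C → Equiv.Perm A) {L : ℕ} (w : List.Vector (C × Bool) L) (i : Fin L)
    {a b : A} (h : ed π a w i = ed π b w i) : a = b :=
  walk_inj π _ (edge_inj π _ h)

theorem edge_ne {π : C → Equiv.Perm A} {g : ℕ} (hg : Girth π g) {w : List (C × Bool)}
    (hw : FreeGroup.IsReduced w) (hl : w.length ≤ g) (a : A) {i k : ℕ} (hik : i < k)
    (hk : k < w.length) :
    edge π (walk π a (w.take i)) (w[i]'(hik.trans hk)) ≠ edge π (walk π a (w.take k)) w[k] := by
  intro h
  have hs : walk π a (w.take (i + 1)) = step π (walk π a (w.take i)) (w[i]'(hik.trans hk)) := by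
    rw [List.take_succ_eq_append_getElem (hik.trans hk), walk_append]
    rfl
  have h0 := walk_ne hg hw hl a hik hk.le
  have hc : (w[i]'(hik.trans hk)).1 = w[k].1 := by
    have := congrArg Prod.snd h
    unfold edge at this
    split_ifs at this <;> exact this
  have h1 : (w[i]'(hik.trans hk)).2 ≠ w[k].2 →
      walk π a (w.take (i + 1)) ≠ walk π a (w.take k) := by
    intro hb
    rcases Nat.lt_or_ge (i + 1) k with h2 | h2
    · exact walk_ne hg hw hl a h2 hk.le
    · exfalso
      have h3 : k = i + 1 := by omega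
      subst h3
      exact hb (List.IsChain.getElem hw i hk hc)
  have h2 := congrArg Prod.fst h
  rw [hs] at h1
  unfold edge at h2
  unfold step at h1
  rw [← hc] at h2
  by_cases b1 : (w[i]'(hik.trans hk)).2 = true <;> by_cases b2 : w[k].2 = true
  · simp only [b1, b2, if_true] at h2
    exact h0 h2
  · simp only [b1, b2, if_true] at h2 h1
    refine h1 (by simp) ?_
    simp at h2
    rw [h2]; simp
  · simp only [b1, b2, if_true] at h2 h1
    refine h1 (by simp) ?_
    simpa using h2
  · simp only [b1, b2] at h2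
    exact h0 ((π (w[i]'(hik.trans hk)).1).symm.injective (by simpa using h2))

theorem ed_inj {π : C → Equiv.Perm A} {g : ℕ} (hg : Girth π g) {L : ℕ}
    {w : List.Vector (C × Bool) L} (hw : FreeGroup.IsReduced w.1) (hl : L ≤ g) (a : A) :
    Function.Injective (ed π a w) := by
  intro i k h
  have hl' : w.1.length ≤ g := by rw [w.2]; exact hl
  rcases lt_trichotomy i.1 k.1 with h1 | h1 | h1
  · exact absurd h (edge_ne hg hw hl' a h1 (by rw [w.2]; exact k.2))
  · exact Fin.ext h1
  · exact absurd h.symm (edge_ne hg hw hl' a h1 (by rw [w.2]; exact i.2))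

theorem lab_eq {A' F : Type} (π : C → Equiv.Perm A) (π' : C → Equiv.Perm A') (z : A × C → F)
    (z' : A' × C → F) (w : List (C × Bool)) : ∀ (a : A) (a' : A'),
    lab π z a w = lab π' z' a' w → ∀ (i : ℕ) (hi : i < w.length),
      z (edge π (walk π a (w.take i)) w[i]) = z' (edge π' (walk π' a' (w.take i)) w[i]) := by
  induction w with
  | nil => intro a a' _ i hi; simp at hi
  | cons l w ih =>
    intro a a' h i hi
    simp only [lab, List.cons.injEq] at h
    cases i with
    | zero => exact h.1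
    | succ i => exact ih _ _ h.2 i (by simpa using hi)

theorem cnt [Fintype A] [DecidableEq A] [DecidableEq C] (π : C → Equiv.Perm A) {L : ℕ}
    (w : List.Vector (C × Bool) L) (e : A × C) :
    (univ.filter fun a => e ∈ univ.image (ed π a w)).card ≤ L := by
  calc (univ.filter fun a => e ∈ univ.image (ed π a w)).card
      ≤ (univ.biUnion fun i : Fin L => univ.filter fun a => ed π a w i = e).card := by
        refine card_le_card fun a ha => ?_
        simp only [mem_filter, mem_univ, true_and, mem_image, mem_biUnion] at ha ⊢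
        exact ha
    _ ≤ ∑ i : Fin L, (univ.filter fun a => ed π a w i = e).card := card_biUnion_le
    _ ≤ ∑ _i : Fin L, 1 := by
        refine sum_le_sum fun i _ => card_le_one.2 fun a ha b hb => ?_
        simp only [mem_filter, mem_univ, true_and] at ha hb
        exact ed_inj_left π w i (ha.trans hb.symm)
    _ = L := by simp

end Basic

/-- a large independent set through a given point for two injective sequences -/
theorem indep {E : Type} [DecidableEq E] {L : ℕ} (f g : Fin L → E) (hf : Function.Injective f)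
    (hg : Function.Injective g) (hfg : ∀ i, f i ≠ g i) (e : E)
    (he : e ∈ univ.image f ∪ univ.image g) :
    ∃ I : Finset E, e ∈ I ∧ I ⊆ univ.image f ∪ univ.image g ∧ L ≤ 3 * I.card ∧
      ∀ i, ¬ (f i ∈ I ∧ g i ∈ I) := by
  classical
  set V := univ.image f ∪ univ.image g with hV
  have hne : (V.powerset.filter fun I => e ∈ I ∧ ∀ i, ¬ (f i ∈ I ∧ g i ∈ I)).Nonempty := by
    refine ⟨{e}, ?_⟩
    simp only [mem_filter, mem_powerset, singleton_subset_iff, mem_singleton, true_and]
    exact ⟨he, fun i h => hfg i (h.1.trans h.2.symm)⟩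
  obtain ⟨I, hI, hmax⟩ := exists_max_image _ Finset.card hne
  simp only [mem_filter, mem_powerset] at hI
  refine ⟨I, hI.2.1, hI.1, ?_, hI.2.2⟩
  have hcov : ∀ i : Fin L, f i ∈ I ∨ g i ∈ I ∨ ∃ k, g k = f i ∧ f k ∈ I := by
    intro i
    by_contra hcon
    push Not at hcon
    have h1 : insert (f i) I ∈
        V.powerset.filter fun I => e ∈ I ∧ ∀ i, ¬ (f i ∈ I ∧ g i ∈ I) := by
      simp only [mem_filter, mem_powerset]
      refine ⟨insert_subset (mem_union_left _ (mem_image_of_mem _ (mem_univ i))) hI.1,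
        mem_insert_of_mem hI.2.1, fun k hk => ?_⟩
      rcases mem_insert.1 hk.1 with h2 | h2 <;> rcases mem_insert.1 hk.2 with h3 | h3
      · exact hfg k (h2.trans h3.symm)
      · rw [hf h2] at h3; exact hcon.2.1 h3
      · exact hcon.2.2 k h3 h2
      · exact hI.2.2 k ⟨h2, h3⟩
    have h2 := hmax _ h1
    rw [card_insert_of_notMem hcon.1] at h2
    omega
  have c1 : (univ.filter fun i => f i ∈ I).card ≤ I.card :=
    card_le_card_of_injOn f (fun i hi => by simpa using hi) hf.injOn
  have c2 : (univ.filter fun i => g i ∈ I).card ≤ I.card :=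
    card_le_card_of_injOn g (fun i hi => by simpa using hi) hg.injOn
  have c3 : (univ.filter fun i => ∃ k, g k = f i ∧ f k ∈ I).card ≤
      (univ.filter fun i => f i ∈ I).card := by
    refine card_le_card_of_forall_subsingleton (fun i k => g k = f i) (fun i hi => ?_)
      (fun k _ i hi i' hi' => ?_)
    · simp only [mem_filter, mem_univ, true_and] at hi ⊢
      obtain ⟨k, h1, h2⟩ := hi
      exact ⟨k, h2, h1⟩
    · exact hf (hi.2.symm.trans hi'.2)
  have c4 : (univ : Finset (Fin L)) ⊆ (univ.filter fun i => f i ∈ I) ∪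
      ((univ.filter fun i => g i ∈ I) ∪ univ.filter fun i => ∃ k, g k = f i ∧ f k ∈ I) := by
    intro i _
    simp only [mem_union, mem_filter, mem_univ, true_and]
    exact hcov i
  have c5 := (card_le_card c4).trans ((card_union_le _ _).trans
    (Nat.add_le_add_left (card_union_le _ _) _))
  rw [card_univ, Fintype.card_fin] at c5
  omega

/-- reduced words of a given length -/
abbrev RW (C : Type) (L : ℕ) := {w : List.Vector (C × Bool) L // FreeGroup.IsReduced w.1}

theorem card_RW (C : Type) [Fintype C] (hC : Fintype.card C = 200) (L : ℕ) [Fintype (RW C L)] :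
    Fintype.card (RW C L) ≤ 400 ^ L := by
  have h := Fintype.card_le_of_injective (Subtype.val : RW C L → _) Subtype.val_injective
  rw [card_vector, Fintype.card_prod, hC, Fintype.card_bool] at h
  exact h

theorem num1 (L m N R : ℕ) (hN : N ≤ 800 ^ m) (hR : R ≤ 400 ^ L) :
    N * (R * L) ≤ 800 ^ (m + L) := by
  have h1 : L ≤ 2 ^ L := Nat.lt_two_pow_self.le
  calc N * (R * L) ≤ 800 ^ m * (400 ^ L * 2 ^ L) :=
        Nat.mul_le_mul hN (Nat.mul_le_mul hR h1)
    _ = 800 ^ (m + L) := by rw [← mul_pow, pow_add]; norm_num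

theorem num2 (x p q k t : ℕ) (hx : x ≤ 800 ^ p) (h : p + t ≤ q * k) :
    (x : ℝ) * ((800 : ℝ) ^ q)⁻¹ ^ k ≤ (1 / 2) ^ t := by
  have h1 : (x : ℝ) ≤ (800 : ℝ) ^ p := by exact_mod_cast hx
  have h2 : (800 : ℝ) ^ p * 2 ^ t ≤ 800 ^ (q * k) := by
    calc (800 : ℝ) ^ p * 2 ^ t ≤ 800 ^ p * 800 ^ t := by gcongr; norm_num
      _ = 800 ^ (p + t) := (pow_add _ _ _).symm
      _ ≤ 800 ^ (q * k) := pow_le_pow_right₀ (by norm_num) h
  rw [inv_pow, ← pow_mul, one_div, inv_pow, ← div_eq_mul_inv, inv_eq_one_div,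
    div_le_div_iff₀ (by positivity) (by positivity), one_mul]
  calc (x : ℝ) * 2 ^ t ≤ 800 ^ p * 2 ^ t := by gcongr
    _ ≤ _ := h2

theorem geo {ι : Type} [Fintype ι] (f : ι → ℕ) (hf : Function.Injective f) :
    ∑ j, (1 / 2 : ℝ) ^ f j ≤ 2 := by
  classical
  rw [← sum_image (s := univ) (g := f) (f := fun k => (1 / 2 : ℝ) ^ k) (fun _ _ _ _ h => hf h)]
  exact (summable_geometric_two.sum_le_tsum _ (fun _ _ => by positivity)).trans_eq
    tsum_geometric_two

/-- a triple sum over start point, spectator and word -/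
theorem triple {C A B R : Type} [Fintype A] [DecidableEq A] [DecidableEq C] [Fintype B]
    [Fintype R] (π : C → Equiv.Perm A) {L : ℕ} (wd : R → List.Vector (C × Bool) L) (e : A × C)
    (c : ℝ) (hc : 0 ≤ c) :
    ∑ a : A, ∑ _b : B, ∑ r : R, (if e ∈ univ.image (ed π a (wd r)) then c else 0) ≤
      ((Fintype.card B * (Fintype.card R * L) : ℕ) : ℝ) * c := by
  rw [sum_comm]
  have h1 : ∑ a : A, ∑ r : R, (if e ∈ univ.image (ed π a (wd r)) then c else 0) ≤
      Fintype.card R * (L * c) := by
    rw [sum_comm]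
    calc ∑ r : R, ∑ a : A, (if e ∈ univ.image (ed π a (wd r)) then c else 0)
        ≤ ∑ _r : R, L * c := by
          refine sum_le_sum fun r _ => ?_
          rw [← sum_filter, sum_const, nsmul_eq_mul]
          gcongr
          exact_mod_cast cnt π (wd r) e
      _ = _ := by rw [sum_const, card_univ, nsmul_eq_mul]
  calc _ ≤ ∑ _b : B, Fintype.card R * (L * c) := sum_le_sum fun _ _ => h1
    _ = _ := by rw [sum_const, card_univ, nsmul_eq_mul]; push_cast; ring

end LabAux

open LabAux in
theorem stLAB (hROS : St_ROS) : St_LAB := by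
  classical
  intro C F ι _ _ _ _ n ℓ π n' ℓ' π' z' hC hF hg h5 hn hinj hℓ' hn'
  obtain ⟨q, hq⟩ : ∃ q : ℕ, q = 200 := ⟨200, rfl⟩
  rw [← hq] at hF
  have hI2 : ∀ (p : {p : Fin n × Fin n // p.1 ≠ p.2}) (w : RW C (ℓ + 1)) (e : Fin n × C),
      ∃ I : Finset (Fin n × C),
        e ∈ univ.image (ed π p.1.1 w.1) ∪ univ.image (ed π p.1.2 w.1) →
        e ∈ I ∧ I ⊆ univ.image (ed π p.1.1 w.1) ∪ univ.image (ed π p.1.2 w.1) ∧
          ℓ + 1 ≤ 3 * I.card ∧ ∀ i, ¬ (ed π p.1.1 w.1 i ∈ I ∧ ed π p.1.2 w.1 i ∈ I) := by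
    intro p w e
    by_cases he : e ∈ univ.image (ed π p.1.1 w.1) ∪ univ.image (ed π p.1.2 w.1)
    · obtain ⟨I, hI⟩ := indep _ _ (ed_inj hg w.2 (by omega) p.1.1) (ed_inj hg w.2 (by omega) p.1.2)
        (fun i h => p.2 (ed_inj_left π _ i h)) e he
      exact ⟨I, fun _ => hI⟩
    · exact ⟨∅, fun h => absurd h he⟩
  choose I2 hI2 using hI2
  let J1 := Σ j : ι, Fin n × Fin (n' j) × RW C (ℓ' j + 1)
  let J2 := {p : Fin n × Fin n // p.1 ≠ p.2} × RW C (ℓ + 1)
  let bad : J1 ⊕ J2 → (Fin n × C → F) → Prop := Sum.elim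
    (fun x z => ∀ i, z (ed π x.2.1 x.2.2.2.1 i) = z' x.1 (ed (π' x.1) x.2.2.1 x.2.2.2.1 i))
    (fun x z => ∀ i, z (ed π x.1.1.1 x.2.1 i) = z (ed π x.1.1.2 x.2.1 i))
  let supp : J1 ⊕ J2 → Finset (Fin n × C) := Sum.elim
    (fun x => univ.image (ed π x.2.1 x.2.2.2.1))
    (fun x => univ.image (ed π x.1.1.1 x.2.1) ∪ univ.image (ed π x.1.1.2 x.2.1))
  let I : J1 ⊕ J2 → Fin n × C → Finset (Fin n × C) := Sum.elim
    (fun x _ => univ.image (ed π x.2.1 x.2.2.2.1)) (fun x e => I2 x.1 x.2 e)
  have hβ : (1 : ℝ) ≤ (800 : ℝ) ^ q := one_le_pow₀ (by norm_num)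
  suffices hs : ∃ z, ∀ j, ¬ bad j z by
    obtain ⟨z, hz⟩ := hs
    refine ⟨z, fun a a' w hw hl h => ?_, fun j a a' w hw hl h => ?_⟩
    · by_contra hne
      refine hz (Sum.inr ⟨⟨(a, a'), hne⟩, ⟨⟨w, hl⟩, hw⟩⟩) fun i => ?_
      exact lab_eq π π z z w a a' h i (by rw [hl]; exact i.2)
    · refine hz (Sum.inl ⟨j, a, a', ⟨⟨w, hl⟩, hw⟩⟩) fun i => ?_
      exact lab_eq π (π' j) z (z' j) w a a' h i (by rw [hl]; exact i.2)
  refine hROS (Fin n × C) F (J1 ⊕ J2) bad supp I ((800 : ℝ) ^ q) hβ ?_ ?_ ?_ ?_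
  · rintro (x | x)
    · exact ⟨_, mem_image_of_mem _ (mem_univ 0)⟩
    · exact ⟨_, mem_union_left _ (mem_image_of_mem _ (mem_univ 0))⟩
  · rintro (x | x) z z1 h hb i
    · rw [← h _ (mem_image_of_mem _ (mem_univ i))]
      exact hb i
    · rw [← h _ (mem_union_left _ (mem_image_of_mem _ (mem_univ i))),
        ← h _ (mem_union_right _ (mem_image_of_mem _ (mem_univ i)))]
      exact hb i
  · rintro (x | x) e he
    · refine ⟨he, subset_rfl, fun z z1 h1 h2 h => funext fun e' => ?_⟩
      by_cases h' : e' ∈ univ.image (ed π x.2.1 x.2.2.2.1)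
      · obtain ⟨i, -, rfl⟩ := mem_image.1 h'
        exact (h1 i).trans (h2 i).symm
      · exact h e' h'
    · obtain ⟨k1, k2, -, k4⟩ := hI2 x.1 x.2 e he
      refine ⟨k1, k2, fun z z1 h1 h2 h => funext fun e' => ?_⟩
      by_cases h' : e' ∈ I2 x.1 x.2 e
      · rcases mem_union.1 (k2 h') with h3 | h3
        · obtain ⟨i, -, rfl⟩ := mem_image.1 h3
          exact ((h1 i).trans (h _ fun h4 => k4 i ⟨h', h4⟩)).trans (h2 i).symm
        · obtain ⟨i, -, rfl⟩ := mem_image.1 h3
          exact ((h1 i).symm.trans (h _ fun h4 => k4 i ⟨h4, h'⟩)).trans (h2 i)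
      · exact h e' h'
  · intro e
    rw [sum_filter, Fintype.sum_sum_type]
    have hb0 : (0 : ℝ) ≤ ((800 : ℝ) ^ q)⁻¹ := by positivity
    have hb1 : ((800 : ℝ) ^ q)⁻¹ ≤ 1 := inv_le_one_of_one_le₀ hβ
    have s1 : ∑ x : J1, (if e ∈ supp (Sum.inl x) then
        ((800 : ℝ) ^ q)⁻¹ ^ ((I (Sum.inl x) e).card - 1) else 0) ≤ 2 := by
      refine le_trans ?_ (geo ℓ' hinj)
      rw [Fintype.sum_sigma]
      refine sum_le_sum fun j _ => ?_
      have h1 := triple (B := Fin (n' j)) π (fun w : RW C (ℓ' j + 1) => w.1) e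
        (((800 : ℝ) ^ q)⁻¹ ^ ℓ' j) (by positivity)
      have h2 := num2 _ _ q (ℓ' j) (ℓ' j) (num1 (ℓ' j + 1) (30 * ℓ' j) _ _
        ((Fintype.card_fin _).trans_le (hn' j)) (card_RW C hC (ℓ' j + 1)))
        (by have := (hℓ' j).1; rw [hq]; omega)
      refine le_trans (le_of_eq ?_) (h1.trans h2)
      rw [Fintype.sum_prod_type]
      refine sum_congr rfl fun a _ => ?_
      rw [Fintype.sum_prod_type]
      refine sum_congr rfl fun b _ => sum_congr rfl fun w _ => ?_
      have h3 : (I (Sum.inl ⟨j, a, b, w⟩) e).card - 1 = ℓ' j := by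
        show (univ.image (ed π a w.1)).card - 1 = ℓ' j
        rw [card_image_of_injective _ (ed_inj hg w.2 (by have := (hℓ' j).2; omega) a)]
        simp
      rw [h3]
      rfl
    have s2 : ∑ x : J2, (if e ∈ supp (Sum.inr x) then
        ((800 : ℝ) ^ q)⁻¹ ^ ((I (Sum.inr x) e).card - 1) else 0) ≤ 2 := by
      obtain ⟨c, hc⟩ : ∃ c : ℝ, c = ((800 : ℝ) ^ q)⁻¹ ^ ((ℓ + 3) / 3 - 1) := ⟨_, rfl⟩
      have hc0 : 0 ≤ c := by rw [hc]; positivity
      have h1 := triple (B := Fin n) π (fun w : RW C (ℓ + 1) => w.1) e c hc0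
      have h2 := num2 _ _ q ((ℓ + 3) / 3 - 1) 0 (num1 (ℓ + 1) (30 * ℓ) _ _
        ((Fintype.card_fin _).trans_le hn) (card_RW C hC (ℓ + 1))) (by rw [hq]; omega)
      rw [← hc, pow_zero] at h2
      let T : Fin n → RW C (ℓ + 1) → ℝ := fun a w =>
        if e ∈ univ.image (ed π a w.1) then c else 0
      have hT : ∀ a w, 0 ≤ T a w := fun a w => by
        simp only [T]; split_ifs
        · exact hc0
        · exact le_rfl
      have h3 : ∑ a : Fin n, ∑ _b : Fin n, ∑ w, T a w ≤ 1 := h1.trans h2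
      calc _ ≤ ∑ x : J2, (T x.1.1.1 x.2 + T x.1.1.2 x.2) := by
            refine sum_le_sum fun x _ => ?_
            split_ifs with he
            · have h4 := (hI2 x.1 x.2 e he).2.2.1
              have h5 : ((800 : ℝ) ^ q)⁻¹ ^ ((I (Sum.inr x) e).card - 1) ≤ c := by
                rw [hc]
                refine pow_le_pow_of_le_one hb0 hb1 ?_
                show (ℓ + 3) / 3 - 1 ≤ (I2 x.1 x.2 e).card - 1
                omega
              refine h5.trans ?_
              rcases mem_union.1 he with h6 | h6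
              · have : T x.1.1.1 x.2 = c := if_pos h6
                linarith [hT x.1.1.2 x.2]
              · have : T x.1.1.2 x.2 = c := if_pos h6
                linarith [hT x.1.1.1 x.2]
            · exact add_nonneg (hT _ _) (hT _ _)
        _ = ∑ p : {p : Fin n × Fin n // p.1 ≠ p.2}, ∑ w, (T p.1.1 w + T p.1.2 w) :=
            Fintype.sum_prod_type _
        _ ≤ ∑ p : Fin n × Fin n, ∑ w, (T p.1 w + T p.2 w) := by
            rw [← Finset.sum_subtype (univ.filter fun p : Fin n × Fin n => p.1 ≠ p.2)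
              (by simp) (fun p => ∑ w, (T p.1 w + T p.2 w))]
            exact sum_le_sum_of_subset_of_nonneg (filter_subset _ _) fun p _ _ =>
              sum_nonneg fun w _ => add_nonneg (hT _ _) (hT _ _)
        _ = ∑ a : Fin n, ∑ _b : Fin n, ∑ w, T a w + ∑ _a : Fin n, ∑ b : Fin n, ∑ w, T b w := by
            rw [Fintype.sum_prod_type]
            simp only [sum_add_distrib]
        _ ≤ 2 := by
            rw [sum_comm (f := fun (_ : Fin n) (b : Fin n) => ∑ w, T b w)]
            linarith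
    have hF' : 2 * (800 : ℝ) ^ q ≤ Fintype.card F := by exact_mod_cast hF
    have h4 : (4 : ℝ) ≤ (800 : ℝ) ^ q :=
      le_trans (by norm_num) (le_self_pow₀ (by norm_num) (by omega))
    calc _ ≤ (800 : ℝ) ^ q + (2 + 2) := by
          refine add_le_add le_rfl (add_le_add ?_ ?_)
          · exact le_trans (le_of_eq (sum_congr rfl fun x _ => by congr)) s1
          · exact le_trans (le_of_eq (sum_congr rfl fun x _ => by congr)) s2
      _ ≤ _ := by linarith

end Pool.Agent.Lib.IT
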