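import Pool.Agent.Lib.IT.Blue

/-! Block MEA: the law of the orbit size. -/

namespace Pool.Agent.Lib.IT

open Finset MeasureTheory

namespace MEA

section Walk
variable {C A : Type}

theorem walk_snoc (π : C → Equiv.Perm A) (a : A) (w : List (C × Bool)) (l : C × Bool) :
    walk π a (w ++ [l]) = step π (walk π a w) l := by
  simp [walk, List.foldl_append]

/-- points reached in at most `k` steps -/
def ball (π : C → Equiv.Perm A) (a : A) (k : ℕ) : Set A :=
  {b | ∃ w : List (C × Bool), w.length ≤ k ∧ walk π a w = b}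

theorem ball_sub (π : C → Equiv.Perm A) (a : A) (k : ℕ) : ball π a k ⊆ orb π a :=
  fun _ ⟨w, _, h⟩ => ⟨w, h⟩

theorem ball_mono (π : C → Equiv.Perm A) (a : A) (k : ℕ) : ball π a k ⊆ ball π a (k + 1) :=
  fun _ ⟨w, hw, h⟩ => ⟨w, by omega, h⟩

theorem orb_sub_of (π : C → Equiv.Perm A) (a : A) (k : ℕ) (h : ball π a (k + 1) ⊆ ball π a k) :
    orb π a ⊆ ball π a k := by
  rintro _ ⟨w, rfl⟩
  induction w using List.reverseRecOn with
  | nil => exact ⟨[], by simp, rfl⟩
  | append_singleton w l ih =>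
    obtain ⟨w', hw', e⟩ := ih
    refine h ⟨w' ++ [l], by simpa using hw', ?_⟩
    rw [walk_snoc, walk_snoc, e]

theorem ball_or (π : C → Equiv.Perm A) (a : A) (hf : (orb π a).Finite) (k : ℕ) :
    orb π a ⊆ ball π a k ∨ k + 1 ≤ (ball π a k).ncard := by
  induction k with
  | zero =>
    right
    exact (Set.ncard_pos (hf.subset (ball_sub π a 0))).2 ⟨a, [], by simp, rfl⟩
  | succ k ih =>
    rcases ih with ih | ih
    · exact Or.inl (ih.trans (ball_mono π a k))
    · by_cases hs : ball π a (k + 1) ⊆ ball π a k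
      · exact Or.inl ((orb_sub_of π a k hs).trans (ball_mono π a k))
      · right
        have : (ball π a k).ncard < (ball π a (k + 1)).ncard :=
          Set.ncard_lt_ncard ⟨ball_mono π a k, hs⟩ (hf.subset (ball_sub π a _))
        omega

theorem orb_sub_ball (π : C → Equiv.Perm A) (a : A) (N : ℕ) (hN : 1 ≤ N)
    (h : (orb π a).ncard = N) : orb π a ⊆ ball π a N := by
  have hf : (orb π a).Finite := Set.finite_of_ncard_ne_zero (by omega)
  rcases ball_or π a hf N with h1 | h1
  · exact h1
  · have := Set.ncard_le_ncard (ball_sub π a N) hf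
    omega

theorem orb_congr (π π' : C → Equiv.Perm A) (a : A)
    (h : ∀ b ∈ orb π a, ∀ l, step π' b l = step π b l) : orb π' a = orb π a := by
  have key : ∀ w, walk π' a w = walk π a w := by
    intro w
    induction w using List.reverseRecOn with
    | nil => rfl
    | append_singleton w l ih => rw [walk_snoc, walk_snoc, ih, h _ ⟨w, rfl⟩]
  ext b
  simp only [orb, Set.mem_ofPred_eq, key]

end Walk

section Fib
variable {X T : Type} [AddCommGroup X] [AddCommGroup T] [Finite T] {m : MeasurableSpace X}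
  {μ : Measure X}

theorem fib (ρ : X →+ T) [IsProbabilityMeasure μ]
    (hinv : ∀ ω0 : X, MeasurePreserving (fun ω => ω0 + ω) μ μ)
    (hm : ∀ t, MeasurableSet (ρ ⁻¹' {t})) (S : Set T) :
    MeasurableSet (ρ ⁻¹' S) ∧ (∃ j : ℕ, (Nat.card T : ℝ) * μ.real (ρ ⁻¹' S) = j) ∧
      (μ.real (ρ ⁻¹' S) ≠ 0 ↔ (ρ ⁻¹' S).Nonempty) := by
  classical
  have := Fintype.ofFinite T
  have h1 : ∀ t, μ.real (ρ ⁻¹' {t}) = if t ∈ ρ.range then μ.real (ρ ⁻¹' {0}) else 0 := by
    intro t
    split_ifs with ht
    · obtain ⟨ω0, rfl⟩ := ht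
      have := (hinv ω0).measure_preimage (hm (ρ ω0)).nullMeasurableSet
      have e : (fun ω => ω0 + ω) ⁻¹' (ρ ⁻¹' {ρ ω0}) = ρ ⁻¹' {0} := by
        ext ω; simp
      rw [e] at this
      simp only [Measure.real, this]
    · have : ρ ⁻¹' {t} = ∅ := by
        ext ω
        simp only [Set.mem_preimage, Set.mem_singleton_iff, Set.mem_empty_iff_false, iff_false]
        rintro rfl
        exact ht ⟨ω, rfl⟩
      simp [this]
  have h2 : ∀ s : Finset T, μ.real (ρ ⁻¹' (s : Set T)) =
      ((s.filter fun t => t ∈ ρ.range).card : ℝ) * μ.real (ρ ⁻¹' {0}) := by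
    intro s
    rw [← sum_measureReal_preimage_singleton s (fun t _ => hm t)]
    rw [Finset.sum_congr rfl fun t _ => h1 t, ← Finset.sum_filter, Finset.sum_const, nsmul_eq_mul]
  have h3 : (Nat.card ρ.range : ℝ) * μ.real (ρ ⁻¹' {0}) = 1 := by
    have := h2 univ
    simp only [coe_univ, Set.preimage_univ, probReal_univ] at this
    rw [this, Nat.card_eq_fintype_card, Fintype.card_subtype]
  have hc : μ.real (ρ ⁻¹' {0}) ≠ 0 := by
    intro h0
    rw [h0] at h3
    simp at h3
  obtain ⟨d, hd⟩ := AddSubgroup.card_addSubgroup_dvd_card ρ.range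
  obtain ⟨s, hS⟩ : ∃ s : Finset T, S = (s : Set T) := ⟨S.toFinite.toFinset, (Set.Finite.coe_toFinset _).symm⟩
  refine ⟨?_, ?_, ?_⟩
  · have : ρ ⁻¹' S = ⋃ t ∈ S, ρ ⁻¹' {t} := by
      ext ω; simp
    rw [this]
    exact MeasurableSet.biUnion S.to_countable fun t _ => hm t
  · refine ⟨d * (s.filter fun t => t ∈ ρ.range).card, ?_⟩
    rw [hS, h2, hd]
    push_cast
    linear_combination (d * ((s.filter fun t => t ∈ ρ.range).card : ℝ)) * h3
  · constructor
    · intro h0
      by_contra hne
      rw [Set.not_nonempty_iff_eq_empty] at hne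
      rw [hne] at h0
      simp at h0
    · rintro ⟨ω, hω⟩
      rw [hS] at hω
      rw [hS, h2]
      refine mul_ne_zero ?_ hc
      rw [Nat.cast_ne_zero, ← Nat.pos_iff_ne_zero, Finset.card_pos]
      exact ⟨ρ ω, Finset.mem_filter.2 ⟨by simpa using hω, ⟨ω, rfl⟩⟩⟩

end Fib

/-- patterns on the words of length at most `N` -/
abbrev Pat (C W : Type) (N : ℕ) :=
  {w : List ((C × W) × Bool) // w.length ≤ N} → C × Bool → W

instance (C W : Type) [Finite C] [Finite W] (N : ℕ) : Finite (Pat C W N) := by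
  have : Finite {w : List ((C × W) × Bool) // w.length ≤ N} :=
    (List.finite_length_le ((C × W) × Bool) N).to_subtype
  infer_instance

section Grp
variable {C W : Type} [Fintype C] [AddCommGroup W] {Γ : Type} [Group Γ]

/-- value of a word -/
def wv (gen : C × W → Γ) (w : List ((C × W) × Bool)) : Γ :=
  (w.map fun l => if l.2 then gen l.1 else (gen l.1)⁻¹).prod

/-- restriction to a ball -/
def res (gen : C × W → Γ) (X : AddSubgroup (Γ → C × Bool → W)) (N : ℕ) : X →+ Pat C W N where
  toFun ω := fun w p => ω.1 (wv gen w.1) p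
  map_zero' := rfl
  map_add' _ _ := rfl

variable {gen : C × W → Γ} {X : AddSubgroup (Γ → C × Bool → W)}

omit [Fintype C] in
theorem step_sig (h : Cfg gen X) (ω : X) (g : Γ) (l : C × Bool) :
    step (sig h ω) g l =
      g * if l.2 then gen (l.1, ω.1 g l) else (gen (l.1, ω.1 g l))⁻¹ := by
  obtain ⟨c, b⟩ := l
  cases b <;> rfl

theorem walk_wv (h : Cfg gen X) (ω : X) (w : List (C × Bool)) :
    ∃ w' : List ((C × W) × Bool), w'.length = w.length ∧ wv gen w' = walk (sig h ω) 1 w := by
  induction w using List.reverseRecOn with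
  | nil => exact ⟨[], rfl, rfl⟩
  | append_singleton w l ih =>
    obtain ⟨w', hl, e⟩ := ih
    refine ⟨w' ++ [((l.1, ω.1 (walk (sig h ω) 1 w) l), l.2)], by simp [hl], ?_⟩
    rw [walk_snoc, step_sig, ← e]
    simp [wv]

theorem orb_res (h : Cfg gen X) (N : ℕ) (hN : 1 ≤ N) (ω ω' : X)
    (e : res gen X N ω' = res gen X N ω) (hω : (orb (sig h ω) 1).ncard = N) :
    (orb (sig h ω') 1).ncard = N := by
  rw [orb_congr (sig h ω) (sig h ω') 1, hω]
  intro b hb l
  obtain ⟨w, hw, rfl⟩ := orb_sub_ball _ _ N hN hω hb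
  obtain ⟨w', hl, e'⟩ := walk_wv h ω w
  have : ω'.1 (wv gen w') l = ω.1 (wv gen w') l := congrFun (congrFun e ⟨w', by omega⟩) l
  rw [step_sig, step_sig, ← e', this]

end Grp

end MEA

open MEA in
theorem stMEA : St_MEA := by
  intro C W _ _ _
  refine ⟨fun N => ∏ k ∈ range (N + 1), Nat.card (Pat C W k),
    fun N => Finset.prod_pos fun k _ => Nat.card_pos,
    fun N N' hN => Finset.prod_dvd_prod_of_subset _ _ _ (Finset.range_mono (by omega)), ?_⟩
  intro Γ _ gen X h m μ hμ
  have := hμ.prob
  have hfib : ∀ N t, MeasurableSet (res gen X N ⁻¹' {t}) := by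
    intro N t
    have : Finite {w : List ((C × W) × Bool) // w.length ≤ N} :=
      (List.finite_length_le ((C × W) × Bool) N).to_subtype
    have : res gen X N ⁻¹' {t} = ⋂ w, ⋂ p, {ω : X | ω.1 (wv gen w.1) p = t w p} := by
      ext ω
      simp only [Set.mem_preimage, Set.mem_singleton_iff, Set.mem_iInter, Set.mem_ofPred_eq]
      exact ⟨fun e w p => congrFun (congrFun e w) p, fun e => funext fun w => funext fun p => e w p⟩
    rw [this]
    exact MeasurableSet.iInter fun w => MeasurableSet.iInter fun p => hμ.meas _ _ _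
  set n : X → ℕ := fun ω => (orb (sig h ω) 1).ncard with hn
  have hE : ∀ N, 1 ≤ N → n ⁻¹' {N} = res gen X N ⁻¹' (res gen X N '' (n ⁻¹' {N})) := by
    intro N hN
    refine Set.Subset.antisymm (Set.subset_preimage_image _ _) ?_
    rintro ω' ⟨ω, hω, e⟩
    exact orb_res h N hN ω ω' e.symm hω
  have hF := fun N (hN : 1 ≤ N) => fib (res gen X N) hμ.inv (hfib N) (res gen X N '' (n ⁻¹' {N}))
  have hM1 : ∀ N, 1 ≤ N → MeasurableSet (n ⁻¹' {N}) := fun N hN => by
    rw [hE N hN]; exact (hF N hN).1
  have hM : ∀ N, MeasurableSet (n ⁻¹' {N}) := by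
    intro N
    rcases Nat.eq_zero_or_pos N with rfl | hN
    · have : n ⁻¹' {0} = (⋃ k, n ⁻¹' {k + 1})ᶜ := by
        ext ω
        simp only [Set.mem_preimage, Set.mem_singleton_iff, Set.mem_compl_iff, Set.mem_iUnion,
          not_exists]
        constructor
        · intro e k; omega
        · intro e
          by_contra h0
          exact e (n ω - 1) (by omega)
      rw [this]
      exact (MeasurableSet.iUnion fun k => hM1 _ (by omega)).compl
    · exact hM1 N hN
  have hmeas : Measurable n := measurable_to_countable' hM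
  have hint : Integrable (fun ω => 1 / (n ω : ℝ)) μ := by
    refine Integrable.of_bound (C := 1) ?_ (Filter.Eventually.of_forall fun ω => ?_)
    · exact ((measurable_from_nat (f := fun k : ℕ => 1 / (k : ℝ))).comp hmeas).aestronglyMeasurable
    · rw [Real.norm_of_nonneg (by positivity)]
      rcases Nat.eq_zero_or_pos (n ω) with e | e
      · simp [e]
      · rw [div_le_one (by exact_mod_cast e)]
        exact_mod_cast e
  refine ⟨hint, fun N => μ.real (n ⁻¹' {N}), ?_, fun N hN => ⟨measureReal_le_one, ?_, ?_⟩⟩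
  · have hs := hasSum_integral_iUnion (μ := μ) (f := fun ω => 1 / (n ω : ℝ)) hM
      (fun i j hij => Set.disjoint_left.2 fun ω hi hj => hij (hi.symm.trans hj))
      hint.integrableOn
    have hu : ⋃ N, n ⁻¹' {N} = Set.univ := by
      ext ω; simp
    rw [hu, setIntegral_univ] at hs
    have e : (fun N : ℕ => μ.real (n ⁻¹' {N}) / N) =
        fun N : ℕ => ∫ ω in n ⁻¹' {N}, 1 / (n ω : ℝ) ∂μ := by
      funext N
      rw [setIntegral_congr_fun (g := fun _ => 1 / (N : ℝ)) (hM N)
        (fun ω hω => by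
          simp only [Set.mem_preimage, Set.mem_singleton_iff] at hω
          simp only [hω]),
        setIntegral_const, smul_eq_mul, mul_one_div]
    exact e ▸ hs
  · obtain ⟨j, hj⟩ := (hF N hN).2.1
    rw [← hE N hN] at hj
    refine ⟨(∏ k ∈ range N, Nat.card (Pat C W k)) * j, ?_⟩
    beta_reduce
    rw [Finset.prod_range_succ, Nat.cast_mul, Nat.cast_mul, mul_assoc, hj]
  · have := (hF N hN).2.2
    rw [← hE N hN] at this
    exact this

end Pool.Agent.Lib.IT
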