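import Pool.Agent.Lib.IT.Blue

/-! Block PAR: Parseval for the Fourier transform along the dual group. -/

namespace Pool.Agent.Lib.IT

open Finset MeasureTheory

namespace PAR

theorem zmod_cases (a : ZMod 2) : a = 0 ∨ a = 1 := by
  revert a; decide

theorem sgn_zero : sgn 0 = 1 := by simp [sgn]

theorem sgn_one : sgn 1 = -1 := by
  have : (1 : ZMod 2) ≠ 0 := by decide
  simp [sgn, this]

theorem sgn_add (a b : ZMod 2) : sgn (a + b) = sgn a * sgn b := by
  have h11 : (1 : ZMod 2) + 1 = 0 := by decide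
  rcases zmod_cases a with rfl | rfl <;> rcases zmod_cases b with rfl | rfl <;>
    simp [h11, sgn_zero, sgn_one]

theorem abs_sgn (a : ZMod 2) : |sgn a| = 1 := by
  rcases zmod_cases a with rfl | rfl <;> simp [sgn_zero, sgn_one]

theorem add_eq_zero_iff' (a b : ZMod 2) : a + b = 0 ↔ (a = 0 ↔ b = 0) := by
  revert a b; decide

variable {C W : Type} [Fintype C] [Fintype W] [AddCommGroup W] {Γ : Type} [Group Γ]
  {gen : C × W → Γ} {X : AddSubgroup (Γ → C × Bool → W)} {m : MeasurableSpace X} {μ : Measure X}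

omit [Group Γ] in
theorem meas_ker (H : Haar X m μ) (v : X →+ ZMod 2) (hv : v ∈ Vg X) :
    MeasurableSet {ω : X | v ω = 0} := by
  classical
  induction hv using AddSubgroup.closure_induction with
  | mem v hv =>
    obtain ⟨g, p, φ, rfl⟩ := hv
    have : {ω : X | coord X g p φ ω = 0} =
        ⋃ w ∈ (univ.filter fun w => φ w = 0), {ω : X | ω.1 g p = w} := by
      ext ω; simp [coord]
    rw [this]
    exact Finset.measurableSet_biUnion _ fun w _ => H.meas g p w
  | zero => simp
  | add u v _ _ hu hv =>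
    have : {ω : X | (u + v) ω = 0} = ({ω : X | u ω = 0} ∩ {ω : X | v ω = 0}) ∪
        ({ω : X | u ω = 0}ᶜ ∩ {ω : X | v ω = 0}ᶜ) := by
      ext ω
      simp only [Set.mem_ofPred_eq, AddMonoidHom.add_apply, add_eq_zero_iff', Set.mem_union,
        Set.mem_inter_iff, Set.mem_compl_iff]
      tauto
    rw [this]
    exact (hu.inter hv).union (hu.compl.inter hv.compl)
  | neg u _ hu => simpa using hu

omit [Group Γ] in
theorem meas_sgn (H : Haar X m μ) (v : Vg X) : Measurable fun ω : X => sgn (v.1 ω) := by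
  unfold sgn
  exact Measurable.ite (meas_ker H v.1 v.2) measurable_const measurable_const

omit [Group Γ] in
theorem int_sgn (H : Haar X m μ) (v : Vg X) : Integrable (fun ω : X => sgn (v.1 ω)) μ := by
  have := H.prob
  refine Integrable.mono' (integrable_const (1 : ℝ)) (meas_sgn H v).aestronglyMeasurable ?_
  exact Filter.Eventually.of_forall fun ω => by rw [Real.norm_eq_abs, abs_sgn]

omit [Group Γ] in
open scoped Classical in
theorem integral_sgn (H : Haar X m μ) (v : Vg X) :
    ∫ ω, sgn (v.1 ω) ∂μ = if v = 0 then 1 else 0 := by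
  have := H.prob
  split_ifs with hv
  · subst hv; simp [sgn_zero]
  · obtain ⟨ω0, h0⟩ : ∃ ω0, v.1 ω0 = 1 := by
      by_contra hn
      push Not at hn
      exact hv (Subtype.ext (AddMonoidHom.ext fun ω => (zmod_cases _).resolve_right (hn ω)))
    have h1 : ∫ ω, sgn (v.1 ω) ∂μ = ∫ ω, sgn (v.1 (ω0 + ω)) ∂μ := by
      conv_lhs => rw [← (H.inv ω0).map_eq]
      exact integral_map (H.inv ω0).measurable.aemeasurable (meas_sgn H v).aestronglyMeasurable
    have h2 : ∫ ω, sgn (v.1 (ω0 + ω)) ∂μ = -∫ ω, sgn (v.1 ω) ∂μ := by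
      rw [← integral_neg]
      refine integral_congr_ae (Filter.Eventually.of_forall fun ω => ?_)
      simp only [map_add, h0, sgn_add, sgn_one]; ring
    linarith

omit [Group Γ] [Fintype C] [Fintype W] in
theorem add_eq_zero_V (u v : Vg X) : u + v = 0 ↔ u = v := by
  have hvv : v + v = 0 := Subtype.ext (AddMonoidHom.ext fun ω => by
    simpa using CharTwo.add_self_eq_zero (v.1 ω))
  constructor
  · intro h
    exact add_right_cancel (h.trans hvv.symm)
  · rintro rfl; exact hvv

open scoped Classical in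
/-- the character attached to a group element -/
noncomputable def ch (h : Cfg gen X) (g : Γ) (x : Gg h) (ω : X) : ℝ :=
  if x.right = g⁻¹ then sgn ((actV h g (Multiplicative.toAdd x.left)).1 ω) else 0

omit [Fintype W] in
theorem hat_eq (h : Cfg gen X) (ξ : MonoidAlgebra ℝ (Gg h)) (ω : X) (g : Γ) :
    hat h ξ ω g = ∑ x ∈ ξ.coeff.support, ch h g x ω * ξ.coeff x := by
  unfold hat ch Finsupp.sum
  refine Finset.sum_congr rfl fun x _ => ?_
  by_cases hx : x.right = g⁻¹ <;> simp [hx]

theorem int_ch (H : Haar X m μ) (h : Cfg gen X) (g : Γ) (x : Gg h) : Integrable (ch h g x) μ := by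
  unfold ch
  split_ifs
  · exact int_sgn H _
  · exact integrable_zero _ _ _

open scoped Classical in
omit [Fintype W] in
theorem ch_mul (h : Cfg gen X) (g : Γ) (x y : Gg h) : (fun ω => ch h g x ω * ch h g y ω) =
    fun ω => if x.right = g⁻¹ ∧ y.right = g⁻¹ then
      sgn ((actV h g (Multiplicative.toAdd x.left) + actV h g (Multiplicative.toAdd y.left)).1 ω)
      else 0 := by
  funext ω
  unfold ch
  by_cases hx : x.right = g⁻¹ <;> by_cases hy : y.right = g⁻¹ <;> simp [hx, hy, sgn_add]

theorem int_ch_mul (H : Haar X m μ) (h : Cfg gen X) (g : Γ) (x y : Gg h) :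
    Integrable (fun ω => ch h g x ω * ch h g y ω) μ := by
  rw [ch_mul]
  split_ifs
  · exact int_sgn H _
  · exact integrable_zero _ _ _

open scoped Classical in
theorem integral_ch_mul (H : Haar X m μ) (h : Cfg gen X) (g : Γ) (x y : Gg h) :
    ∫ ω, ch h g x ω * ch h g y ω ∂μ = if x = y ∧ x.right = g⁻¹ then 1 else 0 := by
  rw [ch_mul]
  by_cases hxy : x.right = g⁻¹ ∧ y.right = g⁻¹
  · simp only [hxy, and_self, if_true, and_true]
    rw [integral_sgn H]
    congr 1
    rw [add_eq_zero_V, (actV h g).injective.eq_iff]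
    refine propext ⟨fun e => SemidirectProduct.ext ?_ (hxy.1.trans hxy.2.symm), fun e => by rw [e]⟩
    exact Multiplicative.toAdd.injective e
  · have : ¬ (x = y ∧ x.right = g⁻¹) := by
      rintro ⟨rfl, e⟩; exact hxy ⟨e, e⟩
    simp [hxy, this]

open scoped Classical in
theorem integral_ch_one (H : Haar X m μ) (h : Cfg gen X) (x : Gg h) :
    ∫ ω, ch h 1 x ω ∂μ = if x = 1 then 1 else 0 := by
  have e : ch h 1 x = fun ω => ch h 1 x ω * ch h 1 1 ω := by
    funext ω
    simp [ch, sgn_zero]
  rw [e, integral_ch_mul H]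
  by_cases hx : x = 1
  · subst hx; simp
  · simp [hx]

omit [Fintype W] in
theorem hat_sq (h : Cfg gen X) (ξ : MonoidAlgebra ℝ (Gg h)) (g : Γ) :
    (fun ω => hat h ξ ω g ^ 2) = fun ω => ∑ x ∈ ξ.coeff.support, ∑ y ∈ ξ.coeff.support,
      ch h g x ω * ch h g y ω * (ξ.coeff x * ξ.coeff y) := by
  funext ω
  rw [hat_eq, sq, Finset.sum_mul_sum]
  refine Finset.sum_congr rfl fun x _ => Finset.sum_congr rfl fun y _ => by ring

theorem int_hat_sq (H : Haar X m μ) (h : Cfg gen X) (ξ : MonoidAlgebra ℝ (Gg h)) (g : Γ) :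
    Integrable (fun ω => hat h ξ ω g ^ 2) μ := by
  rw [hat_sq]
  exact integrable_finsetSum _ fun x _ => integrable_finsetSum _ fun y _ =>
    (int_ch_mul H h g x y).mul_const _

open scoped Classical in
theorem integral_hat_sq (H : Haar X m μ) (h : Cfg gen X) (ξ : MonoidAlgebra ℝ (Gg h)) (g : Γ) :
    ∫ ω, hat h ξ ω g ^ 2 ∂μ =
      ∑ x ∈ ξ.coeff.support, if x.right = g⁻¹ then ξ.coeff x ^ 2 else 0 := by
  rw [hat_sq, integral_finsetSum _ fun x _ => integrable_finsetSum _ fun y _ =>
    (int_ch_mul H h g x y).mul_const _]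
  refine Finset.sum_congr rfl fun x hx => ?_
  rw [integral_finsetSum _ fun y _ => (int_ch_mul H h g x y).mul_const _]
  simp only [integral_mul_const, integral_ch_mul H]
  rw [Finset.sum_eq_single x]
  · split_ifs <;> simp_all [sq]
  · intro y _ hy
    simp [hy.symm]
  · intro hx'; exact absurd hx hx'

end PAR

open PAR in
theorem stPAR : St_PAR := by
  classical
  intro C W _ _ _ Γ _ gen X h m μ H ξ
  have e1 : (fun ω => hat h ξ ω 1) = fun ω => ∑ x ∈ ξ.coeff.support, ch h 1 x ω * ξ.coeff x :=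
    funext fun ω => hat_eq h ξ ω 1
  refine ⟨?_, ?_, ξ.coeff.support.image fun x => x.right⁻¹, ?_, ?_⟩
  · rw [e1]
    exact integrable_finsetSum _ fun x _ => (int_ch H h 1 x).mul_const _
  · rw [e1, integral_finsetSum _ fun x _ => (int_ch H h 1 x).mul_const _]
    simp only [integral_mul_const, integral_ch_one H]
    rw [Finset.sum_eq_single 1]
    · simp
    · intro y _ hy; simp [hy]
    · intro h1; simpa using h1
  · intro ω g hg
    rw [hat_eq]
    refine Finset.sum_eq_zero fun x hx => ?_
    have : x.right ≠ g⁻¹ := fun e => hg (Finset.mem_image.2 ⟨x, hx, by rw [e, inv_inv]⟩)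
    simp [ch, this]
  · intro s' hs
    refine ⟨integrable_finsetSum _ fun g _ => int_hat_sq H h ξ g, ?_⟩
    rw [integral_finsetSum _ fun g _ => int_hat_sq H h ξ g]
    simp only [integral_hat_sq H]
    rw [Finset.sum_comm, Finsupp.sum]
    refine Finset.sum_congr rfl fun x hx => ?_
    rw [Finset.sum_eq_single x.right⁻¹]
    · simp
    · intro g _ hg
      have : x.right ≠ g⁻¹ := fun e => hg (by rw [e, inv_inv])
      simp [this]
    · intro hn; exact absurd (hs (Finset.mem_image.2 ⟨x, hx, rfl⟩)) hn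

end Pool.Agent.Lib.IT
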