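import Pool.Agent.Lib.IT.Blue

namespace Pool.Agent.Lib.IT

open Finset

theorem pl_ext (A : Type) [Fintype A] [DecidableEq A] (O : Finset A) (f : A → A) :
    ((univ : Finset (Equiv.Perm A)).filter fun σ => ∀ a ∈ O, σ a = f a).card ≤
      (Fintype.card A - O.card).factorial := by
  classical
  rcases ((univ : Finset (Equiv.Perm A)).filter
    fun σ => ∀ a ∈ O, σ a = f a).eq_empty_or_nonempty with h | ⟨σ0, h0⟩
  · rw [h]; simp
  · have h0' : ∀ a ∈ O, σ0 a = f a := (mem_filter.1 h0).2
    have hc : Fintype.card {g : Equiv.Perm A // ∀ a, ¬ (a ∉ O) → g a = a} =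
        (Fintype.card A - O.card).factorial := by
      rw [← Fintype.card_congr (Equiv.Perm.subtypeEquivSubtypePerm (fun a => a ∉ O)),
        Fintype.card_perm]
      congr 1
      rw [Fintype.card_subtype_compl]
      simp
    rw [← hc, Fintype.card_subtype]
    refine card_le_card_of_injOn (fun σ => σ0⁻¹ * σ) ?_ ?_
    · intro σ hσ
      have hσ' : ∀ a ∈ O, σ a = f a := (mem_filter.1 (mem_coe.1 hσ)).2
      refine mem_coe.2 (mem_filter.2 ⟨mem_univ _, fun a ha => ?_⟩)
      have ha' : a ∈ O := not_not.1 ha
      rw [Equiv.Perm.mul_apply, hσ' a ha', ← h0' a ha']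
      simp
    · intro σ _ τ _ h
      exact mul_left_cancel h

theorem pl_desc (i n : ℕ) (h : i ≤ n) (m : ℕ) :
    i.descFactorial m * n ^ m ≤ i ^ m * n.descFactorial m := by
  induction m with
  | zero => simp
  | succ k ih =>
    rw [Nat.descFactorial_succ, Nat.descFactorial_succ, pow_succ, pow_succ]
    have h1 : (i - k) * n ≤ i * (n - k) := by
      rw [Nat.sub_mul, Nat.mul_sub, Nat.mul_comm i k]
      exact Nat.sub_le_sub_left (Nat.mul_le_mul_left k h) _
    calc (i - k) * i.descFactorial k * (n ^ k * n)
        = ((i - k) * n) * (i.descFactorial k * n ^ k) := by ring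
      _ ≤ (i * (n - k)) * (i ^ k * n.descFactorial k) := Nat.mul_le_mul h1 ih
      _ = i ^ k * i * ((n - k) * n.descFactorial k) := by ring

theorem pl_count (A : Type) [Fintype A] [DecidableEq A] (O I : Finset A) :
    ((univ : Finset (Equiv.Perm A)).filter fun σ => ∀ a ∈ O, σ a ∈ I).card ≤
      (Fintype.card A - O.card).factorial * I.card.descFactorial O.card := by
  classical
  have ht : ((univ : Finset (O ↪ I)).image fun e => fun a : O => (e a : A)).card ≤
      I.card.descFactorial O.card := by
    refine card_image_le.trans ?_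
    rw [card_univ, Fintype.card_embedding_eq]
    simp
  refine le_trans ?_ (Nat.mul_le_mul_left _ ht)
  refine card_le_mul_card_image_of_maps_to (f := fun σ : Equiv.Perm A => fun a : O => σ a) ?_ _ ?_
  · intro σ hσ
    have hσ' : ∀ a ∈ O, σ a ∈ I := (mem_filter.1 hσ).2
    refine mem_image.2 ⟨⟨fun a => ⟨σ a, hσ' a a.2⟩, fun a b hab => ?_⟩, mem_univ _, rfl⟩
    exact Subtype.ext (σ.injective (congrArg Subtype.val hab))
  · intro b _
    refine le_trans (card_le_card ?_) (pl_ext A O fun a => if h : a ∈ O then b ⟨a, h⟩ else a)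
    intro σ hσ
    have hb := (mem_filter.1 hσ).2
    refine mem_filter.2 ⟨mem_univ _, fun a ha => ?_⟩
    rw [dif_pos ha, ← hb]

theorem stPL : St_PL := by
  intro A _ _
  refine ⟨fun O I => ?_, pl_ext A⟩
  have hO : O.card ≤ Fintype.card A := card_le_univ O
  have hI : I.card ≤ Fintype.card A := card_le_univ I
  have h1 := pl_count A O I
  have h2 := pl_desc I.card (Fintype.card A) hI O.card
  have h3 := Nat.factorial_mul_descFactorial hO
  rcases Nat.eq_zero_or_pos (Fintype.card A) with h0 | h0
  · have hO0 : O.card = 0 := by omega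
    rw [hO0] at h1 ⊢
    rw [pow_zero, mul_one]
    simp only [Nat.sub_zero, Nat.descFactorial_zero, mul_one] at h1
    exact_mod_cast h1
  · have hn : (0 : ℝ) < (Fintype.card A : ℝ) ^ O.card := by positivity
    rw [div_pow, ← mul_div_assoc, le_div_iff₀ hn]
    have h4 : ((univ : Finset (Equiv.Perm A)).filter fun σ => ∀ a ∈ O, σ a ∈ I).card *
        Fintype.card A ^ O.card ≤ (Fintype.card A).factorial * I.card ^ O.card := by
      calc _ ≤ (Fintype.card A - O.card).factorial * I.card.descFactorial O.card *
            Fintype.card A ^ O.card := Nat.mul_le_mul_right _ h1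
        _ = (Fintype.card A - O.card).factorial * (I.card.descFactorial O.card *
            Fintype.card A ^ O.card) := by ring
        _ ≤ (Fintype.card A - O.card).factorial * (I.card ^ O.card *
            (Fintype.card A).descFactorial O.card) := Nat.mul_le_mul_left _ h2
        _ = ((Fintype.card A - O.card).factorial * (Fintype.card A).descFactorial O.card) *
            I.card ^ O.card := by ring
        _ = _ := by rw [h3]
    exact_mod_cast h4

end Pool.Agent.Lib.IT
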