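import Pool.Agent.Lib.IT.Blue

/-! Block RG1: a random tuple of permutations has few short simple cycles. -/

namespace Pool.Agent.Lib.IT

open Finset

namespace RG1

variable {C A : Type}

theorem edge_eq {π : C → Equiv.Perm A} {a u : A} {l l' : C × Bool}
    (h : edge π a l = edge π u l') :
    l.1 = l'.1 ∧ ((l.2 = l'.2 ∧ u = a) ∨ (l.2 ≠ l'.2 ∧ u = step π a l)) := by
  obtain ⟨c, b⟩ := l
  obtain ⟨c', b'⟩ := l'
  cases b <;> cases b' <;> simp only [edge, step, Bool.false_eq_true, if_false, if_true,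
    Prod.mk.injEq] at h ⊢ <;> obtain ⟨h, rfl⟩ := h
  · exact ⟨rfl, Or.inl ⟨trivial, ((π c).symm.injective h).symm⟩⟩
  · exact ⟨rfl, Or.inr ⟨by simp, h.symm⟩⟩
  · exact ⟨rfl, Or.inr ⟨by simp, by rw [h, Equiv.apply_symm_apply]⟩⟩
  · exact ⟨rfl, Or.inl ⟨trivial, h.symm⟩⟩

theorem mem_lab {π : C → Equiv.Perm A} {e : A × C} : ∀ {w : List (C × Bool)} {a : A},
    e ∈ lab π id a w → ∃ u ∈ verts π a w, ∃ l, e = edge π u l
  | [], _, h => by simp [lab] at h
  | l :: w, a, h => by
    simp only [lab, id, List.mem_cons] at h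
    rcases h with rfl | h
    · exact ⟨a, by simp [verts], l, rfl⟩
    · obtain ⟨u, h1, h2⟩ := mem_lab h
      exact ⟨u, by simp [verts, h1], h2⟩

theorem nodup_lab {π : C → Equiv.Perm A} : ∀ {w : List (C × Bool)} {a : A},
    FreeGroup.IsReduced w → (verts π a w).Nodup → (lab π id a w).Nodup
  | [], _, _, _ => by simp [lab]
  | [l], a, _, _ => by simp [lab]
  | l :: l' :: w, a, h1, h2 => by
    rw [FreeGroup.isReduced_cons_cons] at h1
    have h3 := nodup_lab h1.2 (List.nodup_cons.1 h2).2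
    refine List.nodup_cons.2 ⟨fun h => ?_, h3⟩
    simp only [verts, List.nodup_cons, List.mem_cons, not_or] at h2
    simp only [lab, id, List.mem_cons] at h
    rcases h with h | h
    · obtain ⟨h4, ⟨-, h5⟩ | ⟨h5, -⟩⟩ := edge_eq h
      · exact h2.1.1 h5.symm
      · exact h5 (h1.1 h4)
    · obtain ⟨u, h4, l'', h5⟩ := mem_lab h
      obtain ⟨-, ⟨-, rfl⟩ | ⟨-, rfl⟩⟩ := edge_eq h5
      · exact h2.1.2 h4
      · exact h2.2.1 h4

theorem length_lab {W : Type} {π : C → Equiv.Perm A} {z : A × C → W} :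
    ∀ (w : List (C × Bool)) (a : A), (lab π z a w).length = w.length
  | [], _ => rfl
  | _ :: w, _ => by simp [lab, length_lab w]

theorem length_verts {π : C → Equiv.Perm A} :
    ∀ (w : List (C × Bool)) (a : A), (verts π a w).length = w.length
  | [], _ => rfl
  | _ :: w, _ => by simp [verts, length_verts w]

theorem agree {π π₀ : C → Equiv.Perm A} : ∀ {w : List (C × Bool)} {a : A},
    verts π a w = verts π₀ a w → walk π a w = walk π₀ a w →
    ∀ e ∈ lab π₀ id a w, π e.2 e.1 = π₀ e.2 e.1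
  | [], _, _, _ => by simp [lab]
  | l :: w, a, h1, h2 => by
    simp only [verts, List.cons.injEq, true_and] at h1
    have h3 : step π a l = step π₀ a l := by
      cases w with
      | nil => exact h2
      | cons l' w => exact (List.cons.inj h1).1
    have h4 : walk π (step π a l) w = walk π₀ (step π₀ a l) w := h2
    rw [h3] at h1 h4
    intro e he
    simp only [lab, id, List.mem_cons] at he
    rcases he with rfl | he
    · obtain ⟨c, b⟩ := l
      cases b
      · simp only [step, edge, Bool.false_eq_true, if_false] at h3 ⊢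
        rw [Equiv.apply_symm_apply, ← h3, Equiv.apply_symm_apply]
      · exact h3
    · exact agree h1 h4 e he

theorem fac (n : ℕ) : ∀ k, 2 * k ≤ n → (n - k).factorial * n ^ k ≤ n.factorial * 2 ^ k
  | 0, _ => by simp
  | k + 1, h => by
    have h1 := fac n k (by omega)
    have h2 : n - k = (n - (k + 1)) + 1 := by omega
    rw [h2, Nat.factorial_succ] at h1
    have h3 : n ≤ 2 * (n - (k + 1) + 1) := by omega
    calc (n - (k + 1)).factorial * n ^ (k + 1)
        = (n - (k + 1)).factorial * n ^ k * n := by ring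
      _ ≤ (n - (k + 1)).factorial * n ^ k * (2 * (n - (k + 1) + 1)) := Nat.mul_le_mul_left _ h3
      _ = 2 * ((n - (k + 1) + 1) * (n - (k + 1)).factorial * n ^ k) := by ring
      _ ≤ 2 * (n.factorial * 2 ^ k) := Nat.mul_le_mul_left _ h1
      _ = n.factorial * 2 ^ (k + 1) := by ring

theorem count (hPL : St_PL) [Fintype C] [DecidableEq C] {n : ℕ} (E : Finset (Fin n × C))
    (hE : 2 * E.card ≤ n) (π₀ : C → Equiv.Perm (Fin n)) (S : Finset (C → Equiv.Perm (Fin n)))
    (hS : ∀ π ∈ S, ∀ e ∈ E, π e.2 e.1 = π₀ e.2 e.1) :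
    S.card * n ^ E.card ≤ Fintype.card (C → Equiv.Perm (Fin n)) * 2 ^ E.card := by
  let O : C → Finset (Fin n) := fun c => univ.filter fun a => (a, c) ∈ E
  have h1 : E.card = ∑ c, (O c).card := by
    rw [card_eq_sum_card_fiberwise (f := Prod.snd) (t := univ) fun _ _ => mem_univ _]
    refine sum_congr rfl fun c _ => ?_
    refine card_bij (fun e _ => e.1) (fun e he => ?_) (fun e he e' he' h => ?_) fun a ha => ?_
    · obtain ⟨h1, rfl⟩ := mem_filter.1 he
      exact mem_filter.2 ⟨mem_univ _, h1⟩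
    · exact Prod.ext h ((mem_filter.1 he).2.trans (mem_filter.1 he').2.symm)
    · exact ⟨(a, c), mem_filter.2 ⟨(mem_filter.1 ha).2, rfl⟩, rfl⟩
  have h2 : S ⊆ Fintype.piFinset fun c =>
      (univ : Finset (Equiv.Perm (Fin n))).filter fun σ => ∀ a ∈ O c, σ a = π₀ c a := by
    intro π hπ
    rw [Fintype.mem_piFinset]
    exact fun c => mem_filter.2 ⟨mem_univ _, fun a ha => hS π hπ (a, c) (mem_filter.1 ha).2⟩
  have h3 := card_le_card h2
  rw [Fintype.card_piFinset] at h3
  have h4 : ∀ c, 2 * (O c).card ≤ n := fun c =>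
    le_trans (Nat.mul_le_mul_left 2 (h1 ▸ single_le_sum (f := fun c => (O c).card)
      (fun _ _ => Nat.zero_le _) (mem_univ c))) hE
  calc S.card * n ^ E.card ≤ (∏ c, (n - (O c).card).factorial) * n ^ E.card := by
        refine Nat.mul_le_mul_right _ (h3.trans (prod_le_prod' fun c _ => ?_))
        have := (hPL (Fin n)).2 (O c) (π₀ c)
        rw [Fintype.card_fin] at this
        refine le_trans (card_le_card fun σ hσ => ?_) this
        simpa only [mem_filter] using hσ
    _ = ∏ c, ((n - (O c).card).factorial * n ^ (O c).card) := by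
        rw [h1, prod_mul_distrib, prod_pow_eq_pow_sum]
    _ ≤ ∏ c, (n.factorial * 2 ^ (O c).card) := prod_le_prod' fun c _ => fac n _ (h4 c)
    _ = _ := by
        rw [h1, prod_mul_distrib, prod_pow_eq_pow_sum, prod_const, Fintype.card_fun,
          Fintype.card_perm, Fintype.card_fin, card_univ]

/-- lists of a given length -/
def Lm (α : Type) [Fintype α] [DecidableEq α] (m : ℕ) : Finset (List α) :=
  univ.image fun v : List.Vector α m => v.toList

theorem mem_Lm {α : Type} [Fintype α] [DecidableEq α] {m : ℕ} {l : List α} :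
    l ∈ Lm α m ↔ l.length = m := by
  simp only [Lm, mem_image, mem_univ, true_and]
  exact ⟨fun ⟨v, h⟩ => h ▸ v.2, fun h => ⟨⟨l, h⟩, rfl⟩⟩

theorem card_Lm (α : Type) [Fintype α] [DecidableEq α] (m : ℕ) :
    (Lm α m).card ≤ Fintype.card α ^ m :=
  card_image_le.trans (by rw [card_univ, card_vector])

/-- the word and the vertex list come from a short simple cycle -/
def Good (π : C → Equiv.Perm A) (L : ℕ) (z : List (C × Bool) × List A) : Prop :=
  ∃ a, (a, z.1) ∈ SC π L ∧ verts π a z.1 = z.2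

theorem head_eq {π π' : C → Equiv.Perm A} {a a' : A} {w : List (C × Bool)} (hw : w ≠ [])
    (h : verts π a w = verts π' a' w) : a = a' := by
  cases w with
  | nil => exact absurd rfl hw
  | cons l w => exact (List.cons.inj h).1

theorem geo (x : ℕ) (hx : 2 ≤ x) : ∀ L, ∑ m ∈ Icc 1 L, x ^ m ≤ x ^ (L + 1)
  | 0 => by simp
  | L + 1 => by
    rw [sum_Icc_succ_top (by omega), pow_succ x (L + 1)]
    have := geo x hx L
    nlinarith [Nat.zero_le (x ^ (L + 1))]

end RG1

open RG1 in
theorem stRG1 (hPL : St_PL) : St_RG1 := by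
  classical
  intro C _ _ n L hn hC
  set T := Fintype.card (C → Equiv.Perm (Fin n)) with hT
  let J : ℕ → Finset (List (C × Bool) × List (Fin n)) := fun m => Lm _ m ×ˢ Lm _ m
  have h1 : ∀ π : C → Equiv.Perm (Fin n), (SC π L).ncard ≤
      ∑ m ∈ Icc 1 L, ((J m).filter (Good π L)).card := fun π => by
    refine le_trans ?_ card_biUnion_le
    rw [← Set.ncard_coe_finset]
    refine Set.ncard_le_ncard_of_injOn (fun x => (x.2, verts π x.1 x.2)) (fun x hx => ?_)
      (fun x hx x' _ h => ?_) (finite_toSet _)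
    · refine mem_coe.2 (mem_biUnion.2 ⟨x.2.length, mem_Icc.2 ⟨?_, hx.2.2.1⟩, mem_filter.2
        ⟨mem_product.2 ⟨mem_Lm.2 rfl, mem_Lm.2 (length_verts _ _)⟩, x.1, hx, rfl⟩⟩)
      exact List.length_pos_iff.2 hx.2.1
    · obtain ⟨a, w⟩ := x
      obtain ⟨a', w'⟩ := x'
      obtain ⟨rfl, h2⟩ := Prod.mk.inj h
      exact Prod.ext (head_eq hx.2.1 h2) rfl
  have h2 : ∀ m ∈ Icc 1 L, ∀ z ∈ J m,
      (univ.filter fun π : C → Equiv.Perm (Fin n) => Good π L z).card * n ^ m ≤ T * 2 ^ m := by
    intro m hm z hz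
    rcases (univ.filter fun π : C → Equiv.Perm (Fin n) => Good π L z).eq_empty_or_nonempty with
      h | ⟨π₀, h⟩
    · simp [h]
    obtain ⟨a, h3, h4⟩ := (mem_filter.1 h).2
    have h5 : (lab π₀ id a z.1).toFinset.card = m := by
      rw [List.toFinset_card_of_nodup (nodup_lab h3.1 h3.2.2.2.2), length_lab]
      exact mem_Lm.1 (mem_product.1 hz).1
    rw [← h5]
    refine count hPL _ (by have := (mem_Icc.1 hm).2; omega) π₀ _ fun π hπ e he => ?_
    obtain ⟨a', h6, h7⟩ := (mem_filter.1 hπ).2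
    obtain rfl : a' = a := head_eq h3.2.1 (h7.trans h4.symm)
    exact agree (h7.trans h4.symm) (h6.2.2.2.1.trans h3.2.2.2.1.symm) e (List.mem_toFinset.1 he)
  have h3 : ∀ m ∈ Icc 1 L, ∑ π : C → Equiv.Perm (Fin n), ((J m).filter (Good π L)).card ≤
      T * (4 * Fintype.card C) ^ m := by
    intro m hm
    have h4 : 0 < n ^ m := pow_pos (by have := mem_Icc.1 hm; omega) m
    refine Nat.le_of_mul_le_mul_right ?_ h4
    have h5 : (J m).card ≤ (2 * Fintype.card C) ^ m * n ^ m := by
      rw [card_product]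
      refine Nat.mul_le_mul ((card_Lm _ m).trans ?_) ((card_Lm _ m).trans ?_)
      · rw [Fintype.card_prod, Fintype.card_bool, mul_comm]
      · rw [Fintype.card_fin]
    calc (∑ π : C → Equiv.Perm (Fin n), ((J m).filter (Good π L)).card) * n ^ m
        = ∑ z ∈ J m, (univ.filter fun π : C → Equiv.Perm (Fin n) => Good π L z).card * n ^ m := by
          rw [← sum_mul]
          simp only [card_filter]
          rw [sum_comm]
      _ ≤ (J m).card * (T * 2 ^ m) := by
          simpa using sum_le_card_nsmul _ _ _ (h2 m hm)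
      _ ≤ (2 * Fintype.card C) ^ m * n ^ m * (T * 2 ^ m) := Nat.mul_le_mul_right _ h5
      _ = _ := by
          rw [show 4 * Fintype.card C = 2 * Fintype.card C * 2 by ring, mul_pow _ 2]; ring
  have h4 : ∑ π : C → Equiv.Perm (Fin n), (SC π L).ncard ≤ T * (4 * Fintype.card C) ^ (L + 1) :=
    calc _ ≤ ∑ π : C → Equiv.Perm (Fin n), ∑ m ∈ Icc 1 L, ((J m).filter (Good π L)).card :=
          sum_le_sum fun π _ => h1 π
      _ = _ := sum_comm
      _ ≤ ∑ m ∈ Icc 1 L, T * (4 * Fintype.card C) ^ m := sum_le_sum h3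
      _ ≤ _ := by rw [← mul_sum]; exact Nat.mul_le_mul_left _ (geo _ (by omega) L)
  have h5 : 0 < (4 * Fintype.card C) ^ (L + 1) := pow_pos (by omega) _
  refine Nat.le_of_mul_le_mul_right (le_trans ?_ h4) h5
  rw [mul_comm 4, mul_assoc, ← smul_eq_mul]
  exact (card_nsmul_le_sum _ _ _ fun π hπ => (mem_filter.1 hπ).2.le).trans
    (sum_le_sum_of_subset (filter_subset _ _))

end Pool.Agent.Lib.IT
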