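import Pool.Agent.Lib.IT.Blue

/-! Block RG2: random permutations have no dense small sets. -/

namespace Pool.Agent.Lib.IT

open Finset

namespace RG2

theorem choose_mul_le (N k : ℕ) : (N.choose k : ℝ) * (k : ℝ) ^ k ≤ (3 * N) ^ k := by
  have h1 : (N.choose k : ℝ) ≤ (N : ℝ) ^ k / k.factorial := Nat.choose_le_pow_div k N
  have hf : (0 : ℝ) < k.factorial := by exact_mod_cast k.factorial_pos
  have h2 : (k : ℝ) ^ k / k.factorial ≤ 3 ^ k := by
    refine (Real.pow_div_factorial_le_exp (k : ℝ) (Nat.cast_nonneg k) k).trans ?_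
    rw [← Real.exp_one_pow]
    exact pow_le_pow_left₀ (Real.exp_pos 1).le (Real.exp_one_lt_d9.le.trans (by norm_num)) k
  calc (N.choose k : ℝ) * (k : ℝ) ^ k ≤ (N : ℝ) ^ k / k.factorial * (k : ℝ) ^ k :=
        mul_le_mul_of_nonneg_right h1 (by positivity)
    _ = (N : ℝ) ^ k * ((k : ℝ) ^ k / k.factorial) := by ring
    _ ≤ (N : ℝ) ^ k * 3 ^ k := mul_le_mul_of_nonneg_left h2 (by positivity)
    _ = (3 * N) ^ k := by rw [mul_pow, mul_comm]

theorem term_le (n w : ℕ) (hw : 1 ≤ w) (h : 8 * w ≤ 7 * n) :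
    (n.choose w : ℝ) * (((w * 200).choose (197 * w) : ℝ) * ((w : ℝ) / n) ^ (197 * w)) ≤
      (1 / 10) ^ w := by
  have hw0 : (0 : ℝ) < w := by exact_mod_cast hw
  have hn0 : (0 : ℝ) < n := by exact_mod_cast (by omega : 0 < n)
  have h1 : (n.choose w : ℝ) * ((w : ℝ) / n) ^ w ≤ 3 ^ w := by
    have := choose_mul_le n w
    rw [div_pow, ← mul_div_assoc, div_le_iff₀ (by positivity), ← mul_pow]
    exact this
  have h2 : (((w * 200).choose (197 * w) : ℕ) : ℝ) ≤ (200 ^ 3) ^ w := by
    have e : (w * 200).choose (197 * w) = (w * 200).choose (3 * w) :=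
      Nat.choose_symm_of_eq_add (by omega)
    have := choose_mul_le (w * 200) (3 * w)
    rw [e, ← pow_mul]
    have e2 : (3 * ((w * 200 : ℕ) : ℝ)) ^ (3 * w) = 200 ^ (3 * w) * (((3 * w : ℕ) : ℝ)) ^ (3 * w) := by
      rw [← mul_pow]; push_cast; ring_nf
    rw [e2] at this
    exact le_of_mul_le_mul_right this (by push_cast; positivity)
  have h3 : ((w : ℝ) / n) ^ (196 * w) ≤ ((7 / 8) ^ 196) ^ w := by
    rw [← pow_mul]
    refine pow_le_pow_left₀ (by positivity) ?_ _
    rw [div_le_iff₀ hn0]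
    have : (8 * w : ℝ) ≤ 7 * n := by exact_mod_cast h
    linarith
  have h4 : (3 : ℝ) * (200 ^ 3 * (7 / 8) ^ 196) ≤ 1 / 10 := by norm_num
  calc (n.choose w : ℝ) * (((w * 200).choose (197 * w) : ℝ) * ((w : ℝ) / n) ^ (197 * w))
      = ((n.choose w : ℝ) * ((w : ℝ) / n) ^ w) *
          ((((w * 200).choose (197 * w) : ℕ) : ℝ) * ((w : ℝ) / n) ^ (196 * w)) := by
        rw [show 197 * w = w + 196 * w by ring, pow_add]; ring
    _ ≤ 3 ^ w * ((200 ^ 3) ^ w * ((7 / 8) ^ 196) ^ w) := by
        refine mul_le_mul h1 (mul_le_mul h2 h3 (by positivity) (by positivity)) (by positivity)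
          (by positivity)
    _ = (3 * (200 ^ 3 * (7 / 8) ^ 196)) ^ w := by rw [mul_pow, mul_pow]
    _ ≤ (1 / 10) ^ w := pow_le_pow_left₀ (by positivity) h4 w

theorem geom_le (m : ℕ) : ∑ w ∈ range m, (1 / 10 : ℝ) ^ (w + 1) ≤ 1 / 9 - (1 / 10) ^ m / 9 := by
  induction m with
  | zero => simp
  | succ m ih => rw [sum_range_succ, pow_succ]; linarith

theorem fixed_le (hPL : St_PL) {C : Type} [Fintype C] [DecidableEq C] (n : ℕ) (U : Finset (Fin n))
    (T : Finset (Fin n × C)) :
    (((univ : Finset (C → Equiv.Perm (Fin n))).filter fun π => ∀ e ∈ T, π e.2 e.1 ∈ U).card : ℝ) ≤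
      Fintype.card (C → Equiv.Perm (Fin n)) * ((U.card : ℝ) / n) ^ T.card := by
  have e : ((univ : Finset (C → Equiv.Perm (Fin n))).filter fun π => ∀ e ∈ T, π e.2 e.1 ∈ U) =
      Fintype.piFinset fun c => (univ : Finset (Equiv.Perm (Fin n))).filter
        fun σ => ∀ a ∈ univ.filter (fun a => (a, c) ∈ T), σ a ∈ U := by
    ext π
    simp only [mem_filter, mem_univ, true_and, Fintype.mem_piFinset]
    exact ⟨fun h c a ha => h (a, c) ha, fun h e he => h e.2 e.1 he⟩
  have hT : T.card = ∑ c : C, (univ.filter fun a : Fin n => (a, c) ∈ T).card := by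
    rw [card_eq_sum_card_fiberwise (f := Prod.snd) (t := univ) (fun _ _ => mem_univ _)]
    refine sum_congr rfl fun c _ => ?_
    refine card_bij (fun e _ => e.1) ?_ ?_ ?_
    · rintro ⟨a, c'⟩ he
      simp only [mem_filter, mem_univ, true_and] at he ⊢
      exact he.2 ▸ he.1
    · rintro ⟨a, c'⟩ he ⟨a', c''⟩ he' hh
      simp only [mem_filter] at he he'
      exact Prod.ext hh (he.2.trans he'.2.symm)
    · intro a ha
      simp only [mem_filter, mem_univ, true_and] at ha
      exact ⟨(a, c), mem_filter.2 ⟨ha, rfl⟩, rfl⟩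
  rw [e, Fintype.card_piFinset, Nat.cast_prod, hT, ← prod_pow_eq_pow_sum, Fintype.card_pi,
    Nat.cast_prod, ← prod_mul_distrib]
  refine prod_le_prod (fun _ _ => Nat.cast_nonneg _) fun c _ => ?_
  have := (hPL (Fin n)).1 (univ.filter fun a => (a, c) ∈ T) U
  rw [Fintype.card_fin] at this
  rw [Fintype.card_perm, Fintype.card_fin]
  refine le_of_eq_of_le ?_ this
  congr

end RG2

open RG2 in
theorem stRG2 (hPL : St_PL) : St_RG2 := by
  classical
  intro C _ _ n hC
  set P : ℝ := ((Fintype.card (C → Equiv.Perm (Fin n)) : ℕ) : ℝ) with hP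
  have hP0 : 0 ≤ P := Nat.cast_nonneg _
  set R := (range n).filter fun w => 8 * (w + 1) ≤ 7 * n with hR
  have hsub : ((univ : Finset (C → Equiv.Perm (Fin n))).filter
      fun π => ∃ U : Finset (Fin n), 8 * U.card ≤ 7 * n ∧ 197 * U.card < inE π U) ⊆
      R.biUnion fun w => (powersetCard (w + 1) (univ : Finset (Fin n))).biUnion fun U =>
        (powersetCard (197 * (w + 1)) (U ×ˢ (univ : Finset C))).biUnion fun T =>
          univ.filter fun π => ∀ e ∈ T, π e.2 e.1 ∈ U := by
    intro π hπ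
    obtain ⟨U, hU, hlt⟩ := (mem_filter.1 hπ).2
    have hpos : 0 < U.card := by
      rcases Nat.eq_zero_or_pos U.card with h0 | h0
      · rw [card_eq_zero] at h0
        subst h0
        simp [inE] at hlt
      · exact h0
    obtain ⟨w, hw⟩ : ∃ w, U.card = w + 1 := ⟨U.card - 1, by omega⟩
    obtain ⟨T, hT, hTc⟩ := exists_subset_card_eq hlt.le
    refine mem_biUnion.2 ⟨w, mem_filter.2 ⟨mem_range.2 (by omega), by omega⟩,
      mem_biUnion.2 ⟨U, mem_powersetCard.2 ⟨subset_univ _, hw⟩,
        mem_biUnion.2 ⟨T, mem_powersetCard.2 ⟨hT.trans (filter_subset _ _), by rw [hTc, hw]⟩,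
          mem_filter.2 ⟨mem_univ _, fun e he => (mem_filter.1 (hT he)).2⟩⟩⟩⟩
  have hcard := card_le_card hsub
  have key : ((R.biUnion fun w => (powersetCard (w + 1) (univ : Finset (Fin n))).biUnion fun U =>
        (powersetCard (197 * (w + 1)) (U ×ˢ (univ : Finset C))).biUnion fun T =>
          (univ : Finset (C → Equiv.Perm (Fin n))).filter
            fun π => ∀ e ∈ T, π e.2 e.1 ∈ U).card : ℝ) ≤ P * (1 / 9) := by
    refine (Nat.cast_le.2 card_biUnion_le).trans ?_
    rw [Nat.cast_sum]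
    calc _ ≤ ∑ w ∈ R, P * (1 / 10 : ℝ) ^ (w + 1) := by
          refine sum_le_sum fun w hw => ?_
          refine (Nat.cast_le.2 card_biUnion_le).trans ?_
          rw [Nat.cast_sum]
          calc _ ≤ ∑ U ∈ powersetCard (w + 1) (univ : Finset (Fin n)),
                ((((w + 1) * 200).choose (197 * (w + 1)) : ℕ) : ℝ) *
                  (P * (((w + 1 : ℕ) : ℝ) / n) ^ (197 * (w + 1))) := by
                refine sum_le_sum fun U hU => ?_
                have hUc := (mem_powersetCard.1 hU).2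
                refine (Nat.cast_le.2 card_biUnion_le).trans ?_
                rw [Nat.cast_sum]
                calc _ ≤ ∑ T ∈ powersetCard (197 * (w + 1)) (U ×ˢ (univ : Finset C)),
                      P * (((w + 1 : ℕ) : ℝ) / n) ^ (197 * (w + 1)) := by
                      refine sum_le_sum fun T hT => ?_
                      have := fixed_le hPL n U T
                      rwa [hUc, (mem_powersetCard.1 hT).2] at this
                  _ = _ := by
                      rw [sum_const, card_powersetCard, card_product, hUc, card_univ, hC,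
                        nsmul_eq_mul]
            _ = P * ((n.choose (w + 1) : ℝ) * (((((w + 1) * 200).choose (197 * (w + 1)) : ℕ) : ℝ) *
                  (((w + 1 : ℕ) : ℝ) / n) ^ (197 * (w + 1)))) := by
                rw [sum_const, card_powersetCard, card_univ, Fintype.card_fin, nsmul_eq_mul]
                ring
            _ ≤ _ := mul_le_mul_of_nonneg_left
                (term_le n (w + 1) (by omega) (mem_filter.1 hw).2) hP0
      _ ≤ ∑ w ∈ range n, P * (1 / 10 : ℝ) ^ (w + 1) :=
          sum_le_sum_of_subset_of_nonneg (filter_subset _ _) fun _ _ _ => by positivity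
      _ ≤ P * (1 / 9) := by
          rw [← mul_sum]
          refine mul_le_mul_of_nonneg_left ((geom_le n).trans ?_) hP0
          have : (0 : ℝ) ≤ (1 / 10) ^ n / 9 := by positivity
          linarith
  have h5 := (Nat.cast_le (α := ℝ)).2 hcard
  have h6 := h5.trans key
  refine (Nat.cast_le (α := ℝ)).1 ?_
  push_cast
  rw [← hP]
  linarith

end Pool.Agent.Lib.IT
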