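import Pool.Agent.Lib.IT.Blue

/-! Random linear codes. -/

set_option linter.style.haveILetI false

namespace Pool.Agent.Lib.IT

open Finset

namespace RLC

open scoped Classical in
lemma card_pre {A B : Type} [Fintype A] [Fintype B] [AddCommGroup A] [AddCommGroup B]
    (f : A →+ B) (hf : Function.Surjective f) (S : Finset B) :
    (univ.filter fun a => f a ∈ S).card * Fintype.card B = S.card * Fintype.card A := by
  have h1 : ∀ T : Finset B, (univ.filter fun a => f a ∈ T).card =
      T.card * (univ.filter fun a => f a = 0).card := fun T => by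
    rw [card_eq_sum_card_fiberwise (f := f) (t := T)
      fun a ha => mem_coe.2 (mem_filter.1 (mem_coe.1 ha)).2,
      ← smul_eq_mul, ← sum_const]
    refine sum_congr rfl fun b hb => ?_
    rw [← AddMonoidHom.card_fiber_eq_of_mem_range f (hf b) (hf 0), filter_filter]
    exact congrArg card (filter_congr fun a _ => ⟨fun h => h.2, fun h => ⟨h ▸ hb, h⟩⟩)
  have h2 := h1 univ
  simp only [mem_univ, filter_true, card_univ] at h2
  rw [h1, h2]; ring

open scoped Classical in
lemma card_ball {E V : Type} [Fintype E] [Fintype V] [AddCommGroup V] (a : ℕ) :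
    (univ.filter fun x : E → V => wt x ≤ a).card ≤ 2 ^ Fintype.card E * Fintype.card V ^ a := by
  have h1 : (univ.filter fun x : E → V => wt x ≤ a) ⊆
      (univ.filter fun B : Finset E => B.card ≤ a).biUnion fun B =>
        Fintype.piFinset fun e => if e ∈ B then univ else {0} := fun x hx => by
    refine mem_biUnion.2 ⟨univ.filter fun e => x e ≠ 0, mem_filter.2 ⟨mem_univ _, ?_⟩,
      Fintype.mem_piFinset.2 fun e => ?_⟩
    · rw [← Set.ncard_coe_finset, coe_filter]
      simpa [wt] using hx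
    · by_cases h : x e = 0 <;> simp [h]
  refine (card_le_card h1).trans ((card_biUnion_le_card_mul _ _ (Fintype.card V ^ a)
    fun B hB => ?_).trans (Nat.mul_le_mul_right _ ?_))
  · rw [Fintype.card_piFinset]
    simp only [apply_ite card, card_univ, card_singleton, prod_ite_mem, univ_inter, prod_const]
    exact Nat.pow_le_pow_right Fintype.card_pos (mem_filter.1 hB).2
  · exact (card_le_univ _).trans (by simp)

lemma arith {q M r : ℕ} (hq : 256 ≤ q) (hM : 16 ≤ M) (hr : 2 ^ r ≤ 4 * (2 ^ M * q ^ (M / 16))) :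
    2 * (2 ^ r * (2 * (2 ^ M * q ^ (M / 4)))) ≤ q ^ M := by
  obtain ⟨k, hk⟩ : ∃ k, M = M / 16 + M / 4 + k := ⟨M - (M / 16 + M / 4), by omega⟩
  have h1 : 2 ^ (2 * M + 4) ≤ q ^ k :=
    calc 2 ^ (2 * M + 4) ≤ 2 ^ (8 * k) := Nat.pow_le_pow_right (by norm_num) (by omega)
      _ = 256 ^ k := by rw [pow_mul]; norm_num
      _ ≤ q ^ k := Nat.pow_le_pow_left hq k
  calc 2 * (2 ^ r * (2 * (2 ^ M * q ^ (M / 4))))
      ≤ 2 * (4 * (2 ^ M * q ^ (M / 16)) * (2 * (2 ^ M * q ^ (M / 4)))) := by gcongr
    _ = q ^ (M / 16) * q ^ (M / 4) * 2 ^ (2 * M + 4) := by ring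
    _ ≤ q ^ (M / 16) * q ^ (M / 4) * q ^ k := by gcongr
    _ = q ^ M := by rw [← pow_add, ← pow_add, ← hk]

open scoped Classical in
/-- a random family avoids a small set and is not killed by few characters -/
lemma exists_gen {G : Type} [Fintype G] [AddCommGroup G] [Module (ZMod 2) G] (r : ℕ)
    (S : Finset G) (Ψ : Finset (Module.Dual (ZMod 2) G)) (h1 : 2 * (2 ^ r * S.card) ≤ Fintype.card G)
    (h2 : 2 * Ψ.card < 2 ^ r) : ∃ g : Fin r → G, (∀ c : Fin r → ZMod 2, c ≠ 0 → ∑ i, c i • g i ∉ S) ∧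
      ∀ ψ ∈ Ψ, ψ ≠ 0 → ∃ i, ψ (g i) ≠ 0 := by
  set T := Fintype.card (Fin r → G) with hT
  have hT0 : 0 < T := Fintype.card_pos
  let B1 := (univ.filter fun c : Fin r → ZMod 2 => c ≠ 0).biUnion fun c =>
    univ.filter fun g : Fin r → G => ∑ i, c i • g i ∈ S
  let B2 := (Ψ.filter (· ≠ 0)).biUnion fun ψ =>
    univ.filter fun g : Fin r → G => (fun i => ψ (g i)) ∈ ({0} : Finset (Fin r → ZMod 2))
  have a1 : B1.card * Fintype.card G ≤ 2 ^ r * (S.card * T) := by
    refine (Nat.mul_le_mul_right _ card_biUnion_le).trans ?_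
    rw [sum_mul]
    refine (sum_le_card_nsmul _ _ (S.card * T) fun c hc => le_of_eq ?_).trans
      (Nat.mul_le_mul_right _ ((card_le_univ _).trans (by simp)))
    obtain ⟨i, hi⟩ := Function.ne_iff.1 (mem_filter.1 hc).2
    refine card_pre (AddMonoidHom.mk' (fun g : Fin r → G => ∑ i, c i • g i) fun g g' => by
      simp [sum_add_distrib]) (fun x => ⟨Pi.single i ((c i)⁻¹ • x), ?_⟩) S
    simp only [AddMonoidHom.mk'_apply]
    rw [sum_eq_single i (fun j _ hj => by simp [hj]) (by simp), Pi.single_eq_same,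
      smul_inv_smul₀ hi]
  have a2 : B2.card * 2 ^ r ≤ Ψ.card * T := by
    refine (Nat.mul_le_mul_right _ card_biUnion_le).trans ?_
    rw [sum_mul]
    refine (sum_le_card_nsmul _ _ T fun ψ hψ => le_of_eq ?_).trans
      (Nat.mul_le_mul_right _ (card_filter_le _ _))
    have h3 := LinearMap.surjective (mem_filter.1 hψ).2
    have := card_pre (AddMonoidHom.mk' (fun (g : Fin r → G) i => ψ (g i)) fun g g' => by
      ext; simp) (fun x => ⟨fun i => (h3 (x i)).choose, funext fun i => (h3 (x i)).choose_spec⟩) {0}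
    simpa [hT] using this
  have a3 : 2 * B1.card ≤ T := by
    refine Nat.le_of_mul_le_mul_right ?_ (Fintype.card_pos (α := G))
    nlinarith
  have a4 : 2 * B2.card < T := by
    refine Nat.lt_of_mul_lt_mul_right (a := 2 ^ r) ?_
    nlinarith
  obtain ⟨g, -, hg⟩ := exists_mem_notMem_of_card_lt_card (s := B1 ∪ B2) (t := univ)
    ((card_union_le _ _).trans_lt (by rw [card_univ]; omega))
  refine ⟨g, fun c hc h => hg (mem_union_left _ (mem_biUnion.2 ⟨c, by simpa using hc, by simpa⟩)),
    fun ψ hψ h0 => ?_⟩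
  by_contra! h
  exact hg (mem_union_right _ (mem_biUnion.2 ⟨ψ, mem_filter.2 ⟨hψ, h0⟩,
    mem_filter.2 ⟨mem_univ _, mem_singleton.2 (funext h)⟩⟩))

end RLC

theorem stRLC : St_RLC := by
  classical
  intro E W _ _ _ hW hq hM y hy
  letI : Module (ZMod 2) W := AddCommGroup.zmodModule fun w => by rw [two_nsmul, hW]
  haveI : Finite (Module.Dual (ZMod 2) W) := Finite.of_injective _ DFunLike.coe_injective
  haveI : Finite (Module.Dual (ZMod 2) (E → W)) := Finite.of_injective _ DFunLike.coe_injective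
  letI := Fintype.ofFinite (Module.Dual (ZMod 2) W)
  letI := Fintype.ofFinite (Module.Dual (ZMod 2) (E → W))
  have hd : Fintype.card (Module.Dual (ZMod 2) W) = Fintype.card W :=
    Fintype.card_congr (Module.Free.chooseBasis (ZMod 2) W).toDualEquiv.symm.toEquiv
  set M := Fintype.card E with hM'
  set q := Fintype.card W with hq'
  let co : Module.Dual (ZMod 2) (E → W) → E → Module.Dual (ZMod 2) W := fun ψ e =>
    ψ ∘ₗ LinearMap.single (ZMod 2) (fun _ => W) e
  let S : Finset (E → W) := (univ.filter fun x => wt x ≤ M / 4) ∪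
    (univ.filter fun x => wt x ≤ M / 4).image (· + y)
  let Ψ := univ.filter fun ψ => wt (co ψ) ≤ M / 16
  have hS : S.card ≤ 2 * (2 ^ M * q ^ (M / 4)) := by
    have := RLC.card_ball (E := E) (V := W) (M / 4)
    exact (card_union_le _ _).trans ((add_le_add this (card_image_le.trans this)).trans
      (two_mul _).ge)
  have hΨ : Ψ.card ≤ 2 ^ M * q ^ (M / 16) := by
    have := RLC.card_ball (E := E) (V := Module.Dual (ZMod 2) W) (M / 16)
    rw [hd] at this
    refine le_trans (card_le_card_of_injOn co (fun ψ hψ => by simpa [Ψ] using hψ)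
      fun ψ _ ψ' _ h => LinearMap.pi_ext' fun e => congrFun h e) this
  have hN : 2 ^ M * q ^ (M / 16) ≠ 0 := by positivity
  obtain ⟨g, h1, h2⟩ := RLC.exists_gen (Nat.log 2 (2 ^ M * q ^ (M / 16)) + 2) S Ψ
    ((Nat.mul_le_mul_left _ (Nat.mul_le_mul_left _ hS)).trans ((RLC.arith hq hM (by
      have := Nat.pow_log_le_self 2 hN
      rw [pow_add]; omega)).trans (by simp [hM', hq']))) (by
      have := Nat.lt_pow_succ_log_self (b := 2) (by norm_num) (2 ^ M * q ^ (M / 16))
      rw [pow_succ]; simp only [Nat.succ_eq_add_one] at this; omega)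
  have h3 : ∀ u ∈ Submodule.span (ZMod 2) (Set.range g), u ≠ 0 → u ∉ S := fun u hu h0 => by
    obtain ⟨c, rfl⟩ := (Submodule.mem_span_range_iff_exists_fun _).1 hu
    exact h1 c (by rintro rfl; simp at h0)
  refine ⟨(Submodule.span (ZMod 2) (Set.range g)).toAddSubgroup, fun u hu h0 => ?_,
    fun u hu => ?_, fun B hB z => ?_⟩
  · by_contra h
    exact h3 u hu h0 (mem_union_left _ (mem_filter.2 ⟨mem_univ _, by omega⟩))
  · by_cases h0 : u = 0
    · have : wt (u - y) = M := by simp [wt, h0, hy, hM']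
      omega
    · by_contra h
      exact h3 u hu h0 (mem_union_right _ (mem_image.2
        ⟨u - y, mem_filter.2 ⟨mem_univ _, by omega⟩, sub_add_cancel _ _⟩))
  · let Z : Submodule (ZMod 2) (E → W) := Submodule.pi (B : Set E) fun _ => ⊥
    have hz : z ∈ Submodule.span (ZMod 2) (Set.range g) ⊔ Z := by
      by_contra h
      obtain ⟨ψ, h4, h5⟩ := Submodule.exists_le_ker_of_notMem h
      refine (h2 ψ (mem_filter.2 ⟨mem_univ _, ?_⟩) (by rintro rfl; simp at h4)).elim
        fun i hi => hi (h5 (Submodule.mem_sup_left (Submodule.subset_span ⟨i, rfl⟩)))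
      refine le_trans (Set.ncard_le_ncard (t := B) (fun e he => ?_)) (by simp; omega)
      by_contra h6
      refine he (LinearMap.ext fun w => h5 (Submodule.mem_sup_right fun e' he' => ?_))
      have : e' ≠ e := by rintro rfl; exact h6 he'
      simp [this]
    obtain ⟨u, hu, v, hv, rfl⟩ := Submodule.mem_sup.1 hz
    exact ⟨u, hu, fun e he => by simp [(Submodule.mem_bot _).1 (hv e he)]⟩

end Pool.Agent.Lib.IT
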