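import Pool.Agent.Lib.IT.Blue

/-! ROS, second proof. -/

namespace Pool.Agent.Lib.IT

open Finset

open scoped Classical in
theorem stROS2 : St_ROS := by
  intro E F ι _ _ _ bad supp I β hβ hne hloc hI hsum
  rcases isEmpty_or_nonempty E with hE | hE
  · exact ⟨fun e => isEmptyElim e, fun j _ => by
      obtain ⟨e, -⟩ := hne j; exact isEmptyElim e⟩
  have hβ0 : 0 < β := by linarith
  have hF : Nonempty F := by
    obtain ⟨e⟩ := hE
    have h1 := hsum e
    have h2 : 0 ≤ ∑ j ∈ univ.filter (fun j => e ∈ supp j), β⁻¹ ^ ((I j e).card - 1) :=
      sum_nonneg fun j _ => by positivity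
    have h3 : (0 : ℝ) < Fintype.card F := by linarith
    exact Fintype.card_pos_iff.1 (by exact_mod_cast h3)
  obtain ⟨f0⟩ := hF
  let A : Finset E → Finset (E → F) := fun S =>
    univ.filter fun z => (∀ e ∉ S, z e = f0) ∧ ∀ j, supp j ⊆ S → ¬ bad j z
  have hA : ∀ S z, z ∈ A S ↔ (∀ e ∉ S, z e = f0) ∧ ∀ j, supp j ⊆ S → ¬ bad j z := by
    intro S z; simp [A]
  have chain : ∀ n, (∀ S : Finset E, S.card < n → ∀ e ∉ S,
      β * (A S).card ≤ (A (insert e S)).card) → ∀ T S : Finset E, T ⊆ S → S.card ≤ n →
      ((A (S \ T)).card : ℝ) ≤ β⁻¹ ^ T.card * (A S).card := by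
    intro n ih T
    induction T using Finset.induction_on with
    | empty => intro S _ _; simp
    | insert a T ha ihT =>
      intro S hT hS
      have haS : a ∈ S := hT (mem_insert_self _ _)
      have h1 := ihT S ((subset_insert _ _).trans hT) hS
      have h2 : insert a (S \ insert a T) = S \ T := by
        ext x
        simp only [mem_insert, mem_sdiff]
        constructor
        · rintro (rfl | ⟨h, h'⟩)
          · exact ⟨haS, ha⟩
          · exact ⟨h, fun h'' => h' (Or.inr h'')⟩
        · rintro ⟨h, h'⟩
          by_cases hx : x = a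
          · exact Or.inl hx
          · exact Or.inr ⟨h, fun h'' => h''.elim hx h'⟩
      have h3 : (S \ insert a T).card < n := by
        refine lt_of_lt_of_le (card_lt_card ⟨sdiff_subset, fun h => ?_⟩) hS
        simpa using h haS
      have h4 := ih _ h3 a (by simp)
      rw [h2] at h4
      rw [card_insert_of_notMem ha, pow_succ', mul_assoc, le_inv_mul_iff₀ hβ0]
      exact h4.trans h1
  have key : ∀ n, ∀ S : Finset E, S.card < n → ∀ e ∉ S,
      β * (A S).card ≤ (A (insert e S)).card := by
    intro n
    induction n with
    | zero => intro S h; omega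
    | succ n ih =>
      intro S hS e he
      let B : ι → Finset (E → F) := fun j =>
        univ.filter fun z => Function.update z e f0 ∈ A S ∧ supp j ⊆ insert e S ∧ bad j z
      have hB : ∀ j, e ∈ supp j → ((B j).card : ℝ) ≤ β⁻¹ ^ ((I j e).card - 1) * (A S).card := by
        intro j hj
        obtain ⟨h1, h2, h3⟩ := hI j e hj
        by_cases hs : supp j ⊆ insert e S
        · have h4 : (I j e).erase e ⊆ S := fun x hx => by
            have := hs (h2 (mem_of_mem_erase hx))
            exact (mem_insert.1 this).resolve_left (ne_of_mem_erase hx)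
          have h5 := chain n ih _ S h4 (by omega)
          rw [card_erase_of_mem h1] at h5
          refine le_trans ?_ h5
          refine Nat.cast_le.2 (card_le_card_of_injOn (fun z x => if x ∈ I j e then f0 else z x) ?_ ?_)
          · intro z hz
            obtain ⟨hz1, -, -⟩ := (mem_filter.1 hz).2
            obtain ⟨hz1, hz2⟩ := (hA _ _).1 hz1
            refine (hA _ _).2 ⟨fun x hx => ?_, fun j' hj' hb => ?_⟩
            · by_cases hxI : x ∈ I j e
              · simp [hxI]
              · have hxe : x ≠ e := fun h => hxI (h ▸ h1)
                have hxS : x ∉ S := fun h => hx (mem_sdiff.2 ⟨h, fun h' => hxI (mem_of_mem_erase h')⟩)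
                have := hz1 x hxS
                rw [Function.update_of_ne hxe] at this
                simp [hxI, this]
            · refine hz2 j' (hj'.trans sdiff_subset) (hloc j' _ _ (fun x hx => ?_) hb)
              obtain ⟨hxS, hxI⟩ := mem_sdiff.1 (hj' hx)
              have hxe : x ≠ e := fun h => he (h ▸ hxS)
              have : x ∉ I j e := fun h => hxI (mem_erase.2 ⟨hxe, h⟩)
              simp [this, Function.update_of_ne hxe]
          · intro z hz z' hz' hzz
            refine h3 z z' (mem_filter.1 hz).2.2.2 (mem_filter.1 hz').2.2.2 fun x hx => ?_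
            simpa [hx] using congrFun hzz x
        · have : B j = ∅ := filter_eq_empty_iff.2 fun z _ h => hs h.2.1
          rw [this, card_empty, Nat.cast_zero]
          positivity
      have hcov : (A S ×ˢ (univ : Finset F)).card ≤
          (A (insert e S) ∪ (univ.filter fun j => e ∈ supp j).biUnion B).card := by
        refine card_le_card_of_injOn (fun x => Function.update x.1 e x.2) ?_ ?_
        · rintro ⟨z, f⟩ hz
          have hzA : z ∈ A S := (mem_product.1 hz).1
          obtain ⟨hz1, hz2⟩ := (hA _ _).1 hzA
          have hup : Function.update (Function.update z e f) e f0 = z := by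
            rw [Function.update_idem, ← hz1 e he, Function.update_eq_self]
          by_cases hb : ∃ j, supp j ⊆ insert e S ∧ bad j (Function.update z e f)
          · obtain ⟨j, hj, hb⟩ := hb
            have hej : e ∈ supp j := by
              by_contra hej
              refine hz2 j (fun x hx => (mem_insert.1 (hj hx)).resolve_left fun h => hej (h ▸ hx))
                (hloc j _ _ (fun x hx => ?_) hb)
              exact Function.update_of_ne (fun h : x = e => hej (h ▸ hx)) _ _
            refine mem_coe.2 (mem_union_right _ (mem_biUnion.2 ⟨j, by simpa using hej, ?_⟩))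
            exact mem_filter.2 ⟨mem_univ _, by rw [hup]; exact hzA, hj, hb⟩
          · refine mem_coe.2 (mem_union_left _ ((hA _ _).2 ⟨fun x hx => ?_, fun j hj h => hb ⟨j, hj, h⟩⟩))
            rw [mem_insert, not_or] at hx
            simp only [Function.update_of_ne hx.1, hz1 x hx.2]
        · rintro ⟨z, f⟩ hz ⟨z', f'⟩ hz' h
          have h1 := ((hA _ _).1 (mem_product.1 hz).1).1 e he
          have h2 := ((hA _ _).1 (mem_product.1 hz').1).1 e he
          have hf : f = f' := by simpa using congrFun h e
          refine Prod.ext (funext fun x => ?_) hf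
          by_cases hx : x = e
          · subst hx; exact h1.trans h2.symm
          · simpa [Function.update_of_ne hx] using congrFun h x
      have h1 : ((A S).card : ℝ) * Fintype.card F ≤ (A (insert e S)).card +
          ∑ j ∈ univ.filter (fun j => e ∈ supp j), ((B j).card : ℝ) := by
        have := hcov.trans ((card_union_le _ _).trans (Nat.add_le_add_left card_biUnion_le _))
        rw [card_product, card_univ] at this
        exact_mod_cast this
      have h2 : ∑ j ∈ univ.filter (fun j => e ∈ supp j), ((B j).card : ℝ) ≤
          (∑ j ∈ univ.filter (fun j => e ∈ supp j), β⁻¹ ^ ((I j e).card - 1)) * (A S).card := by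
        rw [sum_mul]
        exact sum_le_sum fun j hj => hB j (mem_filter.1 hj).2
      have h3 := mul_le_mul_of_nonneg_right (hsum e) (Nat.cast_nonneg (α := ℝ) (A S).card)
      nlinarith
  have pos : ∀ S : Finset E, 0 < (A S).card := by
    intro S
    induction S using Finset.induction_on with
    | empty =>
      refine card_pos.2 ⟨fun _ => f0, (hA _ _).2 ⟨fun _ _ => rfl, fun j hj => ?_⟩⟩
      exact absurd (subset_empty.1 hj) (hne j).ne_empty
    | insert a S ha ih =>
      have h1 := key _ S (Nat.lt_succ_self _) a ha
      have h2 : (0 : ℝ) < (A S).card := by exact_mod_cast ih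
      have h3 : (0 : ℝ) < (A (insert a S)).card := lt_of_lt_of_le (by positivity) h1
      exact_mod_cast h3
  obtain ⟨z, hz⟩ := card_pos.1 (pos univ)
  exact ⟨z, fun j => ((hA _ _).1 hz).2 j (subset_univ _)⟩

end Pool.Agent.Lib.IT
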