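import Pool.Agent.Lib.IT.Blue

/-! Block SEQ: the sequence of labelled expanders. -/

namespace Pool.Agent.Lib.IT

open Finset

namespace SEQ

theorem seq_exists {α : Type} (P : α → Prop) (r : α → α → Prop)
    (h : ∀ (n : ℕ) (f : Fin n → α), (∀ i, P (f i)) → (∀ i j, i < j → r (f i) (f j)) →
      ∃ y, P y ∧ ∀ i, r (f i) y) :
    ∃ f : ℕ → α, (∀ n, P (f n)) ∧ ∀ m n, m < n → r (f m) (f n) := by
  classical
  obtain ⟨y0, -⟩ := h 0 Fin.elim0 (fun i => i.elim0) (fun i => i.elim0)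
  have h' : ∀ (n : ℕ) (f : Fin n → α), ∃ y, (∀ i, P (f i)) → (∀ i j, i < j → r (f i) (f j)) →
      P y ∧ ∀ i, r (f i) y := by
    intro n f
    by_cases h1 : (∀ i, P (f i)) ∧ ∀ i j, i < j → r (f i) (f j)
    · obtain ⟨y, hy⟩ := h n f h1.1 h1.2
      exact ⟨y, fun _ _ => hy⟩
    · exact ⟨y0, fun a b => (h1 ⟨a, b⟩).elim⟩
  choose g hg using h'
  let F : ℕ → α := (Nat.lt_wfRel.wf).fix fun n ih => g n fun i => ih i.1 i.2
  have hF : ∀ n, F n = g n fun i => F i.1 := fun n => WellFounded.fix_eq _ _ n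
  have main : ∀ n, P (F n) ∧ ∀ m, m < n → r (F m) (F n) := by
    intro n
    induction n using Nat.strong_induction_on with
    | _ n ih =>
      have := hg n (fun i => F i.1) (fun i => (ih i.1 i.2).1)
        (fun i j hij => (ih j.1 j.2).2 i.1 hij)
      rw [← hF n] at this
      exact ⟨this.1, fun m hm => this.2 ⟨m, hm⟩⟩
  exact ⟨F, fun n => (main n).1, fun m n hmn => (main n).2 m hmn⟩

theorem lab_take {C A W : Type} (π : C → Equiv.Perm A) (z : A × C → W) :
    ∀ (w : List (C × Bool)) (a : A) (k : ℕ), lab π z a (w.take k) = (lab π z a w).take k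
  | [], _, _ => by simp [lab]
  | _ :: _, _, 0 => by simp [lab]
  | l :: w, a, k + 1 => by simp [lab, lab_take π z w]

theorem lab_map {C A W W' : Type} (π : C → Equiv.Perm A) (z : A × C → W) (f : W → W') :
    ∀ (w : List (C × Bool)) (a : A), lab π (fun e => f (z e)) a w = (lab π z a w).map f
  | [], _ => by simp [lab]
  | l :: w, a => by simp [lab, lab_map π z f w]

/-- one stage of the construction -/
structure Stg (C F : Type) where
  l : ℕ
  π : C → Equiv.Perm (Fin (800 ^ (30 * l)))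
  z : Fin (800 ^ (30 * l)) × C → F

/-- a good stage -/
def Ok {C F : Type} [Fintype C] (s : Stg C F) : Prop :=
  5 ≤ s.l ∧ Girth s.π (7 * s.l) ∧ Dens s.π ∧ ∀ a a' w, FreeGroup.IsReduced w →
    w.length = s.l + 1 → lab s.π s.z a w = lab s.π s.z a' w → a = a'

/-- a later stage -/
def Aft {C F : Type} (Gr : ℕ → ℕ → ℕ) (s t : Stg C F) : Prop :=
  s.l < t.l ∧ (∀ k ≤ s.l, Gr (800 ^ (30 * s.l)) k ≤ 800 ^ (30 * t.l)) ∧
    ∀ a a' w, FreeGroup.IsReduced w → w.length = s.l + 1 → lab t.π t.z a w ≠ lab s.π s.z a' w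

theorem stage (hGR : St_GR) (hLAB : St_LAB) {C F : Type} [Fintype C] [DecidableEq C] [Fintype F]
    (hC : Fintype.card C = 200) (hF : 2 * 800 ^ 200 ≤ Fintype.card F) (Gr : ℕ → ℕ → ℕ)
    (n : ℕ) (f : Fin n → Stg C F) (h1 : ∀ i, Ok (f i)) (h2 : ∀ i j, i < j → Aft Gr (f i) (f j)) :
    ∃ y, Ok y ∧ ∀ i, Aft Gr (f i) y := by
  obtain ⟨l, hl5, hl⟩ : ∃ l : ℕ, 5 ≤ l ∧ ∀ i, (f i).l < l ∧
      ∀ k ≤ (f i).l, Gr (800 ^ (30 * (f i).l)) k ≤ l := by
    refine ⟨5 + ∑ i, ((f i).l + 1 + ∑ k ∈ range ((f i).l + 1), Gr (800 ^ (30 * (f i).l)) k),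
      Nat.le_add_right _ _, fun i => ?_⟩
    have a1 := single_le_sum (f := fun i => (f i).l + 1 +
      ∑ k ∈ range ((f i).l + 1), Gr (800 ^ (30 * (f i).l)) k) (fun _ _ => Nat.zero_le _)
      (mem_univ i)
    refine ⟨by omega, fun k hk => ?_⟩
    have a2 := single_le_sum (f := fun k => Gr (800 ^ (30 * (f i).l)) k)
      (fun _ _ => Nat.zero_le _) (mem_range.2 (show k < (f i).l + 1 by omega))
    omega
  obtain ⟨π, hg, hd⟩ := hGR C l hC hl5
  have hinj : Function.Injective fun i => (f i).l :=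
    StrictMono.injective fun i j hij => (h2 i j hij).1
  obtain ⟨z, hz1, hz2⟩ := hLAB C F (Fin n) _ l π (fun j => 800 ^ (30 * (f j).l))
    (fun j => (f j).l) (fun j => (f j).π) (fun j => (f j).z) hC hF hg hl5 le_rfl hinj
    (fun j => ⟨(h1 j).1, (hl j).1.le⟩) (fun _ => le_rfl)
  refine ⟨⟨l, π, z⟩, ⟨hl5, hg, hd, hz1⟩, fun i => ⟨(hl i).1, fun k hk => ?_, hz2 i⟩⟩
  refine ((hl i).2 k hk).trans ?_
  exact (Nat.lt_pow_self (by norm_num : 1 < 800)).le.trans
    (Nat.pow_le_pow_right (by norm_num) (show l ≤ 30 * l by omega))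

theorem gate_le (l : ℕ) (hl : 1 ≤ l) : 32 * (2 * 200 + 1) ^ (5 * l) ≤ 800 ^ (30 * l) := by
  have h1 : (2 * 200 + 1) ^ (5 * l) ≤ 800 ^ (5 * l) := Nat.pow_le_pow_left (by norm_num) _
  have h2 : 800 ^ 1 ≤ 800 ^ (25 * l) := Nat.pow_le_pow_right (by norm_num) (by omega)
  calc 32 * (2 * 200 + 1) ^ (5 * l) ≤ 800 ^ (25 * l) * 800 ^ (5 * l) :=
        Nat.mul_le_mul (le_trans (by norm_num) h2) h1
    _ = 800 ^ (30 * l) := by rw [← pow_add]; congr 1; omega

end SEQ

open SEQ in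
theorem stSEQ (hGR : St_GR) (hRLC : St_RLC) (hLAB : St_LAB) : St_SEQ := by
  classical
  intro C W _ _ _ _ hC h2 hW Gr
  have hF : 2 * 800 ^ 200 ≤ Fintype.card {w : W // w ≠ 0} := by
    have := Fintype.card_subtype_compl (fun w : W => w = 0)
    rw [Fintype.card_subtype_eq] at this
    have e : Fintype.card {w : W // w ≠ 0} = Fintype.card W - 1 := by convert this
    omega
  have h256 : 256 ≤ Fintype.card W := by
    have : 800 ^ 1 ≤ 800 ^ 200 := Nat.pow_le_pow_right (by norm_num) (by norm_num)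
    omega
  obtain ⟨f, hf1, hf2⟩ := seq_exists Ok (Aft Gr) (stage hGR hLAB hC hF Gr)
  have hpos : ∀ n, 0 < 800 ^ (30 * (f n).l) := fun n => by positivity
  have hcode : ∀ n, ∃ K : AddSubgroup (Fin (800 ^ (30 * (f n).l)) × C → W),
      GoodCode K fun e => ((f n).z e).1 := fun n => by
    refine hRLC _ W h2 h256 ?_ _ fun e => ((f n).z e).2
    rw [Fintype.card_prod, Fintype.card_fin, hC]
    have := hpos n
    omega
  choose K hK using hcode
  have hmono : StrictMono fun n => (f n).l := fun m n h => (hf2 m n h).1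
  refine ⟨⟨fun n => 800 ^ (30 * (f n).l), fun n => (f n).π, fun n e => ((f n).z e).1,
    fun n => (f n).l, K, hpos, fun n => le_trans (by norm_num) (hf1 n).1, fun n => (hf1 n).2.1, ?_,
    fun n => (hf1 n).2.2.1, hK, fun n => ?_⟩, fun n => ?_⟩
  · intro n m a a' w hw hlab hne
    by_contra hlen
    have hlab' := (List.map_injective_iff.2 Subtype.val_injective)
      (((lab_map (f n).π (f n).z Subtype.val w a).symm.trans hlab).trans
        (lab_map (f m).π (f m).z Subtype.val w a'))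
    have hpre : ∀ k, k ≤ (f n).l → FreeGroup.IsReduced (w.take (k + 1)) ∧
        (w.take (k + 1)).length = k + 1 ∧
        lab (f n).π (f n).z a (w.take (k + 1)) = lab (f m).π (f m).z a' (w.take (k + 1)) := by
      intro k hk
      refine ⟨List.IsChain.take hw _, ?_, by rw [lab_take, lab_take, hlab']⟩
      rw [List.length_take]
      omega
    rcases lt_trichotomy m n with h | h | h
    · obtain ⟨b1, b2, b3⟩ := hpre (f m).l (hmono h).le
      exact (hf2 m n h).2.2 a a' _ b1 b2 b3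
    · subst h
      obtain ⟨b1, b2, b3⟩ := hpre (f m).l le_rfl
      exact hne (by rw [(hf1 m).2.2.2 a a' _ b1 b2 b3])
    · obtain ⟨b1, b2, b3⟩ := hpre (f n).l le_rfl
      exact (hf2 n m h).2.2 a' a _ b1 b2 b3.symm
  · rw [hC]
    exact gate_le _ (le_trans (by norm_num) (hf1 n).1)
  · exact (hf2 n (n + 1) (Nat.lt_succ_self n)).2.1 n hmono.le_apply

end Pool.Agent.Lib.IT
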