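import Pool.Agent.Lib.IT.Blue

/-! Switching removes the short cycles. -/

set_option linter.unusedSectionVars false

namespace Pool.Agent.Lib.IT

open Finset

namespace SW

variable {C A : Type} {π : C → Equiv.Perm A}

theorem walk_nil (a : A) : walk π a [] = a := rfl

theorem walk_cons (a : A) (l : C × Bool) (w : List (C × Bool)) :
    walk π a (l :: w) = walk π (step π a l) w := rfl

theorem walk_append (a : A) (u v : List (C × Bool)) :
    walk π a (u ++ v) = walk π (walk π a u) v := List.foldl_append

theorem verts_append (a : A) (u v : List (C × Bool)) :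
    verts π a (u ++ v) = verts π a u ++ verts π (walk π a u) v := by
  induction u generalizing a with
  | nil => rfl
  | cons l u ih => simp only [List.cons_append, verts, ih, walk_cons]

theorem length_verts (a : A) (w : List (C × Bool)) : (verts π a w).length = w.length := by
  induction w generalizing a with
  | nil => rfl
  | cons l u ih => simp only [verts, List.length_cons, ih]

theorem step_step (a : A) (l : C × Bool) : step π (step π a l) (l.1, !l.2) = a := by
  obtain ⟨c, b⟩ := l
  cases b <;> simp [step]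

theorem step_inj {a b : A} {l : C × Bool} (h : step π a l = step π b l) : a = b := by
  rw [← step_step (π := π) a l, h, step_step]

theorem mem_verts {y z : A} {w : List (C × Bool)} (h : z ∈ verts π y w) :
    ∃ u t, w = u ++ t ∧ t ≠ [] ∧ walk π y u = z := by
  induction w generalizing y with
  | nil => simp [verts] at h
  | cons l w ih =>
    rcases List.mem_cons.1 h with rfl | h
    · exact ⟨[], l :: w, rfl, by simp, rfl⟩
    · obtain ⟨u, t, rfl, h1, h2⟩ := ih h
      exact ⟨l :: u, t, rfl, h1, h2⟩

theorem red_sub {v w : List (C × Bool)} (h : FreeGroup.IsReduced w) (h' : v <:+: w) :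
    FreeGroup.IsReduced v := by
  obtain ⟨s, t, rfl⟩ := h'
  exact List.IsChain.right_of_append (List.IsChain.left_of_append h)

theorem shorter {x : A} {w : List (C × Bool)} (h : ¬ (verts π x w).Nodup) :
    ∃ y v, v <:+: w ∧ v ≠ [] ∧ v.length < w.length ∧ walk π y v = y := by
  induction w generalizing x with
  | nil => simp [verts] at h
  | cons l w ih =>
    by_cases h1 : x ∈ verts π (step π x l) w
    · obtain ⟨u, t, rfl, h2, h3⟩ := mem_verts h1
      refine ⟨x, l :: u, ⟨[], t, by simp⟩, by simp, ?_, h3⟩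
      have := List.length_pos_iff.2 h2
      simp only [List.length_cons, List.length_append]
      omega
    · obtain ⟨y, v, h2, h3, h4, h5⟩ := ih fun h' => h (List.nodup_cons.2 ⟨h1, h'⟩)
      exact ⟨y, v, h2.trans ⟨[l], [], by simp⟩, h3, by simp; omega, h5⟩

theorem girth_of {L : ℕ} (h : SC π L = ∅) : Girth π L := by
  intro a w
  induction hn : w.length using Nat.strong_induction_on generalizing a w with
  | _ n ih =>
    intro h1 h2 h3
    by_contra h4
    by_cases h5 : (verts π a w).Nodup
    · have : (a, w) ∈ SC π L := ⟨h1, h2, by simp only; omega, h3, h5⟩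
      rw [h] at this
      exact this
    · obtain ⟨y, v, h6, h7, h8, h9⟩ := shorter h5
      have := ih v.length (hn ▸ h8) y v rfl (red_sub h1 h6) h7 h9
      omega

theorem rot1 {L : ℕ} {x : A} {l : C × Bool} {v : List (C × Bool)} (h : (x, l :: v) ∈ SC π L) :
    (step π x l, v ++ [l]) ∈ SC π L := by
  obtain ⟨h1, -, h3, h4, h5⟩ := h
  simp only [walk_cons, verts] at h1 h3 h4 h5
  refine ⟨?_, by simp, by simpa using h3, by simp only [walk_append, h4]; rfl, ?_⟩
  · rcases List.eq_nil_or_concat' v with rfl | ⟨v', l', rfl⟩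
    · simp
    · refine List.isChain_append.2 ⟨red_sub h1 ⟨[l], [], by simp⟩, by simp, ?_⟩
      simp only [List.getLast?_append, List.getLast?_singleton, Option.some_or, Option.mem_def,
        Option.some.injEq, List.head?_cons, forall_eq']
      intro h6
      by_contra h7
      have h8 : l' = (l.1, !l.2) := Prod.ext h6 (by
        cases h : l.2 <;> cases h' : l'.2 <;> simp_all)
      have h9 : walk π (step π x l) v' = step π x l := by
        rw [walk_append] at h4
        exact step_inj (l := l') (h4.trans (by rw [h8, step_step]))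
      cases v' with
      | nil => exact h7 ((FreeGroup.isReduced_cons_cons.1 h1).1 h6.symm).symm
      | cons k v' =>
        rw [verts_append, h9] at h5
        simp [verts] at h5
  · simp only [verts_append, h4, verts]
    exact (List.perm_append_comm.nodup_iff).2 h5

theorem rot {L : ℕ} {x : A} {u v : List (C × Bool)} (h : (x, u ++ v) ∈ SC π L) :
    (walk π x u, v ++ u) ∈ SC π L := by
  induction u generalizing x v with
  | nil => simpa [walk_nil] using h
  | cons l u ih =>
    have := ih (v := v ++ [l]) (by simpa using rot1 h)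
    simpa [walk_cons] using this

/-- joined by a walk of length at most `m` -/
def Near (π : C → Equiv.Perm A) (m : ℕ) (x y : A) : Prop := ∃ w, w.length ≤ m ∧ walk π x w = y

theorem Near.trans {m k : ℕ} {x y z : A} (h : Near π m x y) (h' : Near π k y z) :
    Near π (m + k) x z := by
  obtain ⟨u, h1, rfl⟩ := h
  obtain ⟨v, h2, rfl⟩ := h'
  exact ⟨u ++ v, by simp; omega, walk_append _ _ _⟩

theorem Near.mono {m k : ℕ} {x y : A} (h : Near π m x y) (h' : m ≤ k) : Near π k x y :=
  h.imp fun _ h => ⟨h.1.trans h', h.2⟩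

theorem near_symm (x : A) (w : List (C × Bool)) : Near π w.length (walk π x w) x := by
  induction w generalizing x with
  | nil => exact ⟨[], le_rfl, rfl⟩
  | cons l w ih => exact (ih (step π x l)).trans ⟨[(l.1, !l.2)], le_rfl, step_step x l⟩

theorem ball [Fintype C] [DecidableEq A] (m : ℕ) (a : A) :
    ∃ s : Finset A, s.card ≤ (2 * Fintype.card C + 1) ^ m ∧ ∀ y, Near π m a y → y ∈ s := by
  induction m generalizing a with
  | zero =>
    refine ⟨{a}, by simp, ?_⟩
    rintro _ ⟨w, h, rfl⟩
    rw [List.length_eq_zero_iff.1 (Nat.le_zero.1 h)]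
    exact mem_singleton_self a
  | succ m ih =>
    choose s h1 h2 using ih
    refine ⟨s a ∪ univ.biUnion fun l => s (step π a l), (card_union_le _ _).trans ?_, ?_⟩
    · have := card_biUnion_le_card_mul univ (fun l => s (step π a l)) _ fun l _ => h1 _
      have h3 := h1 a
      simp only [card_univ, Fintype.card_prod, Fintype.card_bool] at this
      rw [pow_succ]
      nlinarith
    · rintro _ ⟨w, h, rfl⟩
      cases w with
      | nil => exact mem_union_left _ (h2 a a ⟨[], by simp, rfl⟩)
      | cons l w =>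
        exact mem_union_right _ (mem_biUnion.2 ⟨l, mem_univ _, h2 _ _ ⟨w, by simpa using h, rfl⟩⟩)

variable [DecidableEq C] [DecidableEq A]

/-- the switched permutations -/
def sw (π : C → Equiv.Perm A) (c : C) (a a' : A) : C → Equiv.Perm A :=
  Function.update π c (π c * Equiv.swap a a')

/-- a step along a new edge which starts at the `a` side -/
def Nw (π : C → Equiv.Perm A) (c : C) (a x : A) (l : C × Bool) : Prop :=
  (l = (c, true) ∧ x = a) ∨ (l = (c, false) ∧ x = π c a)

/-- a walk along old edges -/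
def Old (π : C → Equiv.Perm A) (c : C) (a a' : A) : A → List (C × Bool) → Prop
  | _, [] => True
  | x, l :: w => ¬ Nw π c a x l ∧ ¬ Nw π c a' x l ∧ Old π c a a' (step π x l) w

variable {c : C} {a a' : A}

theorem step_old {x : A} {l : C × Bool} (h : ¬ Nw π c a x l) (h' : ¬ Nw π c a' x l) :
    step (sw π c a a') x l = step π x l := by
  obtain ⟨d, b⟩ := l
  by_cases hd : d = c
  · subst hd
    cases b
    · have h1 : x ≠ π d a := fun e => h (Or.inr ⟨rfl, e⟩)
      have h2 : x ≠ π d a' := fun e => h' (Or.inr ⟨rfl, e⟩)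
      simp only [step, sw, Function.update_self, Bool.false_eq_true, if_false]
      rw [Equiv.symm_apply_eq, Equiv.Perm.mul_apply, Equiv.swap_apply_of_ne_of_ne
        (fun e => h1 (by rw [← e]; simp)) (fun e => h2 (by rw [← e]; simp))]
      simp
    · have h1 : x ≠ a := fun e => h (Or.inl ⟨rfl, e⟩)
      have h2 : x ≠ a' := fun e => h' (Or.inl ⟨rfl, e⟩)
      simp [step, sw, Equiv.swap_apply_of_ne_of_ne h1 h2]
  · simp [step, sw, Function.update_of_ne hd]

theorem old_eq {x : A} {w : List (C × Bool)} (h : Old π c a a' x w) :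
    walk (sw π c a a') x w = walk π x w ∧ verts (sw π c a a') x w = verts π x w := by
  induction w generalizing x with
  | nil => exact ⟨rfl, rfl⟩
  | cons l w ih => simp only [walk_cons, verts, step_old h.1 h.2.1, ih h.2.2, and_self]

theorem split (x : A) (w : List (C × Bool)) : Old π c a a' x w ∨ ∃ u l t, w = u ++ l :: t ∧
    Old π c a a' x u ∧ (Nw π c a (walk π x u) l ∨ Nw π c a' (walk π x u) l) := by
  induction w generalizing x with
  | nil => exact Or.inl trivial
  | cons l w ih =>
    by_cases h : Nw π c a x l ∨ Nw π c a' x l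
    · exact Or.inr ⟨[], l, w, rfl, trivial, h⟩
    · rw [not_or] at h
      rcases ih (step π x l) with h1 | ⟨u, k, t, rfl, h1, h2⟩
      · exact Or.inl ⟨h.1, h.2, h1⟩
      · exact Or.inr ⟨l :: u, k, t, rfl, ⟨h.1, h.2, h1⟩, h2⟩

theorem sw_comm : sw π c a a' = sw π c a' a := by rw [sw, sw, Equiv.swap_comm]

theorem step_new {x : A} {l : C × Bool} (h : Nw π c a x l) :
    Nw π c a' (step (sw π c a a') x l) (l.1, !l.2) := by
  rcases h with ⟨rfl, rfl⟩ | ⟨rfl, rfl⟩
  · exact Or.inr ⟨rfl, by simp [step, sw]⟩
  · refine Or.inl ⟨rfl, ?_⟩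
    simp only [step, sw, Function.update_self, Bool.false_eq_true, if_false]
    rw [Equiv.symm_apply_eq]
    simp

omit [DecidableEq C] [DecidableEq A] in
theorem Nw.near {x : A} {l : C × Bool} (h : Nw π c a x l) : Near π 1 a x ∧ Near π 1 x a := by
  rcases h with ⟨-, rfl⟩ | ⟨-, rfl⟩
  · exact ⟨⟨[], by simp, rfl⟩, ⟨[], by simp, rfl⟩⟩
  · exact ⟨⟨[(c, true)], le_rfl, rfl⟩, near_symm a [(c, true)]⟩

omit [DecidableEq C] [DecidableEq A] in
theorem far {L : ℕ} (hf : ¬ Near π (L + 1) a a') {x y : A} {l k : C × Bool} (hx : Nw π c a x l)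
    (hy : Nw π c a' y k) {u : List (C × Bool)} (hu : u.length + 1 ≤ L)
    (h : walk π x u = y ∨ walk π y u = x) : False := by
  have h1 : Near π u.length x y := by
    rcases h with h | h
    · exact ⟨u, le_rfl, h⟩
    · exact h ▸ near_symm y u
  exact hf (((hx.near.1.trans h1).trans hy.near.2).mono (by omega))

theorem k1 {L : ℕ} (hf : ¬ Near π (L + 1) a a') (hc : ∀ p ∈ SC π L, a' ∉ verts π p.1 p.2)
    {x : A} {l : C × Bool} {v : List (C × Bool)} (h : (x, l :: v) ∈ SC (sw π c a a') L)
    (hx : Nw π c a x l) : False := by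
  obtain ⟨h1, -, h3, h4, h5⟩ := h
  simp only [walk_cons, verts, List.length_cons] at h1 h3 h4 h5
  have hy := step_new (a' := a') hx
  generalize step (sw π c a a') x l = y at *
  rcases split (π := π) (c := c) (a := a) (a' := a') y v with h6 | ⟨u, k, t, rfl, h6, h7⟩
  · exact far hf hx hy h3 (Or.inr ((old_eq h6).1.symm.trans h4))
  have h8 : u.length + 1 ≤ L := by simp at h3; omega
  rcases h7 with h7 | h7
  · exact far hf h7 hy h8 (Or.inr rfl)
  have h9 : (walk π y u :: verts π y u).Nodup := by
    have := (List.nodup_cons.1 h5).2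
    rw [verts_append, (old_eq h6).1, (old_eq h6).2, verts, ← List.singleton_append,
      ← List.append_assoc] at this
    exact (List.perm_append_comm.nodup_iff).1 (List.nodup_append.1 this).1
  by_cases hk : k = l
  · have h10 : step π (walk π y u) l = y := by
      obtain ⟨d, b⟩ := l
      rcases hy with ⟨e1, e2⟩ | ⟨e1, e2⟩ <;> rcases h7 with ⟨e3, e4⟩ | ⟨e3, e4⟩ <;>
        simp_all [step]
    refine hc (walk π y u, l :: u) ⟨red_sub h1 ⟨[], k :: t, by simp⟩, by simp, h8,
      by rw [walk_cons, h10], by simp only [verts, h10]; exact h9⟩ ?_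
    simp only [verts, h10]
    rcases h7 with ⟨-, e4⟩ | ⟨e3, e4⟩
    · exact e4 ▸ List.mem_cons_self
    · have e2 : y = a' := by
        obtain ⟨d, b⟩ := l
        rcases hy with ⟨e1, e2⟩ | ⟨e1, e2⟩
        · exact e2
        · simp_all
      cases u with
      | nil => exact e2 ▸ List.mem_cons_self
      | cons k' u => exact List.mem_cons_of_mem _ (e2 ▸ List.mem_cons_self)
  · have h10 : k = (l.1, !l.2) ∧ walk π y u = y := by
      obtain ⟨d, b⟩ := l
      rcases hy with ⟨e1, e2⟩ | ⟨e1, e2⟩ <;> rcases h7 with ⟨e3, e4⟩ | ⟨e3, e4⟩ <;>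
        simp_all
    cases u with
    | nil =>
      have := (FreeGroup.isReduced_cons_cons.1 h1).1 (by rw [h10.1])
      rw [h10.1] at this
      simp at this
    | cons k' u =>
      rw [h10.2] at h9
      simp [verts] at h9

theorem sub {L : ℕ} (hf : ¬ Near π (L + 1) a a') (hc : ∀ p ∈ SC π L, a' ∉ verts π p.1 p.2)
    {x : A} {w : List (C × Bool)} (h : (x, w) ∈ SC (sw π c a a') L) : Old π c a a' x w := by
  rcases split (π := π) (c := c) (a := a) (a' := a') x w with h0 | ⟨u0, l, t0, rfl, h0, hx⟩
  · exact h0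
  exfalso
  have h' := rot h
  rw [(old_eq h0).1, List.cons_append] at h'
  generalize walk π x u0 = x at *
  generalize t0 ++ u0 = v at *
  rcases hx with hx | hx
  · exact k1 hf hc h' hx
  have hy := step_new (a' := a) hx
  rw [← sw_comm] at hy
  have h3 : v.length + 1 ≤ L := h'.2.2.1
  have h4 : walk (sw π c a a') (step (sw π c a a') x l) v = x := h'.2.2.2.1
  rcases split (π := π) (c := c) (a := a) (a' := a') (step (sw π c a a') x l) v with
    h6 | ⟨u, k, t, rfl, h6, h7⟩
  · exact far hf hy hx h3 (Or.inl ((old_eq h6).1.symm.trans h4))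
  rcases h7 with h7 | h7
  · have h8 := rot (u := l :: u) (v := k :: t) h'
    rw [walk_cons, (old_eq h6).1] at h8
    exact k1 hf hc h8 h7
  · exact far hf hy h7 (u := u) (by simp at h3; omega) (Or.inl rfl)

theorem inE_sw [Fintype C] (U : Finset A) :
    inE (sw π c a a') U ≤ inE π U + ((U ∩ {a'}).card + (U ∩ {π c a'}).card) := by
  refine le_trans (card_le_card (t := ((U ×ˢ (univ : Finset C)).filter fun e => π e.2 e.1 ∈ U) ∪
    (((U ∩ {a'}).image fun _ => (a', c)) ∪ ((U ∩ {π c a'}).image fun _ => (a, c)))) ?_) ?_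
  · rintro ⟨x, d⟩ h
    simp only [mem_filter, mem_product, mem_univ, and_true] at h
    by_cases h1 : Nw π c a x (d, true)
    · rcases h1 with ⟨e1, rfl⟩ | ⟨e1, -⟩
      · obtain rfl : d = c := congrArg Prod.fst e1
        refine mem_union_right _ (mem_union_right _ (mem_image.2 ⟨π d a', ?_, rfl⟩))
        simpa [sw] using h.2
      · simp at e1
    by_cases h2 : Nw π c a' x (d, true)
    · rcases h2 with ⟨e1, rfl⟩ | ⟨e1, -⟩
      · obtain rfl : d = c := congrArg Prod.fst e1
        exact mem_union_right _ (mem_union_left _ (mem_image.2 ⟨x, by simpa using h.1, rfl⟩))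
      · simp at e1
    have h3 : sw π c a a' d x = π d x := step_old h1 h2
    exact mem_union_left _ (by simpa [← h3] using h)
  · exact (card_union_le _ _).trans (Nat.add_le_add_left ((card_union_le _ _).trans
      (Nat.add_le_add card_image_le card_image_le)) _)

theorem sc_finite [Finite A] [Finite C] (π : C → Equiv.Perm A) (L : ℕ) : (SC π L).Finite :=
  ((Set.toFinite Set.univ).prod (List.finite_length_le (C × Bool) L)).subset
    fun _ h => ⟨trivial, h.2.2.1⟩

theorem card_step (U Z : Finset A) {x y : A} (hx : x ∉ Z) (hy : y ∉ Z) (h : x ≠ y) :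
    (U ∩ {x}).card + (U ∩ {y}).card + (U \ insert x (insert y Z)).card ≤ (U \ Z).card := by
  rw [← card_union_of_disjoint (by
      rw [disjoint_left]; intro z h1 h2; simp_all), ← card_union_of_disjoint (by
      rw [disjoint_left]; intro z h1 h2; simp at h1 h2; tauto)]
  refine card_le_card fun z hz => ?_
  simp only [mem_union, mem_inter, mem_singleton, mem_sdiff, mem_insert, not_or] at hz ⊢
  rcases hz with (⟨h1, rfl⟩ | ⟨h1, rfl⟩) | h1
  · exact ⟨h1, hx⟩
  · exact ⟨h1, hy⟩
  · exact ⟨h1.1, h1.2.2.2⟩

theorem main [Fintype A] [Fintype C] (L j : ℕ) (π : C → Equiv.Perm A) (Z : Finset A)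
    (h1 : (SC π L).ncard ≤ j)
    (h2 : j * (L + 4) + 2 * Z.card + (2 * Fintype.card C + 1) ^ (L + 1) < Fintype.card A) :
    ∃ π' : C → Equiv.Perm A, Girth π' L ∧ ∀ U, inE π' U ≤ inE π U + (U \ Z).card := by
  induction j generalizing π Z with
  | zero =>
    exact ⟨π, girth_of ((Set.ncard_eq_zero (sc_finite π L)).1 (Nat.le_zero.1 h1)),
      fun U => Nat.le_add_right _ _⟩
  | succ j ih =>
    rcases (SC π L).eq_empty_or_nonempty with h3 | ⟨⟨x, w⟩, h3⟩
    · exact ⟨π, girth_of h3, fun U => Nat.le_add_right _ _⟩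
    obtain ⟨l, w, rfl⟩ := List.exists_cons_of_ne_nil h3.2.1
    obtain ⟨a, ha⟩ : ∃ a, Nw π l.1 a x l := by
      obtain ⟨c, b⟩ := l
      cases b
      · exact ⟨(π c).symm x, Or.inr ⟨rfl, by simp⟩⟩
      · exact ⟨x, Or.inl ⟨rfl, rfl⟩⟩
    generalize l.1 = c at ha
    obtain ⟨s, hs, hs'⟩ := ball (π := π) (L + 1) a
    let T := (sc_finite π L).toFinset.biUnion fun p => (verts π p.1 p.2).toFinset
    have hT : T.card ≤ (j + 1) * L := by
      refine (card_biUnion_le_card_mul _ _ L fun p hp => (List.toFinset_card_le _).trans ?_).trans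
        (Nat.mul_le_mul_right _ ?_)
      · rw [length_verts]
        exact ((sc_finite π L).mem_toFinset.1 hp).2.2.1
      · rwa [← Set.ncard_eq_toFinset_card _ (sc_finite π L)]
    obtain ⟨a', h4⟩ : ∃ a', a' ∉ s ∪ T ∪ Z ∪ Z.image (π c).symm := by
      by_contra h4
      have h5 : (univ : Finset A) ⊆ s ∪ T ∪ Z ∪ Z.image (π c).symm :=
        fun z _ => not_not.1 fun h => h4 ⟨z, h⟩
      have h6 := card_le_card h5
      have h7 := card_union_le (s ∪ T ∪ Z) (Z.image (π c).symm)
      have h8 := card_union_le (s ∪ T) Z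
      have h9 := card_union_le s T
      have h10 := card_image_le (s := Z) (f := (π c).symm)
      rw [card_univ] at h6
      rw [mul_add] at h2
      omega
    simp only [mem_union, not_or] at h4
    obtain ⟨⟨⟨h4, h5⟩, h6⟩, h7⟩ := h4
    have hf : ¬ Near π (L + 1) a a' := fun h => h4 (hs' _ h)
    have hc : ∀ p ∈ SC π L, a' ∉ verts π p.1 p.2 := fun p hp h =>
      h5 (mem_biUnion.2 ⟨p, (sc_finite π L).mem_toFinset.2 hp, List.mem_toFinset.2 h⟩)
    have h8 : π c a' ∉ Z := fun h => h7 (mem_image.2 ⟨_, h, by simp⟩)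
    have h9 : a' ≠ π c a' := fun h => hc (a', [(c, true)])
      ⟨by simp, by simp, le_trans (by simp) h3.2.2.1, h.symm, by simp [verts]⟩ (by simp [verts])
    have h10 : SC (sw π c a a') L ⊆ SC π L \ {(x, l :: w)} := by
      rintro ⟨y, v⟩ h
      have h' := sub hf hc h
      refine ⟨⟨h.1, h.2.1, h.2.2.1, (old_eq h').1.symm.trans h.2.2.2.1,
        (old_eq h').2 ▸ h.2.2.2.2⟩, fun e => ?_⟩
      obtain ⟨rfl, rfl⟩ := Prod.mk.inj (Set.mem_singleton_iff.1 e)
      exact h'.1 ha
    obtain ⟨π', h11, h12⟩ := ih (sw π c a a') (insert a' (insert (π c a') Z)) (by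
      have := Set.ncard_le_ncard h10 ((sc_finite π L).subset Set.sdiff_subset)
      rw [Set.ncard_sdiff_singleton_of_mem h3] at this
      omega) (by
      have := card_insert_le a' (insert (π c a') Z)
      have := card_insert_le (π c a') Z
      rw [add_mul] at h2
      omega)
    refine ⟨π', h11, fun U => ?_⟩
    have := h12 U
    have := inE_sw (π := π) (c := c) (a := a) (a' := a') U
    have := card_step U Z h6 h8 h9
    omega

end SW

theorem stSW : St_SW := by
  intro C _ _ n L j π h1 h2
  simpa using SW.main L j π ∅ h1 (by simpa using h2)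

end Pool.Agent.Lib.IT
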