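import Pool.Agent.Lib.IT.Defs

/-! Blueprint: block statements. Block `X` is `theorem stX (earlier blocks) : St_X`. -/

namespace Pool.Agent.Lib.IT

open Finset MeasureTheory

/-- PL: two counting lemmas for permutations -/
def St_PL : Prop := ∀ (A : Type) [Fintype A] [DecidableEq A],
  (∀ O I : Finset A, (((univ : Finset (Equiv.Perm A)).filter fun σ => ∀ a ∈ O, σ a ∈ I).card : ℝ) ≤
    (Fintype.card A).factorial * ((I.card : ℝ) / Fintype.card A) ^ O.card) ∧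
  ∀ (O : Finset A) (f : A → A), ((univ : Finset (Equiv.Perm A)).filter
    fun σ => ∀ a ∈ O, σ a = f a).card ≤ (Fintype.card A - O.card).factorial

open scoped Classical in
/-- RG1: few short cycles -/
def St_RG1 : Prop := ∀ (C : Type) [Fintype C] [DecidableEq C] (n L : ℕ), 2 * L ≤ n →
  1 ≤ Fintype.card C →
  4 * ((univ : Finset (C → Equiv.Perm (Fin n))).filter
    fun π => 4 * (4 * Fintype.card C) ^ (L + 1) < (SC π L).ncard).card ≤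
      Fintype.card (C → Equiv.Perm (Fin n))

open scoped Classical in
/-- RG2: density with one unit of slack -/
def St_RG2 : Prop := ∀ (C : Type) [Fintype C] [DecidableEq C] (n : ℕ), Fintype.card C = 200 →
  4 * ((univ : Finset (C → Equiv.Perm (Fin n))).filter
    fun π => ∃ U : Finset (Fin n), 8 * U.card ≤ 7 * n ∧ 197 * U.card < inE π U).card ≤
      Fintype.card (C → Equiv.Perm (Fin n))

/-- SW: switching removes the short cycles -/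
def St_SW : Prop := ∀ (C : Type) [Fintype C] [DecidableEq C] (n L j : ℕ)
  (π : C → Equiv.Perm (Fin n)), (SC π L).ncard ≤ j →
  j * (L + 4) + (2 * Fintype.card C + 1) ^ (L + 1) < n →
  ∃ π' : C → Equiv.Perm (Fin n), Girth π' L ∧ ∀ U : Finset (Fin n), inE π' U ≤ inE π U + U.card

/-- GR: dense expanders of logarithmic girth (from RG1, RG2, SW) -/
def St_GR : Prop := ∀ (C : Type) [Fintype C] [DecidableEq C] (ℓ : ℕ), Fintype.card C = 200 →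
  5 ≤ ℓ → ∃ π : C → Equiv.Perm (Fin (800 ^ (30 * ℓ))), Girth π (7 * ℓ) ∧ Dens π

/-- RLC: random linear codes -/
def St_RLC : Prop := ∀ (E W : Type) [Fintype E] [Fintype W] [AddCommGroup W],
  (∀ w : W, w + w = 0) → 256 ≤ Fintype.card W → 16 ≤ Fintype.card E →
  ∀ y : E → W, (∀ e, y e ≠ 0) → ∃ K : AddSubgroup (E → W), GoodCode K y

open scoped Classical in
/-- ROS: Rosenfeld counting -/
def St_ROS : Prop := ∀ (E F ι : Type) [Fintype E] [Fintype F] [Fintype ι]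
  (bad : ι → (E → F) → Prop) (supp : ι → Finset E) (I : ι → E → Finset E) (β : ℝ), 1 ≤ β →
  (∀ j, (supp j).Nonempty) →
  (∀ j z z', (∀ e ∈ supp j, z e = z' e) → bad j z → bad j z') →
  (∀ j, ∀ e ∈ supp j, e ∈ I j e ∧ I j e ⊆ supp j ∧
    ∀ z z', bad j z → bad j z' → (∀ e' ∉ I j e, z e' = z' e') → z = z') →
  (∀ e, β + ∑ j ∈ univ.filter (fun j => e ∈ supp j), β⁻¹ ^ ((I j e).card - 1) ≤ Fintype.card F) →
  ∃ z, ∀ j, ¬ bad j z

/-- LAB: labelling with short pieces (from ROS) -/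
def St_LAB : Prop := ∀ (C F ι : Type) [Fintype C] [DecidableEq C] [Fintype F] [Fintype ι]
  (n ℓ : ℕ) (π : C → Equiv.Perm (Fin n)) (n' ℓ' : ι → ℕ)
  (π' : ∀ j, C → Equiv.Perm (Fin (n' j))) (z' : ∀ j, Fin (n' j) × C → F),
  Fintype.card C = 200 → 2 * 800 ^ 200 ≤ Fintype.card F → Girth π (7 * ℓ) → 5 ≤ ℓ →
  n ≤ 800 ^ (30 * ℓ) → Function.Injective ℓ' → (∀ j, 5 ≤ ℓ' j ∧ ℓ' j ≤ ℓ) →
  (∀ j, n' j ≤ 800 ^ (30 * ℓ' j)) →
  ∃ z : Fin n × C → F,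
    (∀ a a' w, FreeGroup.IsReduced w → w.length = ℓ + 1 → lab π z a w = lab π z a' w → a = a') ∧
    ∀ j a a' w, FreeGroup.IsReduced w → w.length = ℓ' j + 1 →
      lab π z a w ≠ lab (π' j) (z' j) a' w

/-- SEQ: the data, growing as fast as we like (from GR, RLC, LAB) -/
def St_SEQ : Prop := ∀ (C W : Type) [Fintype C] [DecidableEq C] [Fintype W] [AddCommGroup W],
  Fintype.card C = 200 → (∀ w : W, w + w = 0) → 2 * 800 ^ 200 < Fintype.card W →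
  ∀ Gr : ℕ → ℕ → ℕ, ∃ D : Data C W, ∀ n, Gr (D.N n) n ≤ D.N (n + 1)

/-- GEO: birth order for graphical small cancellation -/
def St_GEO : Prop := ∀ (S Ω : Type) [Countable Ω] (nxt : Ω → S × Bool → Option Ω) (ℓ : Ω → ℕ),
  Small nxt ℓ → ∀ x0, ∃ τ, Order nxt ℓ x0 τ

/-- CON: the graphs are connected -/
def St_CON : Prop := ∀ (C : Type) [Fintype C] (n : ℕ) (π : C → Equiv.Perm (Fin n)),
  3 ≤ Fintype.card C → Dens π → ∀ a, orb π a = Set.univ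

/-- BIR: the monster group (from GEO, CON) -/
def St_BIR : Prop := ∀ (C W : Type) [Fintype C] [DecidableEq C] [Fintype W] [AddCommGroup W]
  (D : Data C W), 3 ≤ Fintype.card C →
  ∃ (Γ : Type) (_ : Group Γ) (gen : C × W → Γ), Subgroup.closure (Set.range gen) = ⊤ ∧
    ∀ n0, Nonempty (Birth D gen n0)

/-- CFG: `Xg` is closed and invariant -/
def St_CFG : Prop := ∀ (C W : Type) [Fintype C] [AddCommGroup W] (D : Data C W) (Γ : Type)
  [Group Γ] (gen : C × W → Γ) (I : Set ℕ), Cfg gen (Xg D gen I)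

/-- EXP: uniform expansion; finite orbits are full copies (from CON) -/
def St_EXP : Prop := ∀ (C W : Type) [Fintype C] [DecidableEq C] [Fintype W] [AddCommGroup W]
  (D : Data C W) (Γ : Type) [Group Γ] (gen : C × W → Γ) (I : Set ℕ) (h : Cfg gen (Xg D gen I))
  (n0 : ℕ) (_ : Birth D gen n0), Fintype.card C = 200 → (∀ w : W, w + w = 0) →
  ∀ ω, Expands (sig h ω) ∧
    ∀ g, (orb (sig h ω) g).Finite → ∃ n ∈ I, (orb (sig h ω) g).ncard = D.N n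

/-- EXT: a full copy exists (from CON) -/
def St_EXT : Prop := ∀ (C W : Type) [Fintype C] [DecidableEq C] [Fintype W] [AddCommGroup W]
  (D : Data C W) (Γ : Type) [Group Γ] (gen : C × W → Γ) (I : Set ℕ) (h : Cfg gen (Xg D gen I))
  (n0 : ℕ) (_ : Birth D gen n0), 3 ≤ Fintype.card C → n0 ∈ I →
  ∃ ω, (orb (sig h ω) 1).ncard = D.N n0

/-- POI: Poincare inequality from expansion (Cheeger with the median on finite orbits) -/
def St_POI : Prop := ∀ (C : Type) [Fintype C], 1 ≤ Fintype.card C → ∃ κ : ℝ, 0 < κ ∧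
  ∀ (A : Type) (π : C → Equiv.Perm A), Expands π → ∀ (η : A →₀ ℝ),
    (∀ a, (orb π a).Finite → ∑ᶠ b ∈ orb π a, η b = 0) →
    κ * ∑ᶠ a, η a ^ 2 ≤ ∑ c : C, ∑ᶠ a, (η (π c a) - η a) ^ 2

/-- CHE: geometric convergence (from POI) -/
def St_CHE : Prop := ∀ (C : Type) [Fintype C], 1 ≤ Fintype.card C → ∃ ρ : ℝ, 0 ≤ ρ ∧ ρ < 1 ∧
  ∀ (A : Type) (π : C → Equiv.Perm A), Expands π → Converges π ρ

/-- HAAR: Haar measure -/
def St_HAAR : Prop := ∀ (C W : Type) [Fintype C] [Fintype W] [AddCommGroup W] (Γ : Type) [Group Γ]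
  (gen : C × W → Γ) (X : AddSubgroup (Γ → C × Bool → W)), Cfg gen X → ∃ m μ, Haar X m μ

open scoped Classical in
/-- ALG: algebra of the Fourier transform -/
def St_ALG : Prop := ∀ (C W : Type) [Fintype C] [Fintype W] [AddCommGroup W] (Γ : Type) [Group Γ]
  (gen : C × W → Γ) (X : AddSubgroup (Γ → C × Bool → W)) (h : Cfg gen X), (∀ w : W, w + w = 0) →
  (Subgroup.closure (Set.range gen) = ⊤ → Group.FG (Gg h)) ∧
  (∀ x, (aX h).coeff x⁻¹ = (aX h).coeff x) ∧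
  (∀ ξ ξ' ω g, hat h (ξ - ξ') ω g = hat h ξ ω g - hat h ξ' ω g) ∧
  (∀ ξ ω, hat h (aX h * ξ) ω = lazy (sig h ω) (hat h ξ ω)) ∧
  (∀ ω, hat h 1 ω = fun g => if g = 1 then 1 else 0)

/-- PAR: Parseval -/
def St_PAR : Prop := ∀ (C W : Type) [Fintype C] [Fintype W] [AddCommGroup W] (Γ : Type) [Group Γ]
  (gen : C × W → Γ) (X : AddSubgroup (Γ → C × Bool → W)) (h : Cfg gen X)
  (m : MeasurableSpace X) (μ : Measure X), Haar X m μ → ∀ ξ : MonoidAlgebra ℝ (Gg h),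
  Integrable (fun ω => hat h ξ ω 1) μ ∧ ∫ ω, hat h ξ ω 1 ∂μ = ξ.coeff 1 ∧
  ∃ s : Finset Γ, (∀ ω, ∀ g ∉ s, hat h ξ ω g = 0) ∧
    ∀ s' : Finset Γ, s ⊆ s' → Integrable (fun ω => ∑ g ∈ s', hat h ξ ω g ^ 2) μ ∧
      ∫ ω, ∑ g ∈ s', hat h ξ ω g ^ 2 ∂μ = ξ.coeff.sum fun _ r => r ^ 2

/-- LIM: the limit of the powers is a projection of the reduced algebra -/
def St_LIM : Prop := ∀ (G : Type) [Group G] (a : MonoidAlgebra ℝ G) (ρ : ℝ), 0 ≤ ρ → ρ < 1 →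
  (∀ x, a.coeff x⁻¹ = a.coeff x) →
  (∀ (ξ : MonoidAlgebra ℝ G) (m m' : ℕ), m ≤ m' →
    ((a ^ m * ξ - a ^ m' * ξ).coeff.sum fun _ r => r ^ 2) ≤ 4 * ρ ^ m * ξ.coeff.sum fun _ r => r ^ 2) →
  ∃ p ∈ redAlg G, p * p = p ∧ IsSelfAdjoint p ∧
    Filter.Tendsto (fun m : ℕ => (a ^ m).coeff 1) Filter.atTop (nhds (tr p))

/-- MEA: the law of the orbit size -/
def St_MEA : Prop := ∀ (C W : Type) [Fintype C] [Fintype W] [AddCommGroup W],
  ∃ Q : ℕ → ℕ, (∀ N, 0 < Q N) ∧ (∀ N N', N ≤ N' → Q N ∣ Q N') ∧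
  ∀ (Γ : Type) [Group Γ] (gen : C × W → Γ) (X : AddSubgroup (Γ → C × Bool → W)) (h : Cfg gen X)
    (m : MeasurableSpace X) (μ : Measure X), Haar X m μ →
    Integrable (fun ω => 1 / ((orb (sig h ω) 1).ncard : ℝ)) μ ∧
    ∃ r : ℕ → ℝ, HasSum (fun N : ℕ => r N / N) (∫ ω, 1 / ((orb (sig h ω) 1).ncard : ℝ) ∂μ) ∧
      ∀ N, 1 ≤ N → r N ≤ 1 ∧ (∃ j : ℕ, Q N * r N = j) ∧
        (r N ≠ 0 ↔ ∃ ω, (orb (sig h ω) 1).ncard = N)

/-- IRR: a lacunary sum is irrational -/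
def St_IRR : Prop := ∀ Q : ℕ → ℕ, (∀ N, 0 < Q N) → (∀ N N', N ≤ N' → Q N ∣ Q N') →
  ∃ Gr : ℕ → ℕ → ℕ, ∀ (M : ℕ → ℕ) (r : ℕ → ℝ) (x : ℝ), (∀ n, 0 < M n) →
    (∀ n, Gr (M n) n ≤ M (n + 1)) → HasSum (fun N : ℕ => r N / N) x →
    (∀ N, 1 ≤ N → r N ≤ 1 ∧ (∃ j : ℕ, Q N * r N = j) ∧ (r N ≠ 0 ↔ ∃ n, M n = N)) → Irrational x

/-- PRO: the projection and its trace (from ALG, PAR, LIM) -/
def St_PRO : Prop := ∀ (C W : Type) [Fintype C] [Fintype W] [AddCommGroup W] (Γ : Type) [Group Γ]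
  (gen : C × W → Γ) (X : AddSubgroup (Γ → C × Bool → W)) (h : Cfg gen X)
  (m : MeasurableSpace X) (μ : Measure X) (ρ : ℝ), (∀ w : W, w + w = 0) → Haar X m μ → 0 ≤ ρ →
  ρ < 1 → (∀ ω, Converges (sig h ω) ρ) →
  Integrable (fun ω => 1 / ((orb (sig h ω) 1).ncard : ℝ)) μ →
  ∃ p ∈ redAlg (Gg h), p * p = p ∧ IsSelfAdjoint p ∧
    tr p = ∫ ω, 1 / ((orb (sig h ω) 1).ncard : ℝ) ∂μ

/-- the theorem -/
def St_MAIN : Prop := ∃ (G : Type) (_ : Group G), Group.FG G ∧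
  ∃ p ∈ redAlg G, p * p = p ∧ IsSelfAdjoint p ∧ Irrational (tr p)

theorem main_of (hSEQ : St_SEQ) (hBIR : St_BIR) (hCFG : St_CFG) (hEXP : St_EXP) (hEXT : St_EXT)
    (hCHE : St_CHE) (hHAAR : St_HAAR) (hALG : St_ALG) (hMEA : St_MEA) (hIRR : St_IRR)
    (hPRO : St_PRO) : St_MAIN := by
  classical
  obtain ⟨C, iC, hC⟩ : ∃ (C : Type) (_ : Fintype C), Fintype.card C = 200 :=
    ⟨Fin 200, inferInstance, Fintype.card_fin _⟩
  obtain ⟨W, iW, gW, h2, hW⟩ : ∃ (W : Type) (_ : Fintype W) (_ : AddCommGroup W),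
      (∀ w : W, w + w = 0) ∧ 2 * 800 ^ 200 < Fintype.card W := by
    have hx : ∀ x : ℕ, ∃ b : ℕ, x < 2 ^ b := fun x => ⟨x, Nat.lt_two_pow_self⟩
    obtain ⟨b, hb⟩ := hx (2 * 800 ^ 200)
    refine ⟨Fin b → ZMod 2, inferInstance, inferInstance, fun w => ?_, ?_⟩
    · ext i; exact CharTwo.add_self_eq_zero _
    · simpa [Fintype.card_fun, ZMod.card] using hb
  obtain ⟨Q, hQ0, hQd, hQ⟩ := hMEA C W
  obtain ⟨Gr, hGr⟩ := hIRR Q hQ0 hQd
  obtain ⟨D, hD⟩ := hSEQ C W hC h2 hW Gr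
  obtain ⟨Γ, iΓ, gen, hgen, hB⟩ := hBIR C W D (by omega)
  have h := hCFG C W D Γ gen Set.univ
  obtain ⟨m, μ, hμ⟩ := hHAAR C W Γ gen _ h
  obtain ⟨ρ, h0, h1, hρ⟩ := hCHE C (by omega)
  obtain ⟨B0⟩ := hB 0
  have hE := hEXP C W D Γ gen _ h 0 B0 hC h2
  obtain ⟨hint, r, hsum, hr⟩ := hQ Γ gen _ h m μ hμ
  obtain ⟨p, hp, hpp, hsa, htr⟩ := hPRO C W Γ gen _ h m μ ρ h2 hμ h0 h1
    (fun ω => hρ _ _ (hE ω).1) hint
  refine ⟨Gg h, inferInstance, (hALG C W Γ gen _ h h2).1 hgen, p, hp, hpp, hsa, ?_⟩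
  rw [htr]
  refine hGr D.N r _ D.pos hD hsum fun N hN => ⟨(hr N hN).1, (hr N hN).2.1, ?_⟩
  rw [(hr N hN).2.2]
  constructor
  · rintro ⟨ω, hω⟩
    obtain ⟨n, -, hn⟩ := (hE ω).2 1 (Set.finite_of_ncard_ne_zero (by omega))
    exact ⟨n, hn.symm.trans hω⟩
  · rintro ⟨n, rfl⟩
    obtain ⟨Bn⟩ := hB n
    exact hEXT C W D Γ gen _ h n Bn (by omega) (Set.mem_univ _)

end Pool.Agent.Lib.IT
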