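import Mathlib

/-! Definitions for the irrational trace theorem (see b169_COUNTER_h2.md, it_PLAN.md). -/

namespace Pool.Agent.Lib.IT

open Finset

/-! ### the statement -/

/-- real `l2 (G)` -/
abbrev L2 (G : Type) := lp (fun _ : G => ℝ) 2

/-- the reduced real group C*-algebra: norm closure of the span of the left translations -/
def redAlg (G : Type) [Group G] : Set (L2 G →L[ℝ] L2 G) :=
  closure (Submodule.span ℝ
    {T : L2 G →L[ℝ] L2 G | ∃ g : G, ∀ (ξ : L2 G) (x : G), T ξ x = ξ (g⁻¹ * x)} :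
      Set (L2 G →L[ℝ] L2 G))

open scoped Classical in
/-- the canonical trace -/
noncomputable def tr {G : Type} [Group G] (T : L2 G →L[ℝ] L2 G) : ℝ :=
  T (lp.single 2 (1 : G) (1 : ℝ)) 1

/-! ### coloured permutation graphs -/

section Graph
variable {C A W : Type}

/-- one step along a colour, forwards (`true`) or backwards -/
def step (π : C → Equiv.Perm A) (a : A) (l : C × Bool) : A :=
  if l.2 then π l.1 a else (π l.1).symm a

/-- end point of a walk -/
def walk (π : C → Equiv.Perm A) (a : A) (w : List (C × Bool)) : A := w.foldl (step π) a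

/-- the edge `(source, colour)` behind the port `l` of `a` -/
def edge (π : C → Equiv.Perm A) (a : A) (l : C × Bool) : A × C :=
  if l.2 then (a, l.1) else ((π l.1).symm a, l.1)

/-- the vertices of a walk, the last one left out -/
def verts (π : C → Equiv.Perm A) : A → List (C × Bool) → List A
  | _, [] => []
  | a, l :: w => a :: verts π (step π a l) w

/-- the labels read along a walk -/
def lab (π : C → Equiv.Perm A) (z : A × C → W) : A → List (C × Bool) → List W
  | _, [] => []
  | a, l :: w => z (edge π a l) :: lab π z (step π a l) w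

/-- local vector of an edge labelling at a vertex -/
def locv (π : C → Equiv.Perm A) (z : A × C → W) (a : A) : C × Bool → W := fun p => z (edge π a p)

/-- no non-empty reduced closed walk of length at most `g` -/
def Girth (π : C → Equiv.Perm A) (g : ℕ) : Prop :=
  ∀ a w, FreeGroup.IsReduced w → w ≠ [] → walk π a w = a → g < w.length

/-- short simple cycles -/
def SC (π : C → Equiv.Perm A) (L : ℕ) : Set (A × List (C × Bool)) :=
  {x | FreeGroup.IsReduced x.2 ∧ x.2 ≠ [] ∧ x.2.length ≤ L ∧ walk π x.1 x.2 = x.1 ∧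
    (verts π x.1 x.2).Nodup}

/-- number of edges with both ends in `U` -/
def inE [Fintype C] [DecidableEq A] (π : C → Equiv.Perm A) (U : Finset A) : ℕ :=
  ((U ×ˢ (univ : Finset C)).filter fun e => π e.2 e.1 ∈ U).card

/-- orbit of a point -/
def orb (π : C → Equiv.Perm A) (a : A) : Set A := {b | ∃ w, walk π a w = b}

/-- the lazy random walk operator -/
noncomputable def lazy [Fintype C] (π : C → Equiv.Perm A) (η : A → ℝ) : A → ℝ := fun a =>
  η a / 2 + (∑ p : C × Bool, η (step π a p)) / (4 * Fintype.card C)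

/-- every finite set holding at most half of each finite orbit has a large boundary -/
def Expands [Fintype C] (π : C → Equiv.Perm A) : Prop :=
  ∀ B : Finset A, (∀ a, (orb π a).Finite → 2 * (orb π a ∩ B).ncard ≤ (orb π a).ncard) →
    B.card ≤ {e : A × C | e.1 ∈ B ∧ π e.2 e.1 ∉ B}.ncard

open scoped Classical in
/-- uniform geometric convergence of the lazy walk -/
def Converges [Fintype C] (π : C → Equiv.Perm A) (ρ : ℝ) : Prop :=
  (∀ (η : A → ℝ) (s s' : Finset A) (m m' : ℕ), (∀ a ∉ s, η a = 0) → m ≤ m' →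
    ∑ a ∈ s', ((lazy π)^[m] η a - (lazy π)^[m'] η a) ^ 2 ≤ 4 * ρ ^ m * ∑ a ∈ s, η a ^ 2) ∧
  ∀ (a : A) (m : ℕ),
    ((lazy π)^[m] (fun b => if b = a then 1 else 0) a - 1 / ((orb π a).ncard : ℝ)) ^ 2 ≤ ρ ^ m

end Graph

/-! ### the data: labelled expanders with codes -/

section Data
variable {C W : Type} [Fintype C] [AddCommGroup W]

/-- sets of at most seven eighths of the vertices lose two edges per vertex -/
def Dens {n : ℕ} (π : C → Equiv.Perm (Fin n)) : Prop :=
  ∀ U : Finset (Fin n), 8 * U.card ≤ 7 * n → inE π U ≤ (Fintype.card C - 2) * U.card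

/-- Hamming weight -/
noncomputable def wt {E : Type} (u : E → W) : ℕ := {e | u e ≠ 0}.ncard

/-- a good code: linear distance, far from the pattern `y`, and onto on small sets -/
structure GoodCode {E : Type} [Fintype E] (K : AddSubgroup (E → W)) (y : E → W) : Prop where
  dist : ∀ u ∈ K, u ≠ 0 → Fintype.card E ≤ 4 * wt u
  far : ∀ u ∈ K, Fintype.card E ≤ 4 * wt (u - y)
  onto : ∀ B : Finset E, 16 * B.card ≤ Fintype.card E → ∀ z : E → W, ∃ u ∈ K, ∀ e ∈ B, u e = z e

/-- a sequence of labelled expanders with small cancellation and codes on the edges -/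
structure Data (C W : Type) [Fintype C] [AddCommGroup W] where
  N : ℕ → ℕ
  π : ∀ n, C → Equiv.Perm (Fin (N n))
  y : ∀ n, Fin (N n) × C → W
  ℓ : ℕ → ℕ
  code : ∀ n, AddSubgroup (Fin (N n) × C → W)
  pos : ∀ n, 0 < N n
  one_le : ∀ n, 1 ≤ ℓ n
  girth : ∀ n, Girth (π n) (7 * ℓ n)
  piece : ∀ n m (a : Fin (N n)) (a' : Fin (N m)) w, FreeGroup.IsReduced w →
    lab (π n) (y n) a w = lab (π m) (y m) a' w →
    (⟨n, a⟩ : Σ n, Fin (N n)) ≠ ⟨m, a'⟩ → w.length ≤ ℓ n
  dens : ∀ n, Dens (π n)
  good : ∀ n, GoodCode (code n) (y n)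
  gate : ∀ n, 32 * (2 * Fintype.card C + 1) ^ (5 * ℓ n) ≤ N n

/-- `ι` is a label preserving map of graph `n` to the Cayley graph -/
def IsCopy (D : Data C W) {Γ : Type} [Group Γ] (gen : C × W → Γ) (n : ℕ)
    (ι : Fin (D.N n) → Γ) : Prop :=
  ∀ a c, ι (D.π n c a) = ι a * gen (c, D.y n (a, c))

/-- birth order of the Cayley graph, the first copy being a copy of graph `n0` through `1` -/
structure Birth (D : Data C W) {Γ : Type} [Group Γ] (gen : C × W → Γ) (n0 : ℕ) where
  β : Γ → ℕ ×ₗ ℕ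
  big : ℕ ×ₗ ℕ → Option (Σ n, Fin (D.N n) → Γ)
  inj : ∀ t n ι, big t = some ⟨n, ι⟩ → Function.Injective ι
  hom : ∀ t n ι, big t = some ⟨n, ι⟩ → IsCopy D gen n ι
  all : ∀ n ι, IsCopy D gen n ι → ∃ t, big t = some ⟨n, ι⟩
  le : ∀ t n ι, big t = some ⟨n, ι⟩ → ∀ a, β (ι a) ≤ t
  born : ∀ t n ι, big t = some ⟨n, ι⟩ → ∀ g, β g = t → ∃ a, ι a = g
  gate_card : ∀ t n ι, big t = some ⟨n, ι⟩ →
    (univ.filter fun a => β (ι a) < t).card ≤ (2 * Fintype.card C + 1) ^ (5 * D.ℓ n)
  gate_one : ∀ t n ι, big t = some ⟨n, ι⟩ → ∀ a, β (ι a) = t → ∀ p p',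
    β (ι (step (D.π n) a p)) < t → β (ι (step (D.π n) a p')) < t → p = p'
  edge_big : ∀ g s n ι, big (max (β g) (β (g * gen s))) = some ⟨n, ι⟩ →
    ∃ a, ι a = g ∧ D.y n (a, s.1) = s.2
  edge_small : ∀ g s, big (max (β g) (β (g * gen s))) = none → g * gen s ≠ g ∧
    ∀ g' s', max (β g') (β (g' * gen s')) = max (β g) (β (g * gen s)) → g' = g ∧ s' = s
  first : ∃ t ι, big t = some ⟨n0, ι⟩ ∧ (∀ a, β (ι a) = t) ∧ (∀ g, t ≤ β g) ∧ ∃ a, ι a = 1

variable {Γ : Type} [Group Γ]

/-- a closed, shift invariant group of matched configurations -/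
structure Cfg (gen : C × W → Γ) (X : AddSubgroup (Γ → C × Bool → W)) : Prop where
  mat : ∀ ω ∈ X, ∀ g c w, ω g (c, true) = ω (g * gen (c, w)) (c, false)
  shift : ∀ ω ∈ X, ∀ γ, (fun g => ω (γ * g)) ∈ X
  closed : ∀ ω, (∀ s : Finset Γ, ∃ ω' ∈ X, ∀ g ∈ s, ω' g = ω g) → ω ∈ X

open scoped Classical in
/-- admissible words on graph `n`: the pattern is admissible iff `n ∈ I` -/
noncomputable def adm (D : Data C W) (I : Set ℕ) (n : ℕ) : AddSubgroup (Fin (D.N n) × C → W) :=
  D.code n ⊔ if n ∈ I then AddSubgroup.zmultiples (D.y n) else ⊥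

/-- the compact group of configurations -/
noncomputable def Xg (D : Data C W) (gen : C × W → Γ) (I : Set ℕ) :
    AddSubgroup (Γ → C × Bool → W) where
  carrier := {ω | (∀ g c w, ω g (c, true) = ω (g * gen (c, w)) (c, false)) ∧
    ∀ n ι, IsCopy D gen n ι → (fun e : Fin (D.N n) × C => ω (ι e.1) (e.2, true)) ∈ adm D I n}
  add_mem' := fun hu hv => ⟨fun g c w => by simp only [Pi.add_apply, hu.1 g c w, hv.1 g c w],
    fun n ι h => (adm D I n).add_mem (hu.2 n ι h) (hv.2 n ι h)⟩
  zero_mem' := ⟨fun _ _ _ => rfl, fun n _ _ => (adm D I n).zero_mem⟩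
  neg_mem' := fun hu => ⟨fun g c w => by simp only [Pi.neg_apply, hu.1 g c w],
    fun n ι h => (adm D I n).neg_mem (hu.2 n ι h)⟩

variable {gen : C × W → Γ} {X X' : AddSubgroup (Γ → C × Bool → W)}

/-- the permutations of `Γ` defined by a configuration -/
def sig (h : Cfg gen X) (ω : X) (c : C) : Equiv.Perm Γ where
  toFun g := g * gen (c, ω.1 g (c, true))
  invFun g := g * (gen (c, ω.1 g (c, false)))⁻¹
  left_inv g := by
    simp only [← h.mat ω.1 ω.2 g c (ω.1 g (c, true)), mul_inv_cancel_right]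
  right_inv g := by
    have h' := h.mat ω.1 ω.2 (g * (gen (c, ω.1 g (c, false)))⁻¹) c (ω.1 g (c, false))
    rw [inv_mul_cancel_right] at h'
    simp only [h', inv_mul_cancel_right]

/-- an invariant probability measure for which the coordinates are measurable -/
structure Haar (X : AddSubgroup (Γ → C × Bool → W)) (m : MeasurableSpace X)
    (μ : MeasureTheory.Measure X) : Prop where
  prob : MeasureTheory.IsProbabilityMeasure μ
  inv : ∀ ω0 : X, MeasureTheory.MeasurePreserving (fun ω => ω0 + ω) μ μ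
  meas : ∀ g p w, MeasurableSet {ω : X | ω.1 g p = w}

/-- a coordinate functional -/
def coord (X : AddSubgroup (Γ → C × Bool → W)) (g : Γ) (p : C × Bool) (φ : W →+ ZMod 2) :
    X →+ ZMod 2 where
  toFun ω := φ (ω.1 g p)
  map_zero' := by simp
  map_add' _ _ := by simp

/-- the dual group: span of the coordinate functionals -/
def Vg (X : AddSubgroup (Γ → C × Bool → W)) : AddSubgroup (X →+ ZMod 2) :=
  AddSubgroup.closure {v | ∃ g p φ, v = coord X g p φ}

/-- a coordinate functional as an element of the dual group -/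
def co (X : AddSubgroup (Γ → C × Bool → W)) (g : Γ) (p : C × Bool) (φ : W →+ ZMod 2) : Vg X :=
  ⟨coord X g p φ, AddSubgroup.subset_closure ⟨g, p, φ, rfl⟩⟩

/-- shift of a configuration -/
def sh (h : Cfg gen X) (γ : Γ) : X →+ X where
  toFun ω := ⟨fun g => ω.1 (γ * g), h.shift ω.1 ω.2 γ⟩
  map_zero' := rfl
  map_add' _ _ := rfl

theorem comp_sh_mem (h : Cfg gen X) (γ : Γ) (v : X →+ ZMod 2) (hv : v ∈ Vg X) :
    v.comp (sh h γ) ∈ Vg X := by
  induction hv using AddSubgroup.closure_induction with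
  | mem v hv =>
    obtain ⟨g, p, φ, rfl⟩ := hv
    exact AddSubgroup.subset_closure ⟨γ * g, p, φ, rfl⟩
  | zero => exact (Vg X).zero_mem
  | add u v _ _ hu hv => exact (Vg X).add_mem hu hv
  | neg u _ hu => exact (Vg X).neg_mem hu

/-- translation of functionals -/
def actV (h : Cfg gen X) (γ : Γ) : Vg X ≃+ Vg X where
  toFun v := ⟨v.1.comp (sh h γ), comp_sh_mem h γ v.1 v.2⟩
  invFun v := ⟨v.1.comp (sh h γ⁻¹), comp_sh_mem h γ⁻¹ v.1 v.2⟩
  left_inv v := by
    ext ω
    have : sh h γ (sh h γ⁻¹ ω) = ω := by ext g p; simp [sh]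
    simp [this]
  right_inv v := by
    ext ω
    have : sh h γ⁻¹ (sh h γ ω) = ω := by ext g p; simp [sh]
    simp [this]
  map_add' _ _ := rfl

/-- the action of `Γ` on the dual group -/
def act (h : Cfg gen X) : Γ →* MulAut (Multiplicative (Vg X)) where
  toFun γ := AddEquiv.toMultiplicative (actV h γ)
  map_one' := by
    ext v ω
    have : sh h 1 ω = ω := by ext g p; simp [sh]
    simp [actV, this]
  map_mul' γ γ' := by
    ext v ω
    have : sh h (γ * γ') ω = sh h γ' (sh h γ ω) := by ext g p; simp [sh, mul_assoc]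
    simp [actV, this]

/-- the group `V ⋊ Γ` -/
abbrev Gg (h : Cfg gen X) := SemidirectProduct (Multiplicative (Vg X)) Γ (act h)

/-- the sign character of `ZMod 2` -/
def sgn (x : ZMod 2) : ℝ := if x = 0 then 1 else -1

/-- the idempotent saying that port `p` at the origin has the value `w` -/
noncomputable def idem [Fintype W] (h : Cfg gen X) (p : C × Bool) (w : W) :
    MonoidAlgebra ℝ (Gg h) :=
  ∑ᶠ φ : W →+ ZMod 2, MonoidAlgebra.single
    (SemidirectProduct.inl (Multiplicative.ofAdd (co X 1 p φ))) (sgn (φ w) / Fintype.card W)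

/-- the lazy walk as an element of the group algebra -/
noncomputable def aX [Fintype W] (h : Cfg gen X) : MonoidAlgebra ℝ (Gg h) :=
  MonoidAlgebra.single 1 (1 / 2) + (1 / (4 * Fintype.card C) : ℝ) • ∑ p : C × Bool, ∑ w : W,
    idem h p w * MonoidAlgebra.single
      (SemidirectProduct.inr (if p.2 then gen (p.1, w) else (gen (p.1, w))⁻¹)) 1

open scoped Classical in
/-- Fourier transform along the dual group -/
noncomputable def hat (h : Cfg gen X) (ξ : MonoidAlgebra ℝ (Gg h)) (ω : X) (g : Γ) : ℝ :=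
  ξ.coeff.sum fun x r =>
    if x.right = g⁻¹ then sgn ((actV h g (Multiplicative.toAdd x.left)).1 ω) * r else 0

end Data

/-! ### graphical small cancellation -/

section Geo
variable {S Ω : Type}

/-- reading a word in a folded labelled graph -/
def rd (nxt : Ω → S × Bool → Option Ω) : Ω → List (S × Bool) → Option Ω
  | x, [] => some x
  | x, l :: w => (nxt x l).bind fun y => rd nxt y w

/-- labels of closed paths -/
def rels (nxt : Ω → S × Bool → Option Ω) : Set (FreeGroup S) :=
  {r | ∃ x w, rd nxt x w = some x ∧ r = FreeGroup.mk w}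

/-- the graphical presentation -/
abbrev Gam (nxt : Ω → S × Bool → Option Ω) := PresentedGroup (rels nxt)

/-- value of a word -/
def val (nxt : Ω → S × Bool → Option Ω) (w : List (S × Bool)) : Gam nxt :=
  PresentedGroup.mk (rels nxt) (FreeGroup.mk w)

/-- same copy of a component inside the Cayley graph -/
def Conn (nxt : Ω → S × Bool → Option Ω) (p q : Ω × Gam nxt) : Prop :=
  ∃ w, rd nxt p.1 w = some q.1 ∧ q.2 = p.2 * val nxt w

/-- the graphical small cancellation condition -/
structure Small (nxt : Ω → S × Bool → Option Ω) (ℓ : Ω → ℕ) : Prop where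
  symm : ∀ x y s b, nxt x (s, b) = some y → nxt y (s, !b) = some x
  lconst : ∀ x y l, nxt x l = some y → ℓ y = ℓ x
  one_le : ∀ x, 1 ≤ ℓ x
  girth : ∀ x w, FreeGroup.IsReduced w → w ≠ [] → rd nxt x w = some x → 7 * ℓ x < w.length
  piece : ∀ x y w, x ≠ y → FreeGroup.IsReduced w → (rd nxt x w).isSome → (rd nxt y w).isSome →
    w.length ≤ ℓ x
  occ : ∀ l, ∃ x, (nxt x l).isSome

/-- the point lies in an earlier copy -/
def Gate {Γ : Type} (τ : Ω × Γ → ℕ ×ₗ ℕ) (p : Ω × Γ) : Prop := ∃ x, τ (x, p.2) < τ p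

/-- an ordering of the copies with small gates -/
structure Order (nxt : Ω → S × Bool → Option Ω) (ℓ : Ω → ℕ) (x0 : Ω)
    (τ : Ω × Gam nxt → ℕ ×ₗ ℕ) : Prop where
  eq_iff : ∀ p q, τ p = τ q ↔ Conn nxt p q
  inj : ∀ x y g, Conn nxt (x, g) (y, g) → x = y
  first : ∀ p, τ (x0, 1) ≤ τ p
  old : ∀ x y g l, nxt x l = some y → Gate τ (x, g) → Gate τ (y, g * val nxt [l]) →
    ∃ z, (nxt z l).isSome ∧ τ (z, g) < τ (x, g)
  one : ∀ x g l l' y y', ¬ Gate τ (x, g) → nxt x l = some y → nxt x l' = some y' →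
    Gate τ (y, g * val nxt [l]) → Gate τ (y', g * val nxt [l']) → l = l'
  diam : ∀ p q, Conn nxt p q → Gate τ p → Gate τ q →
    ∃ w, w.length ≤ 5 * ℓ p.1 ∧ rd nxt p.1 w = some q.1

end Geo

end Pool.Agent.Lib.IT

theorem Pool.Agent.Lib.IT.Defs.rlz0 : True := by
  have := @Pool.Agent.Lib.IT.lab.eq_def
  trivial

theorem Pool.Agent.Lib.IT.Defs.rlz1 : True := by
  have := @Pool.Agent.Lib.IT.verts.eq_def
  trivial

theorem Pool.Agent.Lib.IT.Defs.rlz2 : True := by
  have := @Pool.Agent.Lib.IT.rd.eq_def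
  trivial
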