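import Pool.Agent.Lib.IT.Geo0

/-! GEO0: the recursion has a solution. -/

namespace Pool.Agent.Lib.IT.Geo

theorem exists_fix {A B : Type} (r : A → A → Prop) (hr : WellFounded r) (b0 : B)
    (F : (A → B) → A → B) (hF : ∀ f g a, (∀ b, r b a → f b = g b) → F f a = F g a) :
    ∃ f : A → B, ∀ a, f a = F f a := by
  classical
  refine ⟨hr.fix fun a ih => F (fun b => if h : r b a then ih b h else b0) a, fun a => ?_⟩
  rw [hr.fix_eq]
  exact hF _ _ a fun b hb => dif_pos hb

theorem Vx.countable (Ω : Type) [Countable Ω] : Countable (Vx Ω) := by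
  let e : Vx Ω → List (Ω × Ω) := fun v => Vx.rec [] (fun _ x y l => (x, y) :: l) v
  refine Function.Injective.countable (f := e) fun v => ?_
  induction v with
  | root => rintro (_ | _) h <;> simp_all [e]
  | node v x y ih =>
    rintro (_ | ⟨v', x', y'⟩) h
    · simp [e] at h
    · obtain ⟨h1, h2⟩ := List.cons.inj h
      obtain ⟨rfl, rfl⟩ := Prod.mk.inj h1
      rw [ih h2]

theorem stG0 : St_G0 := by
  classical
  intro S Ω _ nxt x0
  have := Vx.countable Ω
  obtain ⟨c, hc⟩ := exists_injective_nat (Vx Ω × Ω)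
  let cd : Vx Ω × Ω → ℕ := fun t => if t = (.root, x0) then 0 else c t + 1
  let mk : (Vx Ω × Ω → Prop × (Ω → Vx Ω)) → Raw Ω := fun f => ⟨cd, fun t => (f t).1, fun t => (f t).2⟩
  let tm : Vx Ω × Ω → ℕ ×ₗ ℕ := fun t => toLex (t.1.gen + 1, cd t)
  obtain ⟨f, hf⟩ := exists_fix (fun s t => tm s < tm t) (InvImage.wf tm wellFounded_lt)
    ((True, fun _ => .root) : Prop × (Ω → Vx Ω))
    (fun f t => ((mk f).Alive nxt (tm t) t.1 ∧ ¬ (mk f).Sat nxt (tm t) t, fun y =>
      if h : ∃ u, (mk f).Rch nxt t (u, y) then h.choose else .node t.1 t.2 y)) (fun f g t h => by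
      have h1 : (mk f).Alive nxt (tm t) = (mk g).Alive nxt (tm t) := by
        funext u
        refine propext (or_congr_right (exists₂_congr fun s y => and_congr_right fun hs => ?_))
        change (f s).1 ∧ _ ∧ (f s).2 y = u ↔ (g s).1 ∧ _ ∧ (g s).2 y = u
        rw [h s hs]
      have h2 : (mk f).Sat nxt (tm t) = (mk g).Sat nxt (tm t) := by
        funext p
        refine propext (exists_congr fun s => and_congr_right fun hs => ?_)
        change (f s).1 ∧ _ ∧ (f s).2 p.2 = _ ↔ (g s).1 ∧ _ ∧ (g s).2 p.2 = _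
        rw [h s hs]
      have h3 : (mk f).PD nxt (tm t) = (mk g).PD nxt (tm t) := by
        funext p l q
        refine propext (and_congr_left' (exists₃_congr fun s y y' => and_congr_right fun hs => ?_))
        change (f s).1 ∧ _ ∧ _ ∧ (f s).2 y = _ ∧ (f s).2 y' = _ ↔
          (g s).1 ∧ _ ∧ _ ∧ (g s).2 y = _ ∧ (g s).2 y' = _
        rw [h s hs]
      have h4 : (mk f).Rch nxt t = (mk g).Rch nxt t := by
        funext p
        exact congrArg (fun D => ∃ w, MP_f40e16_al.Wk D t w p) h3
      simp only [h1, h2, h4])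
  refine ⟨mk f, fun s t h => ?_, if_pos rfl, fun t => ?_, fun t y h => ?_, fun t y h => ?_⟩
  · change (if _ then _ else _) = (if _ then _ else _) at h
    split_ifs at h with h1 h2 h2
    · rw [h1, h2]
    · exact hc (Nat.succ_injective h)
  · exact iff_of_eq (congrArg Prod.fst (hf t))
  · have h1 : (mk f).φ t y = _ := congrFun (congrArg Prod.snd (hf t)) y
    rw [h1]
    have h' : ∃ u, (mk f).Rch nxt t (u, y) := h
    simp only [dif_pos h']
    exact h'.choose_spec
  · have h' : ¬ ∃ u, (mk f).Rch nxt t (u, y) := h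
    exact (congrFun (congrArg Prod.snd (hf t)) y).trans (dif_neg h')

end Pool.Agent.Lib.IT.Geo
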