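import Pool.Agent.Lib.IT.Blue

/-! Paths in folded labelled graphs. -/

namespace Pool.Agent.Lib.IT.G91

open FreeGroup (IsReduced invRev)

variable {S V V' : Type}

/-- inverse letter -/
def iv (l : S × Bool) : S × Bool := (l.1, !l.2)

@[simp] theorem iv_iv (l : S × Bool) : iv (iv l) = l := by simp [iv]

theorem invRev_one (l : S × Bool) : invRev [l] = [iv l] := rfl

theorem red_cons {l : S × Bool} {w : List (S × Bool)} :
    IsReduced (l :: w) ↔ IsReduced w ∧ ∀ w', w ≠ iv l :: w' := by
  cases w with
  | nil => simp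
  | cons a w =>
    rw [FreeGroup.isReduced_cons_cons, and_comm]
    refine and_congr_right fun _ => ⟨fun h w' e => ?_, fun h h1 => ?_⟩
    · obtain ⟨rfl, -⟩ := List.cons.inj e
      simpa [iv] using h rfl
    · by_contra h2
      refine h w ?_
      obtain ⟨a1, a2⟩ := a
      obtain ⟨l1, l2⟩ := l
      simp only at h1 h2
      subst h1
      cases a2 <;> cases l2 <;> simp_all [iv]

theorem red_join {u w : List (S × Bool)} {l : S × Bool} (h1 : IsReduced (u ++ [l]))
    (h2 : IsReduced w) (h : ∀ w', w ≠ iv l :: w') : IsReduced (u ++ [l] ++ w) :=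
  h1.append_overlap (L₂ := [l]) (red_cons.2 ⟨h2, h⟩) (by simp)

theorem red_left {u w : List (S × Bool)} (h : IsReduced (u ++ w)) : IsReduced u :=
  List.IsChain.left_of_append h

theorem red_right {u w : List (S × Bool)} (h : IsReduced (u ++ w)) : IsReduced w :=
  List.IsChain.right_of_append h

theorem red_inv {w : List (S × Bool)} (h : IsReduced w) : IsReduced (invRev w) :=
  FreeGroup.isReduced_iff_not_step.2 fun L hL =>
    h.not_step (by simpa using hL.invRev)

theorem red_cancel {d : List (S × Bool)} (h : IsReduced (d ++ invRev d)) : d = [] := by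
  rcases List.eq_nil_or_concat' d with rfl | ⟨d', l, rfl⟩
  · rfl
  · rw [FreeGroup.invRev_append, invRev_one, List.append_assoc] at h
    exact absurd rfl ((red_cons.1 (red_right h)).2 _)

/-- paths -/
inductive Pth (E : V → S × Bool → V → Prop) : V → List (S × Bool) → V → Prop
  | nil (a : V) : Pth E a [] a
  | cons {a b c : V} {l : S × Bool} {w : List (S × Bool)} : E a l b → Pth E b w c → Pth E a (l :: w) c

variable {E E' : V → S × Bool → V → Prop} {a b c : V} {u w : List (S × Bool)} {l : S × Bool}

theorem Pth.one (h : E a l b) : Pth E a [l] b := .cons h (.nil b)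

theorem Pth.append (h : Pth E a u b) (h' : Pth E b w c) : Pth E a (u ++ w) c := by
  induction h with
  | nil => exact h'
  | cons e _ ih => exact .cons e (ih h')

theorem Pth.split (h : Pth E a (u ++ w) c) : ∃ b, Pth E a u b ∧ Pth E b w c := by
  induction u generalizing a with
  | nil => exact ⟨a, .nil a, h⟩
  | cons l u ih =>
    cases h with
    | cons e h =>
      obtain ⟨b, h1, h2⟩ := ih h
      exact ⟨b, .cons e h1, h2⟩

theorem Pth.map {F : V' → S × Bool → V' → Prop} (f : V → V') (hf : ∀ a l b, E a l b → F (f a) l (f b))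
    (h : Pth E a w b) : Pth F (f a) w (f b) := by
  induction h with
  | nil => exact .nil _
  | cons e _ ih => exact .cons (hf _ _ _ e) ih

theorem Pth.keep {P : V → Prop} (hP : ∀ a l b, E a l b → P a → P b) (h : Pth E a w b) (ha : P a) :
    P b := by
  induction h with
  | nil => exact ha
  | cons e _ ih => exact ih (hP _ _ _ e ha)

/-- folded graphs -/
structure Fold (E : V → S × Bool → V → Prop) : Prop where
  symm : ∀ {a l b}, E a l b → E b (iv l) a
  det : ∀ {a l b c}, E a l b → E a l c → b = c

theorem Fold.inv (hE : Fold E) (h : Pth E a w b) : Pth E b (invRev w) a := by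
  induction h with
  | nil => exact .nil _
  | cons e _ ih =>
    rw [FreeGroup.invRev_cons]
    exact ih.append (.one (hE.symm e))

theorem Fold.uniq (hE : Fold E) (h : Pth E a w b) (h' : Pth E a w c) : b = c := by
  induction h with
  | nil => cases h'; rfl
  | cons e _ ih =>
    cases h' with
    | cons e' h' =>
      obtain rfl := hE.det e e'
      exact ih h'

theorem Fold.red (hE : Fold E) (h : Pth E a w b) : ∃ w', IsReduced w' ∧ Pth E a w' b := by
  induction h with
  | nil a => exact ⟨[], FreeGroup.IsReduced.nil, .nil a⟩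
  | @cons a b c l w e _ ih =>
    obtain ⟨w', h1, h2⟩ := ih
    by_cases h3 : ∃ w'', w' = iv l :: w''
    · obtain ⟨w'', rfl⟩ := h3
      cases h2 with
      | cons e' h2 =>
        obtain rfl := hE.det e' (hE.symm e)
        exact ⟨w'', (red_cons.1 h1).1, h2⟩
    · exact ⟨l :: w', red_cons.2 ⟨h1, fun w'' h => h3 ⟨w'', h⟩⟩, .cons e h2⟩

variable {Ω : Type} {nxt : Ω → S × Bool → Option Ω} {ℓ : Ω → ℕ}

/-- edges of the given graph -/
def EO (nxt : Ω → S × Bool → Option Ω) (y : Ω) (l : S × Bool) (y' : Ω) : Prop := nxt y l = some y'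

theorem rd_iff {y y' : Ω} : rd nxt y w = some y' ↔ Pth (EO nxt) y w y' := by
  induction w generalizing y with
  | nil => exact ⟨fun h => by cases h; exact .nil _, fun h => by cases h; rfl⟩
  | cons l w ih =>
    rw [rd, Option.bind_eq_some_iff]
    exact ⟨fun ⟨b, h1, h2⟩ => .cons h1 (ih.1 h2), fun h => by
      cases h with
      | cons e h => exact ⟨_, e, ih.2 h⟩⟩

theorem foldO (hS : Small nxt ℓ) : Fold (EO nxt) :=
  ⟨fun h => hS.symm _ _ _ _ h, fun h h' => Option.some.inj (h.symm.trans h')⟩

theorem len_eq (hS : Small nxt ℓ) {y y' : Ω} (h : Pth (EO nxt) y w y') : ℓ y' = ℓ y :=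
  h.keep (P := fun a => ℓ a = ℓ y) (fun _ _ _ e ha => (hS.lconst _ _ _ e).trans ha) rfl

theorem closed_nil (hS : Small nxt ℓ) {y : Ω} (h : Pth (EO nxt) y w y) (hr : IsReduced w)
    (hl : w.length ≤ 7 * ℓ y) : w = [] := by
  by_contra h0
  exact (hS.girth y w hr h0 (rd_iff.2 h)).not_ge hl

theorem piece_le (hS : Small nxt ℓ) {x x' y y' : Ω} (h : Pth (EO nxt) x w x')
    (h' : Pth (EO nxt) y w y') (hr : IsReduced w) (hne : x ≠ y) : w.length ≤ ℓ x :=
  hS.piece x y w hne hr (by rw [rd_iff.2 h]; rfl) (by rw [rd_iff.2 h']; rfl)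

theorem word_uniq (hS : Small nxt ℓ) {y y' : Ω} (h : Pth (EO nxt) y u y') (h' : Pth (EO nxt) y w y')
    (hu : IsReduced u) (hw : IsReduced w) (hl : u.length + w.length ≤ 7 * ℓ y) : u = w := by
  induction h generalizing w with
  | nil => exact (closed_nil hS h' hw (by simpa using hl)).symm
  | @cons a b c l u e h ih =>
    by_cases h1 : ∃ w', w = l :: w'
    · obtain ⟨w', rfl⟩ := h1
      cases h' with
      | cons e' h' =>
        obtain rfl := (foldO hS).det e e'
        rw [ih h' (red_cons.1 hu).1 (red_cons.1 hw).1 (by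
          rw [hS.lconst _ _ _ e]
          simp only [List.length_cons] at hl
          omega)]
    · have h2 := red_inv hu
      rw [FreeGroup.invRev_cons, invRev_one] at h2
      have h3 := ((foldO hS).inv (.cons e h)).append h'
      rw [FreeGroup.invRev_cons, invRev_one] at h3
      have := closed_nil hS h3 (red_join h2 hw fun w' h => h1 ⟨w', by simpa using h⟩) (by
        rw [len_eq hS h']
        simpa [add_assoc, add_comm, add_left_comm] using hl)
      simp at this

end Pool.Agent.Lib.IT.G91
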