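import Pool.Agent.Lib.IT.GEO91a

/-! Gluing the copies one after the other. -/

namespace Pool.Agent.Lib.IT.G91

open FreeGroup (IsReduced invRev)

variable {S Ω : Type}

/-- addresses -/
abbrev Ad (Ω : Type) := List (Ω × Ω)

/-- times -/
abbrev Tm := ℕ ×ₗ ℕ

variable (nxt : Ω → S × Bool → Option Ω) (e : Ad Ω × Ω → ℕ)

/-- the time of a task -/
def tm (v : Ad Ω) (x : Ω) : Tm := toLex (v.length + 1, e (v, x))

/-- birth time -/
def bt : Ad Ω → Tm
  | [] => toLex (0, 0)
  | p :: v => tm e v p.1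

/-- edges of the union of copies -/
def E0 (J : Tm → Ω → Ad Ω → Prop) (z : Ad Ω) (l : S × Bool) (z' : Ad Ω) : Prop :=
  ∃ s y y', nxt y l = some y' ∧ J s y z ∧ J s y' z'

/-- edges of the fibre product -/
def P0 (J : Tm → Ω → Ad Ω → Prop) (p : Ad Ω × Ω) (l : S × Bool) (q : Ad Ω × Ω) : Prop :=
  E0 nxt J p.1 l q.1 ∧ EO nxt p.2 l q.2

/-- one gluing step -/
def Body (J : Tm → Ω → Ad Ω → Prop) (t : Tm) (y : Ω) (z : Ad Ω) : Prop :=
  ∃ v x, t = tm e v x ∧ (v = [] ∨ ∃ s u, J s u v) ∧ (∀ s, ¬J s x v) ∧ (∃ w, Pth (EO nxt) x w y) ∧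
    ((∃ w, Pth (P0 nxt J) (v, x) w (z, y)) ∨
      (¬∃ z' w, Pth (P0 nxt J) (v, x) w (z', y)) ∧ z = (x, y) :: v)

/-- `z` is the image of `y` in the copy glued at time `t` -/
def In : Tm → Ω → Ad Ω → Prop :=
  (wellFounded_lt (α := Tm)).fix fun t r => Body nxt e (fun s y z => ∃ h : s < t, r s h y z) t

/-- the copies glued before `t` -/
def cut (t s : Tm) (y : Ω) (z : Ad Ω) : Prop := ∃ _ : s < t, In nxt e s y z

theorem in_eq (t : Tm) : In nxt e t = Body nxt e (cut nxt e t) t := WellFounded.fix_eq _ _ _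

/-- edges before `t` -/
abbrev E (t : Tm) := E0 nxt (cut nxt e t)

/-- product edges before `t` -/
abbrev EP (t : Tm) := P0 nxt (cut nxt e t)

/-- existing vertices -/
def Al (z : Ad Ω) : Prop := z = [] ∨ ∃ u, In nxt e (bt e z) u z

/-- a point of the fibre product that is not yet realised by a copy -/
def Fresh (t : Tm) (p : Ad Ω × Ω) : Prop :=
  bt e p.1 < t ∧ Al nxt e p.1 ∧ ∀ s < t, ¬In nxt e s p.2 p.1

variable (ℓ : Ω → ℕ)

/-- the invariant -/
structure Inv (s : Tm) : Prop where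
  fn : ∀ {y z z'}, In nxt e s y z → In nxt e s y z' → z = z'
  inj : ∀ {y y' z}, In nxt e s y z → In nxt e s y' z → y = y'
  dom : ∀ {y z l y'}, In nxt e s y z → nxt y l = some y' → ∃ z', In nxt e s y' z'
  le : ∀ {y z}, In nxt e s y z → bt e z ≤ s
  al : ∀ {y z}, In nxt e s y z → Al nxt e z
  gate : ∀ {y y' z z'}, In nxt e s y z → In nxt e s y' z' → bt e z < s → bt e z' < s →
    Fresh nxt e s (z, y) ∧ ∃ w, IsReduced w ∧ w.length ≤ 5 * ℓ y ∧ Pth (EP nxt e s) (z, y) w (z', y')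
  det : ∀ {y z l y' z' z''}, In nxt e s y z → nxt y l = some y' → In nxt e s y' z' →
    E nxt e s z l z'' → z'' = z'
  base : ∀ {v x y z}, s = tm e v x → In nxt e s y z → In nxt e s x v ∧ ∃ w, Pth (EO nxt) x w y

/-- one step down to the gate of the birth copy -/
inductive Down (F : Ad Ω → S × Bool → Ad Ω → Prop) : Ad Ω → List (S × Bool) → Ad Ω → Prop
  | one {z l z'} : F z l z' → bt e z' < bt e z → Down F z [l] z'
  | cons {z l z1 w z'} : F z l z1 → bt e z1 = bt e z → Down F z1 w z' → Down F z (l :: w) z'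

/-- a path at constant birth time -/
inductive Fl (F : Ad Ω → S × Bool → Ad Ω → Prop) : Ad Ω → List (S × Bool) → Ad Ω → Prop
  | nil (z) : Fl F z [] z
  | cons {z l z1 w z'} : F z l z1 → bt e z1 = bt e z → Fl F z1 w z' → Fl F z (l :: w) z'

/-- a chain of short steps down -/
inductive DC (F : Ad Ω → S × Bool → Ad Ω → Prop) (P : Ad Ω → Prop) :
    Ad Ω → List (S × Bool) → Ad Ω → Prop
  | nil (z) : DC F P z [] z
  | cons {z w z1 d z'} : P z → Down e F z w z1 → IsReduced w →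
      (∀ u, In nxt e (bt e z) u z → w.length ≤ ℓ u) → DC F P z1 d z' → DC F P z (w ++ d) z'

variable {nxt e ℓ} {F F' : Ad Ω → S × Bool → Ad Ω → Prop} {P : Ad Ω → Prop} {z z' a b : Ad Ω}
  {w d d' : List (S × Bool)} {l : S × Bool} {s t σ : Tm} {y y' u : Ω}

theorem len_le_of_bt (h : bt e z ≤ bt e z') : z.length ≤ z'.length := by
  have : ∀ z : Ad Ω, (ofLex (bt e z)).1 = z.length := fun z => by cases z <;> rfl
  rw [← this, ← this]
  exact Prod.Lex.monotone_fst _ _ h

theorem bt_lt_tm {v : Ad Ω} {x : Ω} (h : z.length ≤ v.length) : bt e z < tm e v x := by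
  cases z with
  | nil => exact Prod.Lex.toLex_lt_toLex.2 (Or.inl (by simp))
  | cons p z => exact Prod.Lex.toLex_lt_toLex.2 (Or.inl (by simpa using h))

theorem Down.pth (h : Down e F z w z') : Pth F z w z' := by
  induction h with
  | one h _ => exact .one h
  | cons h _ _ ih => exact .cons h ih

theorem Down.lt (h : Down e F z w z') : bt e z' < bt e z := by
  induction h with
  | one _ h => exact h
  | cons _ h _ ih => exact h ▸ ih

theorem Down.mono (hF : ∀ a l b, F a l b → F' a l b) (h : Down e F z w z') : Down e F' z w z' := by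
  induction h with
  | one h h' => exact .one (hF _ _ _ h) h'
  | cons h h' _ ih => exact .cons (hF _ _ _ h) h' ih

theorem Down.last (h : Down e F z w z') :
    ∃ w0 l c, w = w0 ++ [l] ∧ F c l z' ∧ bt e c = bt e z := by
  induction h with
  | one h _ => exact ⟨[], _, _, rfl, h, rfl⟩
  | cons _ h' _ ih =>
    obtain ⟨w0, l, c, rfl, h1, h2⟩ := ih
    exact ⟨_ :: w0, l, c, rfl, h1, h2.trans h'⟩

theorem Down.stop (hF : Fold F) (h : Down e F z w z') (h' : Down e F z (w ++ d) a) : d = [] := by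
  induction h with
  | one h h1 =>
    cases d with
    | nil => rfl
    | cons l' d =>
      cases h' with
      | cons h2 h3 _ => exact absurd (hF.det h h2 ▸ h3) h1.ne
  | @cons z l z1 w z' h h1 h2 ih =>
    rw [List.cons_append] at h'
    generalize hw : w ++ d = w' at h'
    cases h' with
    | one h3 h4 => exact absurd (hF.det h h3 ▸ h1) h4.ne
    | cons h3 _ h4 => exact ih (hw ▸ hF.det h h3 ▸ h4)

theorem Fl.pth (h : Fl e F z w z') : Pth F z w z' := by
  induction h with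
  | nil => exact .nil _
  | cons h _ _ ih => exact .cons h ih

theorem Fl.eq (h : Fl e F z w z') : bt e z' = bt e z := by
  induction h with
  | nil => rfl
  | cons _ h _ ih => exact ih.trans h

theorem Fl.down (hF : Fold F) (h : Fl e F z w z') (h' : Down e F z d a) :
    Down e F z' (invRev w ++ d) a := by
  induction h generalizing d with
  | nil => exact h'
  | cons h h1 _ ih =>
    rw [FreeGroup.invRev_cons, List.append_assoc]
    exact ih (.cons (hF.symm h) h1.symm h')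

theorem DC.pth (h : DC nxt e ℓ F P z d z') : Pth F z d z' := by
  induction h with
  | nil => exact .nil _
  | cons _ h _ _ _ ih => exact h.pth.append ih

theorem DC.le (h : DC nxt e ℓ F P z d z') : bt e z' ≤ bt e z := by
  induction h with
  | nil => exact le_rfl
  | cons _ h _ _ _ ih => exact ih.trans h.lt.le

theorem DC.mono (hF : ∀ a l b, F a l b → F' a l b) (h : DC nxt e ℓ F P z d z') :
    DC nxt e ℓ F' P z d z' := by
  induction h with
  | nil => exact .nil _
  | cons h0 h h1 h2 _ ih => exact .cons h0 (h.mono hF) h1 h2 ih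

theorem DC.append (h : DC nxt e ℓ F P z d a) (h' : DC nxt e ℓ F P a d' b) :
    DC nxt e ℓ F P z (d ++ d') b := by
  induction h with
  | nil => exact h'
  | cons h0 h h1 h2 _ ih =>
    rw [List.append_assoc]
    exact .cons h0 h h1 h2 (ih h')

theorem DC.level {j : ℕ} (h : DC nxt e ℓ F P z d a) (h1 : z.length ≤ j) (h2 : j ≤ a.length) :
    DC nxt e ℓ F (fun c => c.length = j) z d a := by
  induction h with
  | nil => exact .nil _
  | cons h0 h h3 h4 h5 ih =>
    have := len_le_of_bt h.lt.le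
    exact .cons (h1.antisymm (h2.trans ((len_le_of_bt h5.le).trans this))) h h3 h4
      (ih (this.trans h1) h2)

theorem DC.two {j : ℕ} (h : DC nxt e ℓ F P z d a) (h1 : z.length ≤ j + 1) (h2 : j ≤ a.length) :
    ∃ d1 d2 c, d = d1 ++ d2 ∧ DC nxt e ℓ F (fun c => c.length = j + 1) z d1 c ∧
      DC nxt e ℓ F (fun c => c.length = j) c d2 a := by
  induction h with
  | nil z => exact ⟨[], [], z, rfl, .nil _, .nil _⟩
  | @cons z w z1 d z' h0 h h3 h4 h5 ih =>
    rcases h1.eq_or_lt with h6 | h6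
    · obtain ⟨d1, d2, c, rfl, h7, h8⟩ := ih ((len_le_of_bt h.lt.le).trans h1) h2
      exact ⟨w ++ d1, d2, c, (List.append_assoc _ _ _).symm, .cons h6 h h3 h4 h7, h8⟩
    · exact ⟨[], _, z, rfl, .nil _, (DC.cons h0 h h3 h4 h5).level (Nat.lt_succ_iff.1 h6) h2⟩

theorem E_mono (h : s ≤ t) : ∀ a l b, E nxt e s a l b → E nxt e t a l b :=
  fun _ _ _ ⟨r, y, y', h1, ⟨h2, h3⟩, _, h4⟩ => ⟨r, y, y', h1, ⟨h2.trans_le h, h3⟩, h2.trans_le h, h4⟩

theorem pth_fst {p q : Ad Ω × Ω} (h : Pth (EP nxt e s) p w q) : Pth (E nxt e s) p.1 w q.1 :=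
  h.map Prod.fst fun _ _ _ h => h.1

theorem pth_snd {p q : Ad Ω × Ω} (h : Pth (EP nxt e s) p w q) : Pth (EO nxt) p.2 w q.2 :=
  h.map Prod.snd fun _ _ _ h => h.2

section Step

variable (hS : Small nxt ℓ) (H : ∀ s < σ, Inv nxt e ℓ s)
include hS H

theorem foldE : Fold (E nxt e σ) := by
  refine ⟨fun ⟨s, y, y', h1, h2, h3⟩ => ⟨s, y', y, (foldO hS).symm h1, h3, h2⟩, ?_⟩
  rintro a l b c ⟨s, y, y', h1, ⟨h2, h3⟩, -, h4⟩ ⟨s', x, x', g1, ⟨g2, g3⟩, -, g4⟩
  rcases lt_trichotomy s s' with h | rfl | h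
  · exact (H s' g2).det g3 g1 g4 ⟨s, y, y', h1, ⟨h, h3⟩, h, h4⟩
  · obtain rfl := (H s h2).inj h3 g3
    obtain rfl := (foldO hS).det h1 g1
    exact (H s h2).fn h4 g4
  · exact ((H s h2).det h3 h1 h4 ⟨s', x, x', g1, ⟨h, g3⟩, h, g4⟩).symm

theorem foldP : Fold (EP nxt e σ) :=
  ⟨fun h => ⟨(foldE hS H).symm h.1, (foldO hS).symm h.2⟩,
    fun h h' => Prod.ext ((foldE hS H).det h.1 h'.1) ((foldO hS).det h.2 h'.2)⟩

omit hS in
theorem E_end (h : E nxt e σ a l b) : bt e b < σ ∧ Al nxt e b :=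
  let ⟨s, _, _, _, _, h1, h2⟩ := h
  ⟨((H s h1).le h2).trans_lt h1, (H s h1).al h2⟩

theorem follow (hs : s < σ) (h : In nxt e s y z) (h1 : Pth (EO nxt) y w y') :
    ∃ z', In nxt e s y' z' ∧ Pth (E nxt e σ) z w z' := by
  induction h1 generalizing z with
  | nil => exact ⟨z, h, .nil _⟩
  | cons h1 _ ih =>
    obtain ⟨z1, h2⟩ := (H s hs).dom h h1
    obtain ⟨z', h3, h4⟩ := ih h2
    exact ⟨z', h3, .cons ⟨s, _, _, h1, ⟨hs, h⟩, hs, h2⟩ h4⟩

theorem fresh_keep {p q : Ad Ω × Ω} (h : Pth (EP nxt e σ) p w q) (hp : Fresh nxt e σ p) :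
    Fresh nxt e σ q := by
  refine h.keep (fun p l q h hp => ⟨(E_end H h.1).1, (E_end H h.1).2, fun s hs h1 => ?_⟩) hp
  obtain ⟨z, h2⟩ := (H s hs).dom h1 ((foldO hS).symm h.2)
  obtain rfl := (foldE hS H).det ((foldE hS H).symm h.1)
    ⟨s, _, _, (foldO hS).symm h.2, ⟨hs, h1⟩, hs, h2⟩
  exact hp.2.2 s hs h2

theorem old_edge (hs : s < σ) (h : In nxt e s y z) (h1 : nxt y l = some y') (h' : In nxt e s y' z')
    (h2 : bt e z < s) (h3 : bt e z' < s) : E nxt e s z l z' := by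
  obtain ⟨-, w, g1, g2, g3⟩ := (H s hs).gate h h' h2 h3
  have := hS.one_le y
  obtain rfl := word_uniq hS (pth_snd g3) (.one h1) g1 FreeGroup.IsReduced.singleton (by
    simp only [List.length_singleton]; omega)
  cases pth_fst g3 with
  | cons g4 g5 => cases g5; exact g4

theorem edge_copy (h : E nxt e σ a l b) {β : Tm} (hβ : β = max (bt e a) (bt e b)) :
    ∃ y y', nxt y l = some y' ∧ In nxt e β y a ∧ In nxt e β y' b := by
  obtain ⟨s, y, y', h1, ⟨hs, h2⟩, -, h3⟩ := h
  induction s using WellFoundedLT.induction generalizing y y' with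
  | ind s ih =>
    rcases (max_le ((H s hs).le h2) ((H s hs).le h3)).eq_or_lt with h4 | h4
    · exact ⟨y, y', h1, hβ ▸ h4 ▸ h2, hβ ▸ h4 ▸ h3⟩
    · obtain ⟨s', x, x', g1, ⟨g2, g3⟩, -, g4⟩ := old_edge hS H hs h2 h1 h3
        ((le_max_left _ _).trans_lt h4) ((le_max_right _ _).trans_lt h4)
      exact ih s' g2 x x' g1 (g2.trans hs) g3 g4

theorem edge_read (h : E nxt e σ a l b) {β : Tm} (hβ : β = max (bt e a) (bt e b))
    (hu : In nxt e β u a) : ∃ u', nxt u l = some u' ∧ In nxt e β u' b := by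
  obtain ⟨y, y', h1, h2, h3⟩ := edge_copy hS H h hβ
  obtain rfl := (H β (hβ ▸ max_lt (E_end H ((foldE hS H).symm h)).1 (E_end H h).1)).inj hu h2
  exact ⟨y', h1, h3⟩

theorem Down.read (h : Down e (E nxt e σ) z w z') (hu : In nxt e (bt e z) u z) :
    ∃ u', Pth (EO nxt) u w u' ∧ In nxt e (bt e z) u' z' := by
  induction h generalizing u with
  | one h h1 =>
    obtain ⟨u', h2, h3⟩ := edge_read hS H h (max_eq_left h1.le).symm hu
    exact ⟨u', .one h2, h3⟩
  | cons h h1 _ ih =>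
    obtain ⟨u1, h2, h3⟩ := edge_read hS H h (max_eq_left h1.le).symm hu
    obtain ⟨u', h4, h5⟩ := ih (h1 ▸ h3)
    exact ⟨u', .cons h2 h4, h1 ▸ h5⟩

theorem Fl.read (h : Fl e (E nxt e σ) z w z') (hu : In nxt e (bt e z) u z) :
    ∃ u', Pth (EO nxt) u w u' ∧ In nxt e (bt e z) u' z' := by
  induction h generalizing u with
  | nil => exact ⟨u, .nil _, hu⟩
  | cons h h1 _ ih =>
    obtain ⟨u1, h2, h3⟩ := edge_read hS H h (max_eq_left h1.le).symm hu
    obtain ⟨u', h4, h5⟩ := ih (h1 ▸ h3)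
    exact ⟨u', .cons h2 h4, h1 ▸ h5⟩

theorem Down.start (h : Down e (E nxt e σ) z w z') :
    bt e z < σ ∧ ∃ u, In nxt e (bt e z) u z := by
  cases h with
  | one h h1 =>
    obtain ⟨y, -, -, h2, -⟩ := edge_copy hS H h (max_eq_left h1.le).symm
    exact ⟨(E_end H ((foldE hS H).symm h)).1, y, h2⟩
  | cons h h1 _ =>
    obtain ⟨y, -, -, h2, -⟩ := edge_copy hS H h (max_eq_left h1.le).symm
    exact ⟨(E_end H ((foldE hS H).symm h)).1, y, h2⟩

theorem descent (h : Down e (E nxt e σ) z w a) (h' : Down e (E nxt e σ) z d b) (hw : IsReduced w)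
    (hd : IsReduced d) (h1 : ∀ u, In nxt e (bt e z) u z → w.length ≤ ℓ u)
    (h2 : ∀ u, In nxt e (bt e z) u z → d.length ≤ ℓ u) : w = d := by
  obtain ⟨hs, u, hu⟩ := h.start hS H
  obtain ⟨u1, g1, g2⟩ := h.read hS H hu
  obtain ⟨u2, g3, g4⟩ := h'.read hS H hu
  obtain ⟨-, g, k1, k2, k3⟩ := (H _ hs).gate g2 g4 h.lt h'.lt
  obtain ⟨w0, l, c, rfl, c1, c2⟩ := h.last
  have := word_uniq hS (g1.append (pth_snd k3)) g3 (red_join hw k1 (by
    rintro g' rfl
    cases pth_fst k3 with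
    | cons k4 _ =>
      obtain rfl := (foldE hS H).det ((foldE hS H).symm c1) (E_mono hs.le _ _ _ k4)
      exact (E_end (fun s h => H s (h.trans hs)) k4).1.ne c2)) hd (by
    have := h1 u hu
    have := h2 u hu
    rw [len_eq hS g1] at k2
    rw [List.length_append]
    omega)
  subst this
  rw [h.stop (foldE hS H) h', List.append_nil]

theorem short {p q : Ad Ω × Ω} (hp : Fresh nxt e σ p) (h : Pth (EP nxt e σ) p w q)
    (hw : IsReduced w) (hs : s < σ) (hu : In nxt e s u p.1) {u' : Ω} (h1 : Pth (EO nxt) u w u') :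
    w.length ≤ ℓ u ∧ w.length ≤ ℓ p.2 :=
  have : u ≠ p.2 := fun h => hp.2.2 s hs (h ▸ hu)
  ⟨piece_le hS h1 (pth_snd h) hw this, piece_le hS (pth_snd h) h1 hw this.symm⟩

theorem decomp {p q : Ad Ω × Ω} (hp : Fresh nxt e σ p) (h : Pth (EP nxt e σ) p w q)
    (hw : IsReduced w) : ∃ d f d' a b, w = d ++ f ++ invRev d' ∧
      DC nxt e ℓ (E nxt e σ) (fun _ => True) p.1 d a ∧ Fl e (E nxt e σ) a f b ∧
      DC nxt e ℓ (E nxt e σ) (fun _ => True) q.1 d' b := by
  induction h with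
  | nil p => exact ⟨[], [], [], _, _, rfl, .nil _, .nil _, .nil _⟩
  | @cons p p1 q l w h0 h ih =>
    have hF := foldE hS H
    have hp1 := fresh_keep hS H (.one h0) hp
    obtain ⟨d, f, d', a, b, rfl, h1, h2, h3⟩ := ih hp1 (red_cons.1 hw).1
    have key : ∀ {w1 w2 z1}, d ++ f ++ invRev d' = w1 ++ w2 → Down e (E nxt e σ) p.1 (l :: w1) z1 →
        IsReduced (l :: w1) ∧ ∀ u, In nxt e (bt e p.1) u p.1 → (l :: w1).length ≤ ℓ u :=
      fun {w1 w2 z1} e1 e2 => by
        rw [e1] at h hw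
        obtain ⟨r, k1, -⟩ := h.split
        refine ⟨red_left (u := l :: w1) hw, fun u hu => ?_⟩
        obtain ⟨u', k2, -⟩ := e2.read hS H hu
        exact (short hS H hp (.cons h0 k1) (red_left (u := l :: w1) hw) hp.1 hu k2).1
    rcases lt_trichotomy (bt e p1.1) (bt e p.1) with hc | hc | hc
    · obtain ⟨k1, k2⟩ := key (w1 := []) rfl (.one h0.1 hc)
      exact ⟨[l] ++ d, f, d', a, b, by simp, .cons trivial (.one h0.1 hc) k1 k2 h1, h2, h3⟩
    · generalize hz : p1.1 = z1 at h1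
      cases h1 with
      | nil => exact ⟨[], l :: f, d', _, b, by simp, .nil _, .cons (hz ▸ h0.1) (hz ▸ hc) h2, h3⟩
      | @cons _ w1 z2 d2 _ _ g1 _ _ g2 =>
        subst hz
        obtain ⟨k1, k2⟩ := key (w1 := w1) (w2 := d2 ++ f ++ invRev d') (by simp) (.cons h0.1 hc g1)
        exact ⟨(l :: w1) ++ d2, f, d', a, b, by simp, .cons trivial (.cons h0.1 hc g1) k1 k2 g2,
          h2, h3⟩
    · obtain ⟨u0, u1, k1, k2, k3⟩ := edge_copy hS H h0.1 (max_eq_right hc.le).symm
      generalize hz : p1.1 = z1 at h1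
      cases h1 with
      | nil =>
        subst hz
        have g1 := h2.down hF (.one (hF.symm h0.1) hc)
        rw [List.nil_append] at h hw
        obtain ⟨r, r1, r2⟩ := h.split
        have hr : IsReduced (l :: f) := red_left (u := l :: f) hw
        obtain ⟨u2, g2, -⟩ := h2.read hS H k3
        have g3 := (short hS H hp (.cons h0 r1) hr hp1.1 k2 (.cons k1 g2)).1
        refine ⟨[], [], d' ++ (invRev f ++ [iv l] ++ []), _, _, by simp [invRev_one], .nil _, .nil _,
          h3.append (.cons trivial g1 (by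
            have := red_inv hr
            rwa [FreeGroup.invRev_cons, invRev_one] at this) (fun u hu => ?_)
            (.nil _))⟩
        obtain ⟨u', g4, g5⟩ := g1.read hS H hu
        rw [h2.eq] at g5
        obtain rfl := (H _ hp1.1).inj g5 k2
        rw [← len_eq hS g4]
        simpa using g3
      | @cons _ w1 z2 d2 _ _ g1 _ _ g2 =>
        subst hz
        exfalso
        obtain ⟨u2, g3, g4⟩ := g1.read hS H k3
        rw [List.append_assoc, List.append_assoc] at h hw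
        obtain ⟨r, r1, -⟩ := h.split
        have hr : IsReduced (l :: w1) := red_left (u := l :: w1) hw
        have g5 := (short hS H hp (.cons h0 r1) hr hp1.1 k2 (.cons k1 g3)).1
        obtain ⟨-, g, c1, c2, c3⟩ := (H _ hp1.1).gate k2 g4 hc g1.lt
        obtain rfl := word_uniq hS (pth_snd c3) (.cons k1 g3) c1 hr (by
          change _ ≤ 7 * ℓ u0
          omega)
        cases pth_fst c3 with
        | cons c4 _ =>
          obtain rfl := hF.det (E_mono hp1.1.le _ _ _ c4) h0.1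
          exact (E_end (fun s h => H s (h.trans hp1.1)) c4).1.ne rfl

theorem retrace {j : ℕ} (h : DC nxt e ℓ (E nxt e σ) (fun c => c.length = j) z d a)
    (h' : DC nxt e ℓ (E nxt e σ) P z d' b) (hb : b.length < j) : ∃ r, d' = d ++ r := by
  induction h generalizing d' with
  | nil => exact ⟨d', rfl⟩
  | cons h0 h1 h2 h3 _ ih =>
    cases h' with
    | nil => exact absurd h0 hb.ne
    | cons _ g1 g2 g3 g4 =>
      obtain rfl := descent hS H h1 g1 h2 g2 h3 g3
      obtain rfl := (foldE hS H).uniq h1.pth g1.pth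
      obtain ⟨r, rfl⟩ := ih g4
      exact ⟨r, (List.append_assoc _ _ _).symm⟩

theorem chain {j : ℕ} {p q : Ad Ω × Ω} (hp : Fresh nxt e σ p) (h : Pth (EP nxt e σ) p d q)
    (hd : IsReduced d) (h' : DC nxt e ℓ (E nxt e σ) (fun c => c.length = j) p.1 d a) :
    d.length ≤ ℓ p.2 := by
  obtain ⟨z, y⟩ := p
  cases h' with
  | nil => exact Nat.zero_le _
  | @cons _ w z1 d2 _ h0 h1 _ _ h2 =>
    obtain ⟨hs, u, hu⟩ := h1.start hS H
    obtain ⟨u1, g1, g2⟩ := h1.read hS H hu
    cases z with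
    | nil => exact absurd h1.lt (not_lt.2 (Prod.Lex.toLex_le_toLex.1 (show toLex (0, 0) ≤ _ from
        bot_le) |> Prod.Lex.toLex_le_toLex.2))
    | cons x v =>
      obtain ⟨k1, g, k2, -, k3⟩ := (H _ hs).gate g2 ((H _ hs).base rfl hu).1 h1.lt (bt_lt_tm le_rfl)
      obtain ⟨d', f, d'', a', b', rfl, c1, c2, c3⟩ :=
        decomp hS (fun s h => H s (h.trans hs)) k1 k3 k2
      obtain ⟨r, rfl⟩ := retrace hS H h2 (c1.mono (E_mono hs.le)) (by
        have := len_le_of_bt (c2.eq.ge.trans c3.le)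
        simp only [List.length_cons] at h0 this
        omega)
      rw [List.append_assoc, List.append_assoc] at k3
      obtain ⟨u2, c4, -⟩ := (pth_snd k3).split
      exact (short hS H hp h hd hs hu (g1.append c4)).2

theorem same_down (h : DC nxt e ℓ (E nxt e σ) P z d a) (h' : DC nxt e ℓ (E nxt e σ) P z d' b)
    (hb : bt e a = bt e b) : d = d' := by
  induction h generalizing d' with
  | nil =>
    cases h' with
    | nil => rfl
    | cons _ g1 _ _ g2 => exact absurd hb (g2.le.trans_lt g1.lt).ne'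
  | cons h0 h1 h2 h3 h4 ih =>
    cases h' with
    | nil => exact absurd hb (h4.le.trans_lt h1.lt).ne
    | cons _ g1 g2 g3 g4 =>
      obtain rfl := descent hS H h1 g1 h2 g2 h3 g3
      obtain rfl := (foldE hS H).uniq h1.pth g1.pth
      rw [ih g4 hb]

theorem flat {p q : Ad Ω × Ω} (hp : Fresh nxt e σ p) (h : Pth (EP nxt e σ) p w q)
    (hw : IsReduced w) (h' : Fl e (E nxt e σ) p.1 w b) :
    w.length ≤ ℓ p.2 ∧ (b = p.1 → w = []) := by
  obtain ⟨z, y⟩ := p
  cases h' with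
  | nil => exact ⟨Nat.zero_le _, fun _ => rfl⟩
  | cons h0 h1 h2 =>
    obtain ⟨u, -, -, hu, -⟩ := edge_copy hS H h0 (max_eq_left h1.le).symm
    obtain ⟨u', g1, g2⟩ := (Fl.cons h0 h1 h2).read hS H hu
    obtain ⟨g3, g4⟩ := short hS H hp h hw hp.1 hu g1
    refine ⟨g4, fun hb => ?_⟩
    subst hb
    obtain rfl := (H _ hp.1).inj g2 hu
    exact closed_nil hS g1 hw (by omega)

theorem closed {p q : Ad Ω × Ω} (hp : Fresh nxt e σ p) (h : Pth (EP nxt e σ) p w q)
    (hw : IsReduced w) (hq : q.1 = p.1) : w = [] := by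
  obtain ⟨d, f, d', a, b, rfl, h1, h2, h3⟩ := decomp hS H hp h hw
  rw [hq] at h3
  obtain rfl := same_down hS H h1 h3 h2.eq.symm
  obtain rfl := (foldE hS H).uniq h1.pth h3.pth
  obtain ⟨r, r1, -⟩ := h.split
  obtain ⟨r', r2, r3⟩ := r1.split
  obtain rfl := (foldE hS H).uniq h1.pth (pth_fst r2)
  obtain rfl := (flat hS H (fresh_keep hS H r2 hp) r3 (red_right (red_left hw)) h2).2 rfl
  rw [List.append_nil] at hw
  rw [red_cancel hw]
  rfl

end Step

end Pool.Agent.Lib.IT.G91
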