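import Pool.Agent.Lib.IT.GEO91b

/-! The invariant holds at all times. -/

namespace Pool.Agent.Lib.IT.G91

open FreeGroup (IsReduced invRev)

variable {S Ω : Type} {nxt : Ω → S × Bool → Option Ω} {e : Ad Ω × Ω → ℕ} {ℓ : Ω → ℕ}
  {z z' a b v : Ad Ω} {w d : List (S × Bool)} {l : S × Bool} {s t σ : Tm} {x y y' u : Ω}

theorem tm_inj (he : Function.Injective e) {v' : Ad Ω} {x' : Ω} (h : tm e v x = tm e v' x') :
    v = v' ∧ x = x' :=
  Prod.ext_iff.1 (he (congrArg (fun t : Tm => (ofLex t).2) h))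

theorem exec (h : Al nxt e z) (h' : ∀ s < tm e z y, ¬In nxt e s y z) :
    In nxt e (tm e z y) y z := by
  rw [in_eq]
  exact ⟨z, y, rfl, h.imp id fun ⟨u, hu⟩ => ⟨_, u, bt_lt_tm le_rfl, hu⟩,
    fun s ⟨h1, h2⟩ => h' s h1 h2, ⟨[], .nil _⟩, .inl ⟨[], .nil _⟩⟩

theorem fresh_len {p : Ad Ω × Ω} (h : Fresh nxt e (tm e v x) p) :
    v.length ≤ p.1.length ∧ p.1.length ≤ v.length + 1 := by
  refine ⟨not_lt.1 fun h1 => ?_, len_le_of_bt (e := e) (z' := (x, x) :: v) h.1.le⟩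
  have h2 : tm e p.1 p.2 < tm e v x := Prod.Lex.toLex_lt_toLex.2 (Or.inl (by simpa using h1))
  exact h.2.2 _ h2 (exec h.2.1 fun s hs => h.2.2 s (hs.trans h2))

section Step

variable (hS : Small nxt ℓ) (H : ∀ s < tm e v x, Inv nxt e ℓ s)
include hS H

theorem dc_len {p q : Ad Ω × Ω} (hp : Fresh nxt e (tm e v x) p)
    (h : Pth (EP nxt e (tm e v x)) p d q) (hd : IsReduced d)
    (h' : DC nxt e ℓ (E nxt e (tm e v x)) (fun _ => True) p.1 d a) :
    d.length ≤ 2 * ℓ p.2 ∧ a = q.1 := by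
  have hF := foldE hS H
  obtain rfl := hF.uniq h'.pth (pth_fst h)
  obtain ⟨d1, d2, c, rfl, h1, h2⟩ := h'.two (fresh_len hp).2 (fresh_len (fresh_keep hS H h hp)).1
  obtain ⟨r, r1, r2⟩ := h.split
  obtain rfl := hF.uniq h1.pth (pth_fst r1)
  have g1 := chain hS H hp r1 (red_left hd) h1
  have g2 := chain hS H (fresh_keep hS H r1 hp) r2 (red_right hd) h2
  rw [len_eq hS (pth_snd r1)] at g2
  rw [List.length_append]
  exact ⟨by omega, rfl⟩

theorem five {p q : Ad Ω × Ω} (hp : Fresh nxt e (tm e v x) p)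
    (h : Pth (EP nxt e (tm e v x)) p w q) (hw : IsReduced w) : w.length ≤ 5 * ℓ p.2 := by
  obtain ⟨d, f, d', a, b, rfl, h1, h2, h3⟩ := decomp hS H hp h hw
  have hq := fresh_keep hS H h hp
  have hl := len_eq hS (pth_snd h)
  obtain ⟨r, r1, r2⟩ := h.split
  obtain ⟨r', r3, r4⟩ := r1.split
  obtain ⟨g1, rfl⟩ := dc_len hS H hp r3 (red_left (red_left hw)) h1
  have r5 := (foldP hS H).inv r2
  have g0 := red_inv (red_right hw)
  rw [FreeGroup.invRev_invRev] at r5 g0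
  have g2 := (dc_len hS H hq r5 g0 h3).1
  have g3 := (flat hS H (fresh_keep hS H r3 hp) r4 (red_right (red_left hw)) h2).1
  rw [len_eq hS (pth_snd r3)] at g3
  simp only [List.length_append, FreeGroup.invRev_length]
  omega

theorem link {p q r : Ad Ω × Ω} (hp : Fresh nxt e (tm e v x) p)
    (h : ∃ w, Pth (EP nxt e (tm e v x)) p w q) (h' : ∃ w, Pth (EP nxt e (tm e v x)) p w r) :
    Fresh nxt e (tm e v x) q ∧
      ∃ w, IsReduced w ∧ w.length ≤ 5 * ℓ q.2 ∧ Pth (EP nxt e (tm e v x)) q w r := by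
  obtain ⟨w, h⟩ := h
  obtain ⟨w', h'⟩ := h'
  have hq := fresh_keep hS H h hp
  obtain ⟨g, g1, g2⟩ := (foldP hS H).red (((foldP hS H).inv h).append h')
  exact ⟨hq, g, g1, five hS H hq g2 g1, g2⟩

omit hS in
theorem in_iff (he : Function.Injective e) : In nxt e (tm e v x) y z ↔
    Fresh nxt e (tm e v x) (v, x) ∧ (∃ w, Pth (EO nxt) x w y) ∧
      ((∃ w, Pth (EP nxt e (tm e v x)) (v, x) w (z, y)) ∨
        (¬∃ z' w, Pth (EP nxt e (tm e v x)) (v, x) w (z', y)) ∧ z = (x, y) :: v) := by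
  rw [in_eq]
  refine ⟨fun ⟨v', x', h1, h2, h3, h4⟩ => ?_, fun ⟨h1, h2⟩ => ⟨v, x, rfl,
    h1.2.1.imp id fun ⟨u, hu⟩ => ⟨_, u, h1.1, hu⟩, fun s ⟨h3, h4⟩ => h1.2.2 s h3 h4, h2⟩⟩
  obtain ⟨rfl, rfl⟩ := tm_inj he h1
  refine ⟨⟨bt_lt_tm le_rfl, ?_, fun s h5 h6 => h3 s ⟨h5, h6⟩⟩, h4⟩
  rcases h2 with h2 | ⟨s, u, h5, h6⟩
  exacts [.inl h2, (H s h5).al h6]

theorem in_old (he : Function.Injective e) (h : In nxt e (tm e v x) y z)
    (hz : bt e z < tm e v x) : ∃ w, Pth (EP nxt e (tm e v x)) (v, x) w (z, y) := by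
  obtain ⟨-, -, h1 | ⟨-, rfl⟩⟩ := (in_iff H he).1 h
  exacts [h1, absurd hz (lt_irrefl _)]

theorem in_fn (he : Function.Injective e) (h : In nxt e (tm e v x) y z)
    (h' : In nxt e (tm e v x) y z') : z = z' := by
  obtain ⟨h0, -, h1 | ⟨h1, rfl⟩⟩ := (in_iff H he).1 h <;>
    obtain ⟨-, -, h2 | ⟨h2, rfl⟩⟩ := (in_iff H he).1 h'
  · obtain ⟨-, g, g1, g2, g3⟩ := link hS H h0 h1 h2
    obtain rfl := closed_nil hS (y := y) (pth_snd g3) g1 (by
      change _ ≤ 5 * ℓ y at g2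
      omega)
    cases g3
    rfl
  · exact absurd ⟨_, h1⟩ h2
  · exact absurd ⟨_, h2⟩ h1
  · rfl

theorem inv_step (he : Function.Injective e) : Inv nxt e ℓ (tm e v x) where
  fn := in_fn hS H he
  inj {y y' z} h h' := by
    obtain ⟨h0, -, h1 | ⟨h1, rfl⟩⟩ := (in_iff H he).1 h
    · obtain ⟨k, g, g1, -, g3⟩ := link hS H h0 h1
        (in_old hS H he h' (link hS H h0 h1 h1).1.1)
      obtain rfl := closed hS H k g3 g1 rfl
      cases g3
      rfl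
    · obtain ⟨-, -, h2 | ⟨-, h2⟩⟩ := (in_iff H he).1 h'
      · exact absurd (link hS H h0 h2 h2).1.1 (lt_irrefl _)
      · simpa using h2
  dom {y z l y'} h h1 := by
    obtain ⟨h0, ⟨w, h2⟩, -⟩ := (in_iff H he).1 h
    by_cases h3 : ∃ z' w, Pth (EP nxt e (tm e v x)) (v, x) w (z', y')
    · exact h3.imp fun z' h3 => (in_iff H he).2 ⟨h0, ⟨_, h2.append (.one h1)⟩, .inl h3⟩
    · exact ⟨_, (in_iff H he).2 ⟨h0, ⟨_, h2.append (.one h1)⟩, .inr ⟨h3, rfl⟩⟩⟩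
  le h := by
    obtain ⟨h0, -, h1 | ⟨-, rfl⟩⟩ := (in_iff H he).1 h
    exacts [(link hS H h0 h1 h1).1.1.le, le_rfl]
  al h := by
    obtain ⟨h0, -, h1 | ⟨-, rfl⟩⟩ := (in_iff H he).1 h
    exacts [(link hS H h0 h1 h1).1.2.1, .inr ⟨_, h⟩]
  gate h h' h1 h2 := link hS H ((in_iff H he).1 h).1 (in_old hS H he h h1) (in_old hS H he h' h2)
  det {y z l y' z' z''} h h1 h' h2 := by
    obtain ⟨w, h3⟩ := in_old hS H he h (E_end H ((foldE hS H).symm h2)).1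
    obtain ⟨h0, h4, -⟩ := (in_iff H he).1 h'
    exact in_fn hS H he ((in_iff H he).2 ⟨h0, h4, .inl ⟨_, h3.append (.one ⟨h2, h1⟩)⟩⟩) h'
  base h1 h := by
    obtain ⟨rfl, rfl⟩ := tm_inj he h1
    obtain ⟨h0, h2, -⟩ := (in_iff H he).1 h
    exact ⟨(in_iff H he).2 ⟨h0, ⟨[], .nil _⟩, .inl ⟨[], .nil _⟩⟩, h2⟩

end Step

theorem in_tm (h : In nxt e s y z) : ∃ v x, s = tm e v x := by
  rw [in_eq] at h
  exact let ⟨v, x, h, _⟩ := h; ⟨v, x, h⟩

theorem inv_all (hS : Small nxt ℓ) (he : Function.Injective e) (s : Tm) : Inv nxt e ℓ s := by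
  induction s using WellFoundedLT.induction with
  | ind s H =>
    by_cases h : ∃ v x, s = tm e v x
    · obtain ⟨v, x, rfl⟩ := h
      exact inv_step hS H he
    · exact ⟨fun g => absurd (in_tm g) h, fun g => absurd (in_tm g) h, fun g => absurd (in_tm g) h,
        fun g => absurd (in_tm g) h, fun g => absurd (in_tm g) h, fun g => absurd (in_tm g) h,
        fun g => absurd (in_tm g) h, fun _ g => absurd (in_tm g) h⟩

end Pool.Agent.Lib.IT.G91
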