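import Pool.Agent.Lib.IT.Geo1

/-! GEO, key lemma: gates are small. -/

namespace Pool.Agent.Lib.IT.Geo

open Pool.Agent.Lib.MP_f40e16_al FreeGroup

variable {S Ω : Type} {nxt : Ω → S × Bool → Option Ω} {ℓ : Ω → ℕ} {x0 : Ω} {R : Raw Ω}

section generic
variable {Z B : Type} {D : Z → S × Bool → Z → Prop}

theorem tgt_of_src [LinearOrder B] (f : Z → B) (b c : B) {p q : Z} {w : List (S × Bool)}
    (h : Wk (fun a l a' => D a l a' ∧ c < f a) p w q) (hb : b ≤ c) (hq : b ≤ f q) :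
    Wk (fun a l a' => D a l a' ∧ b ≤ f a') p w q := by
  induction h with
  | nil => exact Wk.nil _
  | @cons a a' _ l w d k ih =>
    refine Wk.cons ⟨d.1, ?_⟩ (ih hq)
    cases k with
    | nil => exact hq
    | cons d' _ => exact hb.trans d'.2.le

/-- cut a walk at the first minimum of `f` -/
theorem min_split [LinearOrder B] (f : Z → B) {p q : Z} {w : List (S × Bool)} (h : Wk D p w q) :
    ∃ w1 w2 m, w = w1 ++ w2 ∧ Wk (fun a l a' => D a l a' ∧ f m < f a) p w1 m ∧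
      Wk (fun a l a' => D a l a' ∧ f m ≤ f a') m w2 q := by
  induction h with
  | nil z => exact ⟨[], [], z, rfl, Wk.nil _, Wk.nil _⟩
  | @cons a a' c l w d _ ih =>
    obtain ⟨w1, w2, m, rfl, h1, h2⟩ := ih
    by_cases hm : f m < f a
    · exact ⟨l :: w1, w2, m, rfl, Wk.cons ⟨d, hm⟩ h1, h2⟩
    · have hm := not_lt.1 hm
      refine ⟨[], l :: (w1 ++ w2), a, rfl, Wk.nil _, Wk.cons ⟨d, ?_⟩
        ((tgt_of_src f (f a) (f m) h1 hm hm).append (h2.mono fun _ _ _ e => ⟨e.1, hm.trans e.2⟩))⟩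
      cases h1 with
      | nil => exact hm
      | cons d' _ => exact hm.trans d'.2.le

/-- cut a walk at the first vertex violating `P` -/
theorem split_while (P : Z → Prop) {p q : Z} {w : List (S × Bool)} (h : Wk D p w q) :
    ∃ w1 w2 m, w = w1 ++ w2 ∧ Wk (fun a l a' => D a l a' ∧ P a) p w1 m ∧ Wk D m w2 q ∧
      (w2 = [] ∨ ¬ P m) := by
  induction h with
  | nil z => exact ⟨[], [], z, rfl, Wk.nil _, Wk.nil _, Or.inl rfl⟩
  | @cons a a' c l w d k ih =>
    by_cases hP : P a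
    · obtain ⟨w1, w2, m, rfl, h1, h2, h3⟩ := ih
      exact ⟨l :: w1, w2, m, rfl, Wk.cons ⟨d, hP⟩ h1, h2, h3⟩
    · exact ⟨[], l :: w, a, rfl, Wk.nil _, Wk.cons d k, Or.inr hP⟩

theorem tgt_end [LinearOrder B] (f : Z → B) (b : B) {p q : Z} {w : List (S × Bool)}
    (h : Wk (fun a l a' => D a l a' ∧ b ≤ f a') p w q) (hp : b ≤ f p) : b ≤ f q :=
  h.ind_end (fun a => b ≤ f a) (fun _ _ _ _ e => e.2) hp

theorem src_lt [LinearOrder B] (f : Z → B) (b : B) {p q : Z} {w : List (S × Bool)}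
    (h : Wk (fun a l a' => D a l a' ∧ b < f a) p w q) (hw : w ≠ []) : b < f p := by
  cases h with
  | nil => exact absurd rfl hw
  | cons d _ => exact d.2

end generic

namespace Raw

variable (hs : Small nxt ℓ) (hR : R.Sys nxt x0) {T : ℕ ×ₗ ℕ} (hG : GB nxt ℓ R T)
include hs hR hG

/-- after a climb inside a cell a reduced piece path never goes down -/
theorem up_of_desc {w : List (S × Bool)} : ∀ {p q p0 s : Vx Ω × Ω} {y y0 : Ω}
    {τ : List (S × Bool)}, ¬ R.Sat nxt T p → R.tm s < T → R.Ex s → Cp nxt s.2 y → R.φ s y = p.1 →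
    Desc nxt R s y τ y0 → Wk (R.PD nxt T) p τ p0 → Rd (invRev τ ++ w) → Wk (R.PD nxt T) p w q →
    R.β p.1 ≤ R.β q.1 := by
  induction w with
  | nil => intro p q _ _ _ _ _ _ _ _ _ _ _ _ _ h; rw [wk_nil.1 h]
  | cons l w ih =>
    intro p q p0 s y y0 τ ns h1 h2 h3 h4 hd hτ hr hw
    obtain ⟨p1, d, hw⟩ := wk_cons.1 hw
    have hb : R.β p.1 = R.tm s := h4 ▸ beta_of_out hR hd.out
    have ns1 : ¬ R.Sat nxt T p1 := ns_walk hs hR hG ns (Wk.cons d (Wk.nil _))
    obtain ⟨s', z, z', k1, k2, k3, k4, k5, k6, k7⟩ := dart_owner hs hR hG d.1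
    rcases le_or_gt (R.β p1.1) (R.β p.1) with hle | hlt
    · rw [max_eq_left hle, hb] at k7
      obtain rfl := tm_inj hR k7
      obtain rfl : z = y := cell_inj hR k2 (hG _ k1 k2) (k5.trans h4.symm)
      by_cases hi : R.In nxt s' z'
      · exfalso
        have hrτ : Rd τ := by simpa using isReduced_invRev hr.left'
        have : τ = [l] := desc_uniq hs hR (hG.mono k1.le) (hG _ k1 k2) hd (Desc.last k4 hd.out hi)
          hrτ IsReduced.singleton (ns_piece hs ns k1 k2 k3 k5 hrτ (pd_xd hτ) hd.wk).2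
          (hs.one_le _)
        subst this
        have := (isReduced_append.1 hr).2.2 (iv l) (by simp [invRev, iv]) l (by simp)
        simp at this
      · have e : R.β p1.1 = R.β p.1 := by rw [hb, ← k6]; exact beta_of_out hR hi
        rw [← e]
        refine ih ns1 k1 k2 (k3.step k4) k6 (Desc.cons ((fold_xd hs).symm k4) hi hd)
          (Wk.cons ((fold_pd hs hR hG).symm d) hτ) ?_ hw
        rw [invRev_cons', iv_iv, List.append_assoc]; exact hr
    · rw [max_eq_right hlt.le] at k7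
      have hi : R.In nxt s' z := by rw [← beta_lt_iff hR k2, k5, k7]; exact hlt
      have ho : ¬ R.In nxt s' z' := by rw [← beta_lt_iff hR k2, k6, k7]; exact lt_irrefl _
      refine hlt.le.trans (ih ns1 k1 k2 (k3.step k4) k6 (Desc.last ((fold_xd hs).symm k4) ho hi)
        (Wk.cons ((fold_pd hs hR hG).symm d) (Wk.nil _)) ?_ hw)
      have : invRev [iv l] = [l] := by simp [invRev, iv]
      rw [this]; exact hr.right'

theorem rise {p p1 q : Vx Ω × Ω} {l : S × Bool} {w : List (S × Bool)} (ns : ¬ R.Sat nxt T p)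
    (d : R.PD nxt T p l p1) (hlt : R.β p.1 < R.β p1.1) (hr : Rd (l :: w))
    (hw : Wk (R.PD nxt T) p1 w q) : R.β p1.1 ≤ R.β q.1 := by
  obtain ⟨s', z, z', k1, k2, k3, k4, k5, k6, k7⟩ := dart_owner hs hR hG d.1
  rw [max_eq_right hlt.le] at k7
  have hi : R.In nxt s' z := by rw [← beta_lt_iff hR k2, k5, k7]; exact hlt
  have ho : ¬ R.In nxt s' z' := by rw [← beta_lt_iff hR k2, k6, k7]; exact lt_irrefl _
  refine up_of_desc hs hR hG (ns_walk hs hR hG ns (Wk.cons d (Wk.nil _))) k1 k2 (k3.step k4) k6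
    (Desc.last ((fold_xd hs).symm k4) ho hi) (Wk.cons ((fold_pd hs hR hG).symm d) (Wk.nil _)) ?_ hw
  have : invRev [iv l] = [l] := by simp [invRev, iv]
  rw [this]; exact hr

/-- a path ending lower starts with a descent -/
theorem split_desc {w : List (S × Bool)} : ∀ {p q : Vx Ω × Ω}, ¬ R.Sat nxt T p → Rd w →
    Wk (R.PD nxt T) p w q → R.β q.1 < R.β p.1 →
    ∃ s y y' σ w' p', R.tm s < T ∧ R.Ex s ∧ R.tm s = R.β p.1 ∧ Cp nxt s.2 y ∧ R.φ s y = p.1 ∧
      Desc nxt R s y σ y' ∧ R.φ s y' = p'.1 ∧ w = σ ++ w' ∧ Wk (R.PD nxt T) p σ p' ∧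
      Wk (R.PD nxt T) p' w' q := by
  induction w with
  | nil => intro p q _ _ h hlt; rw [wk_nil.1 h] at hlt; exact absurd hlt (lt_irrefl _)
  | cons l w ih =>
    intro p q ns hr hw hlt
    obtain ⟨p1, d, hw⟩ := wk_cons.1 hw
    have hle : R.β p1.1 ≤ R.β p.1 := by
      by_contra hc
      have hc := not_le.1 hc
      exact absurd (hlt.trans (hc.trans_le (rise hs hR hG ns d hc hr hw))) (lt_irrefl _)
    obtain ⟨s, z, z', k1, k2, k3, k4, k5, k6, k7⟩ := dart_owner hs hR hG d.1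
    rw [max_eq_left hle] at k7
    have ho : ¬ R.In nxt s z := by rw [← beta_lt_iff hR k2, k5, k7]; exact lt_irrefl _
    by_cases hi : R.In nxt s z'
    · exact ⟨s, z, z', [l], w, p1, k1, k2, k7, k3, k5, Desc.last k4 ho hi, k6, rfl,
        Wk.cons d (Wk.nil _), hw⟩
    · have e : R.β p1.1 = R.β p.1 := by rw [← k7, ← k6]; exact beta_of_out hR hi
      obtain ⟨s', y, y', σ, w', p', a1, a2, a3, a4, a5, a6, a7, rfl, a9, a10⟩ :=
        ih (ns_walk hs hR hG ns (Wk.cons d (Wk.nil _))) (isReduced_cons'.1 hr).1 hw (e ▸ hlt)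
      obtain rfl : s' = s := tm_inj hR (by rw [a3, e, k7])
      obtain rfl : y = z' := cell_inj hR k2 (hG _ k1 k2) (a5.trans k6.symm)
      exact ⟨s', z, y', l :: σ, w', p', k1, k2, k7, k3, k5, Desc.cons k4 ho a6, a7, rfl,
        Wk.cons d a9, a10⟩

/-- two paths from the same vertex that both end lower share their first descent -/
theorem split_two {T' : ℕ ×ₗ ℕ} (hG' : GB nxt ℓ R T') {w v : List (S × Bool)}
    {p q r r' : Vx Ω × Ω} (ns : ¬ R.Sat nxt T p) (hr : Rd w) (hw : Wk (R.PD nxt T) p w q)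
    (hlt : R.β q.1 < R.β p.1) (ns' : ¬ R.Sat nxt T' r) (hr' : Rd v)
    (hv : Wk (R.PD nxt T') r v r') (hlt' : R.β r'.1 < R.β r.1) (e : r.1 = p.1) :
    ∃ σ w' v' p' r1, σ ≠ [] ∧ w = σ ++ w' ∧ v = σ ++ v' ∧ r1.1 = p'.1 ∧ Wk (R.PD nxt T) p σ p' ∧
      Wk (R.PD nxt T) p' w' q ∧ Wk (R.PD nxt T') r σ r1 ∧ Wk (R.PD nxt T') r1 v' r' := by
  obtain ⟨s, y, y', σ, w', p', a1, a2, a3, a4, a5, a6, a7, rfl, a9, a10⟩ :=
    split_desc hs hR hG ns hr hw hlt
  obtain ⟨s', z, z', σ', v', r1, b1, b2, b3, b4, b5, b6, b7, rfl, b9, b10⟩ :=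
    split_desc hs hR hG' ns' hr' hv hlt'
  obtain rfl : s' = s := tm_inj hR (by rw [a3, b3, e])
  obtain rfl : z = y := cell_inj hR a2 (hG _ a1 a2) (by rw [a5, b5, e])
  obtain rfl : σ = σ' := desc_uniq hs hR (hG.mono a1.le) (hG _ a1 a2) a6 b6 hr.left' hr'.left'
    (ns_piece hs ns a1 a2 a4 a5 hr.left' (pd_xd a9) a6.wk).2
    (ns_piece hs ns' b1 b2 b4 b5 hr'.left' (pd_xd b9) b6.wk).2
  obtain rfl : y' = z' := a6.wk.func (fold_xd hs) b6.wk
  refine ⟨σ, w', v', p', r1, ?_, rfl, rfl, b7.symm.trans a7, a9, a10, b9, b10⟩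
  rintro rfl
  cases a6

/-- a path to an older generation retraces every descending path of one generation -/
theorem retrace {T' : ℕ ×ₗ ℕ} (hG' : GB nxt ℓ R T') (j : ℕ) (n : ℕ) :
    ∀ {w v : List (S × Bool)} {p q r r' : Vx Ω × Ω}, w.length ≤ n → ¬ R.Sat nxt T p → Rd w →
    Wk (fun a l a' => R.PD nxt T a l a' ∧ R.β q.1 < R.β a.1 ∧ a.1.gen = j) p w q →
    ¬ R.Sat nxt T' r → Rd v → Wk (R.PD nxt T') r v r' → r'.1.gen < j → r.1 = p.1 →
    ∃ v', v = w ++ v' := by
  induction n with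
  | zero =>
    intro w v _ _ _ _ hl _ _ _ _ _ _ _ _
    exact ⟨v, by rw [List.length_eq_zero_iff.1 (Nat.le_zero.1 hl)]; rfl⟩
  | succ n ih =>
    intro w v p q r r' hl ns hr hw ns' hr' hv hj e
    by_cases hne : w = []
    · exact ⟨v, by rw [hne]; rfl⟩
    have h0 : R.β q.1 < R.β p.1 ∧ p.1.gen = j := by
      cases hw with
      | nil => exact absurd rfl hne
      | cons d _ => exact d.2
    obtain ⟨σ, w', v', p', r1, c1, rfl, rfl, c4, c5, -, c7, c8⟩ := split_two hs hR hG hG' ns hr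
      (hw.mono fun _ _ _ d => d.1) h0.1 ns' hr' hv (R.beta_lt_of_gen (by rw [e, h0.2]; exact hj)) e
    obtain ⟨m, hm1, hm2⟩ := wk_append.1 hw
    obtain rfl : m = p' := (hm1.mono fun _ _ _ d => d.1).func (fold_pd hs hR hG) c5
    have : 0 < σ.length := List.length_pos_iff.2 c1
    obtain ⟨v'', rfl⟩ := ih (w := w') (by simp at hl; omega) (ns_walk hs hR hG ns c5) hr.right' hm2
      (ns_walk hs hR hG' ns' c7) hr'.right' c8 hj c4
    exact ⟨v'', by simp⟩

/-- a descending path of one generation is a piece -/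
theorem chain (j : ℕ) {w : List (S × Bool)} {p q : Vx Ω × Ω} (ns : ¬ R.Sat nxt T p) (hr : Rd w)
    (hw : Wk (fun a l a' => R.PD nxt T a l a' ∧ R.β q.1 < R.β a.1 ∧ a.1.gen = j) p w q) :
    w.length ≤ ℓ p.2 := by
  by_cases hne : w = []
  · simp [hne]
  have h0 : R.β q.1 < R.β p.1 ∧ p.1.gen = j := by
    cases hw with
    | nil => exact absurd rfl hne
    | cons d _ => exact d.2
  have hw0 : Wk (R.PD nxt T) p w q := hw.mono fun _ _ _ d => d.1
  obtain ⟨s, y, y', σ, w', p', a1, a2, a3, a4, a5, a6, a7, rfl, a9, a10⟩ :=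
    split_desc hs hR hG ns hr hw0 h0.1
  have hG' := hG.mono a1.le
  obtain ⟨v, hv, -, h1⟩ := gate_word hs hR hG' (hG _ a1 a2) a6.inn ⟨s.1, Rch.refl s⟩
  obtain ⟨m, hm1, hm2⟩ := wk_append.1 hw
  obtain rfl : m = p' := (hm1.mono fun _ _ _ d => d.1).func (fold_pd hs hR hG) a9
  have hgen : (R.φ s s.2).gen < j := by
    rw [phi_root (hG _ a1 a2), ← h0.2, ← a5, hR.phi_out s y a6.out]
    simp [Vx.gen]
  obtain ⟨v', rfl⟩ := retrace hs hR hG hG' j _ le_rfl (ns_walk hs hR hG ns a9) hr.right' hm2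
    (ns_rch hs hR hG' a2 (hR.phi_in s y' a6.inn)) hv h1 hgen a7
  obtain ⟨m', hm', -⟩ := wk_append.1 (pd_xd h1)
  exact (ns_piece hs ns a1 a2 a4 a5 hr (pd_xd hw0) (a6.wk.append hm')).1

/-- a path whose sources all lie above its end, within two generations -/
theorem down_len (j : ℕ) {w : List (S × Bool)} {p q : Vx Ω × Ω} (ns : ¬ R.Sat nxt T p) (hr : Rd w)
    (hw : Wk (fun a l a' => R.PD nxt T a l a' ∧ R.β q.1 < R.β a.1) p w q)
    (hgen : ∀ a v, Wk (R.PD nxt T) p v a → j ≤ a.1.gen ∧ a.1.gen ≤ j + 1) :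
    w.length ≤ 2 * ℓ p.2 := by
  obtain ⟨w1, w2, m, rfl, h1, h2, h3⟩ := split_while (fun a => a.1.gen = j + 1) hw
  have h1' : Wk (R.PD nxt T) p w1 m := h1.mono fun _ _ _ d => d.1.1
  have hm := hgen m _ h1'
  have l1 : w1.length ≤ ℓ p.2 := by
    refine chain hs hR hG (j + 1) ns hr.left' (h1.mono fun a _ _ d => ⟨d.1.1, ?_, d.2⟩)
    rcases h3 with rfl | h3
    · rw [wk_nil.1 h2]; exact d.1.2
    · exact R.beta_lt_of_gen (by rw [d.2]; omega)
  have l2 : w2.length ≤ ℓ m.2 := by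
    rcases h3 with rfl | h3
    · simp
    have key : ∀ {v : List (S × Bool)} {a : Vx Ω × Ω}, ¬ R.Sat nxt T a → Rd v → a.1.gen = j →
        (∃ v0, Wk (R.PD nxt T) p v0 a) →
        Wk (fun a l a' => R.PD nxt T a l a' ∧ R.β q.1 < R.β a.1) a v q →
        Wk (fun a l a' => R.PD nxt T a l a' ∧ R.β q.1 < R.β a.1 ∧ a.1.gen = j) a v q := by
      intro v
      induction v with
      | nil => intro a _ _ _ _ h; rw [wk_nil.1 h]; exact Wk.nil _
      | cons l v ih =>
        intro a na hv ga ⟨v0, hv0⟩ h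
        obtain ⟨a1, d, h⟩ := wk_cons.1 h
        have hle : R.β a1.1 ≤ R.β a.1 := by
          by_contra hc
          have hc := not_le.1 hc
          exact absurd (d.2.trans (hc.trans_le
            (rise hs hR hG na d.1 hc hv (h.mono fun _ _ _ d => d.1)))) (lt_irrefl _)
        have g1 := R.gen_le_of_beta hle
        have g2 := (hgen a1 _ (hv0.snoc d.1)).1
        exact Wk.cons ⟨d.1, d.2, ga⟩ (ih (ns_walk hs hR hG na (Wk.cons d.1 (Wk.nil _)))
          (isReduced_cons'.1 hv).1 (by omega) ⟨_, hv0.snoc d.1⟩ h)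
    have nm := ns_walk hs hR hG ns h1'
    exact chain hs hR hG j nm hr.right' (key nm hr.right' (by omega) ⟨_, h1'⟩ h2)
  have := ell_walk hs (pd_xd h1')
  simp; omega

/-- a path that never goes below its start and ends at the same level stays in one cell -/
theorem flat {w : List (S × Bool)} : ∀ {p q : Vx Ω × Ω}, ¬ R.Sat nxt T p → Rd w →
    Wk (fun a l a' => R.PD nxt T a l a' ∧ R.β q.1 ≤ R.β a'.1) p w q → R.β p.1 = R.β q.1 → w ≠ [] →
    ∃ s y y', R.tm s < T ∧ R.Ex s ∧ R.tm s = R.β p.1 ∧ Cp nxt s.2 y ∧ R.φ s y = p.1 ∧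
      R.φ s y' = q.1 ∧ Wk (XD nxt) y w y' := by
  induction w with
  | nil => intro _ _ _ _ _ _ h; exact absurd rfl h
  | cons l w ih =>
    intro p q ns hr hw e _
    obtain ⟨p1, d, hw⟩ := wk_cons.1 hw
    have e1 : R.β p1.1 = R.β q.1 := by
      refine le_antisymm ?_ d.2
      by_contra hc
      have hc := not_le.1 hc
      exact absurd (hc.trans_le (rise hs hR hG ns d.1 (e ▸ hc) hr (hw.mono fun _ _ _ d => d.1)))
        (lt_irrefl _)
    obtain ⟨s, z, z', k1, k2, k3, k4, k5, k6, k7⟩ := dart_owner hs hR hG d.1.1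
    rw [e1, ← e, max_self] at k7
    by_cases hne : w = []
    · subst hne
      exact ⟨s, z, z', k1, k2, k7, k3, k5, wk_nil.1 hw ▸ k6, Wk.cons k4 (Wk.nil _)⟩
    · obtain ⟨s', y, y', a1, a2, a3, a4, a5, a6, a7⟩ :=
        ih (ns_walk hs hR hG ns (Wk.cons d.1 (Wk.nil _))) (isReduced_cons'.1 hr).1 hw e1 hne
      obtain rfl : s' = s := tm_inj hR (by rw [a3, e1, k7, e])
      obtain rfl : y = z' := cell_inj hR k2 (hG _ k1 k2) (a5.trans k6.symm)
      exact ⟨s', z, y', k1, k2, k7, k3, k5, a6, Wk.cons k4 a7⟩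

theorem five (j : ℕ) {w : List (S × Bool)} {p q : Vx Ω × Ω} (ns : ¬ R.Sat nxt T p) (hr : Rd w)
    (hw : Wk (R.PD nxt T) p w q)
    (hgen : ∀ a v, Wk (R.PD nxt T) p v a → j ≤ a.1.gen ∧ a.1.gen ≤ j + 1) :
    w.length ≤ 5 * ℓ p.2 := by
  have F := fold_pd hs hR hG
  obtain ⟨w1, w2, m, rfl, h1, h2⟩ := min_split (fun a : Vx Ω × Ω => R.β a.1) hw
  have h1' : Wk (R.PD nxt T) p w1 m := h1.mono fun _ _ _ d => d.1
  have h2' : Wk (R.PD nxt T) m w2 q := h2.mono fun _ _ _ d => d.1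
  have l1 := down_len hs hR hG j ns hr.left' h1 hgen
  obtain ⟨v1, v2, m', e, k1, k2⟩ := min_split (fun a : Vx Ω × Ω => R.β a.1) (h2'.rev F)
  have k1' : Wk (R.PD nxt T) q v1 m' := k1.mono fun _ _ _ d => d.1
  have k2' : Wk (R.PD nxt T) m' v2 m := k2.mono fun _ _ _ d => d.1
  have hr2 : Rd (v1 ++ v2) := e ▸ isReduced_invRev hr.right'
  have nq := ns_walk hs hR hG ns hw
  have l2 := down_len hs hR hG j nq hr2.left' k1 fun a v ha => hgen a _ (hw.append ha)
  have e2 : w2 = invRev v2 ++ invRev v1 := by rw [← invRev_append, ← e, invRev_invRev]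
  have hmm : R.β m'.1 = R.β m.1 := by
    refine le_antisymm (tgt_end (fun a : Vx Ω × Ω => R.β a.1) _ k2 le_rfl) ?_
    rw [e2] at h2
    obtain ⟨b, hb, -⟩ := wk_append.1 h2
    obtain rfl : b = m' := (hb.mono fun _ _ _ d => d.1).func F (k2'.rev F)
    exact tgt_end (fun a : Vx Ω × Ω => R.β a.1) _ hb le_rfl
  have nm' := ns_walk hs hR hG nq k1'
  have l3 : v2.length ≤ ℓ m'.2 := by
    by_cases hne : v2 = []
    · simp [hne]
    obtain ⟨s, y, y', a1, a2, -, a4, a5, -, a7⟩ := flat hs hR hG nm' hr2.right'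
      (k2.mono fun _ _ _ d => ⟨d.1, hmm ▸ d.2⟩) hmm hne
    exact (ns_piece hs nm' a1 a2 a4 a5 hr2.right' (pd_xd k2') a7).1
  have e3 := ell_walk hs (pd_xd hw)
  have e4 := ell_walk hs (pd_xd k1')
  have e5 := congrArg List.length e
  simp [invRev_length] at e5 ⊢
  omega

theorem closed_path (n : ℕ) : ∀ {w : List (S × Bool)} {p q : Vx Ω × Ω}, w.length ≤ n →
    ¬ R.Sat nxt T p → Rd w → Wk (R.PD nxt T) p w q → q.1 = p.1 → w = [] := by
  have F := fold_pd hs hR hG
  induction n with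
  | zero => intro w _ _ hl _ _ _ _; exact List.length_eq_zero_iff.1 (Nat.le_zero.1 hl)
  | succ n ih =>
    intro w p q hl ns hr hw e
    obtain ⟨w1, w2, m, rfl, h1, h2⟩ := min_split (fun a : Vx Ω × Ω => R.β a.1) hw
    have h1' : Wk (R.PD nxt T) p w1 m := h1.mono fun _ _ _ d => d.1
    have h2' : Wk (R.PD nxt T) m w2 q := h2.mono fun _ _ _ d => d.1
    by_cases hne : w1 = []
    · subst hne
      obtain rfl := wk_nil.1 h1
      by_contra hne
      obtain ⟨s, y, y', a1, a2, -, a4, a5, a6, a7⟩ := flat hs hR hG ns hr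
        (h2.mono fun _ _ _ d => ⟨d.1, e ▸ d.2⟩) (by rw [e]) hne
      obtain rfl : y = y' := cell_inj hR a2 (hG _ a1 a2) (by rw [a5, a6, e])
      have := (ns_piece hs ns a1 a2 a4 a5 hr (pd_xd hw) a7).2
      exact hne (closed_nil hs a7 hr (by omega))
    · exfalso
      have hlt := src_lt (fun a : Vx Ω × Ω => R.β a.1) _ h1 hne
      obtain ⟨σ, a, b, p', r1, c1, rfl, c3, c4, c5, c6, -, c8⟩ := split_two hs hR hG hG ns hr.left'
        h1' hlt (ns_walk hs hR hG ns hw) (isReduced_invRev hr.right') (h2'.rev F) (e ▸ hlt) e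
      have e2 : w2 = invRev b ++ invRev σ := by rw [← invRev_append, ← c3, invRev_invRev]
      subst e2
      have hσ : 0 < σ.length := List.length_pos_iff.2 c1
      have hr' : Rd (σ ++ ((a ++ invRev b) ++ invRev σ)) := by simpa using hr
      have : a ++ invRev b = [] := ih (by simp [invRev_length] at hl ⊢; omega)
        (ns_walk hs hR hG ns c5) hr'.right'.left' (c6.append (c8.rev F)) c4
      rw [this, List.nil_append] at hr'
      obtain ⟨σ', l, rfl⟩ := List.eq_nil_or_concat' σ |>.resolve_left c1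
      rw [invRev_snoc] at hr'
      exact (isReduced_append.1 hr').2.2 l (by simp) (iv l) (by simp) rfl

end Raw

theorem stGK : St_GK := by
  intro S Ω nxt ℓ x0 R hs hR
  suffices h : ∀ T t, R.tm t = T → R.Ex t → R.Good nxt ℓ t from fun t => h _ t rfl
  intro T
  induction T using WellFoundedLT.induction with
  | ind T ih =>
    rintro t rfl ht
    have hG : Raw.GB nxt ℓ R (R.tm t) := fun s h1 h2 => ih _ h1 s rfl h2
    have F := Raw.fold_pd hs hR hG
    have hgen : ∀ a, R.Rch nxt t a → t.1.gen ≤ a.1.gen ∧ a.1.gen ≤ t.1.gen + 1 := by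
      intro a ha
      have al := ha.alive hR ht
      refine ⟨?_, R.gen_le_of_lt_tm (al.beta_lt hR)⟩
      by_contra hc
      have hlt : R.tm a < R.tm t := Prod.Lex.toLex_lt_toLex.2 (Or.inl (by simp; omega))
      refine Raw.ns_rch hs hR hG ht ha ?_
      by_cases hsat : R.Sat nxt (R.tm a) a
      · exact hsat.mono hlt.le
      · have al' : R.Alive nxt (R.tm a) a.1 := by
          rcases Raw.owner hR al with h | ⟨s, y, -, h2, h3, -, h5, h6⟩
          · exact Or.inl h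
          · refine Or.inr ⟨s, y, ?_, h2, h3, h5⟩
            rw [← h6]
            exact R.beta_lt_of_gen (v := .node a.1 a.2 a.2) (by simp [Vx.gen])
        have ea := (hR.ex_iff a).2 ⟨al', hsat⟩
        exact ⟨a, hlt, ea, Cp.refl _, Raw.phi_root (hG a hlt ea)⟩
    have len : ∀ p q w, R.Rch nxt t p → Wk (R.PD nxt (R.tm t)) p w q → Rd w →
        w.length ≤ 5 * ℓ t.2 := by
      intro p q w hp hw hr
      rw [← hp.cp.ell hs]
      exact Raw.five hs hR hG _ (Raw.ns_rch hs hR hG ht hp) hr hw fun a v ha => hgen a (hp.walk ha)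
    have join : ∀ p q, R.Rch nxt t p → R.Rch nxt t q → ∃ w, Rd w ∧ Wk (R.PD nxt (R.tm t)) p w q := by
      rintro p q ⟨a, ha⟩ ⟨b, hb⟩
      obtain ⟨w, hw, h1, -, -⟩ := ((ha.rev F).append hb).exists_reduced F
      exact ⟨w, hw, h1⟩
    refine ⟨fun u y h => ?_, fun u y y' h h' => ?_, len⟩
    · obtain ⟨w, hw, h1⟩ := join _ _ (hR.phi_in t y ⟨u, h⟩) h
      have l := len _ _ w (hR.phi_in t y ⟨u, h⟩) h1 hw
      have e := h.cp.ell hs
      obtain rfl := closed_nil (y := y) hs (Raw.pd_xd h1) hw (by simp only at e; omega)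
      exact congrArg Prod.fst (wk_nil.1 h1)
    · obtain ⟨w, hw, h1⟩ := join _ _ h h'
      obtain rfl := Raw.closed_path hs hR hG _ le_rfl (Raw.ns_rch hs hR hG ht h) hw h1 rfl
      exact congrArg Prod.snd (wk_nil.1 h1)

end Pool.Agent.Lib.IT.Geo
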