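import Pool.Agent.Lib.IT.Geo1

/-! GEO, the model built from a good gluing system. -/

namespace Pool.Agent.Lib.IT.Geo

open Pool.Agent.Lib.MP_f40e16_al FreeGroup Raw

namespace GM

variable {S Ω : Type} {nxt : Ω → S × Bool → Option Ω} {ℓ : Ω → ℕ} {x0 : Ω} {R : Raw Ω}

theorem val_append (w w' : List (S × Bool)) : val nxt (w ++ w') = val nxt w * val nxt w' := by
  unfold val; rw [mk_append, _root_.map_mul]

theorem val_eq (hs : Small nxt ℓ) {x y : Ω} {w w' : List (S × Bool)} (h : Wk (XD nxt) x w y)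
    (h' : Wk (XD nxt) x w' y) : val nxt w = val nxt w' := by
  have h1 := (wk_iff_rd nxt _ _ _).1 (h.append (h'.rev (fold_xd hs)))
  have h2 : PresentedGroup.mk (rels nxt) (FreeGroup.mk (w ++ invRev w')) = 1 :=
    PresentedGroup.one_of_mem ⟨x, _, h1, rfl⟩
  rw [mk_append, mk_invRev, _root_.map_mul, _root_.map_inv] at h2
  exact mul_inv_eq_one.1 h2

open scoped Classical in
/-- the map to the group -/
noncomputable def psi (nxt : Ω → S × Bool → Option Ω) : Vx Ω → Gam nxt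
  | .root => 1
  | .node v x y => psi nxt v * if h : Cp nxt x y then val nxt h.choose else 1

theorem psi_cell (hs : Small nxt ℓ) (hR : R.Sys nxt x0) (s : Vx Ω × Ω) {y : Ω}
    {w : List (S × Bool)} (h : Wk (XD nxt) s.2 w y) :
    psi nxt (R.φ s y) = psi nxt s.1 * val nxt w := by
  induction hT : R.tm s using WellFoundedLT.induction generalizing s y w with
  | ind T ih =>
    subst hT
    by_cases hi : R.In nxt s y
    · obtain ⟨v, hv⟩ := hR.phi_in s y hi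
      have key : ∀ {p q : Vx Ω × Ω} {v : List (S × Bool)}, Wk (R.PD nxt (R.tm s)) p v q →
          psi nxt q.1 = psi nxt p.1 * val nxt v := by
        intro p q v hv
        induction hv with
        | nil => simp [val, mk_nil]
        | @cons a b c l v h1 _ ih' =>
          obtain ⟨s', y', z', k1, -, ⟨u, hu⟩, k4, k5, k6⟩ := h1.1
          rw [ih', ← k5, ← k6, ih _ k1 s' hu rfl, ih _ k1 s' (hu.snoc k4) rfl, val_append,
            show l :: v = [l] ++ v from rfl, val_append]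
          simp only [mul_assoc]
      rw [key hv, val_eq hs (pd_xd hv) h]
    · have hc : Cp nxt s.2 y := ⟨w, h⟩
      rw [hR.phi_out s y hi, psi, dif_pos hc, val_eq hs hc.choose_spec h]

theorem first (hR : R.Sys nxt x0) (s : Vx Ω × Ω) : R.tm (.root, x0) ≤ R.tm s := by
  unfold Raw.tm
  rw [hR.cd_zero]
  exact Prod.Lex.toLex_mono ⟨by simp [Vx.gen], Nat.zero_le _⟩

theorem ex_root (hR : R.Sys nxt x0) : R.Ex (.root, x0) :=
  (hR.ex_iff _).2 ⟨Or.inl rfl, fun ⟨s, h, _⟩ => (first hR s).not_gt h⟩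

theorem alive_phi {s : Vx Ω × Ω} (h : R.Ex s) {y : Ω} (hc : Cp nxt s.2 y) :
    ∃ T, R.Alive nxt T (R.φ s y) :=
  (exists_gt (R.tm s)).imp fun _ hT => Or.inr ⟨s, y, hT, h, hc, rfl⟩

open scoped Classical in
/-- the map of a cell to the living vertices -/
noncomputable def io (nxt : Ω → S × Bool → Option Ω) (R : Raw Ω) (s : {s // R.Ex s}) (y : Ω) :
    {u // ∃ T, R.Alive nxt T u} :=
  if h : Cp nxt s.1.2 y then ⟨R.φ s.1 y, alive_phi s.2 h⟩ else ⟨.root, toLex (0, 0), Or.inl rfl⟩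

theorem io_val {s : {s // R.Ex s}} {y : Ω} (h : Cp nxt s.1.2 y) : (io nxt R s y).1 = R.φ s.1 y := by
  rw [io, dif_pos h]

theorem io_eq {s s' : {s // R.Ex s}} {y y' : Ω} (h : Cp nxt s.1.2 y) (h' : Cp nxt s'.1.2 y') :
    io nxt R s y = io nxt R s' y' ↔ R.φ s.1 y = R.φ s'.1 y' := by
  rw [Subtype.ext_iff, io_val h, io_val h']

theorem uniq_lt (hs : Small nxt ℓ) (hR : R.Sys nxt x0) (hG : ∀ t, R.Ex t → R.Good nxt ℓ t)
    {s s' : Vx Ω × Ω} {y : Ω} (e : R.Ex s) (e' : R.Ex s') (h : Cp nxt s.2 y)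
    (h1 : R.φ s y = R.φ s' y) : ¬ R.tm s < R.tm s' := fun h2 => by
  have hi : R.In nxt s' y := by
    rw [← beta_lt_iff hR e', ← h1]; exact (beta_le hR e y).trans_lt h2
  exact ns_rch hs hR (fun t _ => hG t) e' (hR.phi_in s' y hi) ⟨s, h2, e, h, h1⟩

theorem conn (hR : R.Sys nxt x0) (hG : ∀ t, R.Ex t → R.Good nxt ℓ t) (u : Vx Ω)
    (hu : ∃ T, R.Alive nxt T u) : ∃ w, Wk (fun a l b => ∃ s y z, Cp nxt s.1.2 y ∧ XD nxt y l z ∧
      io nxt R s y = a ∧ io nxt R s z = b) ⟨.root, toLex (0, 0), Or.inl rfl⟩ w ⟨u, hu⟩ := by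
  induction u with
  | root => exact ⟨[], Wk.nil _⟩
  | node v x y ih =>
    obtain ⟨T, hT⟩ := hu
    rcases owner hR hT with h | ⟨s, y', -, h2, h3, h4, h5, -⟩
    · cases h
    rw [hR.phi_out s y' h4] at h5
    obtain ⟨rfl, rfl, rfl⟩ := Vx.node.inj h5
    obtain ⟨w, hw⟩ := ih ⟨_, ((hR.ex_iff s).1 h2).1⟩
    have key : ∀ {a b : Ω} {v : List (S × Bool)}, Wk (XD nxt) a v b → Cp nxt s.2 a →
        Wk (fun a l b => ∃ s y z, Cp nxt s.1.2 y ∧ XD nxt y l z ∧ io nxt R s y = a ∧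
          io nxt R s z = b) (io nxt R ⟨s, h2⟩ a) v (io nxt R ⟨s, h2⟩ b) := by
      intro a b v hv ha
      induction hv with
      | nil => exact Wk.nil _
      | cons d _ ih' => exact Wk.cons ⟨⟨s, h2⟩, _, _, ha, d, rfl, rfl⟩ (ih' (ha.step d))
    obtain ⟨v, hv⟩ := id h3
    have h6 := key hv (Cp.refl _)
    have h7 : io nxt R ⟨s, h2⟩ s.2 = ⟨s.1, _, ((hR.ex_iff s).1 h2).1⟩ :=
      Subtype.ext ((io_val (s := ⟨s, h2⟩) (Cp.refl _)).trans (phi_root (hG s h2)))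
    have h8 : io nxt R ⟨s, h2⟩ y' = ⟨.node s.1 s.2 y', T, hT⟩ :=
      Subtype.ext ((io_val (s := ⟨s, h2⟩) h3).trans (hR.phi_out s y' h4))
    rw [h7, h8] at h6
    exact ⟨_, hw.append h6⟩

end GM

open GM in
theorem stGM : St_GM := by
  intro S Ω nxt ℓ x0 R hs hR hG
  have hB : ∀ T, GB nxt ℓ R T := fun T t _ => hG t
  refine ⟨{
    Z := {u // ∃ T, R.Alive nxt T u}
    o := ⟨.root, toLex (0, 0), Or.inl rfl⟩
    T := {s // R.Ex s}
    tm := fun s => R.tm s.1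
    bx := fun s => s.1.2
    ι := io nxt R
    ψ := fun u => psi nxt u.1
    t0 := ⟨_, ex_root hR⟩
    tm_inj := fun s t h => Subtype.ext (tm_inj hR h)
    inj := fun s y y' h h' e => cell_inj hR s.2 (hG _ s.2) ((io_eq h h').1 e)
    fold := fun s s' y y' l z z' h h' e d d' => ?_
    uniq := fun s s' y h h' e => ?_
    compl := fun u x => ?_
    first := fun s => first hR s.1
    root := ⟨Cp.refl _, Subtype.ext ((io_val (s := ⟨_, ex_root hR⟩) (Cp.refl _)).trans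
      (phi_root (hG _ (ex_root hR))))⟩
    psi_o := rfl
    psi_step := fun s y l z h d => ?_
    conn := fun u => conn hR hG u.1 u.2
    Gt := fun s y => R.In nxt s.1 y ∧ s.1 ≠ (.root, x0)
    gt_iff := fun s y h => ⟨fun hi => ?_, ?_⟩
    old := fun s y l z h d hy hz => ?_
    one := fun s y l l' z z' h hy d d' hz hz' => ?_
    diam := fun s y z _ _ hy hz => ?_ }⟩
  · obtain ⟨T, hT⟩ := exists_gt (max (R.tm s.1) (R.tm s'.1))
    rw [io_eq h h'] at e
    exact (io_eq (h.step d) (h'.step d')).2 ((fold_dart hs hR (hB T)).func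
      ⟨s.1, y, z, (le_max_left _ _).trans_lt hT, s.2, h, d, rfl, rfl⟩
      ⟨s'.1, y', z', (le_max_right _ _).trans_lt hT, s'.2, h', d', e.symm, rfl⟩)
  · rw [io_eq h h'] at e
    exact Subtype.ext (tm_inj hR (le_antisymm (not_lt.1 (uniq_lt hs hR hG s'.2 s.2 h' e.symm))
      (not_lt.1 (uniq_lt hs hR hG s.2 s'.2 h e))))
  · obtain ⟨u, T, hT⟩ := u
    by_cases h : R.Sat nxt (R.tm (u, x)) (u, x)
    · obtain ⟨s, -, h2, h3, h4⟩ := h
      exact ⟨⟨s, h2⟩, h3, Subtype.ext ((io_val (s := ⟨s, h2⟩) h3).trans h4)⟩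
    · have h1 : R.Ex (u, x) := by
        refine (hR.ex_iff _).2 ⟨?_, h⟩
        rcases owner hR hT with h2 | ⟨s, y, -, h2, h3, -, h5, h6⟩
        · exact Or.inl h2
        · exact Or.inr ⟨s, y, h6 ▸ R.beta_lt_of_gen (u := u) (v := .node u x x) (Nat.lt_succ_self _),
            h2, h3, h5⟩
      exact ⟨⟨_, h1⟩, Cp.refl _, Subtype.ext ((io_val (s := ⟨_, h1⟩) (Cp.refl _)).trans
        (phi_root (hG _ h1)))⟩
  · obtain ⟨w, hw⟩ := id h
    simp only [io_val h, io_val (h.step d)]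
    rw [psi_cell hs hR s.1 hw, psi_cell hs hR s.1 (hw.snoc d), val_append, mul_assoc]
  · rcases (hR.phi_in _ y hi.1).alive hR s.2 with h1 | ⟨s', y', h1, h2, h3, h4⟩
    · exact ⟨⟨_, ex_root hR⟩, x0, (first hR _).lt_of_ne fun e => hi.2 (tm_inj hR e).symm, Cp.refl _,
        (io_eq (s := ⟨_, ex_root hR⟩) (Cp.refl _) h).2
          ((phi_root (hG _ (ex_root hR))).trans h1.symm)⟩
    · exact ⟨⟨s', h2⟩, y', h1, h3, (io_eq (s := ⟨s', h2⟩) h3 h).2 h4⟩
  · rintro ⟨s', y', h1, h2, h3⟩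
    rw [io_eq h2 h] at h3
    refine ⟨?_, fun e => (first hR s'.1).not_gt (e ▸ h1)⟩
    rw [← beta_lt_iff hR s.2, ← h3]
    exact (beta_le hR s'.2 y').trans_lt h1
  · obtain ⟨s', y', z', h1, h2, h3, h4, h5, -⟩ := gate_dart hs hR (hB _) (hG _ s.2) hy.1 hz.1 d
    exact ⟨⟨s', h2⟩, y', z', h1, h3, h4, (io_eq (s := ⟨s', h2⟩) h3 h).2 h5⟩
  · have h1 : ¬ R.In nxt s.1 y := fun h1 => hy ⟨h1, hz.2⟩
    have := desc_uniq hs hR (hB _) (hG _ s.2) (Desc.last d h1 hz.1) (Desc.last d' h1 hz'.1)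
      IsReduced.singleton IsReduced.singleton (hs.one_le y) (hs.one_le y)
    simpa using this
  · obtain ⟨w, -, h1, h2⟩ := gate_word hs hR (hB _) (hG _ s.2) hy.1 hz.1
    exact ⟨w, h1, pd_xd h2⟩

end Pool.Agent.Lib.IT.Geo
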