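import Pool.Agent.Lib.IT.Blue
import Pool.Agent.Lib.MP_f40e16_al.Walk

/-! GEO, definitions: the gluing system, its invariant, the abstract model. -/

namespace Pool.Agent.Lib.IT.Geo

open Pool.Agent.Lib.MP_f40e16_al (Wk Fold iv Rd)

variable {S Ω : Type}

/-- darts of the labelled graph -/
def XD (nxt : Ω → S × Bool → Option Ω) (x : Ω) (l : S × Bool) (y : Ω) : Prop := nxt x l = some y

/-- same component -/
def Cp (nxt : Ω → S × Bool → Option Ω) (x y : Ω) : Prop := ∃ w, Wk (XD nxt) x w y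

theorem wk_iff_rd (nxt : Ω → S × Bool → Option Ω) (w : List (S × Bool)) (x y : Ω) :
    Wk (XD nxt) x w y ↔ rd nxt x w = some y := by
  induction w generalizing x with
  | nil => simp [rd]
  | cons l w ih =>
    rw [MP_f40e16_al.wk_cons]
    simp only [rd, XD, Option.bind_eq_some_iff, ih]

/-- names of vertices -/
inductive Vx (Ω : Type) : Type
  | root : Vx Ω
  | node (v : Vx Ω) (x y : Ω) : Vx Ω

/-- generation -/
def Vx.gen : Vx Ω → ℕ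
  | .root => 0
  | .node v _ _ => v.gen + 1

/-- raw data of a gluing process: tie-breaking code, executed tasks, their maps -/
structure Raw (Ω : Type) where
  cd : Vx Ω × Ω → ℕ
  Ex : Vx Ω × Ω → Prop
  φ : Vx Ω × Ω → Ω → Vx Ω

namespace Raw
variable (nxt : Ω → S × Bool → Option Ω) (R : Raw Ω)

/-- time of a task -/
def tm (t : Vx Ω × Ω) : ℕ ×ₗ ℕ := toLex (t.1.gen + 1, R.cd t)

/-- birth time of a vertex -/
def β : Vx Ω → ℕ ×ₗ ℕ
  | .root => toLex (0, 0)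
  | .node v x _ => R.tm (v, x)

/-- darts present before time `T` -/
def Dart (T : ℕ ×ₗ ℕ) (u : Vx Ω) (l : S × Bool) (u' : Vx Ω) : Prop :=
  ∃ s y y', R.tm s < T ∧ R.Ex s ∧ Cp nxt s.2 y ∧ XD nxt y l y' ∧ R.φ s y = u ∧ R.φ s y' = u'

/-- vertices present before time `T` -/
def Alive (T : ℕ ×ₗ ℕ) (u : Vx Ω) : Prop :=
  u = .root ∨ ∃ s y, R.tm s < T ∧ R.Ex s ∧ Cp nxt s.2 y ∧ R.φ s y = u

/-- a copy placing `x` at `u` is present before time `T` -/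
def Sat (T : ℕ ×ₗ ℕ) (p : Vx Ω × Ω) : Prop :=
  ∃ s, R.tm s < T ∧ R.Ex s ∧ Cp nxt s.2 p.2 ∧ R.φ s p.2 = p.1

/-- darts of the fibre product -/
def PD (T : ℕ ×ₗ ℕ) (p : Vx Ω × Ω) (l : S × Bool) (q : Vx Ω × Ω) : Prop :=
  R.Dart nxt T p.1 l q.1 ∧ XD nxt p.2 l q.2

/-- the component of the task in the fibre product at its time -/
def Rch (t p : Vx Ω × Ω) : Prop := ∃ w, Wk (R.PD nxt (R.tm t)) t w p

/-- the gate of a task -/
def In (t : Vx Ω × Ω) (y : Ω) : Prop := ∃ u, R.Rch nxt t (u, y)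

/-- the recursion equations -/
structure Sys (x0 : Ω) : Prop where
  cd_inj : Function.Injective R.cd
  cd_zero : R.cd (.root, x0) = 0
  ex_iff : ∀ t, R.Ex t ↔ R.Alive nxt (R.tm t) t.1 ∧ ¬ R.Sat nxt (R.tm t) t
  phi_in : ∀ t y, R.In nxt t y → R.Rch nxt t (R.φ t y, y)
  phi_out : ∀ t y, ¬ R.In nxt t y → R.φ t y = .node t.1 t.2 y

/-- the invariant of an executed task -/
structure Good (ℓ : Ω → ℕ) (t : Vx Ω × Ω) : Prop where
  func : ∀ u y, R.Rch nxt t (u, y) → R.φ t y = u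
  inj : ∀ u y y', R.Rch nxt t (u, y) → R.Rch nxt t (u, y') → y = y'
  len : ∀ p q w, R.Rch nxt t p → Wk (R.PD nxt (R.tm t)) p w q → Rd w → w.length ≤ 5 * ℓ t.2

end Raw

/-- the abstract model of the Cayley graph -/
structure Model (nxt : Ω → S × Bool → Option Ω) (ℓ : Ω → ℕ) (x0 : Ω) where
  Z : Type
  o : Z
  T : Type
  tm : T → ℕ ×ₗ ℕ
  bx : T → Ω
  ι : T → Ω → Z
  ψ : Z → Gam nxt
  t0 : T
  tm_inj : Function.Injective tm
  inj : ∀ s y y', Cp nxt (bx s) y → Cp nxt (bx s) y' → ι s y = ι s y' → y = y'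
  fold : ∀ s s' y y' l z z', Cp nxt (bx s) y → Cp nxt (bx s') y' → ι s y = ι s' y' →
    XD nxt y l z → XD nxt y' l z' → ι s z = ι s' z'
  uniq : ∀ s s' y, Cp nxt (bx s) y → Cp nxt (bx s') y → ι s y = ι s' y → s = s'
  compl : ∀ u x, ∃ s, Cp nxt (bx s) x ∧ ι s x = u
  first : ∀ s, tm t0 ≤ tm s
  root : Cp nxt (bx t0) x0 ∧ ι t0 x0 = o
  psi_o : ψ o = 1
  psi_step : ∀ s y l z, Cp nxt (bx s) y → XD nxt y l z → ψ (ι s z) = ψ (ι s y) * val nxt [l]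
  conn : ∀ u, ∃ w, Wk (fun a l b => ∃ s y z, Cp nxt (bx s) y ∧ XD nxt y l z ∧ ι s y = a ∧ ι s z = b)
    o w u
  Gt : T → Ω → Prop
  gt_iff : ∀ s y, Cp nxt (bx s) y →
    (Gt s y ↔ ∃ s' y', tm s' < tm s ∧ Cp nxt (bx s') y' ∧ ι s' y' = ι s y)
  old : ∀ s y l z, Cp nxt (bx s) y → XD nxt y l z → Gt s y → Gt s z →
    ∃ s' y' z', tm s' < tm s ∧ Cp nxt (bx s') y' ∧ XD nxt y' l z' ∧ ι s' y' = ι s y
  one : ∀ s y l l' z z', Cp nxt (bx s) y → ¬ Gt s y → XD nxt y l z → XD nxt y l' z' →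
    Gt s z → Gt s z' → l = l'
  diam : ∀ s y z, Cp nxt (bx s) y → Cp nxt (bx s) z → Gt s y → Gt s z →
    ∃ w, w.length ≤ 5 * ℓ y ∧ Wk (XD nxt) y w z

/-- GEO0: the recursion has a solution -/
def St_G0 : Prop := ∀ (S Ω : Type) [Countable Ω] (nxt : Ω → S × Bool → Option Ω) (x0 : Ω),
  ∃ R : Raw Ω, R.Sys nxt x0

/-- GEOK: every executed task is good -/
def St_GK : Prop := ∀ (S Ω : Type) (nxt : Ω → S × Bool → Option Ω) (ℓ : Ω → ℕ) (x0 : Ω)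
  (R : Raw Ω), Small nxt ℓ → R.Sys nxt x0 → ∀ t, R.Ex t → R.Good nxt ℓ t

/-- GEOM: the model -/
def St_GM : Prop := ∀ (S Ω : Type) (nxt : Ω → S × Bool → Option Ω) (ℓ : Ω → ℕ) (x0 : Ω)
  (R : Raw Ω), Small nxt ℓ → R.Sys nxt x0 → (∀ t, R.Ex t → R.Good nxt ℓ t) →
  Nonempty (Model nxt ℓ x0)

/-- GEO3: transfer to the group -/
def St_G3 : Prop := ∀ (S Ω : Type) (nxt : Ω → S × Bool → Option Ω) (ℓ : Ω → ℕ) (x0 : Ω),
  Small nxt ℓ → Model nxt ℓ x0 → ∃ τ, Order nxt ℓ x0 τ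

theorem geo_of (h0 : St_G0) (hK : St_GK) (hM : St_GM) (h3 : St_G3) : St_GEO := by
  intro S Ω _ nxt ℓ hs x0
  obtain ⟨R, hR⟩ := h0 S Ω nxt x0
  obtain ⟨M⟩ := hM S Ω nxt ℓ x0 R hs hR (hK S Ω nxt ℓ x0 R hs hR)
  exact h3 S Ω nxt ℓ x0 hs M

end Pool.Agent.Lib.IT.Geo

theorem Pool.Agent.Lib.IT.Geo0.rlz0 : True := by
  have := @Pool.Agent.Lib.IT.Geo.Vx.gen.eq_def
  trivial
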