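import Pool.Agent.Lib.IT.Geo0

/-! GEO, basic lemmas about a gluing system. -/

namespace Pool.Agent.Lib.IT.Geo

open Pool.Agent.Lib.MP_f40e16_al FreeGroup

variable {S Ω : Type} {nxt : Ω → S × Bool → Option Ω} {ℓ : Ω → ℕ} {x0 : Ω} {R : Raw Ω}

theorem fold_xd (hs : Small nxt ℓ) : Fold (XD nxt) where
  symm := fun {a b l} h => hs.symm a b l.1 l.2 h
  func := fun {a b c l} h h' => by
    unfold XD at h h'; rw [h] at h'; exact Option.some.inj h'

theorem Cp.refl (x : Ω) : Cp nxt x x := ⟨[], Wk.nil _⟩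

theorem Cp.walk {x y z : Ω} {w : List (S × Bool)} (h : Cp nxt x y) (h' : Wk (XD nxt) y w z) :
    Cp nxt x z := by
  obtain ⟨v, hv⟩ := h; exact ⟨_, hv.append h'⟩

theorem Cp.step {x y z : Ω} {l : S × Bool} (h : Cp nxt x y) (h' : XD nxt y l z) : Cp nxt x z :=
  h.walk (Wk.cons h' (Wk.nil _))

theorem ell_walk (hs : Small nxt ℓ) {x y : Ω} {w : List (S × Bool)} (h : Wk (XD nxt) x w y) :
    ℓ y = ℓ x := by
  induction h with
  | nil => rfl
  | cons h1 _ ih => rw [ih, hs.lconst _ _ _ h1]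

theorem Cp.ell (hs : Small nxt ℓ) {x y : Ω} (h : Cp nxt x y) : ℓ y = ℓ x := by
  obtain ⟨w, hw⟩ := h; exact ell_walk hs hw

theorem closed_nil (hs : Small nxt ℓ) {y : Ω} {w : List (S × Bool)} (h : Wk (XD nxt) y w y)
    (hr : Rd w) (hl : w.length ≤ 7 * ℓ y) : w = [] := by
  by_contra hne
  have := hs.girth y w hr hne ((wk_iff_rd nxt w y y).1 h)
  omega

/-- two short reduced walks with the same ends are equal -/
theorem uniq_word (hs : Small nxt ℓ) {y z : Ω} {w w' : List (S × Bool)} (h : Wk (XD nxt) y w z)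
    (h' : Wk (XD nxt) y w' z) (hr : Rd w) (hr' : Rd w') (hl : w.length + w'.length ≤ 7 * ℓ y) :
    w = w' := by
  obtain ⟨v, hv, h1, h2, e⟩ := (h.append (h'.rev (fold_xd hs))).exists_reduced (fold_xd hs)
  have : v = [] := closed_nil hs h1 hv (by simp [invRev_length] at h2; omega)
  subst this
  rw [mk_append, mk_invRev, mk_nil] at e
  exact reduced_eq hr hr' (mul_inv_eq_one.1 e.symm)

theorem piece_le (hs : Small nxt ℓ) {x y x' y' : Ω} {w : List (S × Bool)} (hne : x ≠ y) (hr : Rd w)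
    (h : Wk (XD nxt) x w x') (h' : Wk (XD nxt) y w y') : w.length ≤ ℓ x ∧ w.length ≤ ℓ y := by
  rw [wk_iff_rd] at h h'
  exact ⟨hs.piece x y w hne hr (by simp [h]) (by simp [h']),
    hs.piece y x w hne.symm hr (by simp [h']) (by simp [h])⟩

namespace Raw

/-- all tasks executed before `T` are good -/
def GB (nxt : Ω → S × Bool → Option Ω) (ℓ : Ω → ℕ) (R : Raw Ω) (T : ℕ ×ₗ ℕ) : Prop :=
  ∀ s, R.tm s < T → R.Ex s → R.Good nxt ℓ s

theorem GB.mono {T T' : ℕ ×ₗ ℕ} (h : GB nxt ℓ R T) (hT : T' ≤ T) : GB nxt ℓ R T' :=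
  fun s hs => h s (hs.trans_le hT)

theorem tm_inj (hR : R.Sys nxt x0) : Function.Injective R.tm := fun s t h =>
  hR.cd_inj (congrArg (fun a => (ofLex a).2) h)

theorem gen_eq (u : Vx Ω) : (ofLex (R.β u)).1 = u.gen := by cases u <;> rfl

theorem root_lt (t : Vx Ω × Ω) : R.β .root < R.tm t := Prod.Lex.toLex_lt_toLex.2 (Or.inl (by simp))

theorem beta_lt_of_gen {u v : Vx Ω} (h : u.gen < v.gen) : R.β u < R.β v := by
  rw [← R.gen_eq u, ← R.gen_eq v] at h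
  exact Prod.Lex.lt_iff.2 (Or.inl h)

theorem gen_le_of_beta {u v : Vx Ω} (h : R.β u ≤ R.β v) : u.gen ≤ v.gen := by
  by_contra hc
  exact absurd (R.beta_lt_of_gen (not_le.1 hc)) (not_lt.2 h)

theorem gen_le_of_lt_tm {u : Vx Ω} {t : Vx Ω × Ω} (h : R.β u < R.tm t) : u.gen ≤ t.1.gen + 1 :=
  R.gen_le_of_beta (v := .node t.1 t.2 t.2) h.le

theorem Dart.mono {T T' : ℕ ×ₗ ℕ} (hT : T ≤ T') {u u' : Vx Ω} {l : S × Bool}
    (h : R.Dart nxt T u l u') : R.Dart nxt T' u l u' := by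
  obtain ⟨s, y, y', h1, h2⟩ := h; exact ⟨s, y, y', h1.trans_le hT, h2⟩

theorem Alive.mono {T T' : ℕ ×ₗ ℕ} (hT : T ≤ T') {u : Vx Ω} (h : R.Alive nxt T u) :
    R.Alive nxt T' u := by
  rcases h with h | ⟨s, y, h1, h2⟩
  · exact Or.inl h
  · exact Or.inr ⟨s, y, h1.trans_le hT, h2⟩

theorem Sat.mono {T T' : ℕ ×ₗ ℕ} (hT : T ≤ T') {p : Vx Ω × Ω} (h : R.Sat nxt T p) :
    R.Sat nxt T' p := by
  obtain ⟨s, h1, h2⟩ := h; exact ⟨s, h1.trans_le hT, h2⟩

theorem Dart.left {T : ℕ ×ₗ ℕ} {u u' : Vx Ω} {l : S × Bool} (h : R.Dart nxt T u l u') :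
    R.Alive nxt T u := by
  obtain ⟨s, y, y', h1, h2, h3, _, h5, _⟩ := h; exact Or.inr ⟨s, y, h1, h2, h3, h5⟩

theorem Dart.right {T : ℕ ×ₗ ℕ} {u u' : Vx Ω} {l : S × Bool} (h : R.Dart nxt T u l u') :
    R.Alive nxt T u' := by
  obtain ⟨s, y, y', h1, h2, h3, h4, _, h6⟩ := h; exact Or.inr ⟨s, y', h1, h2, h3.step h4, h6⟩

theorem Dart.symm (hs : Small nxt ℓ) {T : ℕ ×ₗ ℕ} {u u' : Vx Ω} {l : S × Bool}
    (h : R.Dart nxt T u l u') : R.Dart nxt T u' (iv l) u := by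
  obtain ⟨s, y, y', h1, h2, h3, h4, h5, h6⟩ := h
  exact ⟨s, y', y, h1, h2, h3.step h4, (fold_xd hs).symm h4, h6, h5⟩

theorem pd_xd {T : ℕ ×ₗ ℕ} {p q : Vx Ω × Ω} {w : List (S × Bool)} (h : Wk (R.PD nxt T) p w q) :
    Wk (XD nxt) p.2 w q.2 := h.map Prod.snd fun _ _ _ h => h.2

theorem Rch.refl (t : Vx Ω × Ω) : R.Rch nxt t t := ⟨[], Wk.nil _⟩

theorem Rch.walk {t p q : Vx Ω × Ω} {w : List (S × Bool)} (h : R.Rch nxt t p)
    (h' : Wk (R.PD nxt (R.tm t)) p w q) : R.Rch nxt t q := by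
  obtain ⟨v, hv⟩ := h; exact ⟨_, hv.append h'⟩

theorem Rch.cp {t p : Vx Ω × Ω} (h : R.Rch nxt t p) : Cp nxt t.2 p.2 := by
  obtain ⟨v, hv⟩ := h; exact ⟨v, pd_xd hv⟩

theorem Rch.alive (hR : R.Sys nxt x0) {t p : Vx Ω × Ω} (ht : R.Ex t) (h : R.Rch nxt t p) :
    R.Alive nxt (R.tm t) p.1 := by
  obtain ⟨v, hv⟩ := h
  exact hv.ind_end (fun a => R.Alive nxt (R.tm t) a.1) (fun _ _ _ _ h => h.1.right)
    ((hR.ex_iff t).1 ht).1

/-- every living vertex but the root has an owner -/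
theorem owner (hR : R.Sys nxt x0) {T : ℕ ×ₗ ℕ} {u : Vx Ω} (h : R.Alive nxt T u) :
    u = .root ∨ ∃ s y, R.tm s < T ∧ R.Ex s ∧ Cp nxt s.2 y ∧ ¬ R.In nxt s y ∧ R.φ s y = u ∧
      R.β u = R.tm s := by
  induction T using WellFoundedLT.induction generalizing u with
  | ind T ih =>
    rcases h with h | ⟨s, y, h1, h2, h3, h4⟩
    · exact Or.inl h
    · by_cases hi : R.In nxt s y
      · have := ih _ h1 ((hR.phi_in s y hi).alive hR h2)
        simp only [h4] at this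
        rcases this with h | ⟨s', y', a1, a2⟩
        · exact Or.inl h
        · exact Or.inr ⟨s', y', a1.trans h1, a2⟩
      · refine Or.inr ⟨s, y, h1, h2, h3, hi, h4, ?_⟩
        rw [← h4, hR.phi_out s y hi]; rfl

theorem Alive.beta_lt (hR : R.Sys nxt x0) {t : Vx Ω × Ω} {u : Vx Ω}
    (h : R.Alive nxt (R.tm t) u) : R.β u < R.tm t := by
  rcases owner hR h with rfl | ⟨s, y, h1, -, -, -, -, h6⟩
  · exact R.root_lt t
  · rw [h6]; exact h1

theorem beta_of_out (hR : R.Sys nxt x0) {s : Vx Ω × Ω} {y : Ω} (h : ¬ R.In nxt s y) :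
    R.β (R.φ s y) = R.tm s := by rw [hR.phi_out s y h]; rfl

theorem beta_lt_iff (hR : R.Sys nxt x0) {s : Vx Ω × Ω} (hs : R.Ex s) (y : Ω) :
    R.β (R.φ s y) < R.tm s ↔ R.In nxt s y := by
  constructor
  · intro h; by_contra hi; rw [beta_of_out hR hi] at h; exact lt_irrefl _ h
  · intro hi; exact ((hR.phi_in s y hi).alive hR hs).beta_lt hR

theorem beta_le (hR : R.Sys nxt x0) {s : Vx Ω × Ω} (hs : R.Ex s) (y : Ω) :
    R.β (R.φ s y) ≤ R.tm s := by
  by_cases hi : R.In nxt s y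
  · exact ((beta_lt_iff hR hs y).2 hi).le
  · exact (beta_of_out hR hi).le

theorem cell_inj (hR : R.Sys nxt x0) {s : Vx Ω × Ω} (hs : R.Ex s) (hg : R.Good nxt ℓ s) {y y' : Ω}
    (h : R.φ s y = R.φ s y') : y = y' := by
  by_cases hi : R.In nxt s y
  · have hi' : R.In nxt s y' := by rw [← beta_lt_iff hR hs, ← h, beta_lt_iff hR hs]; exact hi
    exact hg.inj _ _ _ (hR.phi_in s y hi) (h ▸ hR.phi_in s y' hi')
  · have hi' : ¬ R.In nxt s y' := by rw [← beta_lt_iff hR hs, ← h, beta_lt_iff hR hs]; exact hi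
    rw [hR.phi_out s y hi, hR.phi_out s y' hi'] at h
    exact (Vx.node.inj h).2.2

theorem phi_root {s : Vx Ω × Ω} (hg : R.Good nxt ℓ s) : R.φ s s.2 = s.1 :=
  hg.func _ _ (Rch.refl s)

theorem fold_dart (hs : Small nxt ℓ) (hR : R.Sys nxt x0) {T : ℕ ×ₗ ℕ} (hG : GB nxt ℓ R T) :
    Fold (R.Dart nxt T) where
  symm := fun h => h.symm hs
  func := by
    have key : ∀ {s s' : Vx Ω × Ω} {y z y' z' : Ω} {l : S × Bool}, R.tm s < R.tm s' → R.tm s' < T →
        R.Ex s → R.Ex s' → Cp nxt s.2 y → XD nxt y l z → XD nxt y' l z' → R.φ s y = R.φ s' y' →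
        R.φ s z = R.φ s' z' := by
      intro s s' y z y' z' l h1 h2 e e' c d d' h
      have hi : R.In nxt s' y' := by
        rw [← beta_lt_iff hR e', ← h]; exact (beta_le hR e y).trans_lt h1
      have := (hR.phi_in s' y' hi).walk (q := (R.φ s z, z'))
        (Wk.cons ⟨⟨s, y, z, h1, e, c, d, h, rfl⟩, d'⟩ (Wk.nil _))
      exact ((hG s' h2 e').func _ _ this).symm
    rintro a b c l ⟨s, y, z, h1, h2, h3, h4, rfl, rfl⟩ ⟨s', y', z', k1, k2, k3, k4, k5, rfl⟩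
    rcases lt_trichotomy (R.tm s) (R.tm s') with h | h | h
    · exact key h k1 h2 k2 h3 h4 k4 k5.symm
    · obtain rfl := tm_inj hR h
      obtain rfl := cell_inj hR h2 (hG s h1 h2) k5
      rw [(fold_xd hs).func h4 k4]
    · exact (key h h1 k2 h2 k3 k4 h4 k5).symm

theorem fold_pd (hs : Small nxt ℓ) (hR : R.Sys nxt x0) {T : ℕ ×ₗ ℕ} (hG : GB nxt ℓ R T) :
    Fold (R.PD nxt T) where
  symm := fun h => ⟨h.1.symm hs, (fold_xd hs).symm h.2⟩
  func := fun h h' => Prod.ext ((fold_dart hs hR hG).func h.1 h'.1) ((fold_xd hs).func h.2 h'.2)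

/-- two gate points are joined by a short reduced word of the fibre product -/
theorem gate_word (hs : Small nxt ℓ) (hR : R.Sys nxt x0) {s : Vx Ω × Ω}
    (hG : GB nxt ℓ R (R.tm s)) (hg : R.Good nxt ℓ s) {y y' : Ω} (h : R.In nxt s y)
    (h' : R.In nxt s y') : ∃ w, Rd w ∧ w.length ≤ 5 * ℓ y ∧
      Wk (R.PD nxt (R.tm s)) (R.φ s y, y) w (R.φ s y', y') := by
  obtain ⟨a, ha⟩ := hR.phi_in s y h
  obtain ⟨b, hb⟩ := hR.phi_in s y' h'
  obtain ⟨w, hw, h1, -, -⟩ :=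
    ((ha.rev (fold_pd hs hR hG)).append hb).exists_reduced (fold_pd hs hR hG)
  refine ⟨w, hw, ?_, h1⟩
  rw [(hR.phi_in s y h).cp.ell hs]
  exact hg.len _ _ _ (hR.phi_in s y h) h1 hw

/-- an edge with both ends in the gate is old -/
theorem gate_dart (hs : Small nxt ℓ) (hR : R.Sys nxt x0) {s : Vx Ω × Ω}
    (hG : GB nxt ℓ R (R.tm s)) (hg : R.Good nxt ℓ s) {y y' : Ω} {l : S × Bool} (h : R.In nxt s y)
    (h' : R.In nxt s y') (d : XD nxt y l y') : R.Dart nxt (R.tm s) (R.φ s y) l (R.φ s y') := by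
  obtain ⟨w, hw, hl, h1⟩ := gate_word hs hR hG hg h h'
  have := hs.one_le y
  obtain rfl : w = [l] := uniq_word hs (pd_xd h1) (Wk.cons d (Wk.nil _)) hw
    IsReduced.singleton (by simp; omega)
  obtain ⟨b, hb, e⟩ := wk_cons.1 h1
  rw [wk_nil.1 e] at hb
  exact hb.1

/-- a dart lies in the cell in which its younger end was born -/
theorem dart_owner (hs : Small nxt ℓ) (hR : R.Sys nxt x0) {T : ℕ ×ₗ ℕ} (hG : GB nxt ℓ R T)
    {u u' : Vx Ω} {l : S × Bool} (h : R.Dart nxt T u l u') :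
    ∃ s y y', R.tm s < T ∧ R.Ex s ∧ Cp nxt s.2 y ∧ XD nxt y l y' ∧ R.φ s y = u ∧ R.φ s y' = u' ∧
      R.tm s = max (R.β u) (R.β u') := by
  induction T using WellFoundedLT.induction with
  | ind T ih =>
    obtain ⟨s, y, y', h1, h2, h3, h4, rfl, rfl⟩ := h
    by_cases hi : R.In nxt s y ∧ R.In nxt s y'
    · obtain ⟨s', z, z', k1, k2⟩ := ih _ h1 (hG.mono h1.le)
        (gate_dart hs hR (hG.mono h1.le) (hG s h1 h2) hi.1 hi.2 h4)
      exact ⟨s', z, z', k1.trans h1, k2⟩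
    · refine ⟨s, y, y', h1, h2, h3, h4, rfl, rfl, le_antisymm ?_
        (max_le (beta_le hR h2 y) (beta_le hR h2 y'))⟩
      rcases not_and_or.1 hi with hi | hi
      · exact le_max_of_le_left (beta_of_out hR hi).ge
      · exact le_max_of_le_right (beta_of_out hR hi).ge

theorem sat_step (hs : Small nxt ℓ) (hR : R.Sys nxt x0) {T : ℕ ×ₗ ℕ} (hG : GB nxt ℓ R T)
    {p q : Vx Ω × Ω} {l : S × Bool} (h : R.Sat nxt T p) (d : R.PD nxt T p l q) : R.Sat nxt T q := by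
  obtain ⟨s, h1, h2, h3, h4⟩ := h
  exact ⟨s, h1, h2, h3.step d.2,
    (fold_dart hs hR hG).func ⟨s, p.2, q.2, h1, h2, h3, d.2, h4, rfl⟩ d.1⟩

theorem ns_walk (hs : Small nxt ℓ) (hR : R.Sys nxt x0) {T : ℕ ×ₗ ℕ} (hG : GB nxt ℓ R T)
    {p q : Vx Ω × Ω} {w : List (S × Bool)} (h : ¬ R.Sat nxt T p) (d : Wk (R.PD nxt T) p w q) :
    ¬ R.Sat nxt T q := fun hq =>
  h ((d.rev (fold_pd hs hR hG)).ind_end _ (fun _ _ _ a b => sat_step hs hR hG a b) hq)

theorem ns_rch (hs : Small nxt ℓ) (hR : R.Sys nxt x0) {t p : Vx Ω × Ω} (hG : GB nxt ℓ R (R.tm t))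
    (ht : R.Ex t) (h : R.Rch nxt t p) : ¬ R.Sat nxt (R.tm t) p := by
  obtain ⟨w, hw⟩ := h
  exact ns_walk hs hR hG ((hR.ex_iff t).1 ht).2 hw

/-- a word read both from an unsaturated point and inside an executed cell is a piece -/
theorem ns_piece (hs : Small nxt ℓ) {T : ℕ ×ₗ ℕ} {p s : Vx Ω × Ω} {y y' x' : Ω}
    {w : List (S × Bool)} (h : ¬ R.Sat nxt T p) (h1 : R.tm s < T) (h2 : R.Ex s)
    (h3 : Cp nxt s.2 y) (h4 : R.φ s y = p.1) (hr : Rd w) (d : Wk (XD nxt) p.2 w x')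
    (d' : Wk (XD nxt) y w y') : w.length ≤ ℓ p.2 ∧ w.length ≤ ℓ y := by
  refine piece_le hs ?_ hr d d'
  rintro rfl
  exact h ⟨s, h1, h2, h3, h4⟩

/-- a descent: through new vertices of the cell down to its gate -/
inductive Desc (nxt : Ω → S × Bool → Option Ω) (R : Raw Ω) (s : Vx Ω × Ω) :
    Ω → List (S × Bool) → Ω → Prop
  | last {y z : Ω} {l : S × Bool} : XD nxt y l z → ¬ R.In nxt s y → R.In nxt s z → Desc nxt R s y [l] z
  | cons {y y1 z : Ω} {l : S × Bool} {w : List (S × Bool)} : XD nxt y l y1 → ¬ R.In nxt s y →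
      Desc nxt R s y1 w z → Desc nxt R s y (l :: w) z

theorem Desc.out {s : Vx Ω × Ω} {y z : Ω} {w : List (S × Bool)} (h : Desc nxt R s y w z) :
    ¬ R.In nxt s y := by cases h <;> assumption

theorem Desc.inn {s : Vx Ω × Ω} {y z : Ω} {w : List (S × Bool)} (h : Desc nxt R s y w z) :
    R.In nxt s z := by induction h <;> assumption

theorem Desc.wk {s : Vx Ω × Ω} {y z : Ω} {w : List (S × Bool)} (h : Desc nxt R s y w z) :
    Wk (XD nxt) y w z := by
  induction h with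
  | last d _ _ => exact Wk.cons d (Wk.nil _)
  | cons d _ _ ih => exact Wk.cons d ih

theorem Desc.snoc {s : Vx Ω × Ω} {y z : Ω} {w : List (S × Bool)} (h : Desc nxt R s y w z) :
    ∃ w' l y', w = w' ++ [l] ∧ XD nxt y' l z ∧ ¬ R.In nxt s y' := by
  induction h with
  | last d o _ => exact ⟨[], _, _, rfl, d, o⟩
  | cons _ _ _ ih =>
    obtain ⟨w', l, y', rfl, h⟩ := ih
    exact ⟨_ :: w', l, y', rfl, h⟩

theorem Desc.pre (hs : Small nxt ℓ) {s : Vx Ω × Ω} {y z z' : Ω} {w w' a : List (S × Bool)}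
    (h : Desc nxt R s y w z) (h' : Desc nxt R s y w' z') (e : w ++ a = w') : w = w' := by
  induction h generalizing w' with
  | last d _ i =>
    cases h' with
    | last d' _ _ => simp at e; rw [e.1]
    | cons d' _ k =>
      simp at e
      obtain ⟨rfl, -⟩ := e
      exact absurd ((fold_xd hs).func d d' ▸ i) k.out
  | cons d _ k ih =>
    cases h' with
    | last d' _ i =>
      simp at e
      obtain ⟨rfl, -⟩ := e
      exact absurd ((fold_xd hs).func d' d ▸ i) k.out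
    | cons d' _ k' =>
      simp at e
      obtain ⟨rfl, e⟩ := e
      obtain rfl := (fold_xd hs).func d d'
      rw [ih k' e]

/-- short reduced descents are unique -/
theorem desc_uniq (hs : Small nxt ℓ) (hR : R.Sys nxt x0) {s : Vx Ω × Ω}
    (hG : GB nxt ℓ R (R.tm s)) (hg : R.Good nxt ℓ s) {y z z' : Ω} {w w' : List (S × Bool)}
    (h : Desc nxt R s y w z) (h' : Desc nxt R s y w' z') (hr : Rd w) (hr' : Rd w')
    (hl : w.length ≤ ℓ y) (hl' : w'.length ≤ ℓ y) : w = w' := by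
  obtain ⟨u, hu, hlu, h1⟩ := gate_word hs hR hG hg h.inn h'.inn
  have hred : Rd (w ++ u) := by
    refine isReduced_append.2 ⟨hr, hu, fun a ha b hb e => ?_⟩
    obtain ⟨w1, l, y', rfl, d, o⟩ := h.snoc
    simp at ha
    subst ha
    cases u with
    | nil => simp at hb
    | cons c u =>
      simp at hb
      subst hb
      obtain ⟨q, hq, -⟩ := wk_cons.1 h1
      have hq2 : q.2 = y' := (fold_xd hs).func (e ▸ hq.2) ((fold_xd hs).symm d)
      exact o ⟨q.1, hq2 ▸ (hR.phi_in s z h.inn).walk (Wk.cons hq (Wk.nil _))⟩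
  have := ell_walk hs h.wk
  exact h.pre hs h' (uniq_word hs (h.wk.append (pd_xd h1)) h'.wk hred hr' (by simp; omega))

end Raw

end Pool.Agent.Lib.IT.Geo
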