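import Pool.Agent.Lib.IT.Blue

/-! A lacunary sum is irrational. -/

namespace Pool.Agent.Lib.IT

open Finset

theorem stIRR : St_IRR := by
  intro Q hQ hQd
  refine ⟨fun M n => 2 * (n + 1) * (Q M * M.factorial) + 2 * M, fun M r x hM hG hs hr => ?_⟩
  have h2 : ∀ n, 2 * M n ≤ M (n + 1) := fun n => le_trans (Nat.le_add_left _ _) (hG n)
  have hmono : StrictMono M := strictMono_nat_of_lt_succ fun n => by
    have := h2 n; have := hM n; omega
  have hpow : ∀ n k, 2 ^ k * M n ≤ M (k + n) := fun n k => by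
    induction k with
    | zero => simp
    | succ k ih =>
      have := h2 (k + n)
      rw [show k + 1 + n = k + n + 1 by ring, pow_succ]
      nlinarith
  have hs' : HasSum (fun n => r (M n) / M n) x := by
    refine (hmono.injective.hasSum_iff (f := fun N : ℕ => r N / N) fun N hN => ?_).2 hs
    rcases Nat.eq_zero_or_pos N with rfl | h0
    · simp
    · have : r N = 0 := by
        by_contra h
        exact hN ((hr N h0).2.2.1 h)
      simp [this]
  have hpos : ∀ n, 0 < r (M n) := fun n => by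
    obtain ⟨-, ⟨j, hj⟩, h⟩ := hr (M n) (hM n)
    have hq : (0 : ℝ) < Q (M n) := by exact_mod_cast hQ _
    have h0 : 0 ≤ r (M n) := by
      have : (0 : ℝ) ≤ Q (M n) * r (M n) := hj ▸ Nat.cast_nonneg j
      exact nonneg_of_mul_nonneg_right this hq |> fun h => by
        by_contra h'
        nlinarith
    exact lt_of_le_of_ne h0 (h.2 ⟨n, rfl⟩).symm
  have hMr : ∀ n, (0 : ℝ) < M n := fun n => by exact_mod_cast hM n
  rintro ⟨y, rfl⟩
  set n := y.den with hn
  set D := Q (M n) * (M n).factorial with hD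
  have hDpos : 0 < D := Nat.mul_pos (hQ _) (Nat.factorial_pos _)
  have ht := (hasSum_nat_add_iff' (n + 1)).2 hs'
  set S := ∑ i ∈ range (n + 1), r (M i) / M i with hS
  have hlow : 0 < (y : ℝ) - S :=
    lt_of_lt_of_le (div_pos (hpos (0 + (n + 1))) (hMr _))
      (le_hasSum ht 0 fun j _ => (div_pos (hpos _) (hMr _)).le)
  have hup : (y : ℝ) - S ≤ 1 / M (n + 1) * 2 := by
    refine hasSum_le (fun k => ?_) ht (hasSum_geometric_two.mul_left (1 / (M (n + 1) : ℝ)))
    have h3 : (2 : ℝ) ^ k * M (n + 1) ≤ M (k + (n + 1)) := by exact_mod_cast hpow (n + 1) k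
    calc r (M (k + (n + 1))) / M (k + (n + 1)) ≤ 1 / M (k + (n + 1)) :=
          div_le_div_of_nonneg_right (hr _ (hM _)).1 (hMr _).le
      _ ≤ 1 / (2 ^ k * M (n + 1)) := one_div_le_one_div_of_le (mul_pos (by positivity) (hMr _)) h3
      _ = _ := by rw [one_div_pow, div_mul_div_comm, one_mul, mul_comm]
  obtain ⟨z, hz⟩ : ∃ z : ℕ, (D : ℝ) * S = z := by
    have h3 : ∀ i ∈ range (n + 1), ∃ z : ℕ, (D : ℝ) * (r (M i) / M i) = z := fun i hi => by
      have hi' : M i ≤ M n := hmono.monotone (Nat.lt_succ_iff.1 (mem_range.1 hi))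
      obtain ⟨j, hj⟩ := (hr (M i) (hM i)).2.1
      obtain ⟨u, hu⟩ := hQd _ _ hi'
      obtain ⟨v, hv⟩ := Nat.dvd_factorial (hM i) hi'
      refine ⟨j * u * v, ?_⟩
      rw [hD, hu, hv]
      push_cast
      rw [← hj]
      field_simp [(hMr i).ne']
    choose! z hz using h3
    exact ⟨∑ i ∈ range (n + 1), z i, by rw [hS, mul_sum, Nat.cast_sum]; exact sum_congr rfl hz⟩
  have hy : (n : ℝ) * y = y.num := by
    rw [hn, mul_comm]; exact_mod_cast Rat.mul_den_eq_num y
  have hn0 : (0 : ℝ) < n := by exact_mod_cast y.den_pos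
  have hD0 : (0 : ℝ) < D := by exact_mod_cast hDpos
  have h4 : (n : ℝ) * D * (y - S) = ((D * y.num - n * z : ℤ) : ℝ) := by
    push_cast
    rw [← hy, ← hz]; ring
  have h5 : (1 : ℝ) ≤ n * D * (y - S) := by
    have h6 : (0 : ℝ) < n * D * (y - S) := by positivity
    rw [h4] at h6 ⊢
    exact_mod_cast (show (0 : ℤ) < _ by exact_mod_cast h6)
  have h7 : (2 * (n + 1) * D + 2 * M n : ℝ) ≤ M (n + 1) := by exact_mod_cast hG n
  have h8 : (n : ℝ) * D * (y - S) ≤ n * D * (1 / M (n + 1) * 2) :=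
    mul_le_mul_of_nonneg_left hup (by positivity)
  have h9 := h5.trans h8
  rw [show (n : ℝ) * D * (1 / M (n + 1) * 2) = n * D * 2 / M (n + 1) by ring,
    le_div_iff₀ (hMr _)] at h9
  nlinarith [hMr n]

end Pool.Agent.Lib.IT
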