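import Pool.Agent.Lib.IT.LIM

/-! LIM2: block LIM together with the convergence in operator norm. -/

namespace Pool.Agent.Lib.IT

open Finset Filter Topology

theorem LIM.eq_Lam {G : Type} [Group G] (T : MonoidAlgebra ℝ G →ₐ[ℝ] (L2 G →L[ℝ] L2 G))
    (hT : ∀ g ξ x, T (MonoidAlgebra.single g 1) ξ x = ξ (g⁻¹ * x)) : T = LIM.Lam := by
  refine AlgHom.ext fun b => ?_
  induction b using MonoidAlgebra.induction_linear with
  | zero => rw [map_zero, map_zero]
  | add b b' hb hb' => rw [map_add, map_add, hb, hb']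
  | single g r =>
    have h1 : MonoidAlgebra.single g r = r • MonoidAlgebra.single g (1 : ℝ) := by
      rw [MonoidAlgebra.smul_single, smul_eq_mul, mul_one]
    rw [LIM.Lam_single, h1, map_smul]
    congr 1
    ext ξ x
    rw [hT, LIM.lam_apply]

open LIM in
theorem stLIM2 : ∀ (G : Type) [Group G] (a : MonoidAlgebra ℝ G) (ρ : ℝ), 0 ≤ ρ → ρ < 1 →
    (∀ x, a.coeff x⁻¹ = a.coeff x) →
    (∀ (ξ : MonoidAlgebra ℝ G) (m m' : ℕ), m ≤ m' →
      ((a ^ m * ξ - a ^ m' * ξ).coeff.sum fun _ r => r ^ 2) ≤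
        4 * ρ ^ m * ξ.coeff.sum fun _ r => r ^ 2) →
    ∃ p ∈ redAlg G, p * p = p ∧ IsSelfAdjoint p ∧
      Filter.Tendsto (fun m : ℕ => (a ^ m).coeff 1) Filter.atTop (nhds (tr p)) ∧
      ∀ T : MonoidAlgebra ℝ G →ₐ[ℝ] (L2 G →L[ℝ] L2 G),
        (∀ g ξ x, T (MonoidAlgebra.single g 1) ξ x = ξ (g⁻¹ * x)) →
        Filter.Tendsto (fun m : ℕ => T (a ^ m)) Filter.atTop (nhds p) := by
  intro G _ a ρ h0 h1 hs hb
  have hr : Tendsto (fun m : ℕ => 2 * √ρ ^ m) atTop (𝓝 0) := by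
    have := (tendsto_pow_atTop_nhds_zero_of_lt_one (Real.sqrt_nonneg ρ)
      ((Real.sqrt_lt' one_pos).mpr (by simpa using h1))).const_mul 2
    simpa using this
  have hc : CauchySeq fun m : ℕ => Lam (a ^ m) := by
    refine cauchySeq_of_le_tendsto_0' _ (fun m m' hm => ?_) hr
    rw [dist_eq_norm, ← map_sub]
    refine norm_Lam_le _ _ (by positivity) fun ξ => ?_
    rw [sub_mul, mul_pow, ← pow_mul, mul_comm m 2, pow_mul, Real.sq_sqrt h0]
    convert hb ξ m m' hm using 2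
    norm_num
  obtain ⟨p, hp⟩ := cauchySeq_tendsto_of_complete hc
  refine ⟨p, mem_closure_of_tendsto hp (Eventually.of_forall fun m => Lam_mem _), ?_, ?_, ?_, ?_⟩
  · have h2 : Tendsto (fun m : ℕ => Lam (a ^ (m + m))) atTop (𝓝 p) :=
      hp.comp (tendsto_atTop_mono (fun m => Nat.le_add_right m m) tendsto_id)
    refine tendsto_nhds_unique (hp.mul hp) ?_
    simpa only [pow_add, map_mul] using h2
  · have h2 : Tendsto (fun m : ℕ => star (Lam (a ^ m))) atTop (𝓝 (star p)) := hp.star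
    refine tendsto_nhds_unique h2 ?_
    have h3 : ∀ m : ℕ, star (Lam (a ^ m)) = Lam (a ^ m) := fun m => by
      rw [map_pow]
      exact ((Lam_sa a hs).pow m).star_eq
    simpa only [h3] using hp
  · have h2 := (continuous_tr.tendsto p).comp hp
    simpa only [Function.comp_def, tr_Lam] using h2
  · intro T hT
    rw [eq_Lam T hT]
    exact hp

end Pool.Agent.Lib.IT
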