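import Pool.Agent.Lib.IT.SW6

/-! The law of the orbit size. -/

set_option linter.style.haveILetI false
set_option linter.unusedSectionVars false

namespace Pool.Agent.Lib.IT

open Finset MeasureTheory

namespace MEA6

lemma short {C A : Type} {π : C → Equiv.Perm A} {a : A} (h : (orb π a).Finite) (w : List (C × Bool)) :
    ∃ w', w'.length ≤ (orb π a).ncard ∧ walk π a w' = walk π a w := by
  classical
  induction hn : w.length using Nat.strong_induction_on generalizing w with
  | _ n ih =>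
  by_cases h1 : (verts π a w).Nodup
  · refine ⟨w, ?_, rfl⟩
    rw [← SW6.length_verts (π := π) a, ← List.toFinset_card_of_nodup h1, ← Set.ncard_coe_finset]
    refine Set.ncard_le_ncard (fun v hv => ?_) h
    obtain ⟨w1, -, -, -, h2⟩ := SW6.mem_verts (List.mem_toFinset.1 hv)
    exact ⟨w1, h2⟩
  · obtain ⟨w1, w2, w3, rfl, h2, -, h3⟩ := SW6.exists_loop h1
    have := List.length_pos_iff.2 h2
    obtain ⟨w', h4, h5⟩ := ih (w1 ++ w3).length (by simp at hn ⊢; omega) _ rfl
    exact ⟨w', h4, by simp [h5, h3]⟩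

lemma law {X T : Type} [AddCommGroup X] [AddCommGroup T] [Finite T] {m : MeasurableSpace X}
    (μ : Measure X) [IsProbabilityMeasure μ]
    (inv : ∀ ω0 : X, MeasurePreserving (fun ω => ω0 + ω) μ μ) (f : X →+ T)
    (hf : ∀ t, MeasurableSet (f ⁻¹' {t})) {E : Set X} (hE : ∀ ω ∈ E, ∀ ω', f ω' = f ω → ω' ∈ E)
    {Q : ℕ} (hQ : (Nat.card T).factorial ∣ Q) : MeasurableSet E ∧ (∃ j : ℕ, Q * μ.real E = j) ∧
      (μ.real E ≠ 0 ↔ E.Nonempty) := by
  classical
  letI := Fintype.ofFinite T
  have h1 : ∀ s : Finset T, (∀ t ∈ s, ∃ ω, f ω = t) →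
      μ.real (f ⁻¹' s) = s.card * μ.real (f ⁻¹' {0}) := fun s hs => by
    rw [← sum_measureReal_preimage_singleton s fun t _ => hf t, ← nsmul_eq_mul, ← sum_const]
    refine sum_congr rfl fun t ht => ?_
    obtain ⟨ω, rfl⟩ := hs t ht
    rw [← (inv ω).measureReal_preimage (hf _).nullMeasurableSet]
    congr 1
    ext x; simp
  let R : Finset T := univ.filter fun t => ∃ ω, f ω = t
  let s : Finset T := univ.filter fun t => ∃ ω ∈ E, f ω = t
  have h2 : (R.card : ℝ) * μ.real (f ⁻¹' {0}) = 1 := by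
    rw [← h1 R fun t ht => (mem_filter.1 ht).2,
      show f ⁻¹' R = Set.univ from Set.eq_univ_of_forall fun ω => by simp [R], probReal_univ]
  have h3 : f ⁻¹' s = E := Set.ext fun ω => by
    simp only [s, Set.mem_preimage, coe_filter, mem_univ, true_and, Set.mem_ofPred_eq]
    exact ⟨fun ⟨ω', a, b⟩ => hE ω' a ω b.symm, fun a => ⟨ω, a, rfl⟩⟩
  have h4 := h1 s fun t ht => (mem_filter.1 ht).2.imp fun _ h => h.2
  rw [h3] at h4
  have h5 : R.card ≠ 0 := by rintro h; simp [h] at h2
  obtain ⟨k, rfl⟩ : R.card ∣ Q := (Nat.dvd_factorial (Nat.pos_of_ne_zero h5)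
    ((card_le_univ _).trans Nat.card_eq_fintype_card.ge)).trans hQ
  refine ⟨?_, ⟨k * s.card, ?_⟩, ?_⟩
  · rw [← h3, ← Set.biUnion_preimage_singleton]
    exact s.measurableSet_biUnion fun t _ => hf t
  · rw [h4]; push_cast
    linear_combination (k * s.card : ℝ) * h2
  · rw [h4, mul_ne_zero_iff, and_iff_left (right_ne_zero_of_mul_eq_one h2), Nat.cast_ne_zero,
      card_ne_zero, ← h3]
    exact ⟨fun ⟨t, ht⟩ => by
      obtain ⟨ω, -, rfl⟩ := (mem_filter.1 ht).2
      exact ⟨ω, ht⟩, fun ⟨ω, h⟩ => ⟨_, h⟩⟩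

variable {C W Γ : Type} [Fintype C] [AddCommGroup W] [Group Γ] {gen : C × W → Γ}
  {X : AddSubgroup (Γ → C × Bool → W)}

/-- value of a word in the generators -/
def ev (gen : C × W → Γ) (u : List ((C × W) × Bool)) : Γ :=
  (u.map fun s => if s.2 then gen s.1 else (gen s.1)⁻¹).prod

lemma step_sig (h : Cfg gen X) (ω : X) (g : Γ) (l : C × Bool) :
    step (sig h ω) g l = g * ev gen [((l.1, ω.1 g l), l.2)] := by
  rcases l with ⟨c, b⟩
  cases b <;> simp [step, sig, ev]

lemma walk_sig (h : Cfg gen X) (ω : X) (w : List (C × Bool)) (g : Γ) :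
    ∃ u, u.length = w.length ∧ walk (sig h ω) g w = g * ev gen u := by
  induction w generalizing g with
  | nil => exact ⟨[], rfl, by simp [ev]⟩
  | cons l w ih =>
    obtain ⟨u, h1, h2⟩ := ih (step (sig h ω) g l)
    exact ⟨((l.1, ω.1 g l), l.2) :: u, by simp [h1], by
      rw [SW6.walk_cons, h2, step_sig]; simp [ev, mul_assoc]⟩

lemma orb_eq (h : Cfg gen X) {ω ω' : X} (h1 : ∀ g ∈ orb (sig h ω) 1, ω'.1 g = ω.1 g) :
    orb (sig h ω') 1 = orb (sig h ω) 1 := by
  have : ∀ w, ∀ g ∈ orb (sig h ω) 1, walk (sig h ω') g w = walk (sig h ω) g w := fun w => by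
    induction w with
    | nil => exact fun _ _ => rfl
    | cons l w ih =>
      rintro _ ⟨u, rfl⟩
      rw [SW6.walk_cons, SW6.walk_cons, step_sig, h1 _ ⟨u, rfl⟩, ← step_sig]
      exact ih _ ⟨u ++ [l], by simp⟩
  simp only [orb, this _ 1 ⟨[], rfl⟩]

end MEA6

theorem stMEA6 : St_MEA := by
  intro C W _ _ _
  let T : ℕ → Type := fun N => {u : List ((C × W) × Bool) // u.length ≤ N} → C × Bool → W
  refine ⟨fun N => (∑ k ∈ range (N + 1), Nat.card (T k)).factorial, fun N => Nat.factorial_pos _,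
    fun N N' h => Nat.factorial_dvd_factorial (sum_le_sum_of_subset (by simpa)), ?_⟩
  intro Γ _ gen X h m μ hμ
  haveI := hμ.prob
  let E : ℕ → Set X := fun N => {ω | (orb (sig h ω) 1).ncard = N}
  have key : ∀ N, 1 ≤ N → _ := fun N hN => by
    haveI : Finite {u : List ((C × W) × Bool) // u.length ≤ N} := List.finite_length_le _ N
    let f : X →+ T N := AddMonoidHom.mk' (fun ω u => ω.1 (MEA6.ev gen u.1)) fun _ _ => rfl
    refine MEA6.law μ hμ.inv f (fun t => ?_) (E := E N) (fun ω hω ω' e => ?_)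
      (Q := (∑ k ∈ range (N + 1), Nat.card (T k)).factorial) (Nat.factorial_dvd_factorial
        (single_le_sum (f := fun k => Nat.card (T k)) (fun _ _ => Nat.zero_le _) (by simp)))
    · have : f ⁻¹' {t} = ⋂ u, ⋂ p, {ω : X | ω.1 (MEA6.ev gen u.1) p = t u p} := by
        ext ω
        simp only [Set.mem_iInter]
        exact ⟨fun e u p => congrFun (congrFun e u) p, fun e => funext fun u => funext (e u)⟩
      rw [this]
      exact MeasurableSet.iInter fun u => MeasurableSet.iInter fun p => hμ.meas _ _ _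
    · have hω' : (orb (sig h ω) 1).ncard = N := hω
      refine (congrArg Set.ncard (MEA6.orb_eq h ?_)).trans hω
      rintro _ ⟨w, rfl⟩
      obtain ⟨w', h1, h2⟩ := MEA6.short (Set.finite_of_ncard_pos (hω' ▸ hN)) w
      obtain ⟨u, h3, h4⟩ := MEA6.walk_sig h ω w' 1
      rw [← h2, h4, one_mul]
      exact congrFun e ⟨u, by omega⟩
  have hm : ∀ N, MeasurableSet (E N) := fun N => by
    rcases Nat.eq_zero_or_pos N with rfl | hN
    · have : E 0 = (⋃ N, E (N + 1))ᶜ := by
        ext ω
        simp only [E, Set.mem_ofPred_eq, Set.mem_compl_iff, Set.mem_iUnion, not_exists]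
        exact ⟨fun h N => by omega, fun h => by
          by_contra h'
          exact h _ (Nat.succ_pred_eq_of_ne_zero h').symm⟩
      rw [this]
      exact (MeasurableSet.iUnion fun N => (key _ (by omega)).1).compl
    · exact (key N hN).1
  have hi : Integrable (fun ω => 1 / ((orb (sig h ω) 1).ncard : ℝ)) μ := by
    refine Integrable.of_bound (((measurable_from_top (f := fun n : ℕ => 1 / (n : ℝ))).comp
      (measurable_to_countable' hm)).aestronglyMeasurable) 1 (ae_of_all _ fun ω => ?_)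
    rw [Real.norm_of_nonneg (by positivity), one_div]
    exact Nat.cast_inv_le_one _
  refine ⟨hi, fun N => μ.real (E N), ?_, fun N hN => ⟨measureReal_le_one, (key N hN).2⟩⟩
  have h1 := hasSum_integral_iUnion hm (fun a b hab => Set.disjoint_left.2 fun ω h h' =>
    hab (h.symm.trans h')) hi.integrableOn
  rw [show (⋃ N, E N) = Set.univ from Set.eq_univ_of_forall fun ω => Set.mem_iUnion.2 ⟨_, rfl⟩,
    Measure.restrict_univ] at h1
  refine h1.congr fun s => sum_congr rfl fun N _ => ?_
  beta_reduce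
  rw [setIntegral_congr_fun (hm N) (g := fun _ => 1 / (N : ℝ)) fun ω hω => by
    simp only [show (orb (sig h ω) 1).ncard = N from hω], setIntegral_const, smul_eq_mul,
    mul_one_div]

end Pool.Agent.Lib.IT
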