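import Pool.Agent.Lib.IT.CHE

/-! POI: Poincare inequality from expansion. -/

namespace Pool.Agent.Lib.IT.POI4

open Finset

variable {C A : Type} [Fintype C]

/-- at most half of each finite orbit -/
def Half (π : C → Equiv.Perm A) (B : Finset A) : Prop :=
  ∀ a, (orb π a).Finite → 2 * (orb π a ∩ B).ncard ≤ (orb π a).ncard

theorem l1 (π : C → Equiv.Perm A) (hE : Expands π) (B : Finset A) : Half π B → ∀ f : A → ℝ,
    (∀ a, 0 ≤ f a) → (∀ a ∉ B, f a = 0) →
    ∑ a ∈ B, f a ≤ ∑ a ∈ B, ∑ c, max (f a - f (π c a)) 0 := by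
  classical
  induction B using Finset.strongInduction with
  | H B ih =>
    intro hB f h0 hz
    rcases B.eq_empty_or_nonempty with rfl | hne
    · simp
    obtain ⟨a0, ha0, hmin⟩ := exists_min_image B f hne
    let f' : A → ℝ := fun a => if a ∈ B then f a - f a0 else 0
    have h1 := ih (B.erase a0) (erase_ssubset ha0) (fun a ha => le_trans (Nat.mul_le_mul_left 2
      (Set.ncard_le_ncard (Set.inter_subset_inter_right _ (coe_subset.2 (erase_subset _ _)))
        (ha.inter_of_left _))) (hB a ha)) f'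
      (fun a => by
        by_cases h : a ∈ B
        · simpa [f', h] using hmin a h
        · simp [f', h])
      (fun a ha => by
        by_cases h : a ∈ B
        · have : a = a0 := by
            by_contra h'
            exact ha (mem_erase.2 ⟨h', h⟩)
          simp [f', this]
        · simp [f', h])
    have h2 : ∑ a ∈ B.erase a0, f' a = ∑ a ∈ B, f a - f a0 * B.card := by
      rw [sum_erase B (by simp [f']), sum_congr rfl (g := fun a => f a - f a0)
        fun a ha => by simp [f', ha], sum_sub_distrib, sum_const, nsmul_eq_mul, mul_comm]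
    have h3 : ∑ a ∈ B.erase a0, ∑ c, max (f' a - f' (π c a)) 0 ≤
        ∑ a ∈ B, ∑ c, max (f' a - f' (π c a)) 0 :=
      sum_le_sum_of_subset_of_nonneg (erase_subset _ _)
        fun a _ _ => sum_nonneg fun c _ => le_max_right _ _
    have h4 : (B.card : ℝ) ≤ ∑ a ∈ B, ∑ c, if π c a ∉ B then 1 else 0 := by
      have h := hE B hB
      have e : {e : A × C | e.1 ∈ B ∧ π e.2 e.1 ∉ B} =
          ((B ×ˢ (univ : Finset C)).filter fun e => π e.2 e.1 ∉ B : Finset (A × C)) := by
        ext e; simp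
      rw [e, Set.ncard_coe_finset, card_filter, sum_product] at h
      exact_mod_cast h
    have h5 : ∑ a ∈ B, ∑ c, max (f' a - f' (π c a)) 0 +
        f a0 * (∑ a ∈ B, ∑ c, if π c a ∉ B then 1 else 0) =
        ∑ a ∈ B, ∑ c, max (f a - f (π c a)) 0 := by
      rw [mul_sum, ← sum_add_distrib]
      refine sum_congr rfl fun a ha => ?_
      rw [mul_sum, ← sum_add_distrib]
      refine sum_congr rfl fun c _ => ?_
      by_cases h : π c a ∈ B
      · simp [f', ha, h]
      · have := hmin a ha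
        simp only [f', ha, h, if_true, if_false, not_false_eq_true, hz _ h, sub_zero, mul_one]
        rw [max_eq_left (by linarith), max_eq_left (h0 a)]
        ring
    have h6 := mul_le_mul_of_nonneg_left h4 (h0 a0)
    linarith

theorem l2 (hC : 1 ≤ Fintype.card C) (π : C → Equiv.Perm A) (hE : Expands π) (B : Finset A)
    (hB : Half π B) (g : A → ℝ) (hz : ∀ a, a ∈ B ↔ 0 < g a) :
    ∑ a ∈ B, g a ^ 2 ≤ 4 * Fintype.card C * ∑ a ∈ B, ∑ c, (g (π c a) - g a) ^ 2 := by
  have hk : (0 : ℝ) < Fintype.card C := by exact_mod_cast hC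
  have h1 := l1 π hE B hB (fun a => max (g a) 0 ^ 2) (fun a => sq_nonneg _) fun a ha => by
    rw [hz, not_lt] at ha
    simp [max_eq_right ha]
  have h2 : ∑ a ∈ B, max (g a) 0 ^ 2 = ∑ a ∈ B, g a ^ 2 :=
    sum_congr rfl fun a ha => by rw [max_eq_left ((hz a).1 ha).le]
  have h3 : ∑ a ∈ B, ∑ c, max (max (g a) 0 ^ 2 - max (g (π c a)) 0 ^ 2) 0 ≤
      ∑ a ∈ B, ∑ c : C, (g a ^ 2 / (2 * Fintype.card C) +
        2 * Fintype.card C * (g (π c a) - g a) ^ 2) := by
    refine sum_le_sum fun a ha => sum_le_sum fun c _ => ?_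
    have hx := (hz a).1 ha
    rw [max_eq_left hx.le]
    generalize g a = x at *
    generalize g (π c a) = y
    generalize (Fintype.card C : ℝ) = k at *
    have e : x ^ 2 / (2 * k) + 2 * k * (y - x) ^ 2 - 2 * x * (x - y) =
        (x - 2 * k * (x - y)) ^ 2 / (2 * k) := by field_simp; ring
    have e' : 0 ≤ (x - 2 * k * (x - y)) ^ 2 / (2 * k) := by positivity
    refine max_le ?_ (by positivity)
    rcases le_total y 0 with hy | hy
    · rw [max_eq_right hy]; nlinarith
    · rw [max_eq_left hy]; nlinarith [sq_nonneg (x - y)]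
  have h4 : ∑ a ∈ B, ∑ c : C, (g a ^ 2 / (2 * Fintype.card C) +
        2 * Fintype.card C * (g (π c a) - g a) ^ 2) = (∑ a ∈ B, g a ^ 2) / 2 +
        2 * Fintype.card C * ∑ a ∈ B, ∑ c, (g (π c a) - g a) ^ 2 := by
    rw [sum_div, mul_sum, ← sum_add_distrib]
    refine sum_congr rfl fun a _ => ?_
    rw [sum_add_distrib, sum_const, card_univ, nsmul_eq_mul, mul_sum]
    congr 1
    field_simp
  linarith

open scoped Classical in
theorem median (O : Finset A) (η : A → ℝ) : ∃ t, 2 * (O.filter fun b => t < η b).card ≤ O.card ∧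
    2 * (O.filter fun b => η b < t).card ≤ O.card := by
  rcases O.eq_empty_or_nonempty with rfl | hne
  · simp
  obtain ⟨b, hb, hmax⟩ := exists_max_image O η hne
  obtain ⟨b0, hb0, hmin⟩ := exists_min_image
    (O.filter fun b => 2 * (O.filter fun b' => η b < η b').card ≤ O.card) η
    ⟨b, mem_filter.2 ⟨hb, by
      rw [filter_eq_empty_iff.2 fun b' hb' => not_lt.2 (hmax b' hb')]; simp⟩⟩
  refine ⟨η b0, (mem_filter.1 hb0).2, ?_⟩
  by_contra hc
  obtain ⟨b1, hb1, hmax1⟩ := exists_max_image (O.filter fun b => η b < η b0) η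
    (card_pos.1 (by omega))
  have h1 : ¬ 2 * (O.filter fun b' => η b1 < η b').card ≤ O.card := fun h =>
    not_lt.2 (hmin b1 (mem_filter.2 ⟨(mem_filter.1 hb1).1, h⟩)) (mem_filter.1 hb1).2
  have h2 : Disjoint (O.filter fun b => η b < η b0) (O.filter fun b' => η b1 < η b') :=
    disjoint_left.2 fun x hx hx' => not_lt.2 (hmax1 x hx) (mem_filter.1 hx').2
  have h3 := card_le_card (union_subset (filter_subset (fun b => η b < η b0) O)
    (filter_subset (fun b' => η b1 < η b') O))
  rw [card_union_of_disjoint h2] at h3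
  omega

theorem median' (O : Set A) (η : A → ℝ) : ∃ t, O.Finite →
    2 * (O ∩ {b | t < η b}).ncard ≤ O.ncard ∧ 2 * (O ∩ {b | η b < t}).ncard ≤ O.ncard := by
  classical
  by_cases h : O.Finite
  · obtain ⟨O, rfl⟩ := h.exists_finset_coe
    obtain ⟨t, h1, h2⟩ := median O η
    refine ⟨t, fun _ => ?_⟩
    have e : ∀ p : A → Prop, ((O : Set A) ∩ {b | p b}) = (O.filter p : Finset A) := fun p => by
      ext; simp
    rw [e, e, Set.ncard_coe_finset, Set.ncard_coe_finset, Set.ncard_coe_finset]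
    exact ⟨by convert h1, by convert h2⟩
  · exact ⟨0, fun h' => absurd h' h⟩

theorem stPOI4 : St_POI := by
  intro C _ hC
  have hk : (0 : ℝ) < Fintype.card C := by exact_mod_cast hC
  refine ⟨1 / (4 * Fintype.card C), by positivity, fun A π hE η hη => ?_⟩
  classical
  choose t ht using fun O : Set A => median' O η
  let M : Set A → ℝ := fun O => if O.Finite ∧ ∃ b ∈ O, η b ≠ 0 then t O else 0
  let g : A → ℝ := fun a => η a - M (orb π a)
  have hfin : ((η.support : Set A) ∪ ⋃ b ∈ {b | b ∈ η.support ∧ (orb π b).Finite}, orb π b).Finite :=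
    η.support.finite_toSet.union ((η.support.finite_toSet.subset fun b hb => hb.1).biUnion
      fun b hb => hb.2)
  obtain ⟨S, hS⟩ := hfin.exists_finset_coe
  have hS1 : ∀ a ∉ S, η a = 0 := fun a ha => by
    by_contra h
    exact ha (mem_coe.1 (hS ▸ Or.inl (by simpa using h)))
  have hS2 : ∀ a, M (orb π a) ≠ 0 → (orb π a).Finite ∧ orb π a ⊆ S := fun a ha => by
    have h : (orb π a).Finite ∧ ∃ b ∈ orb π a, η b ≠ 0 := by
      by_contra h
      exact ha (if_neg h)
    obtain ⟨h1, b, hb, hb'⟩ := h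
    refine ⟨h1, fun x hx => hS ▸ Or.inr (Set.mem_biUnion (x := b) ⟨by simpa using hb', ?_⟩ ?_)⟩
    · rwa [CHE.orb_eq hb]
    · rwa [CHE.orb_eq hb]
  have hS3 : ∀ a ∉ S, g a = 0 := fun a ha => by
    have : M (orb π a) = 0 := by
      by_contra h
      exact ha ((hS2 a h).2 (CHE.self_mem_orb π a))
    simp [g, this, hS1 a ha]
  have hstep : ∀ c a, g (π c a) - g a = η (π c a) - η a := fun c a => by
    have : orb π (π c a) = orb π a := CHE.orb_eq ⟨[(c, true)], rfl⟩
    simp only [g, this]; ring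
  have hhalf : ∀ a, (orb π a).Finite → 2 * (orb π a ∩ {b | 0 < g b}).ncard ≤ (orb π a).ncard ∧
      2 * (orb π a ∩ {b | g b < 0}).ncard ≤ (orb π a).ncard := by
    intro a ha
    by_cases h : ∃ b ∈ orb π a, η b ≠ 0
    · have e : ∀ b ∈ orb π a, g b = η b - t (orb π a) := fun b hb => by
        simp only [g, CHE.orb_eq hb, M, if_pos (And.intro ha h)]
      have e1 : orb π a ∩ {b | 0 < g b} = orb π a ∩ {b | t (orb π a) < η b} := by
        ext b
        exact and_congr_right fun hb => by simp [e b hb]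
      have e2 : orb π a ∩ {b | g b < 0} = orb π a ∩ {b | η b < t (orb π a)} := by
        ext b
        exact and_congr_right fun hb => by simp [e b hb]
      rw [e1, e2]
      exact ht _ ha
    · have e : ∀ b ∈ orb π a, g b = 0 := fun b hb => by
        have : η b = 0 := by
          by_contra h'
          exact h ⟨b, hb, h'⟩
        simp only [g, CHE.orb_eq hb, M, if_neg (fun h' : _ ∧ _ => h h'.2), this, sub_zero]
      have e1 : orb π a ∩ {b | 0 < g b} = ∅ :=
        Set.eq_empty_of_forall_notMem fun b hb => (e b hb.1).not_gt hb.2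
      have e2 : orb π a ∩ {b | g b < 0} = ∅ :=
        Set.eq_empty_of_forall_notMem fun b hb => (e b hb.1).not_lt hb.2
      simp [e1, e2]
  have hp : ∀ a, a ∈ S.filter (fun a => 0 < g a) ↔ 0 < g a := fun a =>
    ⟨fun h => (mem_filter.1 h).2, fun h => mem_filter.2 ⟨by
      by_contra h'
      exact (hS3 a h').not_gt h, h⟩⟩
  have hn : ∀ a, a ∈ S.filter (fun a => g a < 0) ↔ g a < 0 := fun a =>
    ⟨fun h => (mem_filter.1 h).2, fun h => mem_filter.2 ⟨by
      by_contra h'
      exact (hS3 a h').not_lt h, h⟩⟩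
  have h1 := l2 hC π hE _ (fun a ha => by
    rw [show ((S.filter (fun a => 0 < g a) : Finset A) : Set A) = {b | 0 < g b} from Set.ext hp]
    exact (hhalf a ha).1) g hp
  have h2 := l2 hC π hE _ (fun a ha => by
    rw [show ((S.filter (fun a => g a < 0) : Finset A) : Set A) = {b | g b < 0} from Set.ext hn]
    exact (hhalf a ha).2) (fun a => - g a) fun a => by rw [hn, neg_pos]
  have hd : Disjoint (S.filter fun a => 0 < g a) (S.filter fun a => g a < 0) :=
    disjoint_left.2 fun a h h' => (mem_filter.1 h).2.not_gt (mem_filter.1 h').2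
  have hu : (S.filter fun a => 0 < g a) ∪ (S.filter fun a => g a < 0) ⊆ S :=
    union_subset (filter_subset _ _) (filter_subset _ _)
  have h3 : ∑ a ∈ S, g a ^ 2 =
      ∑ a ∈ S.filter (fun a => 0 < g a), g a ^ 2 + ∑ a ∈ S.filter (fun a => g a < 0), (-g a) ^ 2 := by
    simp only [neg_sq]
    rw [← sum_union hd]
    refine (sum_subset hu fun a ha h => ?_).symm
    rw [mem_union, hp, hn, not_or, not_lt, not_lt] at h
    rw [le_antisymm h.1 h.2]; simp
  have h4 : ∑ a ∈ S.filter (fun a => 0 < g a), ∑ c, (g (π c a) - g a) ^ 2 +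
      ∑ a ∈ S.filter (fun a => g a < 0), ∑ c, (-g (π c a) - -g a) ^ 2 ≤
      ∑ a ∈ S, ∑ c, (η (π c a) - η a) ^ 2 := by
    have e : ∀ c a, (-g (π c a) - -g a) ^ 2 = (g (π c a) - g a) ^ 2 := fun c a => by ring
    simp only [e, hstep]
    rw [← sum_union hd]
    exact sum_le_sum_of_subset_of_nonneg hu fun a _ _ => sum_nonneg fun c _ => sq_nonneg _
  have h5 : ∑ a ∈ S, η a * M (orb π a) = 0 := by
    rw [← sum_fiberwise_of_maps_to (g := orb π) (t := S.image (orb π))
      fun a ha => mem_image_of_mem _ ha]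
    refine sum_eq_zero fun O hO => ?_
    obtain ⟨a, -, rfl⟩ := mem_image.1 hO
    rw [sum_congr rfl (g := fun b => η b * M (orb π a)) fun b hb => by rw [(mem_filter.1 hb).2],
      ← sum_mul]
    by_cases h : M (orb π a) = 0
    · rw [h, mul_zero]
    · obtain ⟨h1, h2⟩ := hS2 a h
      have e : orb π a = (S.filter (fun b => orb π b = orb π a) : Finset A) := by
        ext b
        rw [mem_coe, mem_filter]
        exact ⟨fun hb => ⟨h2 hb, CHE.orb_eq hb⟩, fun hb => hb.2 ▸ CHE.self_mem_orb π b⟩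
      have h3 := hη a h1
      rw [e, finsum_mem_coe_finset] at h3
      rw [h3, zero_mul]
  have h6 : ∑ a ∈ S, η a ^ 2 ≤ ∑ a ∈ S, g a ^ 2 := by
    have e : ∑ a ∈ S, g a ^ 2 = ∑ a ∈ S, η a ^ 2 - 2 * ∑ a ∈ S, η a * M (orb π a) +
        ∑ a ∈ S, M (orb π a) ^ 2 := by
      rw [mul_sum, ← sum_sub_distrib, ← sum_add_distrib]
      exact sum_congr rfl fun a _ => by simp only [g]; ring
    have : 0 ≤ ∑ a ∈ S, M (orb π a) ^ 2 := sum_nonneg fun a _ => sq_nonneg _
    rw [e, h5]; linarith
  have h7 : ∑ a ∈ S, ∑ c, (η (π c a) - η a) ^ 2 ≤ ∑ c : C, ∑ᶠ a, (η (π c a) - η a) ^ 2 := by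
    rw [sum_comm]
    refine sum_le_sum fun c _ => ?_
    rw [CHE.fs (t := S ∪ S.image (π c).symm) _ fun a ha => ?_]
    · exact sum_le_sum_of_subset_of_nonneg subset_union_left fun a _ _ => sq_nonneg _
    · rw [mem_union, not_or] at ha
      have : π c a ∉ S := fun h => ha.2 (mem_image.2 ⟨_, h, by simp⟩)
      simp [hS1 a ha.1, hS1 _ this]
  rw [CHE.fs (t := S) _ fun a ha => by simp [hS1 a ha], one_div, inv_mul_le_iff₀ (by positivity)]
  have h8 := mul_le_mul_of_nonneg_left (h4.trans h7) (by positivity : (0 : ℝ) ≤ 4 * Fintype.card C)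
  linarith

end Pool.Agent.Lib.IT.POI4
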