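import Pool.Agent.Lib.IT.ALG
import Pool.Agent.Lib.IT.BIR
import Pool.Agent.Lib.IT.CFG
import Pool.Agent.Lib.IT.CHE
import Pool.Agent.Lib.IT.CONN
import Pool.Agent.Lib.IT.EXP
import Pool.Agent.Lib.IT.EXT
import Pool.Agent.Lib.IT.G0
import Pool.Agent.Lib.IT.G3
import Pool.Agent.Lib.IT.GK
import Pool.Agent.Lib.IT.GM
import Pool.Agent.Lib.IT.GR
import Pool.Agent.Lib.IT.HAAR2
import Pool.Agent.Lib.IT.IRR
import Pool.Agent.Lib.IT.LAB
import Pool.Agent.Lib.IT.LIM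
import Pool.Agent.Lib.IT.MEA
import Pool.Agent.Lib.IT.PAR
import Pool.Agent.Lib.IT.PL
import Pool.Agent.Lib.IT.POI4
import Pool.Agent.Lib.IT.PRO
import Pool.Agent.Lib.IT.RG1
import Pool.Agent.Lib.IT.RG2
import Pool.Agent.Lib.IT.RLC
import Pool.Agent.Lib.IT.ROS2
import Pool.Agent.Lib.IT.SEQ
import Pool.Agent.Lib.IT.SW

/-! All blocks together. -/

namespace Pool.Agent.Lib.IT

theorem geo_holds : St_GEO := Geo.geo_of Geo.stG0 Geo.stGK Geo.stGM Geo.stG3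

theorem seq_holds : St_SEQ :=
  stSEQ (stGR (stRG1 stPL) (stRG2 stPL) stSW) stRLC (stLAB stROS2)

theorem main_holds : St_MAIN :=
  main_of seq_holds (stBIR geo_holds stCON) stCFG (stEXP stCON) (stEXT stCON) (stCHE POI4.stPOI4) stHAAR2
    stALG stMEA stIRR (stPRO stALG stPAR stLIM)

end Pool.Agent.Lib.IT
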