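import Pool.Agent.Lib.IT.CHE

/-! Block POI: Poincare inequality from expansion. -/

namespace Pool.Agent.Lib.IT

open Finset

namespace POI

variable {C A : Type} [Fintype C]

/-- at most half of each finite orbit -/
def Half (π : C → Equiv.Perm A) (S : Set A) : Prop :=
  ∀ a, (orb π a).Finite → 2 * (orb π a ∩ S).ncard ≤ (orb π a).ncard

omit [Fintype C] in
theorem Half.mono {π : C → Equiv.Perm A} {S S' : Set A} (h : Half π S) (hs : S' ⊆ S) :
    Half π S' := fun a ha =>
  le_trans (Nat.mul_le_mul_left 2 (Set.ncard_le_ncard (Set.inter_subset_inter_right _ hs)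
    (ha.subset Set.inter_subset_left))) (h a ha)

open scoped Classical in
theorem coarea {π : C → Equiv.Perm A} (hE : Expands π) (T : Finset A) (n : ℕ) :
    ∀ h : A → ℝ, (∀ x, 0 ≤ h x) → (∀ x ∉ T, h x = 0) → (T.filter fun x => h x ≠ 0).card = n →
    Half π {x | h x ≠ 0} →
    ∑ x ∈ T, h x ≤ ∑ ε ∈ T ×ˢ (univ : Finset C), max (h ε.1 - h (π ε.2 ε.1)) 0 := by
  induction n using Nat.strong_induction_on with
  | _ n ih =>
  intro h h0 hT hn hH
  set S : Finset A := T.filter fun x => h x ≠ 0 with hS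
  have hmem : ∀ x, x ∈ S ↔ h x ≠ 0 := fun x => by
    rw [hS, mem_filter]
    exact ⟨fun hx => hx.2, fun hx => ⟨by by_contra hc; exact hx (hT x hc), hx⟩⟩
  have hz : ∀ x, x ∉ S → h x = 0 := fun x hx => by
    by_contra hc; exact hx ((hmem x).2 hc)
  rcases S.eq_empty_or_nonempty with hE' | hE'
  · have : ∀ x, h x = 0 := fun x => hz x (by simp [hE'])
    simp [this]
  obtain ⟨x₀, hx₀, hmin⟩ := S.exists_min_image h hE'
  have hμ : 0 ≤ h x₀ := h0 _
  let h' : A → ℝ := fun x => if x ∈ S then h x - h x₀ else 0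
  have h0' : ∀ x, 0 ≤ h' x := fun x => by
    simp only [h']
    split_ifs with hx
    · linarith [hmin x hx]
    · rfl
  have hsupp : ∀ x, h' x ≠ 0 → x ∈ S := fun x hx => by
    by_contra hc
    exact hx (if_neg hc)
  have hsub : (T.filter fun x => h' x ≠ 0) ⊆ S.erase x₀ := by
    intro x hx
    have hx2 := (mem_filter.1 hx).2
    rw [mem_erase]
    refine ⟨?_, hsupp x hx2⟩
    rintro rfl
    apply hx2
    simp only [h', if_pos hx₀, sub_self]
  have hc := card_le_card hsub
  rw [card_erase_of_mem hx₀] at hc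
  have hpos : 0 < S.card := card_pos.2 hE'
  have a1 := ih _ (by omega) h' h0'
    (fun x hx => by by_contra hc; exact hx (mem_filter.1 (hsupp x hc)).1) rfl
    (hH.mono fun x hx => (hmem x).1 (hsupp x hx))
  have a2 := hE S (hH.mono fun x hx => (hmem x).1 hx)
  have a2' : {e : A × C | e.1 ∈ S ∧ π e.2 e.1 ∉ S} =
      ((T ×ˢ (univ : Finset C)).filter fun e => e.1 ∈ S ∧ π e.2 e.1 ∉ S : Finset (A × C)) := by
    ext e
    simp only [Set.mem_ofPred_eq, coe_filter, mem_product, mem_univ, and_true]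
    exact ⟨fun he => ⟨(mem_filter.1 he.1).1, he⟩, fun he => he.2⟩
  rw [a2', Set.ncard_coe_finset] at a2
  have a3 : ∑ x ∈ T, h x = ∑ x ∈ T, h' x + h x₀ * S.card := by
    have : ∀ x, h x = h' x + if x ∈ S then h x₀ else 0 := fun x => by
      simp only [h']
      split_ifs with hx
      · ring
      · simp [hz x hx]
    have e : ∑ x ∈ T, (if x ∈ S then h x₀ else 0) = h x₀ * S.card := by
      rw [sum_ite_mem, inter_eq_right.2 (filter_subset _ _), sum_const, nsmul_eq_mul, mul_comm]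
    rw [sum_congr rfl fun x _ => this x, sum_add_distrib, e]
  have a4 : ∑ ε ∈ T ×ˢ (univ : Finset C), max (h' ε.1 - h' (π ε.2 ε.1)) 0 +
      h x₀ * ((T ×ˢ (univ : Finset C)).filter fun e => e.1 ∈ S ∧ π e.2 e.1 ∉ S).card ≤
      ∑ ε ∈ T ×ˢ (univ : Finset C), max (h ε.1 - h (π ε.2 ε.1)) 0 := by
    rw [card_filter, Nat.cast_sum, mul_sum, ← sum_add_distrib]
    refine sum_le_sum fun ε _ => ?_
    have b1 := h0' ε.1
    have b2 := h0' (π ε.2 ε.1)
    by_cases c1 : ε.1 ∈ S <;> by_cases c2 : π ε.2 ε.1 ∈ S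
    · simp only [h', if_pos c1, if_pos c2, c2, not_true, and_false, if_false, Nat.cast_zero,
        mul_zero, add_zero, if_true]
      exact le_of_eq (by congr 1; ring)
    · simp only [h', if_pos c1] at b1
      simp only [h', c1, c2, not_false_iff, and_self, if_true, if_false, Nat.cast_one, mul_one,
        sub_zero, hz _ c2]
      rw [max_eq_left b1]
      exact le_trans (by linarith) (le_max_left _ _)
    · simp only [h', if_pos c2] at b2
      simp only [h', c1, c2, false_and, if_true, if_false, Nat.cast_zero, mul_zero, add_zero]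
      exact max_le (le_trans (by linarith) (le_max_right _ _)) (le_max_right _ _)
    · simp only [h', c1, c2, false_and, if_false, Nat.cast_zero, mul_zero, add_zero, sub_self,
        max_self]
      exact le_max_right _ _
  have a5 : h x₀ * S.card ≤
      h x₀ * ((T ×ˢ (univ : Finset C)).filter fun e => e.1 ∈ S ∧ π e.2 e.1 ∉ S).card :=
    mul_le_mul_of_nonneg_left (by exact_mod_cast a2) hμ
  linarith

theorem sq_bound (hC : 1 ≤ Fintype.card C) {π : C → Equiv.Perm A} (hE : Expands π)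
    (T : Finset A) (f : A → ℝ) (h0 : ∀ x, 0 ≤ f x) (hT : ∀ x ∉ T, f x = 0)
    (hH : Half π {x | f x ≠ 0}) :
    ∑ x ∈ T, f x ^ 2 ≤ 4 * Fintype.card C *
      ∑ ε ∈ T ×ˢ (univ : Finset C), (f ε.1 - f (π ε.2 ε.1)) ^ 2 := by
  classical
  have hK : (1 : ℝ) ≤ Fintype.card C := by exact_mod_cast hC
  have a1 := coarea hE T _ (fun x => f x ^ 2) (fun x => sq_nonneg _)
    (fun x hx => by simp [hT x hx]) rfl
    (hH.mono fun x hx h => hx (by simp [h]))
  have a2 : ∑ ε ∈ T ×ˢ (univ : Finset C), max (f ε.1 ^ 2 - f (π ε.2 ε.1) ^ 2) 0 ≤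
      ∑ ε ∈ T ×ˢ (univ : Finset C), (f ε.1 ^ 2 / (2 * Fintype.card C) +
        2 * Fintype.card C * (f ε.1 - f (π ε.2 ε.1)) ^ 2) := by
    refine sum_le_sum fun ε _ => ?_
    have b1 := h0 ε.1
    have b2 := h0 (π ε.2 ε.1)
    set x := f ε.1
    set y := f (π ε.2 ε.1)
    set K : ℝ := (Fintype.card C : ℝ)
    refine max_le ?_ (by positivity)
    have e : x ^ 2 / (2 * K) + 2 * K * (x - y) ^ 2 - 2 * x * (x - y) =
        (x - 2 * K * (x - y)) ^ 2 / (2 * K) := by
      field_simp
      ring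
    have : 0 ≤ (x - 2 * K * (x - y)) ^ 2 / (2 * K) := by positivity
    nlinarith [sq_nonneg (x - y)]
  rw [sum_add_distrib, ← mul_sum] at a2
  have a3 : ∑ ε ∈ T ×ˢ (univ : Finset C), f ε.1 ^ 2 / (2 * Fintype.card C) =
      (∑ x ∈ T, f x ^ 2) / 2 := by
    rw [sum_div, sum_product]
    refine sum_congr rfl fun x _ => ?_
    simp only
    rw [sum_const, card_univ, nsmul_eq_mul]
    field_simp
  rw [a3] at a2
  linarith

theorem exists_median (s : Finset A) (g : A → ℝ) :
    ∃ m, 2 * (s.filter fun x => m < g x).card ≤ s.card ∧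
      2 * (s.filter fun x => g x < m).card ≤ s.card := by
  classical
  rcases s.eq_empty_or_nonempty with rfl | hs
  · exact ⟨0, by simp, by simp⟩
  obtain ⟨y, hy0, hy⟩ := s.exists_max_image g hs
  obtain ⟨x₀, hx₀, hmin⟩ := (s.filter fun x =>
      2 * (s.filter fun z => g x < g z).card ≤ s.card).exists_min_image
    g ⟨y, by
      rw [mem_filter, filter_false_of_mem (fun z hz => not_lt.2 (hy z hz))]
      exact ⟨hy0, by simp⟩⟩
  refine ⟨g x₀, (mem_filter.1 hx₀).2, ?_⟩
  rcases (s.filter fun x => g x < g x₀).eq_empty_or_nonempty with hE | hE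
  · simp [hE]
  obtain ⟨x₁, hx₁, hmax⟩ := Finset.exists_max_image _ g hE
  rw [mem_filter] at hx₁
  have a1 : ¬ 2 * (s.filter fun z => g x₁ < g z).card ≤ s.card := fun h => by
    have := hmin x₁ (mem_filter.2 ⟨hx₁.1, h⟩)
    linarith [hx₁.2]
  have a2 : Disjoint (s.filter fun z => g x₁ < g z) (s.filter fun x => g x < g x₀) := by
    rw [disjoint_filter]
    intro z hz h1 h2
    have := hmax z (mem_filter.2 ⟨hz, h2⟩)
    linarith
  have a3 := card_le_card (union_subset (filter_subset (fun z => g x₁ < g z) s)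
    (filter_subset (fun x => g x < g x₀) s))
  rw [card_union_of_disjoint a2] at a3
  omega

theorem exists_med (g : A → ℝ) (O : Set A) :
    ∃ m : ℝ, (O.Finite → 2 * (O ∩ {x | m < g x}).ncard ≤ O.ncard ∧
      2 * (O ∩ {x | g x < m}).ncard ≤ O.ncard) ∧ (m ≠ 0 → O.Finite ∧ ∃ b ∈ O, g b ≠ 0) := by
  classical
  by_cases h : O.Finite ∧ ∃ b ∈ O, g b ≠ 0
  · obtain ⟨s, rfl⟩ := h.1.exists_finset_coe
    obtain ⟨m, h1, h2⟩ := exists_median s g
    refine ⟨m, fun _ => ?_, fun _ => h⟩
    have e1 : (s : Set A) ∩ {x | m < g x} = (s.filter fun x => m < g x : Finset A) := by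
      ext x; simp
    have e2 : (s : Set A) ∩ {x | g x < m} = (s.filter fun x => g x < m : Finset A) := by
      ext x; simp
    rw [e1, e2, Set.ncard_coe_finset, Set.ncard_coe_finset, Set.ncard_coe_finset]
    exact ⟨h1, h2⟩
  · refine ⟨0, fun hO => ?_, fun h0 => absurd rfl h0⟩
    have hz : ∀ b ∈ O, g b = 0 := fun b hb => by
      by_contra hc; exact h ⟨hO, b, hb, hc⟩
    have e1 : O ∩ {x | 0 < g x} = ∅ := by
      ext x
      simp only [Set.mem_inter_iff, Set.mem_ofPred_eq, Set.mem_empty_iff_false, iff_false, not_and]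
      intro hx; rw [hz x hx]; exact lt_irrefl _
    have e2 : O ∩ {x | g x < 0} = ∅ := by
      ext x
      simp only [Set.mem_inter_iff, Set.mem_ofPred_eq, Set.mem_empty_iff_false, iff_false, not_and]
      intro hx; rw [hz x hx]; exact lt_irrefl _
    rw [e1, e2]
    simp

theorem key (a b : ℝ) : (max a 0 - max b 0) ^ 2 ≤ (a - b) ^ 2 :=
  sq_le_sq.2 (abs_max_sub_max_le_abs a b 0)

end POI

open POI in
theorem stPOI : St_POI := by
  classical
  intro C _ hC
  have hK : (1 : ℝ) ≤ Fintype.card C := by exact_mod_cast hC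
  refine ⟨1 / (8 * Fintype.card C), by positivity, fun A π hE η hη => ?_⟩
  choose med hmed hmed0 using exists_med (A := A) η
  have hfin : (⋃ b ∈ {b | η b ≠ 0 ∧ (orb π b).Finite}, orb π b).Finite :=
    Set.Finite.biUnion (η.support.finite_toSet.subset fun b hb => by simpa using hb.1)
      fun b hb => hb.2
  set T : Finset A := η.support ∪ hfin.toFinset with hT
  have hT1 : ∀ a ∉ T, η a = 0 := fun a ha => by
    by_contra hc
    exact ha (mem_union_left _ (Finsupp.mem_support_iff.2 hc))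
  have hT2 : ∀ a ∉ T, med (orb π a) = 0 := fun a ha => by
    by_contra hc
    obtain ⟨h1, b, hb, hb'⟩ := hmed0 _ hc
    refine ha (mem_union_right _ (hfin.mem_toFinset.2 ?_))
    refine Set.mem_biUnion (x := b) ⟨hb', ?_⟩ (CHE.orb_symm hb)
    rw [CHE.orb_eq hb]; exact h1
  set g : A → ℝ := fun a => η a - med (orb π a) with hg
  have hstep : ∀ a c, orb π (π c a) = orb π a := fun a c =>
    CHE.orb_eq (⟨[(c, true)], rfl⟩ : π c a ∈ orb π a)
  have hgd : ∀ a c, g a - g (π c a) = η a - η (π c a) := fun a c => by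
    simp only [hg, hstep]; ring
  have p1 := sq_bound hC hE T (fun a => max (g a) 0) (fun a => le_max_right _ _)
    (fun a ha => by simp [hg, hT1 a ha, hT2 a ha]) (fun a ha => by
      refine le_trans (Nat.mul_le_mul_left 2 (Set.ncard_le_ncard ?_
        (ha.subset Set.inter_subset_left))) (hmed _ ha).1
      rintro x ⟨hx, hx'⟩
      refine ⟨hx, ?_⟩
      by_contra hc
      apply hx'
      simp only [Set.mem_ofPred_eq, not_lt] at hc
      apply max_eq_right
      simp only [hg, CHE.orb_eq hx]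
      linarith)
  have p2 := sq_bound hC hE T (fun a => max (-g a) 0) (fun a => le_max_right _ _)
    (fun a ha => by simp [hg, hT1 a ha, hT2 a ha]) (fun a ha => by
      refine le_trans (Nat.mul_le_mul_left 2 (Set.ncard_le_ncard ?_
        (ha.subset Set.inter_subset_left))) (hmed _ ha).2
      rintro x ⟨hx, hx'⟩
      refine ⟨hx, ?_⟩
      by_contra hc
      apply hx'
      simp only [Set.mem_ofPred_eq, not_lt] at hc
      apply max_eq_right
      simp only [hg, CHE.orb_eq hx]
      linarith)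
  set E := ∑ ε ∈ T ×ˢ (univ : Finset C), (η (π ε.2 ε.1) - η ε.1) ^ 2 with hEd
  have q1 : ∑ ε ∈ T ×ˢ (univ : Finset C), (max (g ε.1) 0 - max (g (π ε.2 ε.1)) 0) ^ 2 ≤ E :=
    sum_le_sum fun ε _ => (key _ _).trans (le_of_eq (by rw [hgd]; ring))
  have q2 : ∑ ε ∈ T ×ˢ (univ : Finset C), (max (-g ε.1) 0 - max (-g (π ε.2 ε.1)) 0) ^ 2 ≤ E :=
    sum_le_sum fun ε _ => (key _ _).trans (le_of_eq (by
      have := hgd ε.1 ε.2
      have e : -g ε.1 - -g (π ε.2 ε.1) = η (π ε.2 ε.1) - η ε.1 := by linarith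
      rw [e]))
  have q3 : ∑ a ∈ T, g a ^ 2 = ∑ a ∈ T, max (g a) 0 ^ 2 + ∑ a ∈ T, max (-g a) 0 ^ 2 := by
    rw [← sum_add_distrib]
    refine sum_congr rfl fun a _ => ?_
    rcases le_total (g a) 0 with h | h
    · rw [max_eq_right h, max_eq_left (by linarith)]; ring
    · rw [max_eq_left h, max_eq_right (by linarith)]; ring
  have q4 : ∑ a ∈ T, η a * med (orb π a) = 0 := by
    rw [← sum_fiberwise_of_maps_to (s := T) (t := T.image (orb π)) (g := orb π)
      (fun a ha => mem_image_of_mem _ ha)]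
    refine sum_eq_zero fun O hO => ?_
    obtain ⟨a0, -, rfl⟩ := mem_image.1 hO
    rw [sum_congr rfl (g := fun a => η a * med (orb π a0))
      fun a ha => by rw [(mem_filter.1 ha).2], ← sum_mul]
    by_cases h0 : med (orb π a0) = 0
    · rw [h0, mul_zero]
    have h1 := hη a0 (hmed0 _ h0).1
    rw [finsum_mem_eq_sum_of_inter_support_eq (t := T.filter fun a => orb π a = orb π a0)] at h1
    · rw [h1, zero_mul]
    ext x
    simp only [Set.mem_inter_iff, Function.mem_support, coe_filter, Set.mem_ofPred_eq]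
    constructor
    · rintro ⟨hx, hx'⟩
      exact ⟨⟨by by_contra hc; exact hx' (hT1 x hc), CHE.orb_eq hx⟩, hx'⟩
    · rintro ⟨⟨-, hx⟩, hx'⟩
      exact ⟨hx ▸ CHE.self_mem_orb π x, hx'⟩
  have q5 : ∑ a ∈ T, η a ^ 2 ≤ ∑ a ∈ T, g a ^ 2 := by
    have : ∑ a ∈ T, η a ^ 2 - 2 * ∑ a ∈ T, η a * med (orb π a) ≤ ∑ a ∈ T, g a ^ 2 := by
      rw [mul_sum, ← sum_sub_distrib]
      refine sum_le_sum fun a _ => ?_
      simp only [hg]
      nlinarith [sq_nonneg (med (orb π a))]
    linarith
  have q6 : E ≤ ∑ c : C, ∑ᶠ a, (η (π c a) - η a) ^ 2 := by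
    rw [hEd, sum_product_right]
    refine sum_le_sum fun c _ => ?_
    refine CHE.sum_le_Nq (η := fun a => η (π c a) - η a) ?_ T
    refine ⟨T ∪ T.image (π c).symm, fun a ha => ?_⟩
    rw [mem_union, not_or] at ha
    show η (π c a) - η a = 0
    rw [hT1 a ha.1, hT1 (π c a) fun h => ha.2 (mem_image.2 ⟨_, h, by simp⟩), sub_self]
  rw [CHE.fs (t := T) (fun a => η a ^ 2) fun a ha => by simp [hT1 a ha]]
  have r1 := mul_le_mul_of_nonneg_left q1 (show (0 : ℝ) ≤ 4 * Fintype.card C by positivity)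
  have r2 := mul_le_mul_of_nonneg_left q2 (show (0 : ℝ) ≤ 4 * Fintype.card C by positivity)
  refine le_trans ?_ q6
  rw [one_div, inv_mul_le_iff₀ (by positivity)]
  linarith

end Pool.Agent.Lib.IT
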