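import Pool.Agent.Lib.IT.CHE

/-! Block POI: the Poincare inequality from expansion. -/

namespace Pool.Agent.Lib.IT

open Finset

namespace POI2

variable {C A : Type} [Fintype C] {π : C → Equiv.Perm A}

/-- the set holds at most half of each finite orbit -/
def Half (π : C → Equiv.Perm A) (B : Finset A) : Prop :=
  ∀ a, (orb π a).Finite → 2 * (orb π a ∩ B).ncard ≤ (orb π a).ncard

omit [Fintype C] in
theorem Half.mono {B B' : Finset A} (h : Half π B) (h' : B' ⊆ B) : Half π B' := fun a ha =>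
  (Nat.mul_le_mul_left 2 (Set.ncard_le_ncard (Set.inter_subset_inter_right _ h')
    (ha.subset Set.inter_subset_left))).trans (h a ha)

open scoped Classical in
theorem bdry (hE : Expands π) {B : Finset A} (h : Half π B) :
    (B.card : ℝ) ≤ ∑ c, ∑ a ∈ B, if π c a ∈ B then 0 else 1 := by
  have h1 := hE B h
  have h2 : {e : A × C | e.1 ∈ B ∧ π e.2 e.1 ∉ B} =
      ((B ×ˢ (univ : Finset C)).filter fun e => π e.2 e.1 ∉ B : Finset (A × C)) := by
    ext e; simp
  rw [h2, Set.ncard_coe_finset, card_filter, sum_product_right] at h1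
  refine (Nat.cast_le.2 h1).trans_eq ?_
  push_cast
  refine sum_congr rfl fun c _ => sum_congr rfl fun a _ => ?_
  split_ifs <;> simp_all

theorem coarea (hE : Expands π) (B : Finset A) (h : Half π B) (g : A → ℝ) (h0 : ∀ a, 0 ≤ g a)
    (h1 : ∀ a ∉ B, g a = 0) : ∑ a ∈ B, g a ≤ ∑ c, ∑ a ∈ B, max (g a - g (π c a)) 0 := by
  classical
  induction B using Finset.strongInduction generalizing g with
  | H B ih =>
    rcases B.eq_empty_or_nonempty with rfl | hne
    · simp
    obtain ⟨b, hb, hm⟩ := B.exists_min_image g hne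
    let g' : A → ℝ := fun a => if a ∈ B then g a - g b else 0
    have k0 : ∀ a, 0 ≤ g' a := fun a => by
      simp only [g']
      split_ifs with ha
      · linarith [hm a ha]
      · rfl
    have k1 := ih (B.erase b) (erase_ssubset hb) (h.mono (erase_subset _ _)) g' k0 fun a ha => by
      by_cases hab : a = b
      · simp [g', hab]
      · have : a ∉ B := fun h2 => ha (mem_erase.2 ⟨hab, h2⟩)
        simp [g', this]
    have k2 : ∑ a ∈ B.erase b, g' a = ∑ a ∈ B, g a - B.card * g b := by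
      rw [sum_erase _ (by simp [g']), sum_congr rfl fun a ha => if_pos ha, sum_sub_distrib]
      simp
    have k3 : ∀ c, ∑ a ∈ B.erase b, max (g' a - g' (π c a)) 0 +
        g b * ∑ a ∈ B, (if π c a ∈ B then 0 else 1) ≤ ∑ a ∈ B, max (g a - g (π c a)) 0 := by
      intro c
      refine (add_le_add_left (sum_le_sum_of_subset_of_nonneg (erase_subset b B)
        fun _ _ _ => le_max_right _ _) _).trans ?_
      rw [mul_sum, ← sum_add_distrib]
      refine sum_le_sum fun a ha => ?_
      simp only [g', if_pos ha]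
      split_ifs with h2
      · simp
      · rw [h1 _ h2, sub_zero, sub_zero, max_eq_left (by linarith [hm a ha]), max_eq_left (h0 a)]
        linarith
    have k4 := sum_le_sum fun c (_ : c ∈ univ) => k3 c
    rw [sum_add_distrib, ← mul_sum] at k4
    nlinarith [mul_le_mul_of_nonneg_left (bdry hE h) (h0 b)]

theorem sq_le (hC : 1 ≤ Fintype.card C) (hE : Expands π) (B : Finset A) (h : Half π B) (f : A → ℝ)
    (h0 : ∀ a, 0 ≤ f a) (h1 : ∀ a ∉ B, f a = 0) :
    ∑ a ∈ B, f a ^ 2 ≤ 4 * Fintype.card C * ∑ c, ∑ a ∈ B, (f (π c a) - f a) ^ 2 := by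
  have hK : (1 : ℝ) ≤ Fintype.card C := by exact_mod_cast hC
  have k1 := coarea hE B h (fun a => f a ^ 2) (fun _ => sq_nonneg _) fun a ha => by simp [h1 a ha]
  have k2 : ∀ c a, 2 * Fintype.card C * max (f a ^ 2 - f (π c a) ^ 2) 0 ≤
      4 * (Fintype.card C : ℝ) ^ 2 * (f (π c a) - f a) ^ 2 + f a ^ 2 := fun c a => by
    rcases le_total (f a) (f (π c a)) with h2 | h2
    · rw [max_eq_right (by nlinarith [h0 a]), mul_zero]; positivity
    · rw [max_eq_left (by nlinarith [h0 (π c a)])]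
      nlinarith [sq_nonneg (2 * Fintype.card C * (f a - f (π c a)) - f a), h0 (π c a),
        mul_nonneg (sub_nonneg.2 h2) (sub_nonneg.2 h2)]
  have k3 := sum_le_sum fun c (_ : c ∈ univ) => sum_le_sum fun a (_ : a ∈ B) => k2 c a
  simp only [sum_add_distrib, ← mul_sum, sum_const, card_univ, nsmul_eq_mul] at k3
  refine le_of_mul_le_mul_left ?_ (by linarith : (0 : ℝ) < Fintype.card C)
  nlinarith

open scoped Classical in
theorem median (O : Finset A) (hne : O.Nonempty) (η : A → ℝ) : ∃ μ : ℝ,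
    2 * (O.filter fun b => μ < η b).card ≤ O.card ∧ 2 * (O.filter fun b => η b < μ).card ≤ O.card := by
  obtain ⟨t, ht, ht'⟩ := O.exists_max_image η hne
  obtain ⟨b, hb, hb'⟩ := (O.filter fun b => 2 * (O.filter fun b' => η b < η b').card ≤ O.card
    ).exists_min_image η ⟨t, mem_filter.2 ⟨ht, by
      rw [filter_eq_empty_iff.2 fun b hb => not_lt.2 (ht' b hb)]; simp⟩⟩
  refine ⟨η b, (mem_filter.1 hb).2, le_of_not_gt fun h => ?_⟩
  obtain ⟨d, hd, hd'⟩ := (O.filter fun b' => η b' < η b).exists_max_image η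
    (card_pos.1 (by omega))
  refine (mem_filter.1 hd).2.not_ge (hb' d (mem_filter.2 ⟨(mem_filter.1 hd).1, ?_⟩))
  have h1 := card_filter_add_card_filter_not (s := O) fun b' => η b' < η b
  have h2 : (O.filter fun b' => η d < η b').card ≤ (O.filter fun b' => ¬ η b' < η b).card :=
    card_le_card fun x hx => mem_filter.2 ⟨(mem_filter.1 hx).1, fun h3 =>
      (mem_filter.1 hx).2.not_ge (hd' x (mem_filter.2 ⟨(mem_filter.1 hx).1, h3⟩))⟩
  omega

theorem median' (O : Set A) (η : A → ℝ) : ∃ μ : ℝ, (O.Finite →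
    2 * (O ∩ {b | μ < η b}).ncard ≤ O.ncard ∧ 2 * (O ∩ {b | η b < μ}).ncard ≤ O.ncard) ∧
    (μ ≠ 0 → O.Finite ∧ ∃ b ∈ O, η b ≠ 0) := by
  classical
  by_cases h : O.Finite ∧ ∃ b ∈ O, η b ≠ 0
  · obtain ⟨h1, b, hb, h2⟩ := id h
    lift O to Finset A using h1
    obtain ⟨μ, h3, h4⟩ := median O ⟨b, hb⟩ η
    refine ⟨μ, fun _ => ?_, fun _ => h⟩
    have e : ∀ p : A → Prop, ((O : Set A) ∩ {b | p b}).ncard = (O.filter p).card := fun p => by
      rw [← Set.ncard_coe_finset, coe_filter]; rfl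
    rw [e, e, Set.ncard_coe_finset]
    exact ⟨by convert h3, by convert h4⟩
  · refine ⟨0, fun h1 => ?_, fun h0 => absurd rfl h0⟩
    have h2 : ∀ b ∈ O, η b = 0 := fun b hb => of_not_not fun h3 => h ⟨h1, b, hb, h3⟩
    rw [Set.eq_empty_of_forall_notMem (s := O ∩ _) fun b hb => hb.2.ne' (h2 b hb.1),
      Set.eq_empty_of_forall_notMem (s := O ∩ _) fun b hb => hb.2.ne (h2 b hb.1)]
    simp

end POI2

open POI2 CHE in
theorem stPOI2 : St_POI := by
  intro C _ hC
  classical
  have hK : (1 : ℝ) ≤ Fintype.card C := by exact_mod_cast hC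
  refine ⟨1 / (4 * Fintype.card C), by positivity, fun A π hE η h0 => ?_⟩
  choose m h1 h2 using fun O : Set A => median' O η
  have hf : ((η.support : Set A) ∪ ⋃ b ∈ {b ∈ (η.support : Set A) | (orb π b).Finite},
      orb π b).Finite := η.support.finite_toSet.union
    ((η.support.finite_toSet.subset (Set.sep_subset _ _)).biUnion fun b hb => hb.2)
  have hm : ∀ a, m (orb π a) ≠ 0 → ∀ b ∈ orb π a, b ∈ hf.toFinset := fun a ha b hb => by
    obtain ⟨h3, d, h4, h5⟩ := h2 _ ha
    rw [← orb_eq h4] at h3 hb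
    exact hf.mem_toFinset.2 (Or.inr (Set.mem_biUnion ⟨Finsupp.mem_support_iff.2 h5, h3⟩ hb))
  have hη : ∀ a ∉ hf.toFinset, η a = 0 := fun a ha => of_not_not fun h =>
    ha (hf.mem_toFinset.2 (Or.inl (Finsupp.mem_support_iff.2 h)))
  generalize hf.toFinset = S at hm hη
  set u : A → ℝ := fun a => η a - m (orb π a) with hu
  have hu0 : ∀ a ∉ S, u a = 0 := fun a ha => by
    have : m (orb π a) = 0 := of_not_not fun h => ha (hm a h a (self_mem_orb π a))
    simp [hu, hη a ha, this]
  have hs : ∀ c a, u (π c a) - u a = η (π c a) - η a := fun c a => by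
    have : orb π (π c a) = orb π a := orb_eq ⟨[(c, true)], rfl⟩
    simp [hu, this]
  have key : ∀ f : A → ℝ, (∀ a, 0 ≤ f a) → (∀ a ∉ S, f a = 0) →
      (∀ a, (orb π a).Finite → 2 * (orb π a ∩ {b | f b ≠ 0}).ncard ≤ (orb π a).ncard) →
      ∑ a ∈ S, f a ^ 2 ≤ 4 * Fintype.card C * ∑ c, ∑ a ∈ S, (f (π c a) - f a) ^ 2 := by
    intro f k0 k1 k2
    have k3 := sq_le hC hE (S.filter fun a => f a ≠ 0) (fun a ha => by
      refine le_trans (Nat.mul_le_mul_left 2 (Set.ncard_le_ncard ?_
        (ha.subset Set.inter_subset_left))) (k2 a ha)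
      exact fun b hb => ⟨hb.1, (mem_filter.1 hb.2).2⟩) f k0 fun a ha => of_not_not fun h =>
        ha (mem_filter.2 ⟨of_not_not fun h' => h (k1 a h'), h⟩)
    rw [sum_filter_of_ne (p := fun a => f a ≠ 0) (f := fun a => f a ^ 2)
      fun a _ h h' => h (by simp [h'])] at k3
    refine k3.trans (mul_le_mul_of_nonneg_left (sum_le_sum fun c _ =>
      sum_le_sum_of_subset_of_nonneg (filter_subset _ _) fun _ _ _ => sq_nonneg _) (by positivity))
  have p1 := key (fun a => max (u a) 0) (fun _ => le_max_right _ _) (fun a ha => by simp [hu0 a ha])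
    fun a ha => by
      convert (h1 _ ha).1 using 3
      ext b
      refine and_congr_right fun hb => ?_
      simp [hu, orb_eq hb]
  have p2 := key (fun a => max (-u a) 0) (fun _ => le_max_right _ _)
    (fun a ha => by simp [hu0 a ha]) fun a ha => by
      convert (h1 _ ha).2 using 3
      ext b
      refine and_congr_right fun hb => ?_
      simp [hu, orb_eq hb]
  have p3 : ∑ a ∈ S, u a ^ 2 ≤ 4 * Fintype.card C * ∑ c, ∑ a ∈ S, (η (π c a) - η a) ^ 2 := by
    have e : ∀ x : ℝ, x ^ 2 = max x 0 ^ 2 + max (-x) 0 ^ 2 := fun x => by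
      rcases le_total x 0 with h | h <;> simp [h]
    have e' : ∀ x y : ℝ, (max x 0 - max y 0) ^ 2 + (max (-x) 0 - max (-y) 0) ^ 2 ≤ (x - y) ^ 2 :=
      fun x y => by
        rcases le_total x 0 with h | h <;> rcases le_total y 0 with h' | h' <;> simp [h, h'] <;>
          nlinarith
    rw [sum_congr rfl fun a _ => e (u a), sum_add_distrib]
    refine (add_le_add p1 p2).trans ?_
    rw [← mul_add, ← sum_add_distrib]
    refine mul_le_mul_of_nonneg_left (sum_le_sum fun c _ => ?_) (by positivity)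
    rw [← sum_add_distrib]
    exact sum_le_sum fun a _ => hs c a ▸ e' _ _
  have p4 : ∑ a ∈ S, η a * m (orb π a) = 0 := by
    rw [← sum_fiberwise_of_maps_to (g := orb π) fun a ha => mem_image_of_mem _ ha]
    refine sum_eq_zero fun O hO => ?_
    obtain ⟨a, -, rfl⟩ := mem_image.1 hO
    rw [sum_congr rfl fun b hb => by rw [(mem_filter.1 hb).2], ← sum_mul]
    by_cases h : m (orb π a) = 0
    · rw [h, mul_zero]
    have h3 := h0 a (h2 _ h).1
    rw [finsum_mem_eq_finite_toFinset_sum _ (h2 _ h).1] at h3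
    rw [show S.filter (fun b => orb π b = orb π a) = (h2 _ h).1.toFinset from ?_, h3, zero_mul]
    ext b
    rw [mem_filter, Set.Finite.mem_toFinset]
    exact ⟨fun hb => hb.2 ▸ self_mem_orb π b, fun hb => ⟨hm a h b hb, orb_eq hb⟩⟩
  have p5 : ∑ a ∈ S, η a ^ 2 ≤ ∑ a ∈ S, u a ^ 2 := by
    have : ∀ a ∈ S, η a ^ 2 - 2 * (η a * m (orb π a)) ≤ u a ^ 2 := fun a _ => by
      simp only [hu]; nlinarith [sq_nonneg (m (orb π a))]
    have h3 := sum_le_sum this
    rwa [sum_sub_distrib, ← mul_sum, p4, mul_zero, sub_zero] at h3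
  have p6 : ∀ c, ∑ a ∈ S, (η (π c a) - η a) ^ 2 ≤ ∑ᶠ a, (η (π c a) - η a) ^ 2 := fun c => by
    rw [fs (t := S ∪ S.map (π c).symm.toEmbedding) _ fun a ha => ?_]
    · exact sum_le_sum_of_subset_of_nonneg subset_union_left fun _ _ _ => sq_nonneg _
    · rw [mem_union, not_or] at ha
      rw [hη a ha.1, hη _ fun h => ha.2 (mem_map.2 ⟨_, h, by simp⟩)]
      simp
  rw [fs (t := S) _ fun a ha => by simp [hη a ha], one_div, inv_mul_le_iff₀ (by positivity)]
  exact p5.trans (p3.trans (mul_le_mul_of_nonneg_left (sum_le_sum fun c _ => p6 c) (by positivity)))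

end Pool.Agent.Lib.IT
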