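import Pool.Agent.Lib.IT.CHE

/-! Poincare inequality from expansion. -/

namespace Pool.Agent.Lib.IT.P91

open Finset

variable {A C : Type} [Fintype C] {π : C → Equiv.Perm A}

/-- at most half of each finite orbit -/
def Sm (π : C → Equiv.Perm A) (B : Finset A) : Prop :=
  ∀ a, (orb π a).Finite → 2 * (orb π a ∩ B).ncard ≤ (orb π a).ncard

omit [Fintype C] in
theorem Sm.mono {B B' : Finset A} (h : Sm π B) (h' : B' ⊆ B) : Sm π B' := fun a ha =>
  le_trans (Nat.mul_le_mul_left _ (Set.ncard_le_ncard (Set.inter_subset_inter_right _ h')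
    (ha.inter_of_left _))) (h a ha)

theorem coarea (hE : Expands π) (B : Finset A) (hB : Sm π B) (f : A → ℝ) (h0 : ∀ a, 0 ≤ f a)
    (h1 : ∀ a ∉ B, f a = 0) : ∑ a ∈ B, f a ≤ ∑ a ∈ B, ∑ c, max (f a - f (π c a)) 0 := by
  classical
  induction B using Finset.strongInduction generalizing f with
  | H B ih =>
    rcases B.eq_empty_or_nonempty with rfl | hne
    · simp
    obtain ⟨a0, ha0, hm⟩ := B.exists_min_image f hne
    set g : A → ℝ := fun a => if a ∈ B then f a - f a0 else 0 with hg
    have k1 := ih _ (erase_ssubset ha0) (hB.mono (erase_subset a0 B)) g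
      (fun a => by
        simp only [hg]
        split_ifs with h
        exacts [sub_nonneg.2 (hm a h), le_rfl])
      (fun a ha => by
        simp only [hg]
        split_ifs with h
        · rw [show a = a0 from by simpa [h] using ha, sub_self]
        · rfl)
    rw [sum_erase _ (by simp [hg, ha0])] at k1
    have k2 : (B.card : ℝ) ≤ ∑ a ∈ B, ∑ c, if π c a ∉ B then (1 : ℝ) else 0 := by
      have := hE B hB
      rw [show {e : A × C | e.1 ∈ B ∧ π e.2 e.1 ∉ B} =
        ((B ×ˢ univ).filter fun e : A × C => π e.2 e.1 ∉ B : Finset _) from by ext; simp,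
        Set.ncard_coe_finset, card_filter, sum_product] at this
      exact_mod_cast this
    calc ∑ a ∈ B, f a = ∑ a ∈ B, g a + f a0 * B.card := by
          rw [mul_comm, ← nsmul_eq_mul, ← sum_const, ← sum_add_distrib]
          exact sum_congr rfl fun a ha => by simp [hg, ha]
      _ ≤ ∑ a ∈ B, ∑ c, max (g a - g (π c a)) 0 +
            f a0 * ∑ a ∈ B, ∑ c, if π c a ∉ B then (1 : ℝ) else 0 :=
          add_le_add (k1.trans (sum_le_sum_of_subset_of_nonneg (erase_subset _ _)
            fun _ _ _ => sum_nonneg fun _ _ => le_max_right _ _))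
            (mul_le_mul_of_nonneg_left k2 (h0 _))
      _ = _ := by
          rw [mul_sum, ← sum_add_distrib]
          refine sum_congr rfl fun a ha => ?_
          rw [mul_sum, ← sum_add_distrib]
          refine sum_congr rfl fun c _ => ?_
          by_cases h : π c a ∈ B
          · simp [hg, ha, h]
          · simp only [hg, ha, h, if_true, if_false, not_false_eq_true, h1 _ h, sub_zero, mul_one]
            rw [max_eq_left (sub_nonneg.2 (hm a ha)), max_eq_left (h0 a), sub_add_cancel]

theorem sq_bound (hC : 1 ≤ Fintype.card C) (hE : Expands π) (B : Finset A) (hB : Sm π B)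
    (u : A → ℝ) (h1 : ∀ a ∉ B, u a = 0) :
    ∑ a ∈ B, u a ^ 2 ≤ 4 * Fintype.card C * ∑ c, ∑ a ∈ B, (u (π c a) - u a) ^ 2 := by
  classical
  set n : ℝ := ((Fintype.card C : ℕ) : ℝ) with hn
  have hn1 : 1 ≤ n := by rw [hn]; exact_mod_cast hC
  have k1 := coarea hE B hB (fun a => u a ^ 2) (fun _ => sq_nonneg _) fun a ha => by simp [h1 a ha]
  have k2 : ∀ c, ∑ a ∈ B, u (π c a) ^ 2 ≤ ∑ a ∈ B, u a ^ 2 := fun c => by
    refine (sum_map B (π c).toEmbedding fun a => u a ^ 2).ge.trans ?_
    rw [sum_subset (subset_union_left (s₁ := B) (s₂ := B.map (π c).toEmbedding)) fun a _ ha => by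
      simp [h1 a ha]]
    exact sum_le_sum_of_subset_of_nonneg subset_union_right fun _ _ _ => sq_nonneg _
  have k3 : ∀ x y : ℝ, 4 * n * max (x ^ 2 - y ^ 2) 0 ≤ 8 * n ^ 2 * (y - x) ^ 2 + (x ^ 2 + y ^ 2) :=
    fun x y => by
      rcases le_total (x ^ 2 - y ^ 2) 0 with h | h
      · rw [max_eq_right h, mul_zero]
        positivity
      · rw [max_eq_left h]
        nlinarith [sq_nonneg (4 * n * (x - y) - (x + y)), sq_nonneg (x - y)]
  rw [sum_comm] at k1
  have k4 : 4 * n * ∑ a ∈ B, u a ^ 2 ≤
      8 * n ^ 2 * ∑ c, ∑ a ∈ B, (u (π c a) - u a) ^ 2 + n * (2 * ∑ a ∈ B, u a ^ 2) := by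
    refine (mul_le_mul_of_nonneg_left k1 (by positivity)).trans ?_
    rw [hn, ← nsmul_eq_mul, ← card_univ, ← sum_const, card_univ, ← hn, mul_sum, mul_sum,
      ← sum_add_distrib]
    refine sum_le_sum fun c _ => ?_
    rw [mul_sum, mul_sum]
    refine (sum_le_sum fun a _ => k3 _ _).trans ?_
    rw [sum_add_distrib, sum_add_distrib]
    linarith [k2 c]
  refine le_of_mul_le_mul_left ?_ (show 0 < 2 * n by positivity)
  nlinarith

theorem median (O : Finset A) (h : O.Nonempty) (η : A → ℝ) : ∃ b ∈ O,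
    2 * (O.filter fun a => η b < η a).card ≤ O.card ∧
      2 * (O.filter fun a => η a < η b).card ≤ O.card := by
  classical
  obtain ⟨m, hm, hm'⟩ := O.exists_max_image η h
  obtain ⟨b, hb, hb'⟩ := (O.filter fun b => 2 * (O.filter fun a => η b < η a).card ≤ O.card
    ).exists_min_image η ⟨m, mem_filter.2 ⟨hm, by
      rw [filter_false_of_mem fun a ha => (hm' a ha).not_gt]
      simp⟩⟩
  refine ⟨b, (mem_filter.1 hb).1, (mem_filter.1 hb).2, ?_⟩
  rcases (O.filter fun a => η a < η b).eq_empty_or_nonempty with h1 | h1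
  · simp [h1]
  obtain ⟨c, hc, hc'⟩ := exists_max_image _ η h1
  have h2 : ¬2 * (O.filter fun a => η c < η a).card ≤ O.card := fun h2 =>
    (hb' c (mem_filter.2 ⟨(mem_filter.1 hc).1, h2⟩)).not_gt (mem_filter.1 hc).2
  have h3 := card_filter_add_card_filter_not (s := O) fun a => η c < η a
  have h4 : (O.filter fun a => η a < η b).card ≤ (O.filter fun a => ¬η c < η a).card :=
    card_le_card fun a ha => mem_filter.2 ⟨(mem_filter.1 ha).1, (hc' a ha).not_gt⟩
  omega

theorem stPOI3 : St_POI := by
  classical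
  intro C _ hC
  have hn : (0 : ℝ) < Fintype.card C := by exact_mod_cast hC
  refine ⟨1 / (4 * Fintype.card C), by positivity, fun A π hE η hz => ?_⟩
  have hM : ∀ O : Set A, ∃ m : ℝ, (O.Infinite → m = 0) ∧ ((∀ a ∈ O, η a = 0) → m = 0) ∧
      (O.Finite → 2 * (O ∩ {a | m < η a}).ncard ≤ O.ncard ∧
        2 * (O ∩ {a | η a < m}).ncard ≤ O.ncard) := fun O => by
    by_cases h : O.Finite
    · lift O to Finset A using h
      rcases O.eq_empty_or_nonempty with rfl | h
      · exact ⟨0, fun _ => rfl, fun _ => rfl, fun _ => by simp⟩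
      obtain ⟨b, hb, h1, h2⟩ := median O h η
      refine ⟨η b, fun h => absurd O.finite_toSet h, fun h => h b hb, fun _ => ?_⟩
      rw [← Set.ncard_coe_finset, coe_filter, ← Set.ncard_coe_finset O] at h1 h2
      exact ⟨h1, h2⟩
    · exact ⟨0, fun _ => rfl, fun _ => rfl, fun h' => absurd h' h⟩
  choose M M1 M2 M3 using hM
  have hfin : (⋃ a ∈ η.support, if (orb π a).Finite then orb π a else {a}).Finite :=
    η.support.finite_toSet.biUnion fun a _ => by
      split_ifs with h
      exacts [h, Set.finite_singleton a]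
  set s := hfin.toFinset with hs
  have s1 : η.support ⊆ s := fun a ha => hfin.mem_toFinset.2 (Set.mem_biUnion ha (by
    split_ifs
    exacts [CHE.self_mem_orb π a, rfl]))
  set ζ : A → ℝ := fun a => η a - M (orb π a) with hζ
  have s2 : ∀ a ∉ s, ζ a = 0 := fun a ha => by
    have : M (orb π a) = 0 := by
      by_cases h : (orb π a).Finite
      · refine M2 _ fun b hb => ?_
        by_contra h1
        refine ha (hfin.mem_toFinset.2 (Set.mem_biUnion (Finsupp.mem_support_iff.2 h1) ?_))
        rw [CHE.orb_eq hb, if_pos h]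
        exact CHE.self_mem_orb π a
      · exact M1 _ h
    simp [hζ, this, Finsupp.notMem_support_iff.1 fun h => ha (s1 h)]
  have s3 : ∀ c a, ζ (π c a) - ζ a = η (π c a) - η a := fun c a => by
    have : orb π (π c a) = orb π a := CHE.orb_eq ⟨[(c, true)], rfl⟩
    simp [hζ, this]
  have key : ∀ u : A → ℝ, (∀ a ∉ s, u a = 0) → (∀ a, (orb π a).Finite →
      2 * (orb π a ∩ {b | u b ≠ 0}).ncard ≤ (orb π a).ncard) →
      ∑ a ∈ s, u a ^ 2 ≤ 4 * Fintype.card C * ∑ c, ∑ a ∈ s, (u (π c a) - u a) ^ 2 :=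
    fun u h1 h2 => by
      have := sq_bound hC hE (s.filter fun a => u a ≠ 0) (fun a ha => le_trans
        (Nat.mul_le_mul_left _ (Set.ncard_le_ncard (Set.inter_subset_inter_right _ fun b hb =>
          (mem_filter.1 hb).2) (ha.inter_of_left _))) (h2 a ha)) u fun a ha => by
            by_contra h
            exact ha (mem_filter.2 ⟨by_contra fun h' => h (h1 a h'), h⟩)
      rw [sum_filter_of_ne (p := fun a => u a ≠ 0) (f := fun a => u a ^ 2)
        fun a _ h h' => h (by simp [h'])] at this
      refine this.trans (mul_le_mul_of_nonneg_left (sum_le_sum fun c _ =>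
        sum_le_sum_of_subset_of_nonneg (filter_subset _ _) fun _ _ _ => sq_nonneg _) (by positivity))
  have k1 := key (fun a => max (ζ a) 0) (fun a ha => by simp [s2 a ha]) fun a ha => by
    refine le_of_eq_of_le ?_ (M3 _ ha).1
    congr 2
    ext b
    refine and_congr_right fun hb => ?_
    simp [hζ, CHE.orb_eq hb]
  have k2 := key (fun a => min (ζ a) 0) (fun a ha => by simp [s2 a ha]) fun a ha => by
    refine le_of_eq_of_le ?_ (M3 _ ha).2
    congr 2
    ext b
    refine and_congr_right fun hb => ?_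
    simp [hζ, CHE.orb_eq hb]
  have k3 : ∑ a ∈ η.support, η a * M (orb π a) = 0 := by
    rw [← sum_fiberwise_of_maps_to (g := orb π) (t := η.support.image (orb π))
      fun a ha => mem_image_of_mem _ ha]
    refine sum_eq_zero fun O hO => ?_
    obtain ⟨a, -, rfl⟩ := mem_image.1 hO
    rw [sum_congr rfl fun b hb => by rw [(mem_filter.1 hb).2], ← sum_mul]
    by_cases h : (orb π a).Finite
    · rw [← finsum_mem_eq_sum_of_inter_support_eq (s := orb π a) η, hz a h, zero_mul]
      ext b
      simp only [Set.mem_inter_iff, Function.mem_support, coe_filter, Finsupp.mem_support_iff,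
        Set.mem_ofPred_eq]
      exact ⟨fun h => ⟨⟨h.2, CHE.orb_eq h.1⟩, h.2⟩, fun h => ⟨h.1.2 ▸ CHE.self_mem_orb π b, h.2⟩⟩
    · rw [M1 _ h, mul_zero]
  have k4 : ∑ᶠ a, η a ^ 2 ≤ ∑ a ∈ s, ζ a ^ 2 := by
    rw [finsum_eq_sum_of_support_subset (s := η.support) _ fun a ha => by simpa using ha]
    refine le_trans ?_ (sum_le_sum_of_subset_of_nonneg s1 fun _ _ _ => sq_nonneg _)
    rw [← sub_zero (∑ a ∈ η.support, η a ^ 2), ← mul_zero 2, ← k3, mul_sum, ← sum_sub_distrib]
    exact sum_le_sum fun a _ => by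
      simp only [hζ]
      nlinarith [sq_nonneg (M (orb π a))]
  have k5 : ∀ c, ∑ a ∈ s, (η (π c a) - η a) ^ 2 ≤ ∑ᶠ a, (η (π c a) - η a) ^ 2 := fun c => by
    rw [finsum_eq_sum_of_support_subset (s := s ∪ s.map (π c).symm.toEmbedding) _ fun a ha => by
      by_contra h
      simp only [coe_union, coe_map, Set.mem_union, mem_coe, not_or] at h
      have h1 : π c a ∉ s := fun h1 => h.2 ⟨_, h1, by simp⟩
      refine ha ?_
      simp [← s3, s2 a h.1, s2 _ h1]]
    exact sum_le_sum_of_subset_of_nonneg subset_union_left fun _ _ _ => sq_nonneg _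
  rw [div_mul_eq_mul_div, one_mul, div_le_iff₀' (by positivity)]
  refine k4.trans (le_trans (le_of_eq ?_) ((add_le_add k1 k2).trans ?_))
  · rw [← sum_add_distrib]
    refine sum_congr rfl fun a _ => ?_
    rcases le_total (ζ a) 0 with h | h <;> simp [h]
  · rw [← mul_add, ← sum_add_distrib]
    refine mul_le_mul_of_nonneg_left (sum_le_sum fun c _ => le_trans ?_ (k5 c)) (by positivity)
    rw [← sum_add_distrib]
    refine sum_le_sum fun a _ => ?_
    rw [← s3]
    rcases le_total (ζ a) 0 with h | h <;> rcases le_total (ζ (π c a)) 0 with h' | h' <;>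
      simp only [h, h', max_eq_left, max_eq_right, min_eq_left, min_eq_right] <;> nlinarith

end Pool.Agent.Lib.IT.P91
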