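import Pool.Agent.Lib.IT.Blue
import Pool.Agent.Lib.MP_f40e16_al.Walk

/-! Switching removes the short cycles. -/

namespace Pool.Agent.Lib.IT

open Finset
open Pool.Agent.Lib.MP_f40e16_al (iv Rd isReduced_cons' isReduced_append iv_iv iv_ne)

namespace SW6

variable {C A : Type} {π π' : C → Equiv.Perm A} {L : ℕ}

@[simp] lemma walk_nil (a : A) : walk π a [] = a := rfl
@[simp] lemma walk_cons (a : A) (l : C × Bool) (w : List (C × Bool)) :
    walk π a (l :: w) = walk π (step π a l) w := rfl
@[simp] lemma walk_append (a : A) (w w' : List (C × Bool)) :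
    walk π a (w ++ w') = walk π (walk π a w) w' := List.foldl_append ..

@[simp] lemma step_iv (a : A) (l : C × Bool) : step π (step π a l) (iv l) = a := by
  rcases l with ⟨c, b⟩; cases b <;> simp [step, iv]

lemma verts_append (a : A) (w w' : List (C × Bool)) :
    verts π a (w ++ w') = verts π a w ++ verts π (walk π a w) w' := by
  induction w generalizing a with
  | nil => rfl
  | cons l w ih => simp [verts, ih]

lemma length_verts (a : A) (w : List (C × Bool)) : (verts π a w).length = w.length := by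
  induction w generalizing a with
  | nil => rfl
  | cons l w ih => simp [verts, ih]

lemma mem_verts {a v : A} {w : List (C × Bool)} (h : v ∈ verts π a w) :
    ∃ w1 w2, w = w1 ++ w2 ∧ w2 ≠ [] ∧ walk π a w1 = v := by
  induction w generalizing a with
  | nil => simp [verts] at h
  | cons l w ih =>
    rcases List.mem_cons.1 h with rfl | h
    · exact ⟨[], l :: w, rfl, by simp, rfl⟩
    · obtain ⟨w1, w2, rfl, h1, h2⟩ := ih h
      exact ⟨l :: w1, w2, rfl, h1, h2⟩

lemma head_mem (a : A) {w : List (C × Bool)} (h : w ≠ []) : a ∈ verts π a w := by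
  cases w with
  | nil => exact absurd rfl h
  | cons l w => simp [verts]

lemma exists_loop {a : A} {w : List (C × Bool)} (h : ¬(verts π a w).Nodup) :
    ∃ w1 w2 w3, w = w1 ++ w2 ++ w3 ∧ w2 ≠ [] ∧ w3 ≠ [] ∧
      walk π (walk π a w1) w2 = walk π a w1 := by
  induction w generalizing a with
  | nil => simp [verts] at h
  | cons l w ih =>
    by_cases h1 : a ∈ verts π (step π a l) w
    · obtain ⟨w1, w2, rfl, h2, h3⟩ := mem_verts h1
      exact ⟨[], l :: w1, w2, rfl, by simp, h2, h3⟩
    · obtain ⟨w1, w2, w3, rfl, h2⟩ := ih fun h2 => h (List.nodup_cons.2 ⟨h1, h2⟩)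
      exact ⟨l :: w1, w2, w3, rfl, h2⟩

lemma girth_of_empty (h : SC π L = ∅) : Girth π L := by
  intro a w
  induction hn : w.length using Nat.strong_induction_on generalizing a w with
  | _ n ih =>
  intro h1 h2 h3
  by_contra h4
  by_cases h5 : (verts π a w).Nodup
  · exact (h ▸ (show (a, w) ∈ SC π L from ⟨h1, h2, by simp; omega, h3, h5⟩) : (a, w) ∈ (∅ : Set _))
  · obtain ⟨w1, w2, w3, rfl, h6, h7, h8⟩ := exists_loop h5
    have := List.length_pos_iff.2 h7
    simp only [List.length_append] at hn
    have := ih w2.length (by omega) _ w2 rfl (Rd.right' (Rd.left' h1)) h6 h8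
    omega

lemma rot1 {a : A} {l : C × Bool} {w : List (C × Bool)} (h : (a, l :: w) ∈ SC π L) :
    (step π a l, w ++ [l]) ∈ SC π L := by
  obtain ⟨h1, -, h2, h3, h4⟩ := h
  simp only [walk_cons, verts, List.nodup_cons] at h2 h3 h4
  obtain ⟨h5, h6⟩ := isReduced_cons'.1 h1
  refine ⟨isReduced_append.2 ⟨h5, by simp, fun m hm m' hm' e => ?_⟩, by simp, by simpa using h2,
    by simp [h3], ?_⟩
  · obtain rfl : l = m' := by simpa using hm'
    obtain ⟨w', rfl⟩ := List.getLast?_eq_some_iff.1 hm
    have h7 : walk π (step π a l) w' = step π a l := by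
      rw [← step_iv (walk π (step π a l) w') m, ← e]
      congr 1
      simpa using h3
    cases w' with
    | nil => exact h6 m rfl (by rw [e, iv_iv])
    | cons k w' =>
      have := h4.2
      rw [verts_append, h7] at this
      exact (List.nodup_append.1 this).2.2 _ (head_mem _ (by simp)) _ (head_mem _ (by simp)) rfl
  · simp only [verts_append, h3, verts]
    exact List.nodup_append.2 ⟨h4.2, by simp, fun x hx y hy e =>
      h4.1 (by rwa [e, List.mem_singleton.1 hy] at hx)⟩

lemma rot {a : A} {w w' : List (C × Bool)} (h : (a, w ++ w') ∈ SC π L) :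
    (walk π a w, w' ++ w) ∈ SC π L := by
  induction w generalizing a w' with
  | nil => simpa using h
  | cons l w ih =>
    have : (step π a l, w ++ w' ++ [l]) ∈ SC π L := rot1 h
    rw [List.append_assoc] at this
    simpa using ih this

lemma exists_ball [Fintype C] [DecidableEq A] (R : ℕ) (a : A) : ∃ B : Finset A,
    B.card ≤ (2 * Fintype.card C + 1) ^ R ∧ ∀ w, w.length ≤ R → walk π a w ∈ B := by
  induction R generalizing a with
  | zero => exact ⟨{a}, by simp, fun w hw => by simp [List.length_eq_zero_iff.1 (Nat.le_zero.1 hw)]⟩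
  | succ R ih =>
    choose B h1 h2 using ih
    refine ⟨B a ∪ univ.biUnion fun l => B (step π a l), (card_union_le _ _).trans ?_, fun w hw => ?_⟩
    · have h3 := card_biUnion_le_card_mul univ (fun l => B (step π a l)) _ fun l _ => h1 _
      have h4 := h1 a
      simp only [card_univ, Fintype.card_prod, Fintype.card_bool] at h3
      rw [pow_succ]; nlinarith
    · cases w with
      | nil => exact mem_union_left _ (h2 a [] (by simp))
      | cons l w => exact mem_union_right _ (mem_biUnion.2 ⟨l, mem_univ _, h2 _ w (by simpa using hw)⟩)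

/-- a walk either avoids the marked ports or splits at the first one -/
lemma split (N : A → C × Bool → Prop) (hN : ∀ v l, ¬N v l → step π' v l = step π v l) (a : A)
    (w : List (C × Bool)) : ∃ s t, w = s ++ t ∧ walk π' a s = walk π a s ∧
      verts π' a s = verts π a s ∧ (∀ l, s.head? = some l → ¬N a l) ∧
      (t = [] ∨ ∃ m t', t = m :: t' ∧ N (walk π a s) m) := by
  induction w generalizing a with
  | nil => exact ⟨[], [], rfl, rfl, rfl, by simp, Or.inl rfl⟩
  | cons l w ih =>
    by_cases h : N a l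
    · exact ⟨[], l :: w, rfl, rfl, rfl, by simp, Or.inr ⟨l, w, rfl, h⟩⟩
    · obtain ⟨s, t, rfl, h1, h2, -, h3⟩ := ih (step π a l)
      exact ⟨l :: s, t, rfl, by simp [hN a l h, h1], by simp [verts, hN a l h, h2],
        fun l' hl' => by obtain rfl : l = l' := by simpa using hl'
                         exact h, h3⟩

/-- the four ports of a switch -/
def NP (π : C → Equiv.Perm A) (c : C) (a v : A) (l : C × Bool) : Prop :=
  (v = a ∧ l = (c, true)) ∨ (v = π c a ∧ l = (c, false))

lemma no_new [DecidableEq A] [DecidableEq C] {c : C} {a a' : A}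
    (h1 : ∀ w, w.length ≤ L + 1 → walk π a w ≠ a') (h2 : ∀ x ∈ SC π L, a' ∉ verts π x.1 x.2)
    {y : A} {u : List (C × Bool)}
    (h : (y, u) ∈ SC (Function.update π c (π c * Equiv.swap a a')) L) :
    (y, u) ∈ SC π L ∧ ∀ l, u.head? = some l → ¬NP π c a y l := by
  set π' := Function.update π c (π c * Equiv.swap a a') with hπ'
  let N : A → C × Bool → Prop := fun v l => NP π c a v l ∨ NP π c a' v l
  have hN : ∀ v l, ¬N v l → step π' v l = step π v l := by
    rintro v ⟨d, b⟩ h
    by_cases hd : d = c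
    · subst hd
      simp only [N, NP, not_or, not_and] at h
      cases b
      · have h3 : v ≠ π d a := fun e => h.1.2 e rfl
        have h4 : v ≠ π d a' := fun e => h.2.2 e rfl
        simp only [step, hπ', Function.update_self, Bool.false_eq_true, if_false]
        rw [Equiv.symm_apply_eq, Equiv.Perm.mul_apply, Equiv.swap_apply_of_ne_of_ne
          (fun e => h3 (by simp [← e])) (fun e => h4 (by simp [← e])), Equiv.apply_symm_apply]
      · have h3 : v ≠ a := fun e => h.1.1 e rfl
        have h4 : v ≠ a' := fun e => h.2.1 e rfl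
        simp [step, hπ', Equiv.swap_apply_of_ne_of_ne h3 h4]
    · simp [step, hπ', hd]
  have s1 : ∀ v l, NP π c a v l → NP π c a' (step π' v l) (iv l) := by
    rintro v l (⟨rfl, rfl⟩ | ⟨rfl, rfl⟩)
    · exact Or.inr ⟨by simp [step, hπ'], rfl⟩
    · exact Or.inl ⟨by simp [step, hπ', Equiv.symm_apply_eq], rfl⟩
  have s2 : ∀ v l, NP π c a' v l → NP π c a (step π' v l) (iv l) := by
    rintro v l (⟨rfl, rfl⟩ | ⟨rfl, rfl⟩)
    · exact Or.inr ⟨by simp [step, hπ'], rfl⟩
    · exact Or.inl ⟨by simp [step, hπ', Equiv.symm_apply_eq], rfl⟩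
  have far : ∀ v l v' l' w, NP π c a v l → NP π c a' v' l' → w.length + 1 ≤ L →
      walk π v w ≠ v' := by
    rintro v l v' l' w (⟨rfl, -⟩ | ⟨rfl, -⟩) (⟨rfl, -⟩ | ⟨rfl, -⟩) hw e
    · exact h1 w (by omega) e
    · exact h1 (w ++ [(c, false)]) (by simp; omega) (by simp [e, step])
    · exact h1 ((c, true) :: w) (by simp; omega) (by simpa [step] using e)
    · exact h1 ((c, true) :: w ++ [(c, false)]) (by simp; omega) (by simp [e, step])
  have far' : ∀ v l v' l' w, NP π c a v l → NP π c a' v' l' → w.length + 1 ≤ L →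
      walk π v' w ≠ v := by
    intro v l v' l' w a1 a2 hw e
    refine far v l v' l' (FreeGroup.invRev w) a1 a2 (by simpa using hw) ?_
    rw [← e]
    clear e hw a2
    induction w generalizing v' with
    | nil => rfl
    | cons k w ih => simp [MP_f40e16_al.invRev_cons', ih]
  have key : ∀ y l u, (y, l :: u) ∈ SC π' L → ¬NP π c a y l := by
    intro y l u h a1
    have a2 := s1 y l a1
    obtain ⟨b1, -, b2, b3, b4⟩ := h
    simp only [walk_cons, verts, List.nodup_cons, List.length_cons] at b2 b3 b4
    obtain ⟨s, t, rfl, c1, c2, c3, c4⟩ := split N hN (step π' y l) u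
    rw [List.length_append] at b2
    rcases c4 with rfl | ⟨m, t, rfl, c4 | c4⟩
    · exact far' _ _ _ _ s a1 a2 (by omega) (by simpa [c1] using b3)
    · exact far' _ _ _ _ s c4 a2 (by omega) rfl
    have d1 := b4.2
    rw [verts_append, c1, c2, List.nodup_append] at d1
    have d2 : walk π (step π' y l) s ∉ verts π (step π' y l) s := fun e =>
      d1.2.2 _ e _ (head_mem _ (by simp)) rfl
    obtain ⟨d3, d4⟩ := isReduced_cons'.1 b1
    have d5 : m ≠ iv l := by
      rintro rfl
      cases s with
      | nil => exact d4 _ rfl rfl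
      | cons k s =>
        refine d2 ?_
        have : walk π (step π' y l) (k :: s) = step π' y l := by
          rcases c4 with ⟨e1, e2⟩ | ⟨e1, e2⟩ <;> rcases a2 with ⟨e3, e4⟩ | ⟨e3, e4⟩ <;>
            first | exact e1.trans e3.symm | simp [e2] at e4
        rw [this]
        exact head_mem _ (by simp)
    generalize step π' y l = f at *
    have d6 : step π (walk π f s) m = f ∧ iv m = iv (iv (iv m)) ∧ iv l = iv m := by
      rcases c4 with ⟨e1, e2⟩ | ⟨e1, e2⟩ <;> rcases a2 with ⟨e3, e4⟩ | ⟨e3, e4⟩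
      · exact absurd (e2.trans e4.symm) d5
      · exact ⟨by rw [e1, e2, e3]; simp [step], by simp, by rw [e4, e2]; rfl⟩
      · exact ⟨by rw [e1, e2, e3]; simp [step], by simp, by rw [e4, e2]; rfl⟩
      · exact absurd (e2.trans e4.symm) d5
    have d7 : (walk π f s, m :: s) ∈ SC π L := by
      refine ⟨isReduced_cons'.2 ⟨Rd.left' d3, fun k hk e => c3 k hk (Or.inr ?_)⟩, by simp,
        by simp at b2 ⊢; omega, by simp [d6.1], ?_⟩
      · rwa [e, ← d6.2.2]
      · simp only [verts, d6.1]
        exact List.nodup_cons.2 ⟨d2, d1.1⟩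
    refine h2 _ d7 ?_
    simp only [verts, d6.1, List.mem_cons]
    rcases c4 with ⟨e1, e2⟩ | ⟨e1, e2⟩
    · exact Or.inl e1.symm
    · rcases a2 with ⟨e3, e4⟩ | ⟨e3, e4⟩
      · cases s with
        | nil => exact Or.inl e3.symm
        | cons k s => exact Or.inr (e3 ▸ head_mem _ (by simp))
      · exact absurd (e2.trans e4.symm) d5
  have key' : ∀ y l u, (y, l :: u) ∈ SC π' L → ¬N y l := by
    rintro y l u h (a1 | a1)
    · exact key y l u h a1
    have a2 := s2 y l a1
    have b2 := h.2.2.1
    have b3 := h.2.2.2.1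
    simp only [walk_cons, List.length_cons] at b2 b3
    obtain ⟨s, t, rfl, c1, c2, c3, c4⟩ := split N hN (step π' y l) u
    rw [List.length_append] at b2
    rcases c4 with rfl | ⟨m, t, rfl, c4 | c4⟩
    · exact far _ _ _ _ s a2 a1 (by omega) (by simpa [c1] using b3)
    · have := rot (w := l :: s) h
      rw [walk_cons, c1] at this
      exact key _ _ _ this c4
    · exact far _ _ _ _ s a2 c4 (by omega) rfl
  obtain ⟨s, t, rfl, c1, c2, c3, c4⟩ := split N hN y u
  rcases c4 with rfl | ⟨m, t, rfl, c4⟩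
  · rw [List.append_nil] at h ⊢
    exact ⟨⟨h.1, h.2.1, h.2.2.1, c1 ▸ h.2.2.2.1, c2 ▸ h.2.2.2.2⟩, fun l hl e => c3 l hl (Or.inl e)⟩
  · have := rot h
    rw [c1] at this
    exact absurd c4 (key' _ _ _ this)

lemma sc_finite [Finite A] [Finite C] : (SC π L).Finite :=
  (Set.finite_univ.prod (List.finite_length_le (C × Bool) L)).subset fun _ h => ⟨trivial, h.2.2.1⟩

lemma main [Fintype C] [DecidableEq C] {n : ℕ} (j : ℕ) (π : C → Equiv.Perm (Fin n))
    (Z : Finset (Fin n)) (h1 : (SC π L).ncard ≤ j)
    (h2 : j * (L + 4) + 2 * Z.card + (2 * Fintype.card C + 1) ^ (L + 1) < n) :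
    ∃ π' : C → Equiv.Perm (Fin n), SC π' L = ∅ ∧ ∀ U, inE π' U ≤ inE π U + (U \ Z).card := by
  induction j generalizing π Z with
  | zero => exact ⟨π, (Set.ncard_eq_zero sc_finite).1 (by omega), fun U => by omega⟩
  | succ j ih =>
    rcases (SC π L).eq_empty_or_nonempty with h | ⟨⟨x, w⟩, hx⟩
    · exact ⟨π, h, fun U => by omega⟩
    obtain ⟨⟨c, b⟩, w, rfl⟩ := List.exists_cons_of_ne_nil hx.2.1
    obtain ⟨a, ha⟩ : ∃ a, NP π c a x (c, b) := by
      cases b
      · exact ⟨(π c).symm x, Or.inr ⟨by simp, rfl⟩⟩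
      · exact ⟨x, Or.inl ⟨rfl, rfl⟩⟩
    obtain ⟨B, b1, b2⟩ := exists_ball (π := π) (L + 1) a
    let V : Finset (Fin n) := (sc_finite (π := π) (L := L)).toFinset.biUnion fun x =>
      (verts π x.1 x.2).toFinset
    have b3 : V.card ≤ (j + 1) * L := by
      refine (card_biUnion_le_card_mul _ _ L fun x hx => (List.toFinset_card_le _).trans ?_).trans
        (Nat.mul_le_mul_right _ (by rwa [← Set.ncard_eq_toFinset_card _ sc_finite]))
      rw [length_verts]
      exact ((Set.Finite.mem_toFinset _).1 hx).2.2.1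
    obtain ⟨a', -, ha'⟩ := exists_mem_notMem_of_card_lt_card
      (s := B ∪ V ∪ Z ∪ Z.image (π c).symm) (t := univ) (by
        have c1 := card_union_le (B ∪ V ∪ Z) (Z.image (π c).symm)
        have c2 := card_union_le (B ∪ V) Z
        have c3 := card_union_le B V
        have c4 := card_image_le (s := Z) (f := (π c).symm)
        rw [card_univ, Fintype.card_fin]
        nlinarith)
    simp only [mem_union, not_or] at ha'
    obtain ⟨⟨⟨d1, d2⟩, d3⟩, d4⟩ := ha'
    have d5 : π c a' ∉ Z := fun h => d4 (mem_image.2 ⟨_, h, by simp⟩)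
    have d6 : ∀ x ∈ SC π L, a' ∉ verts π x.1 x.2 := fun x hx h =>
      d2 (mem_biUnion.2 ⟨x, (Set.Finite.mem_toFinset _).2 hx, List.mem_toFinset.2 h⟩)
    have d7 : a' ≠ π c a' := fun h => d6 (a', [(c, true)]) ⟨by simp, by simp,
      le_trans (by simp) hx.2.2.1, by simpa [step] using h.symm, by simp [verts]⟩ (by simp [verts])
    have e1 := fun y u => no_new (π := π) (L := L) (c := c) (a := a) (a' := a') (y := y) (u := u)
      (fun w hw e => d1 (e ▸ b2 w hw)) d6
    obtain ⟨π', e2, e3⟩ := ih (Function.update π c (π c * Equiv.swap a a'))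
      (insert a' (insert (π c a') Z)) (by
        have := Set.ncard_lt_ncard (Set.ssubset_iff_subset_ne.2 ⟨fun p hp => (e1 p.1 p.2 hp).1,
          fun e => (e1 _ _ (e ▸ hx)).2 _ rfl ha⟩) (sc_finite (π := π) (L := L))
        omega) (by
        have := card_insert_le a' (insert (π c a') Z)
        have := card_insert_le (π c a') Z
        nlinarith)
    refine ⟨π', e2, fun U => (e3 U).trans ?_⟩
    have f1 : (U \ insert a' (insert (π c a') Z)).card + (U ∩ {a', π c a'}).card ≤ (U \ Z).card := by
      rw [← card_union_of_disjoint (by simp +contextual [disjoint_left])]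
      refine card_le_card fun v hv => ?_
      simp only [mem_union, mem_sdiff, mem_insert, mem_inter, mem_singleton, not_or] at hv ⊢
      rcases hv with h | ⟨h, rfl | rfl⟩
      exacts [⟨h.1, h.2.2.2⟩, ⟨h, d3⟩, ⟨h, d5⟩]
    have f2 : inE (Function.update π c (π c * Equiv.swap a a')) U ≤
        inE π U + (U ∩ {a', π c a'}).card := by
      refine le_trans (card_le_card (t := ((U ×ˢ (univ : Finset C)).filter fun e => π e.2 e.1 ∈ U) ∪
        (U ∩ {a', π c a'}).image fun v => (if v = a' then a' else a, c)) ?_)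
        ((card_union_le _ _).trans (Nat.add_le_add_left card_image_le _))
      rintro ⟨v, d⟩ hv
      simp only [mem_filter, mem_product, mem_univ, and_true, mem_union, mem_image, mem_inter,
        mem_insert, mem_singleton] at hv ⊢
      by_cases hd : d = c
      · subst hd
        by_cases h3 : v = a'
        · exact Or.inr ⟨a', ⟨h3 ▸ hv.1, Or.inl rfl⟩, by simp [h3]⟩
        by_cases h4 : v = a
        · exact Or.inr ⟨π d a', ⟨by simpa [h4] using hv.2, Or.inr rfl⟩, by simp [h4, d7.symm]⟩
        · exact Or.inl ⟨hv.1, by simpa [Equiv.swap_apply_of_ne_of_ne h4 h3] using hv.2⟩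
      · exact Or.inl ⟨hv.1, by simpa [hd] using hv.2⟩
    omega

end SW6

theorem stSW6 : St_SW := by
  intro C _ _ n L j π h1 h2
  obtain ⟨π', h3, h4⟩ := SW6.main j π ∅ h1 (by simpa using h2)
  exact ⟨π', SW6.girth_of_empty h3, fun U => by simpa using h4 U⟩

end Pool.Agent.Lib.IT
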